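import Pool.Agent.Nav.API

/-!
# NAV2-CentG : the centraliser of `G` when `O_p(Γ) = 1`
-/

namespace Pool.Agent.Nav

universe u

/-- If `Γ/G` is a `p`-group and `Γ` has no nontrivial normal `p`-subgroup then `C_Γ(G) ≤ G`.
Proof: `C = C_Γ(G)` is normal in `Γ`; `C ⊓ G = Z(G)` is central in `C` and `C / (C ⊓ G)` embeds in
`Γ/G`, a `p`-group, so `C` modulo a central subgroup is nilpotent, `C` is nilpotent, its Sylow
`p`-subgroup is characteristic in `C`, so normal in `Γ`, so trivial; hence `C` has order prime to `p`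
and `C / (C ⊓ G)`, a `p`-group, is trivial. -/
theorem cent_le (p : ℕ) [Fact p.Prime] {Γ : Type u} [Group Γ] [Finite Γ] (G : Subgroup Γ)
    [G.Normal] (hp : IsPGroup p (Γ ⧸ G))
    (hO : ∀ Z : Subgroup Γ, Z.Normal → IsPGroup p Z → Z = ⊥) :
    Subgroup.centralizer (G : Set Γ) ≤ G := by
  classical
  set C : Subgroup Γ := Subgroup.centralizer (G : Set Γ) with hC
  have hCn : C.Normal := by rw [hC]; infer_instance
  let f : C →* Γ ⧸ G := (QuotientGroup.mk' G).comp C.subtype
  have hker : f.ker ≤ Subgroup.center C := by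
    intro c hc
    rw [MonoidHom.mem_ker] at hc
    have hcG : (c : Γ) ∈ G := by
      have : ((c : Γ) : Γ ⧸ G) = 1 := hc
      exact (QuotientGroup.eq_one_iff _).1 this
    rw [Subgroup.mem_center_iff]
    intro d
    apply Subtype.ext
    have hd : (d : Γ) ∈ Subgroup.centralizer (G : Set Γ) := d.2
    exact ((Subgroup.mem_centralizer_iff.1 hd) c hcG).symm
  have hnq : Group.IsNilpotent (Γ ⧸ G) := hp.isNilpotent
  have hnC : Group.IsNilpotent C := Subgroup.isNilpotent_of_ker_le_center f hker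
  obtain ⟨P⟩ : Nonempty (Sylow p C) := inferInstance
  have hPn : (P : Subgroup C).Normal :=
    ((Group.isNilpotent_of_finite_tfae (G := C)).out 0 3 rfl rfl).1 hnC p inferInstance P
  have hPc : (P : Subgroup C).Characteristic := P.characteristic_of_normal hPn
  have hPm : ((P : Subgroup C).map C.subtype).Normal :=
    ConjAct.normal_of_characteristic_of_normal
  have hPb := hO _ hPm (P.isPGroup'.map C.subtype)
  have hPb' : (P : Subgroup C) = ⊥ := by
    rwa [Subgroup.map_eq_bot_iff_of_injective _ C.subtype_injective] at hPb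
  have hcop : Nat.Coprime p (Nat.card C) := by
    rw [(Fact.out : p.Prime).coprime_iff_not_dvd]
    have h1 := P.not_dvd_index
    rw [hPb', Subgroup.index_bot] at h1
    exact h1
  intro x hx
  obtain ⟨k, hk⟩ := hp (x : Γ ⧸ G)
  have h2 : (x : Γ ⧸ G) ^ (Nat.card C) = 1 := by
    have h3 : (⟨x, hx⟩ : C) ^ (Nat.card C) = 1 := pow_card_eq_one'
    have h4 := congrArg f h3
    rw [map_pow, map_one] at h4
    exact h4
  have h5 : (x : Γ ⧸ G) = 1 := by
    have hc : Nat.Coprime (p ^ k) (Nat.card C) := Nat.Coprime.pow_left k hcop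
    have h6 : orderOf (x : Γ ⧸ G) ∣ 1 := by
      rw [← hc]
      exact Nat.dvd_gcd (orderOf_dvd_of_pow_eq_one hk) (orderOf_dvd_of_pow_eq_one h2)
    exact orderOf_eq_one_iff.1 (Nat.dvd_one.1 h6)
  exact (QuotientGroup.eq_one_iff _).1 h5

end Pool.Agent.Nav
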