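import Pool.Agent.Nav.PerfA

/-!
# NAV2-PerfB : reduction to `G` without normal subgroups of index `p`
-/

namespace Pool.Agent.Nav

universe u

/-- Proof: among the normal subgroups `L` of `Γ` with `L ≤ G` and `Γ/L` a `p`-group (`G` is one) take
`L` of minimal order. If `N` is a normal subgroup of index `p` of `L`, let `C` be the intersection of
the `Γ`-conjugates of `N` (normal core of `N.map L.subtype` in `Γ`; all conjugates are normal of index
`p` in `L`); `L/C` is a `p`-group (for `x ∈ L` all `x ^ p` lie in every conjugate, so in `C`), so `C` is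
normal in `Γ` with `Γ/C` a `p`-group and `C < L`, a contradiction. -/
theorem exists_perf (p : ℕ) [Fact p.Prime] {Γ : Type u} [Group Γ] [Finite Γ] (G : Subgroup Γ)
    [G.Normal] (hp : IsPGroup p (Γ ⧸ G)) :
    ∃ (L : Subgroup Γ) (_ : L.Normal), L ≤ G ∧ IsPGroup p (Γ ⧸ L) ∧
      ∀ N : Subgroup L, N.Normal → N.index ≠ p := by
  classical
  -- the set of candidates, in an elementary form
  let P : Subgroup Γ → Prop := fun L =>
    L.Normal ∧ L ≤ G ∧ ∀ g : Γ, ∃ k : ℕ, g ^ p ^ k ∈ L
  have hPG : P G := by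
    refine ⟨inferInstance, le_rfl, fun g => ?_⟩
    obtain ⟨k, hk⟩ := hp (QuotientGroup.mk g)
    refine ⟨k, ?_⟩
    rw [← QuotientGroup.mk_pow] at hk
    exact (QuotientGroup.eq_one_iff _).mp hk
  obtain ⟨L, hL, hmin⟩ : ∃ L, P L ∧ ∀ M, P M → M ≤ L → M = L := by
    obtain ⟨L, hL, hm⟩ := Set.Finite.exists_minimal (Set.toFinite {L : Subgroup Γ | P L}) ⟨G, hPG⟩
    exact ⟨L, hL, fun M hM hML => le_antisymm hML (hm hM hML)⟩
  obtain ⟨hLn, hLG, hLp⟩ := hL
  refine ⟨L, hLn, hLG, ?_, ?_⟩
  · intro x
    induction x using QuotientGroup.induction_on with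
    | H g =>
      obtain ⟨k, hk⟩ := hLp g
      refine ⟨k, ?_⟩
      rw [← QuotientGroup.mk_pow]
      exact (QuotientGroup.eq_one_iff _).mpr hk
  · intro N hN hidx
    have hNL : N.map L.subtype ≤ L := by
      rintro _ ⟨y, -, rfl⟩
      exact y.2
    have hC : P (N.map L.subtype).normalCore := by
      refine ⟨inferInstance, (Subgroup.normalCore_le _).trans (hNL.trans hLG), fun g => ?_⟩
      obtain ⟨k, hk⟩ := hLp g
      refine ⟨k + 1, ?_⟩
      rw [pow_succ, pow_mul]
      intro b
      have hb : b * (g ^ p ^ k) * b⁻¹ ∈ L := hLn.conj_mem _ hk b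
      have e : b * (g ^ p ^ k) ^ p * b⁻¹ = (b * (g ^ p ^ k) * b⁻¹) ^ p := by
        rw [conj_pow]
      rw [e]
      refine ⟨(⟨_, hb⟩ : L) ^ p, ?_, by simp⟩
      have := Subgroup.pow_index_mem N (⟨_, hb⟩ : L)
      rw [hidx] at this
      exact this
    have hCL := hmin _ hC ((Subgroup.normalCore_le _).trans hNL)
    have hLN : L ≤ N.map L.subtype := by
      calc L = (N.map L.subtype).normalCore := hCL.symm
        _ ≤ _ := Subgroup.normalCore_le _
    have hNtop : N = ⊤ := by
      rw [eq_top_iff]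
      intro x _
      obtain ⟨y, hy, hyx⟩ := hLN x.2
      have : y = x := Subtype.ext hyx
      rw [← this]
      exact hy
    rw [hNtop, Subgroup.index_top] at hidx
    exact (Fact.out : p.Prime).one_lt.ne hidx

/-- Proof: take `L` from `exists_perf` and use `lift_eq`; for `H ≥ L` the hypothesis `h` applies to
`L.subgroupOf H` in `H` (`L.subgroupOf H ≃* L`, so it has no normal subgroup of index `p`). -/
theorem perf_red (p : ℕ) [Fact p.Prime]
    (h : ∀ (Γ : Type u) [Group Γ] [Finite Γ] (G : Subgroup Γ) [G.Normal], IsPGroup p (Γ ⧸ G) →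
      (∀ N : Subgroup G, N.Normal → N.index ≠ p) → creg p G = weights p G)
    (Γ : Type u) [Group Γ] [Finite Γ] (G : Subgroup Γ) [G.Normal] (hp : IsPGroup p (Γ ⧸ G)) :
    creg p G = weights p G := by
  obtain ⟨L, hLn, hLG, hLp, hLN⟩ := exists_perf p G hp
  refine lift_eq p L G hLG hLp fun H hLH => ?_
  refine h H (L.subgroupOf H) ?_ ?_
  · intro x
    induction x using QuotientGroup.induction_on with
    | H g =>
      obtain ⟨k, hk⟩ := hLp (QuotientGroup.mk (g : Γ))
      refine ⟨k, ?_⟩
      rw [← QuotientGroup.mk_pow] at hk ⊢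
      have := (QuotientGroup.eq_one_iff _).mp hk
      refine (QuotientGroup.eq_one_iff _).mpr ?_
      rw [Subgroup.mem_subgroupOf]
      simpa using this
  · intro N hN hidx
    let e : L.subgroupOf H ≃* L := Subgroup.subgroupOfEquivOfLe hLH
    refine hLN (N.map (e : L.subgroupOf H →* L)) (hN.map _ e.surjective) ?_
    rw [Subgroup.index_map_equiv]
    exact hidx

end Pool.Agent.Nav
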