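import Pool.Agent.Nav.API

/-!
# NAV-GT : complements of central subgroups of order `p` in a `p`-group
-/

namespace Pool.Agent.Nav

universe u

/-- Counting in a vector space over `ZMod p`. -/
theorem gt_vec (p : ℕ) [Fact p.Prime] (V : Type u) [AddCommGroup V] [Module (ZMod p) V] [Finite V]
    (L : Submodule (ZMod p) V) (hL : Nat.card L = p)
    (h : Nat.card {W : Submodule (ZMod p) V // L ⊔ W = ⊤ ∧ W ≠ ⊤} = p) :
    Module.finrank (ZMod p) V = 2 := by
  have hp : p.Prime := Fact.out
  have hcK : Nat.card (ZMod p) = p := Nat.card_zmod p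
  have hfL : Module.finrank (ZMod p) L = 1 := by
    have h1 := Module.natCard_eq_pow_finrank (K := ZMod p) (V := L)
    rw [hL, hcK] at h1
    have h2 : p ^ 1 = p ^ Module.finrank (ZMod p) L := by rw [pow_one]; exact h1
    exact (Nat.pow_right_injective hp.two_le h2).symm
  obtain ⟨n, hn0, hn⟩ := finrank_eq_one_iff'.1 hfL
  have hn0' : (n : V) ≠ 0 := fun h0 => hn0 (Subtype.ext h0)
  have hmem : ∀ W : Submodule (ZMod p) V, (n : V) ∈ W → L ≤ W := by
    intro W hW v hv
    obtain ⟨c, hc⟩ := hn ⟨v, hv⟩
    have : v = c • (n : V) := by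
      have := congrArg (fun x : L => (x : V)) hc
      simpa using this.symm
    rw [this]
    exact W.smul_mem c hW
  -- the bijection
  let F : {χ : Module.Dual (ZMod p) V // χ (n : V) = 1} →
      {W : Submodule (ZMod p) V // L ⊔ W = ⊤ ∧ W ≠ ⊤} := fun χ =>
    ⟨LinearMap.ker χ.1, by
      constructor
      · rw [eq_top_iff]
        intro v _
        have : v = χ.1 v • (n : V) + (v - χ.1 v • (n : V)) := by abel
        rw [this]
        refine Submodule.add_mem_sup (L.smul_mem _ n.2) ?_
        rw [LinearMap.mem_ker, map_sub, map_smul, χ.2]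
        simp
      · intro ht
        have : (n : V) ∈ LinearMap.ker χ.1 := by rw [ht]; trivial
        rw [LinearMap.mem_ker, χ.2] at this
        exact one_ne_zero this⟩
  have hF : Function.Bijective F := by
    constructor
    · rintro ⟨χ, hχ⟩ ⟨χ', hχ'⟩ he
      have he' : LinearMap.ker χ = LinearMap.ker χ' := congrArg Subtype.val he
      apply Subtype.ext
      ext v
      have h1 : v - χ v • (n : V) ∈ LinearMap.ker χ' := by
        rw [← he', LinearMap.mem_ker, map_sub, map_smul, hχ]
        simp
      rw [LinearMap.mem_ker, map_sub, map_smul, hχ', smul_eq_mul, mul_one, sub_eq_zero] at h1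
      exact h1.symm
    · rintro ⟨W, hW1, hW2⟩
      have hnW : (n : V) ∉ W := by
        intro hc
        apply hW2
        rw [← hW1, sup_eq_right.2 (hmem W hc)]
      obtain ⟨f, hf1, hf2⟩ := Submodule.exists_le_ker_of_notMem hnW
      refine ⟨⟨(f (n : V))⁻¹ • f, ?_⟩, ?_⟩
      · simp [hf1]
      · apply Subtype.ext
        change LinearMap.ker ((f (n : V))⁻¹ • f) = W
        apply le_antisymm
        · intro v hv
          have hfv : f v = 0 := by
            rw [LinearMap.mem_ker, LinearMap.smul_apply, smul_eq_mul] at hv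
            rcases mul_eq_zero.1 hv with h0 | h0
            · exact absurd h0 (inv_ne_zero hf1)
            · exact h0
          have hvt : v ∈ L ⊔ W := by rw [hW1]; trivial
          obtain ⟨l, hl, w, hw, rfl⟩ := Submodule.mem_sup.1 hvt
          obtain ⟨c, hc⟩ := hn ⟨l, hl⟩
          have hlc : l = c • (n : V) := by
            have := congrArg (fun x : L => (x : V)) hc
            simpa using this.symm
          have hfw : f w = 0 := LinearMap.mem_ker.1 (hf2 hw)
          rw [map_add, hfw, add_zero, hlc, map_smul, smul_eq_mul] at hfv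
          rcases mul_eq_zero.1 hfv with h0 | h0
          · rw [hlc, h0, zero_smul, zero_add]; exact hw
          · exact absurd h0 hf1
        · intro v hv
          have := LinearMap.mem_ker.1 (hf2 hv)
          rw [LinearMap.mem_ker, LinearMap.smul_apply, this, smul_zero]
  have hc1 : Nat.card {χ : Module.Dual (ZMod p) V // χ (n : V) = 1} = p := by
    exact (Nat.card_eq_of_bijective F hF).trans h
  have hne : Nonempty {χ : Module.Dual (ZMod p) V // χ (n : V) = 1} := by
    have : 0 < Nat.card {χ : Module.Dual (ZMod p) V // χ (n : V) = 1} := by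
      rw [hc1]; exact hp.pos
    exact (Nat.card_pos_iff.1 this).1
  obtain ⟨χ₀, hχ₀⟩ := hne
  let E : Module.Dual (ZMod p) V ≃ ZMod p × {χ : Module.Dual (ZMod p) V // χ (n : V) = 1} :=
    { toFun := fun χ => (χ (n : V), ⟨χ - (χ (n : V) - 1) • χ₀, by simp [hχ₀]⟩)
      invFun := fun x => x.2.1 + (x.1 - 1) • χ₀
      left_inv := fun χ => by simp
      right_inv := by
        rintro ⟨a, ⟨χ, hχ⟩⟩
        apply Prod.ext
        · simp [hχ, hχ₀]
        · apply Subtype.ext
          simp [hχ, hχ₀] }
  have hcD : Nat.card (Module.Dual (ZMod p) V) = p ^ 2 := by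
    rw [Nat.card_congr E, Nat.card_prod, hcK, hc1, sq]
  have hfD : Module.finrank (ZMod p) (Module.Dual (ZMod p) V) = 2 := by
    have h1 := Module.natCard_eq_pow_finrank (K := ZMod p) (V := Module.Dual (ZMod p) V)
    rw [hcD, hcK] at h1
    exact (Nat.pow_right_injective hp.two_le h1).symm
  rw [← Subspace.dual_finrank_eq]
  exact hfD

/-- The commutative exponent `p` case. -/
theorem gt_comm (p : ℕ) [Fact p.Prime] (P : Type u) [CommGroup P] [Finite P]
    (iM : Module (ZMod p) (Additive P)) (N : Subgroup P) (hN : Nat.card N = p)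
    (h : Nat.card {M : Subgroup P // N ⊔ M = ⊤ ∧ M ≠ ⊤} = p) :
    Nonempty (P ≃* Multiplicative (ZMod p × ZMod p)) := by
  let e : Subgroup P ≃o Submodule (ZMod p) (Additive P) :=
    (Subgroup.toAddSubgroup (G := P)).trans (AddSubgroup.toZModSubmodule (M := Additive P) p)
  have hcL : Nat.card (e N) = p := by
    refine Eq.trans (Nat.card_congr ?_) hN
    exact
      { toFun := fun x => ⟨Additive.toMul x.1, x.2⟩
        invFun := fun x => ⟨Additive.ofMul x.1, x.2⟩
        left_inv := fun x => rfl
        right_inv := fun x => rfl }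
  have hcW : Nat.card {W : Submodule (ZMod p) (Additive P) // e N ⊔ W = ⊤ ∧ W ≠ ⊤} = p := by
    refine Eq.trans (Nat.card_congr (Equiv.subtypeEquiv e.toEquiv ?_)).symm h
    intro M
    have h1 : e N ⊔ e M = e (N ⊔ M) := (map_sup e N M).symm
    constructor
    · rintro ⟨ha, hb⟩
      refine ⟨?_, ?_⟩
      · change e N ⊔ e M = ⊤
        rw [h1, ha]; exact map_top e
      · intro hc
        apply hb
        apply e.injective
        rw [map_top e]; exact hc
    · rintro ⟨ha, hb⟩
      refine ⟨?_, ?_⟩
      · apply e.injective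
        rw [map_top e, ← h1]; exact ha
      · intro hc
        apply hb
        change e M = ⊤
        rw [hc]; exact map_top e
  have hfr := gt_vec p (Additive P) (e N) hcL hcW
  have hfr2 : Module.finrank (ZMod p) (ZMod p × ZMod p) = 2 := by
    simp
  have E : Additive P ≃ₗ[ZMod p] (ZMod p × ZMod p) :=
    LinearEquiv.ofFinrankEq _ _ (hfr.trans hfr2.symm)
  exact ⟨AddEquiv.toMultiplicativeRight E.toAddEquiv⟩

/-- A nontrivial normal subgroup of a finite `p`-group contains a nontrivial central element. -/
theorem exists_central (p : ℕ) [Fact p.Prime] (P : Type u) [Group P] [Finite P]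
    (hP : IsPGroup p P) (Φ : Subgroup P) [Φ.Normal] (hΦ : Φ ≠ ⊥) :
    Φ ⊓ Subgroup.center P ≠ ⊥ := by
  let _ : MulAction P Φ := MulAction.compHom Φ (MulAut.conjNormal (H := Φ))
  have hsm : ∀ (g : P) (x : Φ), ((g • x : Φ) : P) = g * x * g⁻¹ := fun g x => rfl
  have hcard : p ∣ Nat.card Φ := by
    have : Nontrivial Φ := (Subgroup.nontrivial_iff_ne_bot Φ).2 hΦ
    obtain ⟨n, hn⟩ := IsPGroup.iff_card.1 (hP.to_subgroup Φ)
    have hn0 : n ≠ 0 := by
      rintro rfl
      rw [pow_zero] at hn
      have := Finite.one_lt_card (α := Φ)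
      omega
    rw [hn]
    exact dvd_pow_self p hn0
  have h1 : (1 : Φ) ∈ MulAction.fixedPoints P Φ := by
    intro g
    apply Subtype.ext
    rw [hsm]; simp
  obtain ⟨b, hb, hb1⟩ := hP.exists_fixed_point_of_prime_dvd_card_of_fixed_point Φ hcard h1
  intro hbot
  have : (b : P) ∈ Φ ⊓ Subgroup.center P := by
    refine ⟨b.2, ?_⟩
    change (b : P) ∈ Subgroup.center P
    rw [Subgroup.mem_center_iff]
    intro g
    have := congrArg (fun x : Φ => (x : P)) (hb g)
    simp only [hsm] at this
    rw [mul_inv_eq_iff_eq_mul] at this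
    exact this
  rw [hbot, Subgroup.mem_bot] at this
  exact hb1 (Subtype.ext this.symm)

/-- Commutators and `p`-th powers lie in the maximal subgroups of a finite `p`-group. -/
theorem coatom_quot (p : ℕ) [Fact p.Prime] (P : Type u) [Group P] [Finite P]
    (hP : IsPGroup p P) (K : Subgroup P) (hK : IsCoatom K) :
    (∀ a b : P, (b * a)⁻¹ * (a * b) ∈ K) ∧ ∀ x : P, x ^ p ∈ K := by
  have : Group.IsNilpotent P := hP.isNilpotent
  have hKn : K.Normal :=
    Subgroup.NormalizerCondition.normal_of_coatom K Group.normalizerCondition_of_isNilpotent hK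
  have hQ : IsPGroup p (P ⧸ K) := hP.to_quotient K
  obtain ⟨x₀, hx₀⟩ : ∃ x, x ∉ K := by
    by_contra hcon
    push Not at hcon
    exact hK.1 (eq_top_iff.2 fun x _ => hcon x)
  have : Nontrivial (P ⧸ K) := by
    refine ⟨⟨(x₀ : P ⧸ K), 1, ?_⟩⟩
    intro h
    exact hx₀ ((QuotientGroup.eq_one_iff x₀).1 h)
  have hcomm : ∀ a b : P, ((a : P ⧸ K)) * b = b * a := by
    have hlt : K < (Subgroup.center (P ⧸ K)).comap (QuotientGroup.mk' K) := by
      refine lt_of_le_of_ne ?_ ?_
      · intro x hx
        rw [Subgroup.mem_comap]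
        have : QuotientGroup.mk' K x = 1 := (QuotientGroup.eq_one_iff x).2 hx
        rw [this]
        exact Subgroup.one_mem _
      · intro heq
        have hc := hQ.center_nontrivial
        obtain ⟨⟨z, hz⟩, hz1⟩ := exists_ne (1 : Subgroup.center (P ⧸ K))
        obtain ⟨y, rfl⟩ := QuotientGroup.mk_surjective z
        have : y ∈ K := by
          rw [heq, Subgroup.mem_comap]; exact hz
        apply hz1
        apply Subtype.ext
        exact (QuotientGroup.eq_one_iff y).2 this
    have htop := hK.2 _ hlt
    intro a b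
    have : a ∈ (Subgroup.center (P ⧸ K)).comap (QuotientGroup.mk' K) := by rw [htop]; trivial
    rw [Subgroup.mem_comap, Subgroup.mem_center_iff] at this
    exact (this (b : P ⧸ K)).symm
  refine ⟨?_, ?_⟩
  · intro a b
    rw [← QuotientGroup.eq]
    exact (hcomm a b).symm
  · let T : Subgroup P :=
      { carrier := {x | x ^ p ∈ K}
        one_mem' := by simp [K.one_mem]
        mul_mem' := by
          intro a b ha hb
          change (a * b) ^ p ∈ K
          rw [← QuotientGroup.eq_one_iff]
          have ha' : ((a : P ⧸ K)) ^ p = 1 := by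
            rw [← QuotientGroup.mk_pow]; exact (QuotientGroup.eq_one_iff _).2 ha
          have hb' : ((b : P ⧸ K)) ^ p = 1 := by
            rw [← QuotientGroup.mk_pow]; exact (QuotientGroup.eq_one_iff _).2 hb
          rw [QuotientGroup.mk_pow, QuotientGroup.mk_mul,
            (show Commute (a : P ⧸ K) (b : P ⧸ K) from hcomm a b).mul_pow, ha', hb', one_mul]
        inv_mem' := by
          intro a ha
          change a⁻¹ ^ p ∈ K
          rw [inv_pow]
          exact K.inv_mem ha }
    have hlt : K < T := by
      refine lt_of_le_of_ne (fun x hx => K.pow_mem hx p) ?_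
      intro heq
      have hd : p ∣ Nat.card (P ⧸ K) := by
        obtain ⟨n, hn⟩ := IsPGroup.iff_card.1 hQ
        have hn0 : n ≠ 0 := by
          rintro rfl
          rw [pow_zero] at hn
          have := Finite.one_lt_card (α := P ⧸ K)
          omega
        rw [hn]
        exact dvd_pow_self p hn0
      obtain ⟨y, hy⟩ := exists_prime_orderOf_dvd_card' p hd
      obtain ⟨x, rfl⟩ := QuotientGroup.mk_surjective y
      have hxT : x ∈ T := by
        change x ^ p ∈ K
        rw [← QuotientGroup.eq_one_iff, QuotientGroup.mk_pow, ← hy, pow_orderOf_eq_one]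
      rw [← heq, ← QuotientGroup.eq_one_iff] at hxT
      rw [hxT, orderOf_one] at hy
      exact (Fact.out : p.Prime).one_lt.ne hy
    have htop := hK.2 _ hlt
    intro x
    have : x ∈ T := by rw [htop]; trivial
    exact this

/-- Let `P` be a finite nontrivial `p`-group such that every central subgroup `N` of order `p` has
exactly `p` complements (subgroups `M ≠ P` with `N M = P`). Then `P ≅ C_p × C_p`.

Proof. (1) The Frattini subgroup is trivial: otherwise it contains a central subgroup `N` of order
`p`, which has no proper supplement. So `P` is elementary abelian.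
(2) In an elementary abelian `P` the number of `M ≠ P` with `N M = P` is `|P| / p`: view `P` as a
vector space over `ZMod p`, let `n` generate `N`; the map `χ ↦ ker χ` is a bijection from the linear
forms `χ` with `χ n = 1` to those `M`. (3) So `|P| = p ^ 2`. -/
theorem gt (p : ℕ) [Fact p.Prime] (P : Type u) [Group P] [Finite P] [Nontrivial P]
    (hP : IsPGroup p P)
    (h : ∀ N : Subgroup P, N ≤ Subgroup.center P → Nat.card N = p →
      Nat.card {M : Subgroup P // N ⊔ M = ⊤ ∧ M ≠ ⊤} = p) :
    Nonempty (P ≃* Multiplicative (ZMod p × ZMod p)) := by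
  have hp : p.Prime := Fact.out
  -- central subgroups of order `p` inside nontrivial normal subgroups
  have hex : ∀ Φ : Subgroup P, Φ.Normal → Φ ≠ ⊥ →
      ∃ N : Subgroup P, N ≤ Φ ∧ N ≤ Subgroup.center P ∧ Nat.card N = p := by
    intro Φ hΦn hΦ
    have h1 := exists_central p P hP Φ hΦ
    have : Nontrivial (Φ ⊓ Subgroup.center P : Subgroup P) :=
      (Subgroup.nontrivial_iff_ne_bot _).2 h1
    have hd : p ∣ Nat.card (Φ ⊓ Subgroup.center P : Subgroup P) := by
      obtain ⟨n, hn⟩ := IsPGroup.iff_card.1 (hP.to_subgroup (Φ ⊓ Subgroup.center P))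
      have hn0 : n ≠ 0 := by
        rintro rfl
        rw [pow_zero] at hn
        have := Finite.one_lt_card (α := (Φ ⊓ Subgroup.center P : Subgroup P))
        omega
      rw [hn]
      exact dvd_pow_self p hn0
    obtain ⟨x, hx⟩ := exists_prime_orderOf_dvd_card' p hd
    refine ⟨Subgroup.zpowers (x : P), ?_, ?_, ?_⟩
    · rw [Subgroup.zpowers_le]; exact x.2.1
    · rw [Subgroup.zpowers_le]; exact x.2.2
    · rw [Nat.card_zpowers, Subgroup.orderOf_coe, hx]
  have hfr : frattini P = ⊥ := by
    by_contra hne
    obtain ⟨N, hN1, hN2, hN3⟩ := hex (frattini P) inferInstance hne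
    have hc := h N hN2 hN3
    have hpos : 0 < Nat.card {M : Subgroup P // N ⊔ M = ⊤ ∧ M ≠ ⊤} := by
      rw [hc]; exact hp.pos
    obtain ⟨⟨M, hM1, hM2⟩⟩ := (Nat.card_pos_iff.1 hpos).1
    apply hM2
    apply frattini_nongenerating
    rw [eq_top_iff, ← hM1]
    exact sup_le (hN1.trans le_sup_right) le_sup_left
  have hmemfr : ∀ x : P, (∀ K : Subgroup P, IsCoatom K → x ∈ K) → x = 1 := by
    intro x hx
    have : x ∈ frattini P := by
      unfold frattini Order.radical
      simp only [Subgroup.mem_iInf]
      intro K hK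
      exact hx K hK
    rw [hfr] at this
    exact Subgroup.mem_bot.1 this
  have hcomm : ∀ a b : P, a * b = b * a := by
    intro a b
    have := hmemfr ((b * a)⁻¹ * (a * b)) (fun K hK => (coatom_quot p P hP K hK).1 a b)
    rw [inv_mul_eq_one] at this
    exact this.symm
  have hexp : ∀ x : P, x ^ p = 1 := fun x =>
    hmemfr (x ^ p) (fun K hK => (coatom_quot p P hP K hK).2 x)
  obtain ⟨N, -, hN2, hN3⟩ := hex ⊤ inferInstance (by
    intro htb
    obtain ⟨x, hx⟩ := exists_ne (1 : P)
    have : x ∈ (⊤ : Subgroup P) := trivial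
    rw [htb, Subgroup.mem_bot] at this
    exact hx this)
  let _ : CommGroup P := { ‹Group P› with mul_comm := hcomm }
  exact gt_comm p P (AddCommGroup.zmodModule (n := p) (fun x => by
    have := hexp x.toMul
    exact congrArg Additive.ofMul this)) N hN3 (h N hN2 hN3)

end Pool.Agent.Nav
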