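import Pool.Agent.Nav.API

/-!
# NAV-ComplN : the members of `compl G K` are normal of index `p`
-/

namespace Pool.Agent.Nav

universe u

variable {Γ : Type u} [Group Γ] [Finite Γ]

/-- a subgroup of index `p` containing `G` is normal if `Γ/G` is a `p`-group -/
theorem normal_of_index_p (p : ℕ) [Fact p.Prime] (G M : Subgroup Γ) [G.Normal]
    (hp : IsPGroup p (Γ ⧸ G)) (hGM : G ≤ M) (hM : M.index = p) : M.Normal := by
  have hsurj : Function.Surjective (QuotientGroup.mk' G) := QuotientGroup.mk'_surjective G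
  have hker : (QuotientGroup.mk' G).ker ≤ M := by
    rw [QuotientGroup.ker_mk']; exact hGM
  have hidx : (M.map (QuotientGroup.mk' G)).index = p := by
    rw [Subgroup.index_map_eq M hsurj hker, hM]
  obtain ⟨n, hn⟩ := IsPGroup.iff_card.1 hp
  have hn0 : n ≠ 0 := by
    rintro rfl
    have h1 : (M.map (QuotientGroup.mk' G)).index ∣ Nat.card (Γ ⧸ G) :=
      Subgroup.index_dvd_card _
    rw [hidx, hn, pow_zero] at h1
    exact (Fact.out : p.Prime).one_lt.ne' (Nat.dvd_one.1 h1)
  have hmin : (Nat.card (Γ ⧸ G)).minFac = p := by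
    rw [hn]
    exact (Fact.out : p.Prime).pow_minFac hn0
  have hnorm : (M.map (QuotientGroup.mk' G)).Normal := by
    apply Subgroup.normal_of_index_eq_minFac_card
    rw [hidx, hmin]
  have hcomap : (M.map (QuotientGroup.mk' G)).comap (QuotientGroup.mk' G) = M := by
    rw [Subgroup.comap_map_eq_self hker]
  rw [← hcomap]
  exact hnorm.comap _

/-- Proof: `|Γ : M| = |K : K ⊓ M|` (as `K M = Γ`) divides `|K : G| = p` and is not `1`; a subgroup
`M ≥ G` of index `p` is normal since `M / G` has index `p` in the finite `p`-group `Γ/G`. -/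
theorem compl_index (p : ℕ) [Fact p.Prime] (G K : Subgroup Γ) [G.Normal] [K.Normal] (hGK : G ≤ K)
    (hi : G.relIndex K = p) (hp : IsPGroup p (Γ ⧸ G)) (M : Subgroup Γ) (hM : M ∈ compl G K) :
    M.index = p ∧ M.Normal := by
  obtain ⟨hGM, hKM, hne⟩ := hM
  have h1 : K.index = K.relIndex M := by
    rw [← Subgroup.relIndex_sup_right M K, sup_comm, hKM, Subgroup.relIndex_top_right]
  have h2 : M.index * Nat.card M = K.index * Nat.card K := by
    rw [Subgroup.index_mul_card, Subgroup.index_mul_card]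
  have h3 : Nat.card M = K.relIndex M * Nat.card (K ⊓ M : Subgroup Γ) := by
    have h := Subgroup.relIndex_mul_relIndex (⊥ : Subgroup Γ) (K ⊓ M) M bot_le inf_le_right
    rw [Subgroup.relIndex_bot_left, Subgroup.relIndex_bot_left, Subgroup.inf_relIndex_right] at h
    rw [← h, mul_comm]
  have h4 : Nat.card K = M.relIndex K * Nat.card (K ⊓ M : Subgroup Γ) := by
    have h := Subgroup.relIndex_mul_relIndex (⊥ : Subgroup Γ) (K ⊓ M) K bot_le inf_le_left
    rw [Subgroup.relIndex_bot_left, Subgroup.relIndex_bot_left, Subgroup.inf_relIndex_left] at h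
    rw [← h, mul_comm]
  have h5 : M.index = M.relIndex K := by
    have hpos1 : 0 < K.relIndex M := by
      rw [← h1]; exact Nat.pos_of_ne_zero Subgroup.index_ne_zero_of_finite
    have hpos2 : 0 < Nat.card (K ⊓ M : Subgroup Γ) := Nat.card_pos
    rw [h3, h4, h1] at h2
    have h6 : (K.relIndex M * Nat.card (K ⊓ M : Subgroup Γ)) * M.index =
        (K.relIndex M * Nat.card (K ⊓ M : Subgroup Γ)) * M.relIndex K := by
      linarith
    exact Nat.eq_of_mul_eq_mul_left (Nat.mul_pos hpos1 hpos2) h6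
  have h7 : M.index ∣ p := by
    rw [h5, ← hi]
    exact Subgroup.relIndex_dvd_of_le_left K hGM
  have h8 : M.index = p := by
    rcases (Nat.dvd_prime (Fact.out : p.Prime)).1 h7 with h | h
    · exact absurd (Subgroup.index_eq_one.1 h) hne
    · exact h
  exact ⟨h8, normal_of_index_p p G M hp hGM h8⟩

/-- for `M` in `compl G K` and a subgroup `S` of `Γ` with `G ⊔ S = M`, we have `K ⊔ S = ⊤`;
conversely if `K ⊔ S = ⊤` then `G ⊔ S = ⊤` or `G ⊔ S ∈ compl G K`. -/
theorem compl_iff (G K : Subgroup Γ) (hGK : G ≤ K) (S : Subgroup Γ) :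
    K ⊔ S = ⊤ ↔ (G ⊔ S = ⊤ ∨ G ⊔ S ∈ compl G K) := by
  have h1 : K ⊔ (G ⊔ S) = K ⊔ S := by
    rw [← sup_assoc, sup_eq_left.2 hGK]
  constructor
  · intro h
    by_cases h2 : G ⊔ S = ⊤
    · exact Or.inl h2
    · exact Or.inr ⟨le_sup_left, by rw [h1, h], h2⟩
  · rintro (h | h)
    · rw [← h1, h]; exact sup_top_eq _
    · rw [← h1]; exact h.2.1

/-- all `p`-regular elements and only those of `Γ` lie in `G` -/
theorem preg_mem (p : ℕ) [Fact p.Prime] (G : Subgroup Γ) [G.Normal]
    (hp : IsPGroup p (Γ ⧸ G)) (x : Γ) (hx : ¬ p ∣ orderOf x) : x ∈ G := by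
  obtain ⟨k, hk⟩ := IsPGroup.iff_orderOf.1 hp (x : Γ ⧸ G)
  have h1 : orderOf (x : Γ ⧸ G) ∣ orderOf x := orderOf_map_dvd (QuotientGroup.mk' G) x
  rcases Nat.eq_zero_or_pos k with h0 | h0
  · rw [h0, pow_zero, orderOf_eq_one_iff] at hk
    exact (QuotientGroup.eq_one_iff x).1 hk
  · exfalso
    apply hx
    refine dvd_trans ?_ h1
    rw [hk]
    exact dvd_pow_self p h0.ne'

end Pool.Agent.Nav
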