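import Pool.Agent.Nav.PerQ
import Pool.Agent.Nav.ComplN

/-!
# NAV-RRel : the two relations for the weight side
-/

namespace Pool.Agent.Nav

universe u

variable {Γ : Type u} [Group Γ] [Finite Γ]

/-- distributivity -/
theorem mul_finsum_mem' (r : ℕ) (f : Subgroup Γ → ℕ) (S : Set (Subgroup Γ)) :
    r * ∑ᶠ Q ∈ S, f Q = ∑ᶠ Q ∈ S, r * f Q := by
  rw [finsum_mem_eq_finite_toFinset_sum _ (Set.toFinite S),
    finsum_mem_eq_finite_toFinset_sum _ (Set.toFinite S), Finset.mul_sum]

/-- the members of `ThetaM p G M` correspond to the members of `Theta p (G.subgroupOf M)` -/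
theorem bijOn_subgroupOf (p : ℕ) (G M : Subgroup Γ) (hGM : G ≤ M) :
    Set.BijOn (fun Q : Subgroup Γ => Q.subgroupOf M) (ThetaM p G M)
      (Theta p (G.subgroupOf M)) := by
  have key : ∀ Q : Subgroup Γ, Q ≤ M →
      (G.subgroupOf M ⊔ Q.subgroupOf M = ⊤ ↔ G ⊔ Q = M) := by
    intro Q hQ
    rw [← Subgroup.subgroupOf_sup hGM hQ, Subgroup.subgroupOf_eq_top]
    constructor
    · intro h
      exact le_antisymm (sup_le hGM hQ) h
    · intro h
      exact h.ge
  refine ⟨?_, ?_, ?_⟩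
  · rintro Q ⟨h1, h2⟩
    have hQ : Q ≤ M := h2 ▸ le_sup_right
    refine ⟨?_, (key Q hQ).2 h2⟩
    exact h1.of_equiv (Subgroup.subgroupOfEquivOfLe hQ).symm
  · rintro Q ⟨h1, h2⟩ R ⟨h3, h4⟩ h
    have hQ : Q ≤ M := h2 ▸ le_sup_right
    have hR : R ≤ M := h4 ▸ le_sup_right
    simp only at h
    have h5 := (Subgroup.subgroupOf_inj).1 h
    rwa [inf_eq_left.2 hQ, inf_eq_left.2 hR] at h5
  · rintro Q' ⟨h1, h2⟩
    have hle : Q'.map M.subtype ≤ M := Subgroup.map_subtype_le Q'
    have heq : (Q'.map M.subtype).subgroupOf M = Q' := by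
      rw [Subgroup.subgroupOf, Subgroup.comap_map_eq_self_of_injective M.subtype_injective]
    refine ⟨Q'.map M.subtype, ⟨?_, ?_⟩, heq⟩
    · exact h1.map M.subtype
    · refine (key _ hle).1 ?_
      rw [heq]
      exact h2

/-- Dedekind: `Theta p G` is the disjoint union of the sets of `R` not in `M` with `R ⊓ M = Q`,
`Q` in `ThetaM p G M`. -/
theorem theta_eq_biUnion (p : ℕ) [Fact p.Prime] (G M : Subgroup Γ) [G.Normal] [M.Normal]
    (hGM : G ≤ M) (hM : M.index = p) :
    (⋃ Q ∈ ThetaM p G M, {R : Subgroup Γ | IsPGroup p R ∧ ¬ R ≤ M ∧ R ⊓ M = Q}) =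
      Theta p G := by
  have hpr : p.Prime := Fact.out
  ext R
  simp only [Set.mem_iUnion, Set.mem_setOf_eq, exists_prop]
  constructor
  · rintro ⟨Q, ⟨_, hQ2⟩, hR1, hR2, hR3⟩
    refine ⟨hR1, ?_⟩
    have hMle : M ≤ G ⊔ R := by
      rw [← hQ2, ← hR3]
      exact sup_le_sup_left inf_le_left G
    have hrel := Subgroup.relIndex_mul_index hMle
    have hne : (G ⊔ R).index = 1 ∨ (G ⊔ R).index = p := by
      refine (Nat.dvd_prime hpr).1 ?_
      rw [← hM, ← hrel]
      exact Dvd.intro_left _ rfl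
    rcases hne with h | h
    · exact Subgroup.index_eq_one.1 h
    · exfalso
      rw [h, hM] at hrel
      have h1 : M.relIndex (G ⊔ R) = 1 := by
        have : M.relIndex (G ⊔ R) * p = 1 * p := by rw [hrel, one_mul]
        exact Nat.eq_of_mul_eq_mul_right hpr.pos this
      have h2 : G ⊔ R ≤ M := Subgroup.relIndex_eq_one.1 h1
      exact hR2 (le_trans le_sup_right h2)
  · rintro ⟨hR1, hR2⟩
    refine ⟨R ⊓ M, ⟨?_, ?_⟩, hR1, ?_, rfl⟩
    · exact hR1.to_le inf_le_left
    · refine le_antisymm (sup_le hGM inf_le_right) ?_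
      intro x hx
      have hx2 : x ∈ G ⊔ R := by rw [hR2]; trivial
      obtain ⟨g, hg, r, hr, hgr⟩ := Subgroup.mem_sup_of_normal_left.1 hx2
      have hrM : r ∈ M := by
        have h1 : r = g⁻¹ * x := by rw [← hgr]; group
        rw [h1]
        exact M.mul_mem (M.inv_mem (hGM hg)) hx
      rw [← hgr]
      exact Subgroup.mul_mem_sup hg (Subgroup.mem_inf.2 ⟨hr, hrM⟩)
    · intro hle
      have : M = ⊤ := by
        rw [eq_top_iff, ← hR2]
        exact sup_le hGM hle
      rw [this, Subgroup.index_top] at hM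
      exact hpr.one_lt.ne hM

/-- (S). Proof: sum `perQ` over all `p`-subgroups `Q ≤ M` with `G Q = M`. By `card_mul_wSum` in `M`
the left side is `p |M| weights p (G.subgroupOf M)` (subgroups of `M` versus subgroups of `Γ` below
`M`). The first sum on the right is `p |Γ| fW p G M`, and the double sum runs once over every
`R ∈ Theta p G` (`Q = R ⊓ M` and `G (R ⊓ M) = G R ⊓ M = M` by Dedekind; conversely `G Q = M`,
`R ⊓ M = Q`, `¬ R ≤ M` give `G R = Γ` since `G R` contains `M` properly and `M` has index `p`), so it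
is `|Γ| weights p G`. Divide by `|Γ| = p |M|`. -/
theorem weights_S (p : ℕ) [Fact p.Prime] (G M : Subgroup Γ) [G.Normal] [M.Normal] (hGM : G ≤ M)
    (hM : M.index = p) (hp : IsPGroup p (Γ ⧸ G)) :
    weights p (G.subgroupOf M) = p * fW p G M + weights p G := by
  have hpr : p.Prime := Fact.out
  have h1 : Nat.card M * weights p (G.subgroupOf M) =
      ∑ᶠ Q ∈ ThetaM p G M, Nat.card (Nm (Q.subgroupOf M)) * dz p (NQ (Q.subgroupOf M)) := by
    rw [weights, card_mul_wSum p _ (fun Q hQ g => theta_conj p (G.subgroupOf M) Q hQ g)]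
    exact (finsum_mem_eq_of_bijOn (fun Q : Subgroup Γ => Q.subgroupOf M)
      (bijOn_subgroupOf p G M hGM) (fun Q _ => rfl)).symm
  have h2 : Nat.card Γ * fW p G M = ∑ᶠ Q ∈ ThetaM p G M, Nat.card (Nm Q) * dz p (NQ Q) := by
    rw [fW, card_mul_wSum p _ (fun Q hQ g => thetaM_conj p G M Q hQ g)]
  have h3 : Nat.card Γ * weights p G = ∑ᶠ Q ∈ Theta p G, Nat.card (Nm Q) * dz p (NQ Q) := by
    rw [weights, card_mul_wSum p _ (fun Q hQ g => theta_conj p G Q hQ g)]
  have h4 : p * (Nat.card M * weights p (G.subgroupOf M)) =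
      p * (Nat.card Γ * fW p G M) + Nat.card Γ * weights p G := by
    rw [h1, h2, h3, mul_finsum_mem' p _ (ThetaM p G M), mul_finsum_mem' p _ (ThetaM p G M)]
    rw [← theta_eq_biUnion p G M hGM hM]
    rw [finsum_mem_biUnion ?_ (Set.toFinite _) (fun _ _ => Set.toFinite _)]
    · rw [← finsum_mem_add_distrib (Set.toFinite _)]
      refine finsum_mem_congr rfl ?_
      rintro Q ⟨hQ1, hQ2⟩
      exact perQ p M hM Q hQ1 (hQ2 ▸ le_sup_right)
    · rintro Q _ Q' _ hne
      refine Set.disjoint_left.2 ?_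
      rintro R ⟨_, _, h⟩ ⟨_, _, h'⟩
      exact hne (h.symm.trans h')
  have h5 : Nat.card Γ = p * Nat.card M := by
    rw [← hM, mul_comm, Subgroup.card_mul_index]
  have h6 : 0 < p * Nat.card M := Nat.mul_pos hpr.pos Nat.card_pos
  refine Nat.eq_of_mul_eq_mul_left h6 ?_
  calc p * Nat.card M * weights p (G.subgroupOf M)
      = p * (Nat.card M * weights p (G.subgroupOf M)) := by ring
    _ = p * (Nat.card Γ * fW p G M) + Nat.card Γ * weights p G := h4
    _ = p * Nat.card M * (p * fW p G M + weights p G) := by rw [h5]; ring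

/-- (T). Proof: for a `p`-subgroup `Q`, `K Q = Γ` iff `G Q = Γ` or `G Q ∈ compl G K`
(`compl_iff`), a disjoint union of conjugation stable sets (the members of `compl G K` are normal,
`compl_index`). Use `card_mul_wSum`. -/
theorem weights_T (p : ℕ) [Fact p.Prime] (G K : Subgroup Γ) [G.Normal] [K.Normal] (hGK : G ≤ K)
    (hi : G.relIndex K = p) (hp : IsPGroup p (Γ ⧸ G)) :
    weights p K = weights p G + ∑ᶠ M ∈ compl G K, fW p G M := by
  have hK : Nat.card Γ * weights p K = ∑ᶠ Q ∈ Theta p K, Nat.card (Nm Q) * dz p (NQ Q) := by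
    rw [weights, card_mul_wSum p _ (fun Q hQ g => theta_conj p K Q hQ g)]
  have hG : Nat.card Γ * weights p G = ∑ᶠ Q ∈ Theta p G, Nat.card (Nm Q) * dz p (NQ Q) := by
    rw [weights, card_mul_wSum p _ (fun Q hQ g => theta_conj p G Q hQ g)]
  have hM : ∀ M ∈ compl G K, Nat.card Γ * fW p G M =
      ∑ᶠ Q ∈ ThetaM p G M, Nat.card (Nm Q) * dz p (NQ Q) := by
    intro M hM
    haveI : M.Normal := (compl_index p G K hGK hi hp M hM).2
    rw [fW, card_mul_wSum p _ (fun Q hQ g => thetaM_conj p G M Q hQ g)]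
  have hset : Theta p K = Theta p G ∪ ⋃ M ∈ compl G K, ThetaM p G M := by
    ext Q
    simp only [Theta, ThetaM, Set.mem_union, Set.mem_iUnion, Set.mem_setOf_eq, exists_prop]
    rw [compl_iff G K hGK Q]
    constructor
    · rintro ⟨h1, h2 | h2⟩
      · exact Or.inl ⟨h1, h2⟩
      · exact Or.inr ⟨_, h2, h1, rfl⟩
    · rintro (⟨h1, h2⟩ | ⟨M, h1, h2, h3⟩)
      · exact ⟨h1, Or.inl h2⟩
      · exact ⟨h2, Or.inr (h3 ▸ h1)⟩
  have hdisj : Disjoint (Theta p G) (⋃ M ∈ compl G K, ThetaM p G M) := by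
    refine Set.disjoint_left.2 ?_
    rintro Q ⟨_, h2⟩ h3
    simp only [ThetaM, Set.mem_iUnion, Set.mem_setOf_eq, exists_prop] at h3
    obtain ⟨M, h4, _, h6⟩ := h3
    exact h4.2.2 (h6.symm.trans h2)
  have hpd : (compl G K).PairwiseDisjoint (fun M => ThetaM p G M) := by
    rintro M _ M' _ hne
    refine Set.disjoint_left.2 ?_
    rintro R ⟨_, h⟩ ⟨_, h'⟩
    exact hne (h.symm.trans h')
  refine Nat.eq_of_mul_eq_mul_left (Nat.card_pos (α := Γ)) ?_
  rw [mul_add, hK, hG, hset, finsum_mem_union hdisj (Set.toFinite _) (Set.toFinite _),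
    finsum_mem_biUnion hpd (Set.toFinite _) (fun _ _ => Set.toFinite _),
    mul_finsum_mem' (Nat.card Γ) _ (compl G K)]
  congr 1
  exact finsum_mem_congr rfl fun M h => (hM M h).symm

/-- the summands of `fW_central` -/
theorem dz_NQ_eq_zero (p : ℕ) [Fact p.Prime] (G M : Subgroup Γ) (z : Γ)
    (hz : z ∈ Subgroup.center Γ) (ho : orderOf z = p) (hzM : z ∉ M) (Q : Subgroup Γ)
    (hQ2 : G ⊔ Q = M) : dz p (NQ Q) = 0 := by
  have hQM : Q ≤ M := hQ2 ▸ le_sup_right
  have hzQ : z ∉ Q := fun h => hzM (hQM h)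
  have hzN : z ∈ Nm Q := Subgroup.center_le_normalizer _ hz
  have hzc : ∀ g : Γ, g * z = z * g := Subgroup.mem_center_iff.1 hz
  refine dz_eq_zero p (NQ Q) (QuotientGroup.mk (⟨z, hzN⟩ : Nm Q)) ?_ ?_
  · rw [Subgroup.mem_center_iff]
    intro g
    induction g using QuotientGroup.induction_on with
    | _ g =>
      rw [← QuotientGroup.mk_mul, ← QuotientGroup.mk_mul]
      congr 1
      exact Subtype.ext (hzc g)
  · refine orderOf_eq_prime ?_ ?_
    · rw [← QuotientGroup.mk_pow]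
      have : (⟨z, hzN⟩ : Nm Q) ^ p = 1 := by
        apply Subtype.ext
        rw [Subgroup.coe_pow, Subgroup.coe_one, ← ho]
        exact pow_orderOf_eq_one z
      rw [this, QuotientGroup.mk_one]
    · intro h
      rw [QuotientGroup.eq_one_iff, Subgroup.mem_subgroupOf] at h
      exact hzQ h

/-- Proof: for `Q` with `G Q = M` the image of `z` in `N_Γ(Q)/Q` is central of order `p` (`z ∉ Q`
as `Q ≤ M`), so `dz p (NQ Q) = 0`. -/
theorem fW_central (p : ℕ) [Fact p.Prime] (G M : Subgroup Γ) (z : Γ)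
    (hz : z ∈ Subgroup.center Γ) (ho : orderOf z = p) (hzM : z ∉ M) : fW p G M = 0 := by
  unfold fW wSum
  refine (finsum_congr fun c => ?_).trans finsum_zero
  exact dz_NQ_eq_zero p G M z hz ho hzM _ (c.out.2).2

end Pool.Agent.Nav
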