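import Pool.Agent.Nav.CReg
import Pool.Agent.Nav.RRel
import Pool.Agent.Nav.GT

/-!
# NAV-Main : the reduction to quotients `C_p × C_p`
-/

namespace Pool.Agent.Nav

universe u

section rel

variable {Γ : Type u} [Group Γ] [Finite Γ]

lemma rel_aux (S : Set (Subgroup Γ)) (p FK FG : ℕ) (f g : Subgroup Γ → ℕ)
    (hT : FK = FG + ∑ᶠ M ∈ S, f M) (hS : ∀ M ∈ S, g M = p * f M + FG) :
    p * FK + S.ncard * FG = (∑ᶠ M ∈ S, g M) + p * FG := by
  have hfin : S.Finite := Set.toFinite S
  rw [finsum_mem_eq_finite_toFinset_sum _ hfin] at hT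
  rw [finsum_mem_eq_finite_toFinset_sum _ hfin, hT, Set.ncard_eq_toFinset_card S hfin]
  have h1 : ∑ M ∈ hfin.toFinset, g M = ∑ M ∈ hfin.toFinset, (p * f M + FG) :=
    Finset.sum_congr rfl (fun M hM => hS M (hfin.mem_toFinset.1 hM))
  rw [h1, Finset.sum_add_distrib, ← Finset.mul_sum, Finset.sum_const, smul_eq_mul]
  ring

theorem rel_creg (p : ℕ) [Fact p.Prime] (G K : Subgroup Γ) [G.Normal] [K.Normal] (hGK : G ≤ K)
    (hi : G.relIndex K = p) (hp : IsPGroup p (Γ ⧸ G)) :
    p * creg p K + (compl G K).ncard * creg p G =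
      (∑ᶠ M ∈ compl G K, creg p (G.subgroupOf M)) + p * creg p G := by
  refine rel_aux (compl G K) p (creg p K) (creg p G) (fun M => cregM p G M)
    (fun M => creg p (G.subgroupOf M)) (creg_T p G K hGK hi hp) ?_
  intro M hM
  obtain ⟨h1, h2⟩ := compl_index p G K hGK hi hp M hM
  exact creg_S p G M hM.1 h1 hp

theorem rel_weights (p : ℕ) [Fact p.Prime] (G K : Subgroup Γ) [G.Normal] [K.Normal] (hGK : G ≤ K)
    (hi : G.relIndex K = p) (hp : IsPGroup p (Γ ⧸ G)) :
    p * weights p K + (compl G K).ncard * weights p G =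
      (∑ᶠ M ∈ compl G K, weights p (G.subgroupOf M)) + p * weights p G := by
  refine rel_aux (compl G K) p (weights p K) (weights p G) (fun M => fW p G M)
    (fun M => weights p (G.subgroupOf M)) (weights_T p G K hGK hi hp) ?_
  intro M hM
  obtain ⟨h1, h2⟩ := compl_index p G K hGK hi hp M hM
  exact weights_S p G M hM.1 h1 hp

/-- the inductive step -/
theorem step (p : ℕ) [Fact p.Prime] (G K : Subgroup Γ) [G.Normal] [K.Normal] (hGK : G ≤ K)
    (hi : G.relIndex K = p) (hp : IsPGroup p (Γ ⧸ G)) (hne : (compl G K).ncard ≠ p)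
    (hK : creg p K = weights p K)
    (hM : ∀ M ∈ compl G K, creg p (G.subgroupOf M) = weights p (G.subgroupOf M)) :
    creg p G = weights p G := by
  have h1 := rel_creg p G K hGK hi hp
  have h2 := rel_weights p G K hGK hi hp
  have h3 : (∑ᶠ M ∈ compl G K, creg p (G.subgroupOf M)) =
      ∑ᶠ M ∈ compl G K, weights p (G.subgroupOf M) :=
    finsum_mem_congr rfl hM
  rw [h3, hK] at h1
  generalize (∑ᶠ M ∈ compl G K, weights p (G.subgroupOf M)) = s at h1 h2
  generalize creg p G = a at h1 ⊢
  generalize weights p G = b at h2 ⊢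
  generalize (compl G K).ncard = n at h1 h2 hne
  generalize weights p K = c at h1 h2
  have h4 : ((n : ℤ) - p) * ((a : ℤ) - b) = 0 := by
    have h1' : (p : ℤ) * c + n * a = s + p * a := by exact_mod_cast h1
    have h2' : (p : ℤ) * c + n * b = s + p * b := by exact_mod_cast h2
    linear_combination h1' - h2'
  rcases mul_eq_zero.1 h4 with h | h
  · exfalso; apply hne; omega
  · omega

omit [Finite Γ] in
/-- the members of `compl G (comap N)` correspond to the `M̄ ≠ ⊤` with `N ⊔ M̄ = ⊤` -/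
lemma ncard_compl (G : Subgroup Γ) [G.Normal] (N : Subgroup (Γ ⧸ G)) :
    (compl G (N.comap (QuotientGroup.mk' G))).ncard =
      Nat.card {M : Subgroup (Γ ⧸ G) // N ⊔ M = ⊤ ∧ M ≠ ⊤} := by
  have hsurj : Function.Surjective (QuotientGroup.mk' G) := QuotientGroup.mk'_surjective G
  have hker : ∀ M : Subgroup Γ, G ≤ M → (M.map (QuotientGroup.mk' G)).comap
      (QuotientGroup.mk' G) = M := by
    intro M hM
    rw [Subgroup.comap_map_eq, QuotientGroup.ker_mk']
    exact sup_eq_left.2 hM
  have hGle : ∀ M : Subgroup (Γ ⧸ G), G ≤ M.comap (QuotientGroup.mk' G) := by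
    intro M x hx
    rw [Subgroup.mem_comap]
    have : (QuotientGroup.mk' G) x = 1 := by
      rw [← MonoidHom.mem_ker, QuotientGroup.ker_mk']; exact hx
    rw [this]; exact one_mem _
  rw [← Nat.card_coe_set_eq]
  refine Nat.card_congr ?_
  exact
    { toFun := fun M => ⟨M.1.map (QuotientGroup.mk' G), by
        obtain ⟨M, h1, h2, h3⟩ := M
        constructor
        · have h4 := congrArg (Subgroup.map (QuotientGroup.mk' G)) h2
          rw [Subgroup.map_sup, Subgroup.map_comap_eq_self_of_surjective hsurj,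
            Subgroup.map_top_of_surjective _ hsurj] at h4
          exact h4
        · intro h4
          apply h3
          rw [← hker M h1, h4, Subgroup.comap_top]⟩
      invFun := fun M => ⟨M.1.comap (QuotientGroup.mk' G), by
        obtain ⟨M, h1, h2⟩ := M
        refine ⟨hGle M, ?_, ?_⟩
        · rw [eq_top_iff]
          have h5 : (N.comap (QuotientGroup.mk' G) ⊔ M.comap (QuotientGroup.mk' G)).map
              (QuotientGroup.mk' G) = ⊤ := by
            rw [Subgroup.map_sup, Subgroup.map_comap_eq_self_of_surjective hsurj,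
              Subgroup.map_comap_eq_self_of_surjective hsurj, h1]
          have h6 := hker (N.comap (QuotientGroup.mk' G) ⊔ M.comap (QuotientGroup.mk' G))
            (le_trans (hGle N) le_sup_left)
          rw [h5, Subgroup.comap_top] at h6
          rw [← h6]
        · intro h3
          apply h2
          rw [← Subgroup.map_comap_eq_self_of_surjective hsurj M, h3,
            Subgroup.map_top_of_surjective _ hsurj]⟩
      left_inv := fun M => Subtype.ext (hker M.1 M.2.1)
      right_inv := fun M => Subtype.ext (Subgroup.map_comap_eq_self_of_surjective hsurj M.1) }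

lemma relIndex_comap_mk (p : ℕ) (G : Subgroup Γ) [G.Normal] (N : Subgroup (Γ ⧸ G))
    (hN : Nat.card N = p) : G.relIndex (N.comap (QuotientGroup.mk' G)) = p := by
  have hsurj : Function.Surjective (QuotientGroup.mk' G) := QuotientGroup.mk'_surjective G
  have hle : G ≤ N.comap (QuotientGroup.mk' G) := by
    intro x hx
    rw [Subgroup.mem_comap]
    have : (QuotientGroup.mk' G) x = 1 := by
      rw [← MonoidHom.mem_ker, QuotientGroup.ker_mk']; exact hx
    rw [this]; exact one_mem _
  have h1 := Subgroup.relIndex_mul_index hle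
  have h2 : (N.comap (QuotientGroup.mk' G)).index = N.index :=
    Subgroup.index_comap_of_surjective N hsurj
  have h3 : G.index = Nat.card (Γ ⧸ G) := rfl
  have h4 := N.card_mul_index
  rw [h2, h3, ← h4, hN] at h1
  have h5 : 0 < N.index := Nat.pos_of_ne_zero (Subgroup.index_ne_zero_of_finite)
  exact Nat.eq_of_mul_eq_mul_right h5 h1

lemma isPGroup_iff_index (p : ℕ) [Fact p.Prime] (G : Subgroup Γ) [G.Normal] :
    IsPGroup p (Γ ⧸ G) ↔ ∃ n, G.index = p ^ n := by
  rw [IsPGroup.iff_card]; rfl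

lemma isPGroup_sub (p : ℕ) [Fact p.Prime] (G M : Subgroup Γ) [G.Normal] (hGM : G ≤ M)
    (hp : IsPGroup p (Γ ⧸ G)) : IsPGroup p (M ⧸ G.subgroupOf M) := by
  rw [isPGroup_iff_index] at hp ⊢
  obtain ⟨n, hn⟩ := hp
  have h1 := Subgroup.relIndex_mul_index hGM
  have h2 : (G.subgroupOf M).index ∣ p ^ n := by
    rw [← hn, ← h1]; exact Dvd.intro _ rfl
  obtain ⟨m, _, hm⟩ := (Nat.dvd_prime_pow (Fact.out : p.Prime)).1 h2
  exact ⟨m, hm⟩

lemma isPGroup_up (p : ℕ) [Fact p.Prime] (G K : Subgroup Γ) [G.Normal] [K.Normal] (hGK : G ≤ K)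
    (hp : IsPGroup p (Γ ⧸ G)) : IsPGroup p (Γ ⧸ K) := by
  rw [isPGroup_iff_index] at hp ⊢
  obtain ⟨n, hn⟩ := hp
  have h1 := Subgroup.relIndex_mul_index hGK
  have h2 : K.index ∣ p ^ n := by
    rw [← hn, ← h1]; exact Dvd.intro_left _ rfl
  obtain ⟨m, _, hm⟩ := (Nat.dvd_prime_pow (Fact.out : p.Prime)).1 h2
  exact ⟨m, hm⟩

end rel

/-- the group `C_p × C_p` -/
abbrev Cpp (p : ℕ) := Multiplicative (ZMod p × ZMod p)

/-- the hypothesis on the sections of `Γ/G` -/
def Hyp (p : ℕ) {Γ : Type u} [Group Γ] (G : Subgroup Γ) : Prop :=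
  ∀ (H K : Subgroup Γ) (_ : G ≤ K) (_ : K ≤ H) [(K.subgroupOf H).Normal],
    (K = H ∨ Nonempty ((H ⧸ K.subgroupOf H) ≃* Cpp p)) →
      creg p (K.subgroupOf H) = weights p (K.subgroupOf H)

section hyp

variable {Γ : Type u} [Group Γ] [Finite Γ]

lemma eq_congr (p : ℕ) {Γ' : Type u} [Group Γ'] (e : Γ ≃* Γ') (G : Subgroup Γ) [G.Normal]
    (G' : Subgroup Γ') (h : G.map e.toMonoidHom = G') :
    creg p G = weights p G ↔ creg p G' = weights p G' := by
  rw [creg_congr p e G G' h, weights_congr p e G G' h]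

omit [Finite Γ] in
lemma hyp_up (p : ℕ) (G K : Subgroup Γ) (hGK : G ≤ K) (h : Hyp p G) : Hyp p K :=
  fun H L hKL hLH _ hc => h H L (le_trans hGK hKL) hLH hc

lemma hyp_sub (p : ℕ) (G M : Subgroup Γ) (hGM : G ≤ M) (h : Hyp p G) : Hyp p (G.subgroupOf M) := by
  intro H' K' hGK hKH hn hc
  have hinj : Function.Injective M.subtype := M.subtype_injective
  set H := H'.map M.subtype with hH
  set K := K'.map M.subtype with hK
  have hGK' : G ≤ K := by
    have := Subgroup.map_mono (f := M.subtype) hGK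
    rwa [Subgroup.map_subgroupOf_eq_of_le hGM] at this
  have hKH' : K ≤ H := Subgroup.map_mono hKH
  let e : H' ≃* H := H'.equivMapOfInjective M.subtype hinj
  have hmap : (K'.subgroupOf H').map e.toMonoidHom = K.subgroupOf H := by
    ext x
    constructor
    · rintro ⟨y, hy, rfl⟩
      rw [Subgroup.mem_subgroupOf]
      exact ⟨(y : M), hy, rfl⟩
    · intro hx
      rw [Subgroup.mem_subgroupOf] at hx
      obtain ⟨y, hy, hyx⟩ := hx
      refine ⟨⟨y, hKH hy⟩, hy, ?_⟩
      apply Subtype.ext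
      exact hyx
  have hn' : (K.subgroupOf H).Normal := by
    rw [← hmap]
    exact Subgroup.Normal.map hn _ e.surjective
  rw [eq_congr p e _ _ hmap]
  refine h H K hGK' hKH' ?_
  rcases hc with rfl | hf
  · left; rfl
  · right
    obtain ⟨f⟩ := hf
    exact ⟨(QuotientGroup.congr _ _ e hmap).symm.trans f⟩

lemma eq_top_iff' (p : ℕ) (G : Subgroup Γ) [G.Normal] :
    creg p (G.subgroupOf ⊤) = weights p (G.subgroupOf ⊤) ↔ creg p G = weights p G := by
  refine eq_congr p Subgroup.topEquiv (G.subgroupOf ⊤) G ?_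
  ext x
  constructor
  · rintro ⟨y, hy, rfl⟩
    exact hy
  · intro hx
    exact ⟨⟨x, trivial⟩, hx, rfl⟩

end hyp

/-- the local theorem -/
theorem loc (p : ℕ) [Fact p.Prime] (n : ℕ) : ∀ (Γ : Type u) [Group Γ] [Finite Γ] (G : Subgroup Γ)
    [G.Normal], G.index = n → IsPGroup p (Γ ⧸ G) → Hyp p G → creg p G = weights p G := by
  induction n using Nat.strong_induction_on with
  | _ n ih =>
    intro Γ _ _ G _ hn hp hyp
    by_cases hG : G = ⊤
    · rw [← eq_top_iff']
      have : (G.subgroupOf ⊤).Normal := inferInstance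
      exact hyp ⊤ G le_rfl le_top (Or.inl hG)
    by_cases hC : Nonempty ((Γ ⧸ G) ≃* Cpp p)
    · rw [← eq_top_iff']
      obtain ⟨f⟩ := hC
      refine hyp ⊤ G le_rfl le_top (Or.inr ⟨?_⟩)
      refine (QuotientGroup.congr (G.subgroupOf ⊤) G Subgroup.topEquiv ?_).trans f
      ext x
      constructor
      · rintro ⟨y, hy, rfl⟩
        exact hy
      · intro hx
        exact ⟨⟨x, trivial⟩, hx, rfl⟩
    have hnt : Nontrivial (Γ ⧸ G) := by
      rw [QuotientGroup.nontrivial_iff]
      exact hG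
    have hN : ∃ N : Subgroup (Γ ⧸ G), N ≤ Subgroup.center (Γ ⧸ G) ∧ Nat.card N = p ∧
        Nat.card {M : Subgroup (Γ ⧸ G) // N ⊔ M = ⊤ ∧ M ≠ ⊤} ≠ p := by
      by_contra hcon
      push Not at hcon
      exact hC (gt p (Γ ⧸ G) hp hcon)
    obtain ⟨N, hN1, hN2, hN3⟩ := hN
    set K := N.comap (QuotientGroup.mk' G) with hK
    have hNn : N.Normal := by
      refine ⟨fun x hx g => ?_⟩
      have h1 := Subgroup.mem_center_iff.1 (hN1 hx) g
      rw [h1, mul_inv_cancel_right]
      exact hx
    have hKn : K.Normal := hNn.comap _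
    have hGK : G ≤ K := by
      intro x hx
      rw [hK, Subgroup.mem_comap]
      have : (QuotientGroup.mk' G) x = 1 := by
        rw [← MonoidHom.mem_ker, QuotientGroup.ker_mk']; exact hx
      rw [this]; exact one_mem _
    have hi : G.relIndex K = p := relIndex_comap_mk p G N hN2
    have hpp : 1 < p := (Fact.out : p.Prime).one_lt
    have hKi : K.index < n := by
      have h1 := Subgroup.relIndex_mul_index hGK
      rw [hi, hn] at h1
      have h2 : 0 < K.index := Nat.pos_of_ne_zero (Subgroup.index_ne_zero_of_finite)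
      nlinarith
    refine step p G K hGK hi hp ?_ ?_ ?_
    · rw [hK, ncard_compl]; exact hN3
    · exact ih K.index hKi Γ K rfl (isPGroup_up p G K hGK hp) (hyp_up p G K hGK hyp)
    · intro M hM
      obtain ⟨hMi, hMn⟩ := compl_index p G K hGK hi hp M hM
      have hlt : (G.subgroupOf M).index < n := by
        have h1 := Subgroup.relIndex_mul_index hM.1
        have h3 : (G.subgroupOf M).index = G.relIndex M := rfl
        have h2 : 0 < (G.subgroupOf M).index :=
          Nat.pos_of_ne_zero (Subgroup.index_ne_zero_of_finite)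
        rw [hMi, hn, ← h3] at h1
        nlinarith
      exact ih _ hlt M (G.subgroupOf M) rfl (isPGroup_sub p G M hM.1 hp)
        (hyp_sub p G M hM.1 hyp)

end Pool.Agent.Nav
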