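import Pool.Agent.Nav.FSum

/-!
# NAV-FixLem : an equivariant invertible matrix in characteristic `p` gives equally many fixed points
-/

namespace Pool.Agent.Nav

open scoped Classical in
/-- Sums over the fixed points. -/
theorem fixLem_sub {Λ : Type*} [Group Λ] {Ω : Type*} [MulAction Λ Ω] [Fintype Ω]
    [Fintype (MulAction.fixedPoints Λ Ω)] {k : Type*} [Field k] (f : Ω → k) :
    (∑ ω, if ω ∈ MulAction.fixedPoints Λ Ω then f ω else 0) =
      ∑ ω : MulAction.fixedPoints Λ Ω, f ω := by
  rw [← Finset.sum_filter]
  exact Finset.sum_subtype _ (by simp) f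

/-- A square array and its left inverse, from a basis. -/
theorem fixLem_inverse {A C : Type*} [Fintype A] [Fintype C] [DecidableEq A] [DecidableEq C]
    {k : Type*} [Field k] (M : A → C → k)
    (hinj : LinearIndependent k M) (hspan : Submodule.span k (Set.range M) = ⊤) :
    ∃ N : C → A → k, (∀ c c', ∑ a, N c a * M a c' = if c = c' then 1 else 0) ∧
      (∀ a b, ∑ c, M a c * N c b = if a = b then 1 else 0) ∧
      ∀ (c : C) (y : A → k), (∀ c', ∑ a, y a * M a c' = if c = c' then 1 else 0) → y = N c := by
  classical
  let B : Module.Basis A k (C → k) := Module.Basis.mk hinj hspan.ge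
  have hB : ∀ a, B a = M a := fun a => by simp [B]
  refine ⟨fun c a => B.repr (Pi.single c 1) a, ?_, ?_, ?_⟩
  · intro c c'
    have h1 := congrFun (B.sum_repr (Pi.single c 1)) c'
    simp only [Finset.sum_apply, Pi.smul_apply, smul_eq_mul, hB] at h1
    rw [h1, Pi.single_apply]
    by_cases h : c = c'
    · rw [if_pos h, if_pos h.symm]
    · rw [if_neg h, if_neg (Ne.symm h)]
  · intro a b
    have h1 : M a = ∑ c, M a c • (Pi.single c 1 : C → k) := by
      funext c'
      simp only [Finset.sum_apply, Pi.smul_apply, smul_eq_mul, Pi.single_apply, mul_ite, mul_one,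
        mul_zero]
      rw [Finset.sum_ite_eq]
      simp
    have h2 : B.repr (M a) b = ∑ c, M a c * B.repr (Pi.single c 1) b := by
      conv_lhs => rw [h1]
      rw [map_sum, Finsupp.finsetSum_apply]
      apply Finset.sum_congr rfl
      intro c _
      rw [map_smul, Finsupp.smul_apply, smul_eq_mul]
    rw [← h2, ← hB a, B.repr_self, Finsupp.single_apply]
  · intro c y hy
    have h1 : ∑ a, y a • B a = Pi.single c 1 := by
      funext c'
      simp only [Finset.sum_apply, Pi.smul_apply, smul_eq_mul, hB]
      rw [hy c', Pi.single_apply]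
      by_cases h : c = c'
      · rw [if_pos h, if_pos h.symm]
      · rw [if_neg h, if_neg (Ne.symm h)]
    funext a
    show y a = B.repr (Pi.single c 1) a
    rw [← h1, B.repr_sum_self]

/-- Proof: the rows `M a` form a basis of `C → k` (`hinj`, `hspan`; so `|A| = |C|`). Let `N` be the
inverse matrix, it is equivariant too. For fixed points `a, b` of `A`:
`δ_{ab} = ∑_c M a c * N c b`, and the summand is an invariant function of `c` (as `a, b` are
fixed), so by `sum_fixed'` the sum is the sum over the fixed points `c`. The same for `N M = 1`.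
So the restrictions of `M` and `N` to the fixed points are inverse to each other and the numbers of
fixed points agree. -/
theorem fix_card {p : ℕ} [Fact p.Prime] {Λ : Type*} [Group Λ] {A C : Type*}
    [MulAction Λ A] [MulAction Λ C] [Finite A] [Finite C]
    (hA : ∀ a : A, a ∉ MulAction.fixedPoints Λ A → p ∣ Nat.card (MulAction.orbit Λ a))
    (hC : ∀ c : C, c ∉ MulAction.fixedPoints Λ C → p ∣ Nat.card (MulAction.orbit Λ c))
    {k : Type*} [Field k] [CharP k p] (M : A → C → k)
    (hM : ∀ (g : Λ) (a : A) (c : C), M (g • a) (g • c) = M a c)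
    (hinj : LinearIndependent k M) (hspan : Submodule.span k (Set.range M) = ⊤) :
    Nat.card (MulAction.fixedPoints Λ A) = Nat.card (MulAction.fixedPoints Λ C) := by
  classical
  have := Fintype.ofFinite A
  have := Fintype.ofFinite C
  obtain ⟨N, hNM, hMN, huniq⟩ := fixLem_inverse M hinj hspan
  -- the inverse is equivariant
  have hN : ∀ (g : Λ) (c : C) (a : A), N (g • c) (g • a) = N c a := by
    intro g c a
    have h1 := huniq c (fun a => N (g • c) (g • a)) (by
      intro c'
      have h2 := hNM (g • c) (g • c')
      have h3 : ∑ a, N (g • c) (g • a) * M a c' = ∑ a, N (g • c) a * M a (g • c') := by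
        rw [← Equiv.sum_comp (MulAction.toPerm g : Equiv.Perm A)
          (fun a => N (g • c) a * M a (g • c'))]
        apply Finset.sum_congr rfl
        intro a _
        rw [MulAction.toPerm_apply, hM]
      rw [h3, h2]
      by_cases h : c = c'
      · rw [if_pos h, if_pos (by rw [h])]
      · rw [if_neg h, if_neg (fun h4 => h (MulAction.injective g h4))])
    exact congrFun h1 a
  let M' : Matrix (MulAction.fixedPoints Λ A) (MulAction.fixedPoints Λ C) k := fun a c => M a c
  let N' : Matrix (MulAction.fixedPoints Λ C) (MulAction.fixedPoints Λ A) k := fun c a => N c a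
  have h1 : M' * N' = 1 := by
    ext a b
    rw [Matrix.mul_apply, Matrix.one_apply]
    have h2 := sum_fixed' (p := p) hC (fun c => M a c * N c b) (by
      intro g c
      have ha : (a : A) = g • (a : A) := (a.2 g).symm
      have hb : (b : A) = g • (b : A) := (b.2 g).symm
      calc M a (g • c) * N (g • c) b = M (g • (a : A)) (g • c) * N (g • c) (g • (b : A)) := by
            rw [← ha, ← hb]
        _ = M a c * N c b := by rw [hM, hN])
    rw [hMN] at h2
    have h3 := fixLem_sub (Λ := Λ) (fun c : C => M a c * N c b)
    have h4 : (∑ j, M' a j * N' j b) = ∑ c : MulAction.fixedPoints Λ C, M a c * N c b := rfl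
    rw [h4, ← h3]
    refine Eq.trans ?_ (Eq.trans h2.symm ?_)
    · apply Finset.sum_congr rfl
      intro c _
      by_cases hc : c ∈ MulAction.fixedPoints Λ C
      · rw [if_pos hc]
      · rw [if_neg hc]
    · by_cases hab : a = b
      · rw [if_pos hab, if_pos (by rw [hab])]
      · rw [if_neg hab, if_neg (fun h => hab (Subtype.ext h))]
  have h2 : N' * M' = 1 := by
    ext c d
    rw [Matrix.mul_apply, Matrix.one_apply]
    have h2 := sum_fixed' (p := p) hA (fun a => N c a * M a d) (by
      intro g a
      have ha : (c : C) = g • (c : C) := (c.2 g).symm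
      have hb : (d : C) = g • (d : C) := (d.2 g).symm
      calc N c (g • a) * M (g • a) d = N (g • (c : C)) (g • a) * M (g • a) (g • (d : C)) := by
            rw [← ha, ← hb]
        _ = N c a * M a d := by rw [hM, hN])
    rw [hNM] at h2
    have h3 := fixLem_sub (Λ := Λ) (fun a : A => N c a * M a d)
    have h4 : (∑ j, N' c j * M' j d) = ∑ a : MulAction.fixedPoints Λ A, N c a * M a d := rfl
    rw [h4, ← h3]
    refine Eq.trans ?_ (Eq.trans h2.symm ?_)
    · apply Finset.sum_congr rfl
      intro a _
      by_cases hc : a ∈ MulAction.fixedPoints Λ A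
      · rw [if_pos hc]
      · rw [if_neg hc]
    · by_cases hcd : c = d
      · rw [if_pos hcd, if_pos (by rw [hcd])]
      · rw [if_neg hcd, if_neg (fun h => hcd (Subtype.ext h))]
  rw [Nat.card_eq_fintype_card, Nat.card_eq_fintype_card]
  exact Matrix.square_of_invertible M' N' h1 h2

end Pool.Agent.Nav
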