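import Pool.Agent.Nav.Act

/-!
# NAV-LHSA : fixed points and orbits on the classes of irreducible representations
-/

namespace Pool.Agent.Nav

universe u v

/-- If the normal subgroup `G` acts trivially and `Γ/G` is a `p`-group, the orbits which are not
fixed points have a size divisible by `p` (the size is the index of the stabiliser, which
contains `G` and is not `Γ`). -/
theorem orbit_dvd {p : ℕ} [Fact p.Prime] {Γ : Type u} [Group Γ] [Finite Γ] (G : Subgroup Γ)
    [G.Normal] (h : IsPGroup p (Γ ⧸ G)) {Ω : Type v} [MulAction Γ Ω]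
    (hG : ∀ g ∈ G, ∀ ω : Ω, g • ω = ω) (ω : Ω) (hω : ω ∉ MulAction.fixedPoints Γ Ω) :
    p ∣ Nat.card (MulAction.orbit Γ ω) := by
  have hle : G ≤ MulAction.stabilizer Γ ω := fun g hg => hG g hg ω
  have hcomap : ((MulAction.stabilizer Γ ω).map (QuotientGroup.mk' G)).comap
      (QuotientGroup.mk' G) = MulAction.stabilizer Γ ω := by
    rw [Subgroup.comap_map_eq, QuotientGroup.ker_mk']
    exact sup_eq_left.2 hle
  have hidx : (MulAction.stabilizer Γ ω).index =
      ((MulAction.stabilizer Γ ω).map (QuotientGroup.mk' G)).index := by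
    conv_lhs => rw [← hcomap]
    exact Subgroup.index_comap_of_surjective _ (QuotientGroup.mk'_surjective G)
  obtain ⟨n, hn⟩ := h.index ((MulAction.stabilizer Γ ω).map (QuotientGroup.mk' G))
  have hcard : Nat.card (MulAction.orbit Γ ω) = p ^ n := by
    rw [← hn, ← hidx, MulAction.index_stabilizer]
    rfl
  rw [hcard]
  rcases Nat.eq_zero_or_pos n with h0 | h0
  · exfalso
    apply hω
    rw [h0, pow_zero] at hn
    have htop : MulAction.stabilizer Γ ω = ⊤ := by
      rw [← Subgroup.index_eq_one, hidx, hn]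
    intro γ
    have : γ ∈ MulAction.stabilizer Γ ω := by rw [htop]; trivial
    exact this
  · exact dvd_pow_self p (by omega)

/-- inner automorphisms do not change the class of a representation: `ρ (g⁻¹ · g) ≅ ρ` via
`ρ g` -/
theorem triv_irr {k : Type v} [Field k] {Γ : Type u} [Group Γ] (G : Subgroup Γ) [G.Normal]
    (g : Γ) (hg : g ∈ G) (c : IrrClass k G) : g • c = c := by
  induction c using Quotient.inductionOn with
  | _ ρ =>
    rw [smul_irr_def, twistC_mk]
    apply Quotient.sound
    obtain ⟨e, he⟩ : ∃ e : (Fin ρ.deg → k) ≃ₗ[k] (Fin ρ.deg → k),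
        (e : (Fin ρ.deg → k) →ₗ[k] (Fin ρ.deg → k)) = ρ.rep ⟨g, hg⟩ :=
      ⟨LinearEquiv.ofLinearMap (ρ.rep ⟨g, hg⟩) (ρ.rep (⟨g, hg⟩⁻¹))
        (by rw [← Module.End.mul_eq_comp, ← map_mul, mul_inv_cancel, map_one]; rfl)
        (by rw [← Module.End.mul_eq_comp, ← map_mul, inv_mul_cancel, map_one]; rfl), rfl⟩
    refine ⟨Representation.Equiv.mk e ?_⟩
    intro x
    have hx : (⟨g, hg⟩ : G) * (MulAut.conjNormal g⁻¹ : G ≃* G) x = x * ⟨g, hg⟩ := by
      apply Subtype.ext
      simp [mul_assoc]
    have h1 : ρ.rep ⟨g, hg⟩ * ρ.rep ((MulAut.conjNormal g⁻¹ : G ≃* G) x) =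
        ρ.rep x * ρ.rep ⟨g, hg⟩ := by
      rw [← map_mul, hx, map_mul]
    rw [← he] at h1
    exact h1

/-- the fixed points are the classes counted by `ibrInv` -/
theorem card_fix_irr {k : Type v} [Field k] {Γ : Type u} [Group Γ] (G : Subgroup Γ) [G.Normal] :
    Nat.card (MulAction.fixedPoints Γ (IrrClass k G)) = ibrInv k G := by
  unfold ibrInv
  refine Nat.card_congr (Equiv.subtypeEquivRight ?_)
  intro c
  constructor
  · intro hc ρ hρ γ
    have h1 := hc γ⁻¹
    rw [smul_irr_def, inv_inv, ← hρ, twistC_mk] at h1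
    exact Quotient.exact h1
  · intro hc γ
    induction c using Quotient.inductionOn with
    | _ ρ =>
      rw [smul_irr_def, twistC_mk]
      exact Quotient.sound (hc ρ rfl γ⁻¹)

end Pool.Agent.Nav
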