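import Pool.Agent.Nav.Act
import Pool.Agent.Nav.ComplN

/-!
# NAV-LHSB : fixed points on the `p`-regular classes of `G`
-/

namespace Pool.Agent.Nav

universe u v

theorem triv_preg (p : ℕ) {Γ : Type u} [Group Γ] (G : Subgroup Γ) [G.Normal]
    (g : Γ) (hg : g ∈ G) (c : PReg p G) : g • c = c := by
  obtain ⟨y, hy⟩ := ConjClasses.exists_rep c.1
  apply Subtype.ext
  rw [smul_preg_val p G g c y hy.symm, ← hy, ConjClasses.mk_eq_mk_iff_isConj]
  refine (isConj_iff.2 ⟨⟨g, hg⟩, ?_⟩).symm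
  apply Subtype.ext
  simp

/-- for a fixed point `c` of `Γ`, all the elements of `Γ` conjugate to a representative of `c` are
representatives of `c` -/
lemma fix_rep (p : ℕ) {Γ : Type u} [Group Γ] (G : Subgroup Γ) [G.Normal]
    (c : PReg p G) (hc : ∀ γ : Γ, γ • c = c) (y : G) (hy : c.1 = ConjClasses.mk y) (x : Γ)
    (hx : ConjClasses.mk x = ConjClasses.mk (y : Γ)) :
    ∃ hxG : x ∈ G, c.1 = ConjClasses.mk ⟨x, hxG⟩ := by
  rw [ConjClasses.mk_eq_mk_iff_isConj] at hx
  obtain ⟨g, hg⟩ := isConj_iff.1 hx.symm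
  have hxG : x ∈ G := by
    rw [← hg]
    exact Subgroup.Normal.conj_mem inferInstance _ y.2 g
  refine ⟨hxG, ?_⟩
  have h1 := smul_preg_val p G g c y hy
  rw [hc g] at h1
  rw [h1]
  congr 1
  apply Subtype.ext
  change ((MulAut.conjNormal g y : G) : Γ) = x
  rw [← hg]
  simp

/-- Proof: a fixed point is a `p`-regular class of `G` which is stable under `Γ`, i.e. (as a subset of
`Γ`) a class `x ^ Γ` of `Γ` which is a single `G`-orbit, i.e. `Γ = G C_Γ(x)`. All `p`-regular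
elements of `Γ` lie in `G` (`preg_mem`). -/
theorem card_fix_preg (p : ℕ) [Fact p.Prime] {Γ : Type u} [Group Γ] [Finite Γ] (G : Subgroup Γ)
    [G.Normal] (h : IsPGroup p (Γ ⧸ G)) :
    Nat.card (MulAction.fixedPoints Γ (PReg p G)) = creg p G := by
  unfold creg cregM
  -- the representative
  have hrep : ∀ c : MulAction.fixedPoints Γ (PReg p G), ∃ y : G, c.1.1 = ConjClasses.mk y := by
    intro c
    obtain ⟨y, hy⟩ := ConjClasses.exists_rep c.1.1
    exact ⟨y, hy.symm⟩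
  choose r hr using hrep
  have hfix : ∀ c : MulAction.fixedPoints Γ (PReg p G), ∀ γ : Γ, γ • c.1 = c.1 := by
    intro c γ
    exact c.2 γ
  have hgood : ∀ c : MulAction.fixedPoints Γ (PReg p G),
      ∀ x : Γ, ConjClasses.mk x = ConjClasses.mk ((r c : G) : Γ) →
        ¬ p ∣ orderOf x ∧ G ⊔ Subgroup.centralizer {x} = ⊤ := by
    intro c x hx
    obtain ⟨hxG, hcx⟩ := fix_rep p G c.1 (hfix c) (r c) (hr c) x hx
    constructor
    · have h1 := c.1.2 ⟨x, hxG⟩ hcx.symm
      rwa [Subgroup.orderOf_mk] at h1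
    · rw [eq_top_iff]
      intro γ _
      have h2 := smul_preg_val p G γ c.1 ⟨x, hxG⟩ hcx
      rw [hfix c γ, hcx, ConjClasses.mk_eq_mk_iff_isConj] at h2
      obtain ⟨g, hg⟩ := isConj_iff.1 h2
      have hg' : (g : Γ) * x * (g : Γ)⁻¹ = γ * x * γ⁻¹ := by
        have := congrArg (Subtype.val) hg
        simpa using this
      have h3 : γ = (g : Γ) * ((g : Γ)⁻¹ * γ) := by group
      rw [h3]
      apply Subgroup.mul_mem_sup g.2
      rw [Subgroup.mem_centralizer_singleton_iff]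
      have h4 : x * ((g : Γ)⁻¹ * γ) = (g : Γ)⁻¹ * ((g : Γ) * x * (g : Γ)⁻¹) * γ := by group
      rw [h4, hg']
      group
  refine Nat.card_congr (Equiv.ofBijective
    (fun c => ⟨ConjClasses.mk ((r c : G) : Γ), hgood c⟩) ⟨?_, ?_⟩)
  · intro c c' hcc
    have h1 : ConjClasses.mk ((r c : G) : Γ) = ConjClasses.mk ((r c' : G) : Γ) :=
      congrArg Subtype.val hcc
    obtain ⟨hxG, hcx⟩ := fix_rep p G c'.1 (hfix c') (r c') (hr c') (r c) h1
    apply Subtype.ext
    apply Subtype.ext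
    rw [hr c, hcx]
  · rintro ⟨d, hd⟩
    obtain ⟨x, rfl⟩ := ConjClasses.exists_rep d
    obtain ⟨hx1, hx2⟩ := hd x rfl
    have hxG : x ∈ G := preg_mem p G h x hx1
    have hreg : ∀ z, ConjClasses.mk z = ConjClasses.mk (⟨x, hxG⟩ : G) → ¬ p ∣ orderOf z := by
      intro z hz
      rw [ConjClasses.mk_eq_mk_iff_isConj] at hz
      obtain ⟨g, hg⟩ := isConj_iff.1 hz
      have h5 : orderOf z = orderOf (⟨x, hxG⟩ : G) := by
        rw [← hg]
        exact ((MulAut.conj g).orderOf_eq z).symm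
      rw [h5, Subgroup.orderOf_mk]
      exact hx1
    let cx : PReg p G := ⟨ConjClasses.mk (⟨x, hxG⟩ : G), hreg⟩
    have hfx : ∀ γ : Γ, γ • cx = cx := by
      intro γ
      apply Subtype.ext
      rw [smul_preg_val p G γ _ ⟨x, hxG⟩ rfl]
      change _ = ConjClasses.mk (⟨x, hxG⟩ : G)
      rw [ConjClasses.mk_eq_mk_iff_isConj]
      have hγ : γ ∈ G ⊔ Subgroup.centralizer {x} := by rw [hx2]; trivial
      rw [← SetLike.mem_coe, Subgroup.normal_mul] at hγ
      obtain ⟨g, hg, z, hz, rfl⟩ := Set.mem_mul.1 hγ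
      rw [SetLike.mem_coe, Subgroup.mem_centralizer_singleton_iff] at hz
      refine (isConj_iff.2 ⟨⟨g, hg⟩, ?_⟩).symm
      apply Subtype.ext
      have h6 : x = z * x * z⁻¹ := by
        rw [hz]; group
      simpa using h6
    refine ⟨⟨cx, hfx⟩, ?_⟩
    apply Subtype.ext
    have h7 := hr ⟨cx, hfx⟩
    change ConjClasses.mk (⟨x, hxG⟩ : G) = _ at h7
    rw [ConjClasses.mk_eq_mk_iff_isConj] at h7
    obtain ⟨g, hg⟩ := isConj_iff.1 h7
    change ConjClasses.mk _ = ConjClasses.mk x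
    rw [ConjClasses.mk_eq_mk_iff_isConj]
    refine (isConj_iff.2 ⟨(g : Γ), ?_⟩).symm
    have := congrArg Subtype.val hg
    simpa using this

end Pool.Agent.Nav
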