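import Pool.Agent.Nav.TrSpan

/-!
# NAV-Span : indicator functions of `p`-regular classes are combinations of irreducible characters
(on `p`-regular elements)
-/

namespace Pool.Agent.Nav

open scoped Classical

universe u v

namespace Span

/-- the trace of `f ↦ f ∘ σ` is the number of fixed points of `σ` -/
theorem trace_funLeft {k : Type v} [Field k] {X : Type u} [Fintype X] (σ : X → X) :
    LinearMap.trace k (X → k) (LinearMap.funLeft k k σ) =
      ((Nat.card {c // σ c = c} : ℕ) : k) := by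
  rw [LinearMap.trace_eq_matrix_trace k (Pi.basisFun k X), Matrix.trace]
  have h : ∀ i, (LinearMap.toMatrix (Pi.basisFun k X) (Pi.basisFun k X)
      (LinearMap.funLeft k k σ)).diag i = if σ i = i then 1 else 0 := by
    intro i
    rw [Matrix.diag_apply, LinearMap.toMatrix_apply]
    simp [LinearMap.funLeft_apply, Pi.single_apply]
  rw [Finset.sum_congr rfl fun i _ => h i, Finset.sum_boole, Nat.card_eq_fintype_card,
    Fintype.card_subtype]

/-- an element of `p`-power order commuting with the `p`-regular `x` such that `x * q⁻¹` is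
`p`-regular is trivial -/
theorem eq_one_of_regular {p : ℕ} (hp : p.Prime) {H : Type u} [Group H] [Finite H] {x q : H}
    (hx : ¬ p ∣ orderOf x) (hq : ∃ n, q ^ p ^ n = 1) (hc : Commute x q)
    (hy : ¬ p ∣ orderOf (x * q⁻¹)) : q = 1 := by
  by_contra hne
  obtain ⟨n, hn⟩ := hq
  have h1 : orderOf q ∣ p ^ n := orderOf_dvd_of_pow_eq_one hn
  obtain ⟨m, -, hm⟩ := (Nat.dvd_prime_pow hp).1 h1
  have hm0 : m ≠ 0 := by
    rintro rfl
    rw [pow_zero] at hm
    exact hne (orderOf_eq_one_iff.1 hm)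
  have h2 : p ∣ orderOf q := by
    rw [hm]
    exact dvd_pow_self p hm0
  have h3 : q = (x * q⁻¹)⁻¹ * x := by
    rw [mul_inv_rev, inv_inv, mul_assoc, inv_mul_cancel, mul_one]
  have hcom : Commute ((x * q⁻¹)⁻¹) x := by
    refine Commute.inv_left ?_
    exact (Commute.refl x).mul_left (hc.symm.inv_left)
  have h4 : orderOf q ∣ Nat.lcm (orderOf (x * q⁻¹)) (orderOf x) := by
    have := hcom.orderOf_mul_dvd_lcm
    rw [← h3, orderOf_inv] at this
    exact this
  have h5 : p ∣ orderOf (x * q⁻¹) * orderOf x :=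
    (h2.trans h4).trans (Nat.lcm_dvd_mul _ _)
  rcases hp.dvd_mul.1 h5 with h | h
  · exact hy h
  · exact hx h

end Span

open Pool.Agent.Nav.Span in
/-- Let `x` be `p`-regular. Some combination `f` of irreducible characters satisfies, for all
`p`-regular `g`: `f g = 1` if `g` is conjugate to `x` and `f g = 0` otherwise.

Proof: let `Q` be a Sylow `p`-subgroup of `C = C_H(x)` (as a subgroup of `H`). Let `V` be the
permutation module with basis `H / Q` (e.g. `(H ⧸ Q) → k` or `(H ⧸ Q) →₀ k`, universe: use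
`ULift` or the space `Fin n → k` if needed), and `θ` the map `h Q ↦ h x⁻¹ Q`; it is well defined
since `x` normalises `Q` (it centralises it), and commutes with `H`. Then `tr (g ∘ θ)` is the number
of cosets `h Q` with `g h x⁻¹ Q = h Q`, i.e. `h⁻¹ g h ∈ Q x` (`x` commutes with `Q`). An element
`q x` (`q ∈ Q` of `p`-power order, `x` `p`-regular, commuting) is `p`-regular only for `q = 1`. So for
`p`-regular `g` the trace is the number of cosets `h Q` with `h⁻¹ g h = x`, which is `0` if `g` is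
not conjugate to `x` and `|C| / |Q|` otherwise (the set `{h | h⁻¹ g h = x}` is a coset of `C`, a
union of cosets of `Q`). `|C| / |Q|` is prime to `p`, so it is invertible in `k`; divide by it and
use `tr_span`. -/
theorem ind_span {p : ℕ} [Fact p.Prime] {k : Type v} [Field k] [IsAlgClosed k] [CharP k p]
    {H : Type u} [Group H] [Finite H] (x : H) (hx : ¬ p ∣ orderOf x) :
    ∃ f ∈ Submodule.span k (Set.range fun c : IrrClass k H => (chi c : H → k)),
      ∀ g, ¬ p ∣ orderOf g → f g = if IsConj g x then 1 else 0 := by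
  have hp : p.Prime := Fact.out
  -- the Sylow subgroup of the centraliser
  obtain ⟨P⟩ : Nonempty (Sylow p (Subgroup.centralizer {x} : Subgroup H)) := inferInstance
  obtain ⟨Q, hQC, hQp, N, hN, hpN⟩ : ∃ Q : Subgroup H, Q ≤ Subgroup.centralizer {x} ∧
      IsPGroup p Q ∧ ∃ N : ℕ, Nat.card (Subgroup.centralizer {x} : Subgroup H) =
        Nat.card Q * N ∧ ¬ p ∣ N := by
    refine ⟨(P : Subgroup (Subgroup.centralizer {x} : Subgroup H)).map
      (Subgroup.centralizer {x}).subtype, Subgroup.map_subtype_le _, P.isPGroup'.map _,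
      (P : Subgroup (Subgroup.centralizer {x} : Subgroup H)).index, ?_, P.not_dvd_index⟩
    rw [Subgroup.card_map_of_injective (Subgroup.subtype_injective _)]
    exact (Subgroup.card_mul_index _).symm
  have hcomm : ∀ q ∈ Q, Commute x q := fun q hq =>
    (Subgroup.mem_centralizer_singleton_iff.1 (hQC hq)).symm
  have hfin : Finite (H ⧸ Q) := inferInstance
  let _ : Fintype (H ⧸ Q) := Fintype.ofFinite _
  -- the map `h Q ↦ h x Q`
  let θ₀ : H ⧸ Q → H ⧸ Q := Quotient.map' (fun h => h * x) (by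
    intro a b hab
    rw [QuotientGroup.leftRel_apply] at hab ⊢
    have h1 : (a * x)⁻¹ * (b * x) = a⁻¹ * b := by
      have h2 := (hcomm _ hab).eq
      calc (a * x)⁻¹ * (b * x) = x⁻¹ * ((a⁻¹ * b) * x) := by group
        _ = x⁻¹ * (x * (a⁻¹ * b)) := by rw [h2]
        _ = a⁻¹ * b := by group
    rw [h1]
    exact hab)
  have hθ₀ : ∀ h : H, θ₀ (h : H ⧸ Q) = ((h * x : H) : H ⧸ Q) := fun h => rfl
  -- the permutation module
  let τ : Representation k H ((H ⧸ Q) → k) :=
    { toFun := fun g => LinearMap.funLeft k k fun c => g⁻¹ • c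
      map_one' := by
        ext f c
        simp [LinearMap.funLeft_apply]
      map_mul' := by
        intro g g'
        apply LinearMap.ext
        intro f
        funext c
        simp [LinearMap.funLeft_apply, mul_smul] }
  have hτ : ∀ g, τ g = LinearMap.funLeft k k fun c => g⁻¹ • c := fun g => rfl
  let θ : ((H ⧸ Q) → k) →ₗ[k] ((H ⧸ Q) → k) := LinearMap.funLeft k k θ₀
  have hθτ : ∀ h, θ ∘ₗ τ h = τ h ∘ₗ θ := by
    intro h
    apply LinearMap.ext
    intro f
    funext c
    induction c using QuotientGroup.induction_on with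
    | H a =>
      show f (h⁻¹ • θ₀ (a : H ⧸ Q)) = f (θ₀ (h⁻¹ • (a : H ⧸ Q)))
      congr 1
      rw [hθ₀]
      show ((h⁻¹ * (a * x) : H) : H ⧸ Q) = θ₀ ((h⁻¹ * a : H) : H ⧸ Q)
      rw [hθ₀, mul_assoc]
  have hspan := tr_span τ θ hθτ
  have hN0 : (N : k) ≠ 0 := by
    rw [Ne, CharP.cast_eq_zero_iff k p]
    exact hpN
  refine ⟨(N : k)⁻¹ • fun h => LinearMap.trace k ((H ⧸ Q) → k) (τ h ∘ₗ θ),
    Submodule.smul_mem _ _ hspan, fun g hg => ?_⟩
  rw [Pi.smul_apply, smul_eq_mul]
  have htr : τ g ∘ₗ θ = LinearMap.funLeft k k fun c => θ₀ (g⁻¹ • c) := by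
    apply LinearMap.ext
    intro f
    rfl
  rw [htr, trace_funLeft]
  -- fixed points
  have hfix : ∀ h : H, θ₀ (g⁻¹ • (h : H ⧸ Q)) = (h : H ⧸ Q) ↔ h⁻¹ * g * h = x := by
    intro h
    have e1 : θ₀ (g⁻¹ • (h : H ⧸ Q)) = ((g⁻¹ * h * x : H) : H ⧸ Q) := by
      show θ₀ ((g⁻¹ * h : H) : H ⧸ Q) = _
      rw [hθ₀]
    rw [e1, eq_comm, QuotientGroup.eq]
    constructor
    · intro hq
      set q := h⁻¹ * (g⁻¹ * h * x) with hqd
      have e2 : x * q⁻¹ = h⁻¹ * g * h := by
        rw [hqd]; group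
      have hreg : ¬ p ∣ orderOf (x * q⁻¹) := by
        rw [e2]
        have e3 : orderOf (h⁻¹ * g * h) = orderOf g := by
          have h4 : h⁻¹ * g * h = MulAut.conj h⁻¹ g := by
            rw [MulAut.conj_apply, inv_inv]
          rw [h4]
          exact (MulAut.conj h⁻¹).orderOf_eq g
        rw [e3]
        exact hg
      have hqpow : ∃ n, q ^ p ^ n = 1 := by
        obtain ⟨n, hn⟩ := hQp ⟨q, hq⟩
        exact ⟨n, by simpa using congrArg Subtype.val hn⟩
      have hq1 := eq_one_of_regular hp hx hqpow (hcomm q hq) hreg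
      rw [← e2, hq1, inv_one, mul_one]
    · intro hh
      have e2 : h⁻¹ * (g⁻¹ * h * x) = 1 := by
        rw [← hh]; group
      rw [e2]
      exact Q.one_mem
  by_cases hcj : IsConj g x
  · rw [if_pos hcj]
    obtain ⟨c, hc⟩ := isConj_iff.1 hcj
    -- c * g * c⁻¹ = x
    set S : Set (H ⧸ Q) := {c | θ₀ (g⁻¹ • c) = c} with hSd
    have hS1 : Nat.card {c : H ⧸ Q // θ₀ (g⁻¹ • c) = c} = Nat.card S := rfl
    have hS2 : Nat.card ((QuotientGroup.mk : H → H ⧸ Q) ⁻¹' S) = Nat.card Q * Nat.card S := by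
      rw [Nat.card_congr (QuotientGroup.preimageMkEquivSubgroupProdSet Q S), Nat.card_prod]
    have hS3 : Nat.card ((QuotientGroup.mk : H → H ⧸ Q) ⁻¹' S) =
        Nat.card (Subgroup.centralizer {x} : Subgroup H) := by
      refine Nat.card_congr
        { toFun := fun h => ⟨c * h.1, ?_⟩
          invFun := fun z => ⟨c⁻¹ * z.1, ?_⟩
          left_inv := fun h => by simp
          right_inv := fun z => by simp }
      · have h1 : h.1⁻¹ * g * h.1 = x := (hfix h.1).1 h.2
        rw [Subgroup.mem_centralizer_singleton_iff]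
        have h2 : g = h.1 * x * h.1⁻¹ := by rw [← h1]; group
        have h3 : c * (h.1 * x * h.1⁻¹) * c⁻¹ = x := by rw [← h2]; exact hc
        calc c * h.1 * x = (c * (h.1 * x * h.1⁻¹) * c⁻¹) * (c * h.1) := by group
          _ = x * (c * h.1) := by rw [h3]
      · have h1 := Subgroup.mem_centralizer_singleton_iff.1 z.2
        show θ₀ (g⁻¹ • ((c⁻¹ * z.1 : H) : H ⧸ Q)) = ((c⁻¹ * z.1 : H) : H ⧸ Q)
        rw [hfix]
        calc (c⁻¹ * z.1)⁻¹ * g * (c⁻¹ * z.1) = z.1⁻¹ * (c * g * c⁻¹) * z.1 := by group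
          _ = z.1⁻¹ * (x * z.1) := by rw [hc, mul_assoc]
          _ = x := by rw [← h1]; group
    have hS4 : Nat.card S = N := by
      have h1 : Nat.card Q * Nat.card S = Nat.card Q * N := by rw [← hS2, hS3, hN]
      exact Nat.eq_of_mul_eq_mul_left Nat.card_pos h1
    rw [hS1, hS4, inv_mul_cancel₀ hN0]
  · rw [if_neg hcj]
    have h0 : IsEmpty {c : H ⧸ Q // θ₀ (g⁻¹ • c) = c} := by
      refine ⟨?_⟩
      rintro ⟨c, hc⟩
      induction c using QuotientGroup.induction_on with
      | H a =>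
        apply hcj
        rw [isConj_iff]
        exact ⟨a⁻¹, by rw [inv_inv]; exact (hfix a).1 hc⟩
    rw [Nat.card_of_isEmpty, Nat.cast_zero, mul_zero]

end Pool.Agent.Nav
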