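import Pool.Agent.Nav.API

/-!
# NAV-TrReg : characters in characteristic `p` only see the `p`-regular part
-/

namespace Pool.Agent.Nav

universe u v

/-- Multiplying by a commuting element of `p`-power order does not change the character in
characteristic `p`. Proof: `ρ (x * y) = ρ x + ρ x * (ρ y - 1)` and `ρ x * (ρ y - 1)` is nilpotent
(`(ρ y - 1) ^ (p ^ n) = ρ y ^ (p ^ n) - 1 = 0`, the factors commute), so its trace is nilpotent in
the field `k` (`LinearMap.isNilpotent_trace_of_isNilpotent`), i.e. `0`. -/
theorem char_mul_punip {p : ℕ} [Fact p.Prime] {k : Type v} [Field k] [CharP k p]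
    {H : Type u} [Group H] {V : Type*} [AddCommGroup V] [Module k V] [FiniteDimensional k V]
    (ρ : Representation k H V) (x y : H) (hxy : x * y = y * x) (n : ℕ) (hy : y ^ (p ^ n) = 1) :
    ρ.character (x * y) = ρ.character x := by
  have hcomm : Commute (ρ x) (ρ y - 1) := by
    have h1 : Commute (ρ x) (ρ y) := by
      show ρ x * ρ y = ρ y * ρ x
      rw [← map_mul, ← map_mul, hxy]
    exact h1.sub_right (Commute.one_right _)
  have hnil : IsNilpotent (ρ y - 1) := by
    refine ⟨p ^ n, ?_⟩
    rcases subsingleton_or_nontrivial V with hV | hV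
    · apply LinearMap.ext
      intro v
      exact Subsingleton.elim _ _
    · have : CharP (Module.End k V) p :=
        charP_of_injective_algebraMap (algebraMap k (Module.End k V)).injective p
      rw [sub_pow_char_pow_of_commute _ _ (Commute.one_right _), ← map_pow, hy, map_one,
        one_pow, sub_self]
  have h0 : IsNilpotent (ρ x * (ρ y - 1)) := hcomm.isNilpotent_mul_left hnil
  have h1 : LinearMap.trace k V (ρ x * (ρ y - 1)) = 0 :=
    (LinearMap.isNilpotent_trace_of_isNilpotent h0).eq_zero
  have h2 : ρ (x * y) = ρ x + ρ x * (ρ y - 1) := by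
    rw [map_mul]; noncomm_ring
  show LinearMap.trace k V (ρ (x * y)) = LinearMap.trace k V (ρ x)
  rw [h2, map_add, h1, add_zero]

/-- Every element `x` of a finite group is a commuting product of a `p`-regular element (a power of
`x`) and an element of `p`-power order. -/
theorem exists_preg (p : ℕ) [Fact p.Prime] {H : Type u} [Group H] [Finite H] (x : H) :
    ∃ (r : ℕ) (y : H) (n : ℕ), x = x ^ r * y ∧ x ^ r * y = y * x ^ r ∧ y ^ (p ^ n) = 1 ∧
      ¬ p ∣ orderOf (x ^ r) := by
  have hp : p.Prime := Fact.out
  have hpos : 0 < orderOf x := orderOf_pos x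
  obtain ⟨n, m, hm, hnm⟩ := Nat.exists_eq_pow_mul_and_not_dvd hpos.ne' p hp.ne_one
  have hcop : Nat.Coprime (p ^ n) m :=
    Nat.Coprime.pow_left n ((Nat.Prime.coprime_iff_not_dvd hp).2 hm)
  obtain ⟨r, hr1, hr2⟩ := Nat.chineseRemainder hcop 0 1
  obtain ⟨s, hs1, hs2⟩ := Nat.chineseRemainder hcop 1 0
  refine ⟨r, x ^ s, n, ?_, ?_, ?_, ?_⟩
  · rw [← pow_add]
    have h1 : 1 ≡ r + s [MOD p ^ n * m] := by
      rw [← Nat.modEq_and_modEq_iff_modEq_mul hcop]
      constructor
      · have := hr1.add hs1
        simpa using this.symm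
      · have := hr2.add hs2
        simpa using this.symm
    rw [← hnm] at h1
    have h2 := (pow_eq_pow_iff_modEq (x := x)).2 h1
    rwa [pow_one] at h2
  · rw [← pow_add, ← pow_add, add_comm]
  · rw [← pow_mul, ← orderOf_dvd_iff_pow_eq_one, hnm, mul_comm s]
    exact Nat.mul_dvd_mul_left _ ((Nat.modEq_zero_iff_dvd).1 hs2)
  · intro hdiv
    apply hm
    refine hdiv.trans ?_
    rw [orderOf_dvd_iff_pow_eq_one, ← pow_mul, ← orderOf_dvd_iff_pow_eq_one, hnm]
    exact Nat.mul_dvd_mul_right ((Nat.modEq_zero_iff_dvd).1 hr1) _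

/-- Two linear combinations of characters which agree on the `p`-regular elements are equal. -/
theorem chi_ext {p : ℕ} [Fact p.Prime] {k : Type v} [Field k] [CharP k p]
    {H : Type u} [Group H] [Finite H] (f : H → k)
    (hf : f ∈ Submodule.span k (Set.range fun c : IrrClass k H => (chi c : H → k)))
    (h0 : ∀ x, ¬ p ∣ orderOf x → f x = 0) : f = 0 := by
  have key : ∀ (x y : H) (n : ℕ), x * y = y * x → y ^ (p ^ n) = 1 → f (x * y) = f x := by
    clear h0
    intro x y n hxy hy
    induction hf using Submodule.span_induction with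
    | mem g hg =>
      obtain ⟨c, rfl⟩ := hg
      induction c using Quotient.inductionOn with
      | _ ρ =>
        show ρ.rep.character (x * y) = ρ.rep.character x
        exact char_mul_punip ρ.rep x y hxy n hy
    | zero => rfl
    | add g h _ _ hg hh =>
      show g (x * y) + h (x * y) = g x + h x
      rw [hg, hh]
    | smul a g _ hg =>
      show a • g (x * y) = a • g x
      rw [hg]
  funext x
  obtain ⟨r, y, n, h1, h2, h3, h4⟩ := exists_preg p x
  rw [h1, key (x ^ r) y n h2 h3]
  exact h0 _ h4

end Pool.Agent.Nav
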