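import Pool.Agent.Nav.Dens
import Pool.Agent.Nav.TrReg
import Pool.Agent.Nav.Span
import Pool.Agent.Nav.FixLem
import Pool.Agent.Nav.LHSA
import Pool.Agent.Nav.LHSB

/-!
# NAV-LHS : the left hand side is the number of invariant `p`-regular classes
-/

namespace Pool.Agent.Nav

universe u v

/-- the value of a combination of characters only depends on the class -/
theorem lhs_span_conj {k : Type v} [Field k] {H : Type u} [Group H] (f : H → k)
    (hf : f ∈ Submodule.span k (Set.range fun c : IrrClass k H => (chi c : H → k))) :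
    ∀ x y : H, IsConj x y → f x = f y := by
  induction hf using Submodule.span_induction with
  | mem f hf =>
    obtain ⟨c, rfl⟩ := hf
    intro x y hxy
    obtain ⟨g, rfl⟩ := isConj_iff.1 hxy
    exact (chi_conj c g x).symm
  | zero => intro x y _; rfl
  | add f g _ _ hf hg =>
    intro x y hxy
    rw [Pi.add_apply, Pi.add_apply, hf x y hxy, hg x y hxy]
  | smul a f _ hf =>
    intro x y hxy
    rw [Pi.smul_apply, Pi.smul_apply, hf x y hxy]

/-- a representative of a `p`-regular class -/
noncomputable def lhsRep (p : ℕ) {H : Type u} [Group H] (c : PReg p H) : H :=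
  (ConjClasses.exists_rep c.1).choose

theorem lhsRep_spec (p : ℕ) {H : Type u} [Group H] (c : PReg p H) :
    ConjClasses.mk (lhsRep p c) = c.1 := (ConjClasses.exists_rep c.1).choose_spec

theorem lhsRep_preg (p : ℕ) {H : Type u} [Group H] (c : PReg p H) :
    ¬ p ∣ orderOf (lhsRep p c) := c.2 _ (lhsRep_spec p c)

/-- every `p`-regular element is conjugate to a representative -/
theorem lhsRep_exists (p : ℕ) {H : Type u} [Group H] (x : H) (hx : ¬ p ∣ orderOf x) :
    ∃ c : PReg p H, IsConj x (lhsRep p c) := by
  refine ⟨⟨ConjClasses.mk x, ?_⟩, ?_⟩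
  · intro y hy
    rw [ConjClasses.mk_eq_mk_iff_isConj] at hy
    obtain ⟨g, hg⟩ := isConj_iff.1 hy
    have h1 : orderOf x = orderOf y := by
      rw [← hg]
      exact (MulAut.conj g).orderOf_eq y
    rwa [← h1]
  · exact (ConjClasses.mk_eq_mk_iff_isConj.1 (lhsRep_spec p _)).symm

/-- restriction to the representatives -/
noncomputable def lhsRes (p : ℕ) (k : Type v) [Field k] (H : Type u) [Group H] :
    (H → k) →ₗ[k] (PReg p H → k) where
  toFun f c := f (lhsRep p c)
  map_add' _ _ := rfl
  map_smul' _ _ := rfl

/-- Proof: `fix_card` with `A = IrrClass k G`, `C = PReg p G`, `M a c = chi a (c.1.out)` (or any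
representative; `chi_conj`). Equivariance: `chi_smul`. `hA`, `hC`: `orbit_dvd`, `triv_irr`,
`triv_preg`. `hinj`: a combination of the rows vanishes on all `p`-regular elements, so it is `0` by
`chi_ext`, then `tr_indep`. `hspan`: `ind_span` (the indicator functions span the functions on `C`).
Then `card_fix_irr`, `card_fix_preg`. -/
theorem ibrInv_eq (p : ℕ) [Fact p.Prime] (k : Type v) [Field k] [IsAlgClosed k] [CharP k p]
    {Γ : Type u} [Group Γ] [Finite Γ] (G : Subgroup Γ) [G.Normal] (h : IsPGroup p (Γ ⧸ G)) :
    ibrInv k G = creg p G := by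
  classical
  have hfin := finite_irr k G
  have hfinC : Finite (PReg p G) := inferInstance
  have := Fintype.ofFinite (PReg p G)
  let φ := lhsRes p k G
  let M : IrrClass k G → PReg p G → k := fun a => φ (chi a)
  have hM : ∀ (g : Γ) (a : IrrClass k G) (c : PReg p G), M (g • a) (g • c) = M a c := by
    intro g a c
    have h1 : IsConj (lhsRep p (g • c)) (MulAut.conjNormal g (lhsRep p c)) := by
      rw [← ConjClasses.mk_eq_mk_iff_isConj, lhsRep_spec]
      exact smul_preg_val p G g c _ (lhsRep_spec p c).symm
    have h2 := lhs_span_conj (chi (g • a)) (Submodule.subset_span ⟨g • a, rfl⟩) _ _ h1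
    change chi (g • a) (lhsRep p (g • c)) = chi a (lhsRep p c)
    rw [h2, chi_smul]
    congr 1
    ext
    simp
  have hinj : LinearIndependent k M := by
    have h1 := tr_indep k G
    refine h1.map_injOn φ ?_
    intro f hf f' hf' hff
    have h2 : f - f' = 0 := by
      apply chi_ext (p := p) (f - f') (Submodule.sub_mem _ hf hf')
      intro x hx
      obtain ⟨c, hc⟩ := lhsRep_exists p x hx
      rw [lhs_span_conj (f - f') (Submodule.sub_mem _ hf hf') _ _ hc, Pi.sub_apply, sub_eq_zero]
      exact congrFun hff c
    exact sub_eq_zero.1 h2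
  have hspan : Submodule.span k (Set.range M) = ⊤ := by
    have h1 : Submodule.span k (Set.range M) =
        Submodule.map φ (Submodule.span k (Set.range fun c : IrrClass k G => (chi c : G → k))) := by
      rw [Submodule.map_span, ← Set.range_comp]
      rfl
    have h2 : ∀ c : PReg p G, (Pi.single c 1 : PReg p G → k) ∈ Submodule.span k (Set.range M) := by
      intro c
      obtain ⟨f, hf, hf2⟩ := ind_span (p := p) (k := k) (lhsRep p c) (lhsRep_preg p c)
      rw [h1]
      refine ⟨f, hf, ?_⟩
      funext c'
      change f (lhsRep p c') = _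
      rw [hf2 _ (lhsRep_preg p c'), Pi.single_apply]
      have h3 : IsConj (lhsRep p c') (lhsRep p c) ↔ c' = c := by
        rw [← ConjClasses.mk_eq_mk_iff_isConj, lhsRep_spec, lhsRep_spec]
        exact ⟨fun h => Subtype.ext h, fun h => by rw [h]⟩
      by_cases h4 : c' = c
      · rw [if_pos h4, if_pos (h3.2 h4)]
      · rw [if_neg h4, if_neg (fun h => h4 (h3.1 h))]
    rw [Submodule.eq_top_iff']
    intro F
    have h3 : F = ∑ c, F c • (Pi.single c 1 : PReg p G → k) := by
      funext c'
      simp only [Finset.sum_apply, Pi.smul_apply, smul_eq_mul, Pi.single_apply, mul_ite, mul_one,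
        mul_zero]
      rw [Finset.sum_ite_eq]
      simp
    rw [h3]
    exact Submodule.sum_mem _ fun c _ => Submodule.smul_mem _ _ (h2 c)
  rw [← card_fix_irr G, ← card_fix_preg p G h]
  exact fix_card (p := p) (fun a ha => orbit_dvd G h (fun g hg c => triv_irr G g hg c) a ha)
    (fun c hc => orbit_dvd G h (fun g hg c => triv_preg p G g hg c) c hc) M hM hinj hspan

end Pool.Agent.Nav
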