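import Pool.Agent.Nav.Infl
import Pool.Agent.Nav.LHS

/-!
# NAV2-QuotB : the left hand side does not change modulo a normal `p`-subgroup
-/

namespace Pool.Agent.Nav

universe u v

variable {Γ : Type u} [Group Γ] [Finite Γ]

omit [Finite Γ] in
theorem quotB_ker (p : ℕ) (G Z : Subgroup Γ) [Z.Normal] (hZ : IsPGroup p Z) :
    IsPGroup p ((QuotientGroup.mk' Z).subgroupMap G).ker := by
  intro x
  obtain ⟨⟨g, hg⟩, hx⟩ := x
  have h1 : (QuotientGroup.mk' Z) g = 1 := by
    have h2 := MonoidHom.mem_ker.1 hx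
    exact congrArg Subtype.val h2
  have h3 : g ∈ Z := by
    rw [← QuotientGroup.ker_mk' Z]
    exact MonoidHom.mem_ker.2 h1
  obtain ⟨n, hn⟩ := hZ ⟨g, h3⟩
  have h4 : g ^ p ^ n = 1 := congrArg Subtype.val hn
  refine ⟨n, ?_⟩
  apply Subtype.ext
  apply Subtype.ext
  exact h4

omit [Finite Γ] in
theorem quotB_smul {k : Type v} [Field k]
    (G Z : Subgroup Γ) [G.Normal] [Z.Normal] [(G.map (QuotientGroup.mk' Z)).Normal]
    (γ : Γ) (c : IrrClass k (G.map (QuotientGroup.mk' Z))) :
    γ • (inflC ((QuotientGroup.mk' Z).subgroupMap G)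
      ((QuotientGroup.mk' Z).subgroupMap_surjective G) c) =
      inflC ((QuotientGroup.mk' Z).subgroupMap G)
      ((QuotientGroup.mk' Z).subgroupMap_surjective G) ((QuotientGroup.mk' Z γ) • c) := by
  rw [smul_irr_def, smul_irr_def]
  apply twist_infl
  intro x
  apply Subtype.ext
  simp

/-- Proof: `q : G → G Z / Z` is surjective with kernel `Z ⊓ G`, a `p`-group. `inflC q` is a bijection
of the classes (`inflC_inj`, `inflC_surj`), compatible with conjugation by `γ` and by its image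
(`twist_infl`), so it induces a bijection of the fixed points (`card_fix_irr`). -/
theorem ibrInv_quot (p : ℕ) [Fact p.Prime] (k : Type v) [Field k] [CharP k p]
    (G Z : Subgroup Γ) [G.Normal] [Z.Normal] [(G.map (QuotientGroup.mk' Z)).Normal]
    (hZ : IsPGroup p Z) : ibrInv k (G.map (QuotientGroup.mk' Z)) = ibrInv k G := by
  rw [← card_fix_irr, ← card_fix_irr]
  have hinj := inflC_inj (K := k) ((QuotientGroup.mk' Z).subgroupMap G)
    ((QuotientGroup.mk' Z).subgroupMap_surjective G)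
  have hsurj := inflC_surj (K := k) (p := p) ((QuotientGroup.mk' Z).subgroupMap G)
    ((QuotientGroup.mk' Z).subgroupMap_surjective G) (quotB_ker p G Z hZ)
  have hfix : ∀ c : IrrClass k (G.map (QuotientGroup.mk' Z)),
      (∀ γ : Γ, γ • (inflC ((QuotientGroup.mk' Z).subgroupMap G)
      ((QuotientGroup.mk' Z).subgroupMap_surjective G) c) =
      inflC ((QuotientGroup.mk' Z).subgroupMap G)
      ((QuotientGroup.mk' Z).subgroupMap_surjective G) c) ↔
      ∀ γ : Γ ⧸ Z, γ • c = c := by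
    intro c
    constructor
    · intro h γ
      obtain ⟨γ, rfl⟩ := QuotientGroup.mk'_surjective Z γ
      apply hinj
      rw [← quotB_smul, h]
    · intro h γ
      rw [quotB_smul, h]
  refine Nat.card_congr (Equiv.ofBijective (fun c => ⟨inflC ((QuotientGroup.mk' Z).subgroupMap G)
      ((QuotientGroup.mk' Z).subgroupMap_surjective G) c.1, (hfix c.1).2 c.2⟩) ⟨?_, ?_⟩)
  · intro c d hcd
    exact Subtype.ext (hinj (congrArg Subtype.val hcd))
  · rintro ⟨d, hd⟩
    obtain ⟨c, rfl⟩ := hsurj d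
    exact ⟨⟨c, (hfix c).1 hd⟩, rfl⟩

/-- Proof: `ibrInv_eq` with `k = AlgebraicClosure (ZMod p)`. -/
theorem creg_quot (p : ℕ) [Fact p.Prime] (G Z : Subgroup Γ) [G.Normal] [Z.Normal]
    (hZ : IsPGroup p Z) (hp : IsPGroup p (Γ ⧸ G)) :
    creg p (G.map (QuotientGroup.mk' Z)) = creg p G := by
  have hn : (G.map (QuotientGroup.mk' Z)).Normal :=
    Subgroup.Normal.map inferInstance _ (QuotientGroup.mk'_surjective Z)
  have : CharP (AlgebraicClosure (ZMod p)) p :=
    charP_of_injective_algebraMap (algebraMap (ZMod p) (AlgebraicClosure (ZMod p))).injective p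
  have hp' : IsPGroup p ((Γ ⧸ Z) ⧸ (G.map (QuotientGroup.mk' Z))) := by
    refine hp.of_surjective (QuotientGroup.map G (G.map (QuotientGroup.mk' Z))
      (QuotientGroup.mk' Z) (Subgroup.le_comap_map _ _)) ?_
    intro x
    obtain ⟨y, rfl⟩ := QuotientGroup.mk'_surjective _ x
    obtain ⟨z, rfl⟩ := QuotientGroup.mk'_surjective _ y
    exact ⟨QuotientGroup.mk z, rfl⟩
  rw [← ibrInv_eq p (AlgebraicClosure (ZMod p)) _ hp',
    ← ibrInv_eq p (AlgebraicClosure (ZMod p)) G hp]
  exact ibrInv_quot p _ G Z hZ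

end Pool.Agent.Nav
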