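import Pool.Agent.Nav.QuotW
import Pool.Agent.Nav.QuotB
import Pool.Agent.Nav.Main

/-!
# NAV2-Split : reduction to split extensions
-/

namespace Pool.Agent.Nav

universe u

/-- the two sides for `G ⊴ Γ` and `G Z / Z ⊴ Γ / Z`, `Z` a normal `p`-subgroup -/
theorem eq_quot (p : ℕ) [Fact p.Prime] {Γ : Type u} [Group Γ] [Finite Γ] (G Z : Subgroup Γ)
    [G.Normal] [Z.Normal] (hZ : IsPGroup p Z) (hp : IsPGroup p (Γ ⧸ G)) :
    creg p G = weights p G ↔
      creg p (G.map (QuotientGroup.mk' Z)) = weights p (G.map (QuotientGroup.mk' Z)) := by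
  rw [creg_quot p G Z hZ hp, weights_quot p G Z hZ]

/-- Proof: let `S` be a Sylow `p`-subgroup of `Γ`; `G S = Γ` as `Γ/G` is a `p`-group. Let
`Λ = G ⋊ S` (`SemidirectProduct`, `S` acting on `G` by conjugation) and `π : Λ → Γ`, `(g, s) ↦ g s`,
a surjective homomorphism whose kernel `Z` is a `p`-group (isomorphic to `S ⊓ G` by the second
component). Let `G₁` be the image of `G` in `Λ` (`SemidirectProduct.inl.range`), `P` the image of `S`: `G₁` is
normal, `Λ / G₁ ≅ S`, `G₁ ⊓ P = ⊥`, `G₁ ⊔ P = ⊤`, `π` maps `G₁` isomorphically onto `G`. Apply `h` to `G₁`,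
`eq_quot` to `Z`, and `eq_congr` to `Λ / Z ≃* Γ` (first isomorphism theorem), which maps
`G₁ Z / Z` onto `G`. The hypothesis on normal subgroups of index `p` is transported by `G ≃* G₁`. -/
theorem split_red (p : ℕ) [Fact p.Prime]
    (h : ∀ (Γ : Type u) [Group Γ] [Finite Γ] (G P : Subgroup Γ) [G.Normal],
      IsPGroup p P → G ⊓ P = ⊥ → G ⊔ P = ⊤ →
      (∀ N : Subgroup G, N.Normal → N.index ≠ p) → creg p G = weights p G)
    (Γ : Type u) [Group Γ] [Finite Γ] (G : Subgroup Γ) [G.Normal] (hp : IsPGroup p (Γ ⧸ G))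
    (hG : ∀ N : Subgroup G, N.Normal → N.index ≠ p) :
    creg p G = weights p G := by
  obtain ⟨S⟩ : Nonempty (Sylow p Γ) := inferInstance
  -- `G S = Γ`
  have hGS : G ⊔ (S : Subgroup Γ) = ⊤ := by
    rw [← Subgroup.index_eq_one]
    obtain ⟨n, hn⟩ := (isPGroup_iff_index p G).1 hp
    have h1 : (G ⊔ (S : Subgroup Γ)).index ∣ p ^ n := by
      rw [← hn]; exact Subgroup.index_dvd_of_le le_sup_left
    have h2 : (G ⊔ (S : Subgroup Γ)).index ∣ (S : Subgroup Γ).index :=
      Subgroup.index_dvd_of_le le_sup_right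
    obtain ⟨m, _, hm⟩ := (Nat.dvd_prime_pow (Fact.out : p.Prime)).1 h1
    rcases Nat.eq_zero_or_pos m with rfl | hm0
    · rw [hm, pow_zero]
    · exfalso
      apply S.not_dvd_index
      refine dvd_trans ?_ h2
      rw [hm]
      exact dvd_pow_self p hm0.ne'
  have hS : IsPGroup p (S : Subgroup Γ) := S.isPGroup'
  generalize (S : Subgroup Γ) = T at hGS hS
  -- the semidirect product
  let φ : T →* MulAut G := (MulAut.conjNormal (H := G)).comp T.subtype
  let π : G ⋊[φ] T →* Γ := SemidirectProduct.lift G.subtype T.subtype (by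
    intro s
    ext g
    simp [φ])
  have hπ : ∀ x : G ⋊[φ] T, π x = (x.left : Γ) * (x.right : Γ) := by
    intro x
    rfl
  have hfin : Finite (G ⋊[φ] T) :=
    Finite.of_injective (fun x : G ⋊[φ] T => ((x.left, x.right) : G × T)) (by
      intro x y hxy
      have h1 := (Prod.ext_iff.1 hxy).1
      have h2 := (Prod.ext_iff.1 hxy).2
      exact SemidirectProduct.ext h1 h2)
  let G₁ : Subgroup (G ⋊[φ] T) := (SemidirectProduct.inl : G →* G ⋊[φ] T).range
  let P : Subgroup (G ⋊[φ] T) := (SemidirectProduct.inr : T →* G ⋊[φ] T).range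
  have hG₁n : G₁.Normal := by
    show ((SemidirectProduct.inl : G →* G ⋊[φ] T).range).Normal
    rw [SemidirectProduct.range_inl_eq_ker_rightHom]
    infer_instance
  have hP : IsPGroup p P :=
    hS.of_equiv (MonoidHom.ofInjective (SemidirectProduct.inr_injective (φ := φ)))
  have hinf : G₁ ⊓ P = ⊥ := by
    rw [eq_bot_iff]
    rintro x ⟨⟨g, hg⟩, ⟨s, hs⟩⟩
    have h1 : s = 1 := by
      have := congrArg SemidirectProduct.right (hg.trans hs.symm)
      simpa using this.symm
    rw [Subgroup.mem_bot, ← hs, h1, map_one]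
  have hsup : G₁ ⊔ P = ⊤ := by
    rw [eq_top_iff]
    intro x _
    rw [← SemidirectProduct.inl_left_mul_inr_right x]
    exact Subgroup.mul_mem_sup ⟨x.left, rfl⟩ ⟨x.right, rfl⟩
  have hN : ∀ N : Subgroup G₁, N.Normal → N.index ≠ p := by
    intro N hNn hNi
    let e : G ≃* G₁ := MonoidHom.ofInjective (SemidirectProduct.inl_injective (φ := φ))
    refine hG (N.comap e.toMonoidHom) (hNn.comap _) ?_
    rw [Subgroup.index_comap_of_surjective N (f := e.toMonoidHom) e.surjective]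
    exact hNi
  have key := h (G ⋊[φ] T) G₁ P hP hinf hsup hN
  have hπs : Function.Surjective π := by
    intro γ
    have h1 : γ ∈ G ⊔ T := by rw [hGS]; trivial
    obtain ⟨g, hg, s, hs, rfl⟩ := Subgroup.mem_sup_of_normal_left.1 h1
    exact ⟨⟨⟨g, hg⟩, ⟨s, hs⟩⟩, rfl⟩
  have hZ : IsPGroup p π.ker := by
    refine hS.of_injective ((SemidirectProduct.rightHom : G ⋊[φ] T →* T).comp π.ker.subtype) ?_
    rw [injective_iff_map_eq_one]
    rintro ⟨x, hx⟩ hx1
    have h1 : x.right = 1 := hx1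
    rw [MonoidHom.mem_ker, hπ, h1] at hx
    have h2 : (x.left : Γ) = 1 := by simpa using hx
    apply Subtype.ext
    exact SemidirectProduct.ext (Subtype.ext h2) h1
  have hpΛ : IsPGroup p ((G ⋊[φ] T) ⧸ G₁) := by
    refine hS.of_surjective ((QuotientGroup.mk' G₁).comp SemidirectProduct.inr) ?_
    intro y
    obtain ⟨x, rfl⟩ := QuotientGroup.mk'_surjective G₁ y
    refine ⟨x.right, ?_⟩
    have h1 : (QuotientGroup.mk' G₁) (SemidirectProduct.inl x.left) = 1 := by
      rw [← MonoidHom.mem_ker, QuotientGroup.ker_mk']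
      exact ⟨x.left, rfl⟩
    conv_rhs => rw [← SemidirectProduct.inl_left_mul_inr_right x, map_mul, h1, one_mul]
    rfl
  rw [eq_quot p G₁ π.ker hZ hpΛ] at key
  have hmn : (G₁.map (QuotientGroup.mk' π.ker)).Normal :=
    Subgroup.Normal.map hG₁n _ (QuotientGroup.mk'_surjective _)
  refine (eq_congr p (QuotientGroup.quotientKerEquivOfSurjective π hπs)
    (G₁.map (QuotientGroup.mk' π.ker)) G ?_).1 key
  rw [Subgroup.map_map]
  ext γ
  constructor
  · rintro ⟨x, ⟨g, rfl⟩, rfl⟩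
    show π (SemidirectProduct.inl g) ∈ G
    rw [hπ]
    simp
  · intro hγ
    refine ⟨SemidirectProduct.inl ⟨γ, hγ⟩, ⟨⟨γ, hγ⟩, rfl⟩, ?_⟩
    show π (SemidirectProduct.inl ⟨γ, hγ⟩) = γ
    rw [hπ]
    simp

end Pool.Agent.Nav
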