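import Pool.Agent.Nav.Main2
import Pool.Agent.Nav.Split
import Pool.Agent.Nav.PerfB
import Pool.Agent.Nav.CentG

/-!
# NAV-Main3 : reduction to `O_p(Γ) = 1`
-/

namespace Pool.Agent.Nav

universe u

/-- `Γ` has no nontrivial normal `p`-subgroup -/
def OpTriv (p : ℕ) (Γ : Type u) [Group Γ] : Prop :=
  ∀ Z : Subgroup Γ, Z.Normal → IsPGroup p Z → Z = ⊥

/-- `G` has no normal subgroup of index `p` -/
def PPerfect (p : ℕ) (G : Type u) [Group G] : Prop :=
  ∀ N : Subgroup G, N.Normal → N.index ≠ p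

theorem min_red_aux (p : ℕ) [Fact p.Prime]
    (h1 : ∀ (Γ : Type u) [Group Γ] [Finite Γ], OpTriv p Γ →
      creg p (⊤ : Subgroup Γ) = weights p (⊤ : Subgroup Γ))
    (h2 : ∀ (Γ : Type u) [Group Γ] [Finite Γ] (G : Subgroup Γ) [G.Normal], OpTriv p Γ →
      Subgroup.centralizer (G : Set Γ) ≤ G → Nonempty ((Γ ⧸ G) ≃* Cpp p) →
      creg p G = weights p G) (n : ℕ) :
    ∀ (m : ℕ) (Γ : Type u) [Group Γ] [Finite Γ] (G : Subgroup Γ) [G.Normal],
      Nat.card Γ = n → G.index = m → IsPGroup p (Γ ⧸ G) → creg p G = weights p G := by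
  induction n using Nat.strong_induction_on with
  | _ n ihn =>
  intro m
  induction m using Nat.strong_induction_on with
  | _ m ihm =>
  intro Γ _ _ G _ hn hm hp
  by_cases hO : OpTriv p Γ
  swap
  · unfold OpTriv at hO
    push Not at hO
    obtain ⟨Z, hZn, hZp, hZne⟩ := hO
    rw [eq_quot p G Z hZp hp]
    have hsurj := QuotientGroup.mk'_surjective Z
    have hGn : (G.map (QuotientGroup.mk' Z)).Normal := Subgroup.Normal.map inferInstance _ hsurj
    have hcard : Nat.card (Γ ⧸ Z) < n := by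
      have h3 := Z.card_mul_index
      have h4 : Z.index = Nat.card (Γ ⧸ Z) := rfl
      rw [h4, hn] at h3
      have h5 : 1 < Nat.card Z := (Subgroup.one_lt_card_iff_ne_bot Z).2 hZne
      have h6 : 0 < Nat.card (Γ ⧸ Z) := Nat.card_pos
      nlinarith
    refine ihn _ hcard _ (Γ ⧸ Z) (G.map (QuotientGroup.mk' Z)) rfl rfl ?_
    rw [isPGroup_iff_index] at hp ⊢
    obtain ⟨s, hs⟩ := hp
    have h3 : (G.map (QuotientGroup.mk' Z)).index = (G ⊔ Z).index := by
      rw [Subgroup.index_map, QuotientGroup.ker_mk', MonoidHom.range_eq_top.2 hsurj,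
        Subgroup.index_top, mul_one]
    have h4 := Subgroup.relIndex_mul_index (le_sup_left : G ≤ G ⊔ Z)
    have h5 : (G.map (QuotientGroup.mk' Z)).index ∣ p ^ s := by
      rw [h3, ← hs, ← h4]; exact Dvd.intro_left _ rfl
    obtain ⟨t, _, ht⟩ := (Nat.dvd_prime_pow (Fact.out : p.Prime)).1 h5
    exact ⟨t, ht⟩
  by_cases hG : G = ⊤
  · subst hG
    exact h1 Γ hO
  by_cases hC : Nonempty ((Γ ⧸ G) ≃* Cpp p)
  · exact h2 Γ G hO (cent_le p G hp hO) hC
  have hnt : Nontrivial (Γ ⧸ G) := by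
    rw [QuotientGroup.nontrivial_iff]
    exact hG
  have hN : ∃ N : Subgroup (Γ ⧸ G), N ≤ Subgroup.center (Γ ⧸ G) ∧ Nat.card N = p ∧
      Nat.card {M : Subgroup (Γ ⧸ G) // N ⊔ M = ⊤ ∧ M ≠ ⊤} ≠ p := by
    by_contra hcon
    push Not at hcon
    exact hC (gt p (Γ ⧸ G) hp hcon)
  obtain ⟨N, hN1, hN2, hN3⟩ := hN
  set K := N.comap (QuotientGroup.mk' G) with hK
  have hNn : N.Normal := by
    refine ⟨fun x hx g => ?_⟩
    have h1 := Subgroup.mem_center_iff.1 (hN1 hx) g
    rw [h1, mul_inv_cancel_right]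
    exact hx
  have hKn : K.Normal := hNn.comap _
  have hGK : G ≤ K := by
    intro x hx
    rw [hK, Subgroup.mem_comap]
    have : (QuotientGroup.mk' G) x = 1 := by
      rw [← MonoidHom.mem_ker, QuotientGroup.ker_mk']; exact hx
    rw [this]; exact one_mem _
  have hi : G.relIndex K = p := relIndex_comap_mk p G N hN2
  have hpp : 1 < p := (Fact.out : p.Prime).one_lt
  have hKi : K.index < m := by
    have h1 := Subgroup.relIndex_mul_index hGK
    rw [hi, hm] at h1
    have h2 : 0 < K.index := Nat.pos_of_ne_zero (Subgroup.index_ne_zero_of_finite)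
    nlinarith
  refine step p G K hGK hi hp ?_ ?_ ?_
  · rw [hK, ncard_compl]; exact hN3
  · exact ihm K.index hKi Γ K hn rfl (isPGroup_up p G K hGK hp)
  · intro M hM
    obtain ⟨hMi, hMn⟩ := compl_index p G K hGK hi hp M hM
    have hlt : Nat.card M < n := by
      have h3 := M.card_mul_index
      rw [hMi, hn] at h3
      have h6 : 0 < Nat.card M := Nat.card_pos
      nlinarith
    exact ihn _ hlt _ M (G.subgroupOf M) rfl rfl (isPGroup_sub p G M hM.1 hp)

/-- the reduction to `O_p(Γ) = 1`, `Γ = G` or `Γ/G ≅ C_p × C_p` with `C_Γ(G) ≤ G` -/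
theorem min_red (p : ℕ) [Fact p.Prime]
    (h1 : ∀ (Γ : Type u) [Group Γ] [Finite Γ], OpTriv p Γ →
      creg p (⊤ : Subgroup Γ) = weights p (⊤ : Subgroup Γ))
    (h2 : ∀ (Γ : Type u) [Group Γ] [Finite Γ] (G : Subgroup Γ) [G.Normal], OpTriv p Γ →
      Subgroup.centralizer (G : Set Γ) ≤ G → Nonempty ((Γ ⧸ G) ≃* Cpp p) →
      creg p G = weights p G)
    (Γ : Type u) [Group Γ] [Finite Γ] (G : Subgroup Γ) [G.Normal] (hp : IsPGroup p (Γ ⧸ G)) :
    creg p G = weights p G :=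
  min_red_aux p h1 h2 _ _ Γ G rfl rfl hp

end Pool.Agent.Nav
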