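import Pool.Agent.Nav.Main

/-!
# NAV2-PerfA : equality for `L` in all `H ≥ L` implies equality for all normal `G ≥ L`
-/

namespace Pool.Agent.Nav

universe u

/-- the hypothesis passes to all pairs `L ≤ M` inside `H` -/
private lemma perfA_sub (p : ℕ) {Γ : Type u} [Group Γ] [Finite Γ] (L : Subgroup Γ)
    [L.Normal] (hA : ∀ H : Subgroup Γ, L ≤ H → creg p (L.subgroupOf H) = weights p (L.subgroupOf H))
    (H : Subgroup Γ) (hLH : L ≤ H) (M : Subgroup H) (hM : L.subgroupOf H ≤ M) :
    creg p ((L.subgroupOf H).subgroupOf M) = weights p ((L.subgroupOf H).subgroupOf M) := by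
  have hinj : Function.Injective H.subtype := H.subtype_injective
  have hLM : L ≤ M.map H.subtype := by
    have := Subgroup.map_mono (f := H.subtype) hM
    rwa [Subgroup.map_subgroupOf_eq_of_le hLH] at this
  let e : M ≃* (M.map H.subtype : Subgroup Γ) := M.equivMapOfInjective H.subtype hinj
  have hmap : ((L.subgroupOf H).subgroupOf M).map e.toMonoidHom =
      L.subgroupOf (M.map H.subtype) := by
    ext x
    constructor
    · rintro ⟨y, hy, rfl⟩
      rw [Subgroup.mem_subgroupOf]
      exact hy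
    · intro hx
      rw [Subgroup.mem_subgroupOf] at hx
      obtain ⟨y, hy, hyx⟩ := x.2
      refine ⟨⟨y, hy⟩, ?_, ?_⟩
      · change (y : Γ) ∈ L
        have h1 : (y : Γ) = (x : Γ) := hyx
        rw [h1]; exact hx
      · apply Subtype.ext
        exact hyx
  rw [eq_congr p e _ _ hmap]
  exact hA _ hLM

/-- the hypothesis passes from `L` to `K` with `|K : L| = p` -/
private lemma perfA_up (p : ℕ) [Fact p.Prime] {Γ : Type u} [Group Γ] [Finite Γ]
    (L K : Subgroup Γ) [L.Normal] [K.Normal] (hLK : L ≤ K) (hi : L.relIndex K = p)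
    (hp : IsPGroup p (Γ ⧸ L))
    (hA : ∀ H : Subgroup Γ, L ≤ H → creg p (L.subgroupOf H) = weights p (L.subgroupOf H))
    (H : Subgroup Γ) (hKH : K ≤ H) :
    creg p (K.subgroupOf H) = weights p (K.subgroupOf H) := by
  have hLH : L ≤ H := hLK.trans hKH
  have hle : L.subgroupOf H ≤ K.subgroupOf H := fun x hx => hLK hx
  have hi' : (L.subgroupOf H).relIndex (K.subgroupOf H) = p := by
    rw [Subgroup.relIndex_subgroupOf hKH, hi]
  have hp' := isPGroup_sub p L H hLH hp
  have h1 := rel_creg p (L.subgroupOf H) (K.subgroupOf H) hle hi' hp'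
  have h2 := rel_weights p (L.subgroupOf H) (K.subgroupOf H) hle hi' hp'
  have h3 : (∑ᶠ M ∈ compl (L.subgroupOf H) (K.subgroupOf H),
        creg p ((L.subgroupOf H).subgroupOf M)) =
      ∑ᶠ M ∈ compl (L.subgroupOf H) (K.subgroupOf H),
        weights p ((L.subgroupOf H).subgroupOf M) :=
    finsum_mem_congr rfl (fun M hM => perfA_sub p L hA H hLH M hM.1)
  rw [h3, hA H hLH, ← h2] at h1
  exact Nat.eq_of_mul_eq_mul_left (Fact.out : p.Prime).pos (Nat.add_right_cancel h1)

/-- the chief factor -/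
private lemma perfA_chief (p : ℕ) [Fact p.Prime] {Γ : Type u} [Group Γ] [Finite Γ]
    (L G : Subgroup Γ) [L.Normal] [G.Normal] (hLG : L ≤ G) (hne : L ≠ G)
    (hp : IsPGroup p (Γ ⧸ L)) :
    ∃ K : Subgroup Γ, K.Normal ∧ L ≤ K ∧ K ≤ G ∧ L.relIndex K = p := by
  have hsurj : Function.Surjective (QuotientGroup.mk' L) := QuotientGroup.mk'_surjective L
  have hn : (G.map (QuotientGroup.mk' L)).Normal :=
    Subgroup.Normal.map inferInstance _ hsurj
  have hcm : (G.map (QuotientGroup.mk' L)).comap (QuotientGroup.mk' L) = G := by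
    rw [Subgroup.comap_map_eq, QuotientGroup.ker_mk']
    exact sup_eq_left.2 hLG
  have hbot : G.map (QuotientGroup.mk' L) ≠ ⊥ := by
    intro hb
    apply hne
    have h0 := hcm
    rw [hb, MonoidHom.comap_bot, QuotientGroup.ker_mk'] at h0
    exact h0
  have h1 := exists_central p (Γ ⧸ L) hp _ hbot
  have : Nontrivial (G.map (QuotientGroup.mk' L) ⊓ Subgroup.center (Γ ⧸ L) : Subgroup (Γ ⧸ L)) :=
    (Subgroup.nontrivial_iff_ne_bot _).2 h1
  have hd : p ∣ Nat.card (G.map (QuotientGroup.mk' L) ⊓ Subgroup.center (Γ ⧸ L) :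
      Subgroup (Γ ⧸ L)) := by
    obtain ⟨n, hn⟩ := IsPGroup.iff_card.1
      (hp.to_subgroup (G.map (QuotientGroup.mk' L) ⊓ Subgroup.center (Γ ⧸ L)))
    have hn0 : n ≠ 0 := by
      rintro rfl
      rw [pow_zero] at hn
      have := Finite.one_lt_card
        (α := (G.map (QuotientGroup.mk' L) ⊓ Subgroup.center (Γ ⧸ L) : Subgroup (Γ ⧸ L)))
      omega
    rw [hn]
    exact dvd_pow_self p hn0
  obtain ⟨x, hx⟩ := exists_prime_orderOf_dvd_card' p hd
  have hN1 : Subgroup.zpowers (x : Γ ⧸ L) ≤ G.map (QuotientGroup.mk' L) := by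
    rw [Subgroup.zpowers_le]; exact x.2.1
  have hN2 : Subgroup.zpowers (x : Γ ⧸ L) ≤ Subgroup.center (Γ ⧸ L) := by
    rw [Subgroup.zpowers_le]; exact x.2.2
  have hN3 : Nat.card (Subgroup.zpowers (x : Γ ⧸ L)) = p := by
    rw [Nat.card_zpowers, Subgroup.orderOf_coe, hx]
  have hNn : (Subgroup.zpowers (x : Γ ⧸ L)).Normal := by
    refine ⟨fun y hy g => ?_⟩
    have h1 := Subgroup.mem_center_iff.1 (hN2 hy) g
    rw [h1, mul_inv_cancel_right]
    exact hy
  refine ⟨(Subgroup.zpowers (x : Γ ⧸ L)).comap (QuotientGroup.mk' L), hNn.comap _, ?_, ?_,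
    relIndex_comap_mk p L _ hN3⟩
  · intro y hy
    rw [Subgroup.mem_comap]
    have : (QuotientGroup.mk' L) y = 1 := by
      rw [← MonoidHom.mem_ker, QuotientGroup.ker_mk']; exact hy
    rw [this]; exact one_mem _
  · exact (Subgroup.comap_mono hN1).trans hcm.le

private lemma perfA_ind (p : ℕ) [Fact p.Prime] {Γ : Type u} [Group Γ] [Finite Γ]
    (G : Subgroup Γ) [G.Normal] (n : ℕ) : ∀ (L : Subgroup Γ) [L.Normal], L.index = n → L ≤ G →
    IsPGroup p (Γ ⧸ L) →
    (∀ H : Subgroup Γ, L ≤ H → creg p (L.subgroupOf H) = weights p (L.subgroupOf H)) →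
    creg p G = weights p G := by
  induction n using Nat.strong_induction_on with
  | _ n ih =>
    intro L _ hn hLG hp hA
    by_cases hne : L = G
    · subst hne
      exact (eq_top_iff' p L).1 (hA ⊤ le_top)
    obtain ⟨K, hKn, hLK, hKG, hi⟩ := perfA_chief p L G hLG hne hp
    have hpp : 1 < p := (Fact.out : p.Prime).one_lt
    have hKi : K.index < n := by
      have h1 := Subgroup.relIndex_mul_index hLK
      rw [hi, hn] at h1
      have h2 : 0 < K.index := Nat.pos_of_ne_zero (Subgroup.index_ne_zero_of_finite)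
      nlinarith
    exact ih K.index hKi K rfl hKG (isPGroup_up p L K hLK hp)
      (fun H hH => perfA_up p L K hLK hi hp hA H hH)

/-- Proof: strong induction on `L.relIndex G` (generalising `Γ` is not needed). If `L = G` use
`hA ⊤` and `eq_top_iff'`. Otherwise `G/L` is a nontrivial normal subgroup of the `p`-group `Γ/L`, so it
meets the centre of `Γ/L` in an element of order `p` (fixed points of the conjugation action);
let `N ≥ L` be the preimage of the subgroup it generates: `N` is normal in `Γ`, `N ≤ G`,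
`L.relIndex N = p`. Show `hA` for `N`: for `H ≥ N` apply `rel_creg` and `rel_weights` in the group `H`
to `L.subgroupOf H ≤ N.subgroupOf H`: both sides for `N.subgroupOf H` are determined by the values for
`L.subgroupOf H` and for `(L.subgroupOf H).subgroupOf M`, `M : Subgroup H`, `L.subgroupOf H ≤ M`, and these
are `creg p (L.subgroupOf (M.map H.subtype))` etc. by `eq_congr` (as in the proof of `hyp_sub` in
`Main.lean`), so they agree by `hA`. Then use the induction hypothesis for `N`. -/
theorem lift_eq (p : ℕ) [Fact p.Prime] {Γ : Type u} [Group Γ] [Finite Γ] (L G : Subgroup Γ)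
    [L.Normal] [G.Normal] (hLG : L ≤ G) (hp : IsPGroup p (Γ ⧸ L))
    (hA : ∀ H : Subgroup Γ, L ≤ H → creg p (L.subgroupOf H) = weights p (L.subgroupOf H)) :
    creg p G = weights p G :=
  perfA_ind p G L.index L rfl hLG hp hA

end Pool.Agent.Nav
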