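import Pool.Agent.Nav.API

/-!
# NAV-Val : a valuation ring of `ℂ` above `p` with algebraically closed residue field
-/

namespace Pool.Agent.Nav

/-- There is a valuation subring `B` of `ℂ` with `p` in its maximal ideal.
(`LocalSubring.exists_le_valuationSubring` or similar, applied to the localisation of `ℤ` at `p`
inside `ℂ`; or Zorn.) -/
theorem exists_val (p : ℕ) [Fact p.Prime] : ∃ B : ValuationSubring ℂ, B.valuation (p : ℂ) < 1 := by
  have hp : p.Prime := Fact.out
  let A : Subring ℂ := (Int.castRingHom ℂ).range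
  have hpA : (p : ℂ) ∈ A := ⟨(p : ℤ), by simp⟩
  have hI : (Ideal.span {(⟨(p : ℂ), hpA⟩ : A)} : Ideal A) ≠ ⊤ := by
    intro h
    have h1 : (1 : A) ∈ Ideal.span {(⟨(p : ℂ), hpA⟩ : A)} := by
      rw [h]
      trivial
    obtain ⟨a, ha⟩ := Ideal.mem_span_singleton'.mp h1
    obtain ⟨m, hm⟩ := a.2
    have h2 : (a : ℂ) * (p : ℂ) = 1 := by
      have := congrArg Subtype.val ha
      simpa using this
    rw [← hm] at h2
    have h3 : ((m * (p : ℤ) : ℤ) : ℂ) = ((1 : ℤ) : ℂ) := by
      push_cast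
      simpa using h2
    have h4 : m * (p : ℤ) = 1 := by exact_mod_cast h3
    have h5 : (p : ℤ) ∣ 1 := ⟨m, by rw [mul_comm]; exact h4.symm⟩
    have h6 : p ∣ 1 := by exact_mod_cast h5
    exact hp.one_lt.ne' (Nat.dvd_one.mp h6)
  obtain ⟨B, -, hB⟩ := Ideal.image_subset_nonunits_valuationSubring _ hI
  refine ⟨B, ?_⟩
  have h : (p : ℂ) ∈ B.nonunits :=
    hB ⟨⟨(p : ℂ), hpA⟩, Ideal.subset_span rfl, rfl⟩
  exact B.mem_nonunits_iff.mp h

/-- complex numbers integral over `B` are in `B` -/
theorem val_integral (B : ValuationSubring ℂ) (x : ℂ) (hx : IsIntegral B x) :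
    B.valuation x ≤ 1 := by
  obtain ⟨y, hy⟩ := IsIntegrallyClosed.isIntegral_iff.mp hx
  rw [← hy]
  exact B.valuation_le_one y

/-- The residue field is algebraically closed: lift a monic polynomial to `B`, it has a root in `ℂ`,
which is integral over `B`, hence in `B`. -/
theorem val_algClosed (B : ValuationSubring ℂ) : IsAlgClosed (IsLocalRing.ResidueField B) := by
  apply IsAlgClosed.of_exists_root
  intro f hf hirr
  have hsurj : Function.Surjective (IsLocalRing.residue B) := IsLocalRing.residue_surjective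
  have hlift : f ∈ Polynomial.lifts (IsLocalRing.residue B) := by
    rw [Polynomial.mem_lifts]
    exact Polynomial.map_surjective _ hsurj f
  obtain ⟨g, hg, hdeg, hmon⟩ := Polynomial.lifts_and_degree_eq_and_monic hlift hf
  have hpos : 0 < f.degree := Polynomial.degree_pos_of_irreducible hirr
  have hmap : (g.map (algebraMap B ℂ)).degree ≠ 0 := by
    rw [hmon.degree_map, hdeg]
    exact hpos.ne'
  obtain ⟨z, hz⟩ := IsAlgClosed.exists_root _ hmap
  have hint : IsIntegral B z := ⟨g, hmon, by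
    rw [Polynomial.IsRoot, Polynomial.eval_map] at hz
    exact hz⟩
  obtain ⟨y, hy⟩ := IsIntegrallyClosed.isIntegral_iff.mp hint
  refine ⟨IsLocalRing.residue B y, ?_⟩
  have h0 : g.eval y = 0 := by
    have h1 : algebraMap B ℂ (g.eval y) = 0 := by
      rw [← Polynomial.eval₂_at_apply, hy]
      rw [Polynomial.IsRoot, Polynomial.eval_map] at hz
      exact hz
    exact (FaithfulSMul.algebraMap_injective B ℂ) (by rw [h1, map_zero])
  rw [← hg, Polynomial.eval_map, Polynomial.eval₂_at_apply, h0, map_zero]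

theorem val_charP (p : ℕ) [Fact p.Prime] (B : ValuationSubring ℂ)
    (hB : B.valuation (p : ℂ) < 1) : CharP (IsLocalRing.ResidueField B) p := by
  have hp : p.Prime := Fact.out
  obtain ⟨q, hq⟩ := CharP.exists (IsLocalRing.ResidueField B)
  have h0 : ((p : ℕ) : IsLocalRing.ResidueField B) = 0 := by
    have h1 : ((p : ℕ) : B) ∈ IsLocalRing.maximalIdeal B := by
      rw [B.valuation_lt_one_iff]
      simpa using hB
    have h2 := (IsLocalRing.residue_eq_zero_iff ((p : ℕ) : B)).mpr h1
    simpa using h2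
  have hdvd : q ∣ p := (CharP.cast_eq_zero_iff (IsLocalRing.ResidueField B) q p).mp h0
  have hne : q ≠ 1 := CharP.char_ne_one (IsLocalRing.ResidueField B) q
  have : q = p := ((Nat.dvd_prime hp).mp hdvd).resolve_left hne
  subst this
  exact hq

/-- an integer prime to `p` is a unit of `B` -/
theorem val_nat (p : ℕ) [Fact p.Prime] (B : ValuationSubring ℂ)
    (hB : B.valuation (p : ℂ) < 1) (n : ℕ) (hn : ¬ p ∣ n) : B.valuation (n : ℂ) = 1 := by
  have hp : p.Prime := Fact.out
  have hle : ∀ m : ℤ, B.valuation (m : ℂ) ≤ 1 := by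
    intro m
    have := B.valuation_le_one (m : B)
    simpa using this
  have hcop : IsCoprime (n : ℤ) (p : ℤ) :=
    Nat.isCoprime_iff_coprime.mpr ((Nat.Prime.coprime_iff_not_dvd hp).mpr hn).symm
  obtain ⟨a, b, hab⟩ := hcop
  by_contra hne
  have hle' : B.valuation (n : ℂ) ≤ 1 := by exact_mod_cast hle (n : ℤ)
  have hlt : B.valuation (n : ℂ) < 1 := lt_of_le_of_ne hle' hne
  have h1 : ((a : ℂ) * (n : ℂ) + (b : ℂ) * (p : ℂ)) = 1 := by
    exact_mod_cast congrArg (Int.cast : ℤ → ℂ) hab
  have h2 : B.valuation ((a : ℂ) * (n : ℂ)) < 1 := by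
    rw [map_mul]
    exact mul_lt_one_of_nonneg_of_lt_one_right (hle a) zero_le hlt
  have h3 : B.valuation ((b : ℂ) * (p : ℂ)) < 1 := by
    rw [map_mul]
    exact mul_lt_one_of_nonneg_of_lt_one_right (hle b) zero_le hB
  have h4 := Valuation.map_add_lt B.valuation h2 h3
  rw [h1, map_one] at h4
  exact lt_irrefl _ h4

end Pool.Agent.Nav
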