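import Pool.Agent.Nav.CRep
import Pool.Agent.Nav.Val

/-!
# NAV-CInt : integrality of central characters at the place `B` above `p`
-/

namespace Pool.Agent.Nav

open scoped Classical

universe u

variable {H : Type u} [Group H] [Finite H] {p : ℕ} [Fact p.Prime] (B : ValuationSubring ℂ)

theorem val_chi (c : IrrClass ℂ H) (x : H) : B.valuation (chi c x) ≤ 1 := by
  induction c using Quotient.inductionOn with
  | _ ρ =>
    rw [chi_mk]
    have h1 : ρ.rep.character x = (LinearMap.charpoly (ρ.rep x)).roots.sum := by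
      rw [Representation.character]
      exact Module.End.trace_eq_sum_roots_charpoly_of_splits (IsAlgClosed.splits _)
    rw [h1]
    have h2 : ∀ l ∈ (LinearMap.charpoly (ρ.rep x)).roots, B.valuation l ≤ 1 := by
      intro l hl
      have h3 : (LinearMap.charpoly (ρ.rep x)).IsRoot l := (Polynomial.mem_roots'.1 hl).2
      have h4 : Module.End.HasEigenvalue (ρ.rep x) l :=
        (Module.End.hasEigenvalue_iff_isRoot_charpoly _ _).2 h3
      obtain ⟨v, hv⟩ := h4.exists_hasEigenvector
      have h5 : ∀ n : ℕ, (ρ.rep (x ^ n)) v = l ^ n • v := by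
        intro n
        rw [map_pow]
        exact hv.pow_apply n
      have h6 := h5 (Nat.card H)
      rw [pow_card_eq_one', map_one] at h6
      have h7 : l ^ Nat.card H = 1 := by
        have h8 : (l ^ Nat.card H - 1) • v = 0 := by
          rw [sub_smul, ← h6]; simp
        rcases smul_eq_zero.1 h8 with h | h
        · exact sub_eq_zero.1 h
        · exact absurd h hv.2
      have h8 : (B.valuation l) ^ Nat.card H = 1 := by rw [← map_pow, h7, map_one]
      by_contra h9
      push Not at h9
      have h10 : 1 < (B.valuation l) ^ Nat.card H := one_lt_pow₀ h9 Nat.card_pos.ne'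
      rw [h8] at h10
      exact lt_irrefl _ h10
    generalize (LinearMap.charpoly (ρ.rep x)).roots = s at h2
    induction s using Multiset.induction_on with
    | empty => simp
    | cons a s ih =>
      rw [Multiset.sum_cons]
      refine (B.valuation.map_add _ _).trans (max_le (h2 a (by simp)) (ih ?_))
      intro l hl
      exact h2 l (by simp [hl])

theorem val_om (c : IrrClass ℂ H) (z : MonoidAlgebra ℂ H) (hz : IsCl z)
    (h : ∀ x, B.valuation (z.coeff x) ≤ 1) : B.valuation (om c z) ≤ 1 := by
  induction c using Quotient.inductionOn with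
  | _ ρ =>
    let z' : MonoidAlgebra B H := ga (fun x => (⟨z.coeff x, (B.valuation_le_one_iff _).1 (h x)⟩ : B))
    have hfin : Module.Finite B (MonoidAlgebra B H) := inferInstance
    have hint : IsIntegral B z' := IsIntegral.of_finite B z'
    obtain ⟨P, hP, hPz⟩ := hint
    let φ : MonoidAlgebra B H →+* Module.End ℂ (Fin ρ.deg → ℂ) :=
      (ρ.rep.asAlgebraHom : MonoidAlgebra ℂ H →+* Module.End ℂ (Fin ρ.deg → ℂ)).comp
        (MonoidAlgebra.mapRingHom H B.subtype)
    have h1 : φ z' = algebraMap ℂ _ (om (⟦ρ⟧ : IrrClass ℂ H) z) := by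
      have h2 : MonoidAlgebra.mapRingHom H B.subtype z' = z := by
        apply ga_ext
        intro x
        simp [z']
      change ρ.rep.asAlgebraHom (MonoidAlgebra.mapRingHom H B.subtype z') = _
      rw [h2, crep_scalar ρ z hz]
      rfl
    have h2 : φ.comp (algebraMap B (MonoidAlgebra B H)) =
        (algebraMap ℂ (Module.End ℂ (Fin ρ.deg → ℂ))).comp B.subtype := by
      ext b : 1
      have h3 : MonoidAlgebra.mapRingHom H B.subtype (algebraMap B (MonoidAlgebra B H) b) =
          algebraMap ℂ (MonoidAlgebra ℂ H) (b : ℂ) := by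
        apply ga_ext
        intro x
        simp [MonoidAlgebra.coe_algebraMap, Finsupp.single_apply]
      change ρ.rep.asAlgebraHom (MonoidAlgebra.mapRingHom H B.subtype _) = _
      rw [h3]
      simp [Algebra.algebraMap_eq_smul_one]
    have h3 := congrArg φ hPz
    rw [Polynomial.hom_eval₂, h2, h1, map_zero, ← Polynomial.hom_eval₂] at h3
    have hpos : 0 < ρ.deg := degc_pos (⟦ρ⟧ : IrrClass ℂ H)
    have hnt : Nontrivial (Fin ρ.deg → ℂ) := by
      have : Nonempty (Fin ρ.deg) := ⟨⟨0, hpos⟩⟩
      infer_instance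
    have hinj : Function.Injective (algebraMap ℂ (Module.End ℂ (Fin ρ.deg → ℂ))) :=
      RingHom.injective _
    have h4 : Polynomial.eval₂ B.subtype (om (⟦ρ⟧ : IrrClass ℂ H) z) P = 0 := by
      apply hinj
      rw [h3, map_zero]
    exact val_integral B _ ⟨P, hP, h4⟩

theorem val_om_lt (c : IrrClass ℂ H) (z : MonoidAlgebra ℂ H) (hz : IsCl z)
    (h : ∀ x, B.valuation (z.coeff x) < 1) : B.valuation (om c z) < 1 := by
  obtain ⟨y, hy⟩ := Finite.exists_max (fun x => B.valuation (z.coeff x))
  by_cases h0 : z.coeff y = 0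
  · have h1 : z = 0 := by
      apply ga_ext
      intro x
      have h2 := hy x
      simp only [h0, map_zero] at h2
      have h3 : B.valuation (z.coeff x) = 0 := le_antisymm h2 zero_le
      simpa using h3
    have h2 : om c z = 0 := by
      have := om_smul c 0 z
      simpa [h1] using this
    rw [h2, map_zero]; exact zero_lt_one
  · set t := z.coeff y with ht
    have h1 : om c z = t * om c (t⁻¹ • z) := by
      rw [om_smul]; field_simp
    have h2 : B.valuation (om c (t⁻¹ • z)) ≤ 1 := by
      apply val_om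
      · intro g x
        simp [hz g x]
      · intro x
        rw [MonoidAlgebra.coeff_smul_apply, smul_eq_mul, map_mul, map_inv₀]
        have h3 : B.valuation t ≠ 0 := by simpa using h0
        have h4 : B.valuation (z.coeff x) ≤ B.valuation t := hy x
        calc (B.valuation t)⁻¹ * B.valuation (z.coeff x) ≤ (B.valuation t)⁻¹ * B.valuation t :=
              mul_le_mul_right h4 _
          _ = 1 := inv_mul_cancel₀ h3
    rw [h1, map_mul]
    calc B.valuation t * B.valuation (om c (t⁻¹ • z)) ≤ B.valuation t * 1 := mul_le_mul_right h2 _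
      _ = B.valuation t := mul_one _
      _ < 1 := h y

theorem val_card_deg (c : IrrClass ℂ H) :
    B.valuation ((Nat.card H : ℂ) / (degc c : ℂ)) ≤ 1 := by
  have hd : (degc c : ℂ) ≠ 0 := by exact_mod_cast (degc_pos c).ne'
  have hH : (Nat.card H : ℂ) ≠ 0 := by
    have := Nat.card_pos (α := H)
    exact_mod_cast this.ne'
  set s : MonoidAlgebra ℂ H := ga (fun x => chi c x⁻¹) with hs
  have h1 : ei c = ((degc c : ℂ) / (Nat.card H : ℂ)) • s := by
    apply ga_ext
    intro x
    simp [ei, hs]
  have h2 := om_ei c c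
  rw [if_pos rfl, h1, om_smul] at h2
  have h3 : om c s = (Nat.card H : ℂ) / (degc c : ℂ) := by
    field_simp at h2 ⊢
    linear_combination h2
  rw [← h3]
  apply val_om
  · intro g x
    simp only [hs, ga_coeff]
    have : (g * x * g⁻¹)⁻¹ = g * x⁻¹ * g⁻¹ := by group
    rw [this, chi_conj]
  · intro x
    simp only [hs, ga_coeff]
    exact val_chi B c _

theorem val_nat_le (n : ℕ) : B.valuation (n : ℂ) ≤ 1 := by
  have := B.valuation_le_one (n : B)
  simpa using this

theorem val_split (hB : B.valuation (p : ℂ) < 1) (n : ℕ) (hn : n ≠ 0) :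
    B.valuation (n : ℂ) = B.valuation (p : ℂ) ^ padicValNat p n := by
  obtain ⟨e, m, hm, hmn⟩ := Nat.exists_eq_pow_mul_and_not_dvd hn p (Fact.out : p.Prime).ne_one
  have hm0 : m ≠ 0 := by
    rintro rfl
    exact hm (dvd_zero p)
  have h1 : padicValNat p n = e := by
    rw [hmn, padicValNat.mul (pow_ne_zero _ (Fact.out : p.Prime).ne_zero) hm0,
      padicValNat.prime_pow, padicValNat.eq_zero_of_not_dvd hm, add_zero]
  rw [h1, hmn, Nat.cast_mul, Nat.cast_pow, map_mul, map_pow, val_nat p B hB m hm, mul_one]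

theorem val_dz (hB : B.valuation (p : ℂ) < 1) (c : IrrClass ℂ H)
    (hc : padicValNat p (degc c) = padicValNat p (Nat.card H)) :
    B.valuation ((degc c : ℂ) / (Nat.card H : ℂ)) = 1 := by
  have hp0 : B.valuation (p : ℂ) ≠ 0 := by
    have : (p : ℂ) ≠ 0 := by exact_mod_cast (Fact.out : p.Prime).ne_zero
    simpa using this
  rw [map_div₀, val_split B hB _ (degc_pos c).ne', val_split B hB _ Nat.card_pos.ne', hc]
  exact div_self (pow_ne_zero _ hp0)

theorem val_ndz (hB : B.valuation (p : ℂ) < 1) (c : IrrClass ℂ H)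
    (hc : padicValNat p (degc c) ≠ padicValNat p (Nat.card H)) :
    B.valuation ((Nat.card H : ℂ) / (degc c : ℂ)) < 1 := by
  have hp0 : B.valuation (p : ℂ) ≠ 0 := by
    have : (p : ℂ) ≠ 0 := by exact_mod_cast (Fact.out : p.Prime).ne_zero
    simpa using this
  have h1 := val_card_deg B c
  rw [map_div₀, val_split B hB _ (degc_pos c).ne', val_split B hB _ Nat.card_pos.ne'] at h1 ⊢
  set v := B.valuation (p : ℂ) with hv
  have hvpos : 0 < v := zero_lt_iff.2 hp0
  rcases lt_or_gt_of_ne hc with h | h
  · rw [div_lt_one₀ (pow_pos hvpos _)]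
    exact pow_lt_pow_right_of_lt_one₀ hvpos hB h
  · exfalso
    rw [div_le_one₀ (pow_pos hvpos _)] at h1
    exact absurd (pow_lt_pow_right_of_lt_one₀ hvpos hB h) (not_lt.2 h1)

theorem cls_card (x : H) : Nat.card (ConjClasses.mk x).carrier *
    Nat.card (Subgroup.centralizer ({x} : Set H)) = Nat.card H := by
  have := Fintype.ofFinite H
  rw [Subgroup.nat_card_centralizer_nat_card_stabilizer, ← ConjAct.orbit_eq_carrier_conjClasses]
  have h1 := Nat.card_congr (MulAction.orbitProdStabilizerEquivGroup (ConjAct H) x)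
  rw [Nat.card_prod] at h1
  rw [h1]
  exact Nat.card_congr (ConjAct.ofConjAct (G := H)).toEquiv

omit [Finite H] in
theorem sum_cls [Fintype H] (f : H → ℂ) (hf : ∀ g x : H, f (g * x * g⁻¹) = f x) :
    ∑ x, f x = ∑ C : ConjClasses H, (Nat.card C.carrier : ℂ) * f (Quotient.out C) := by
  rw [← Finset.sum_fiberwise Finset.univ (ConjClasses.mk : H → ConjClasses H) f]
  refine Finset.sum_congr rfl fun C _ => ?_
  have h1 : ∀ x ∈ Finset.univ.filter (fun x => ConjClasses.mk x = C), f x = f (Quotient.out C) := by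
    intro x hx
    have hx' : ConjClasses.mk x = C := (Finset.mem_filter.1 hx).2
    have h2 : ConjClasses.mk (Quotient.out C) = C := Quotient.out_eq C
    have h3 : IsConj x (Quotient.out C) := by
      rw [← ConjClasses.mk_eq_mk_iff_isConj, hx', h2]
    obtain ⟨g, hg⟩ := isConj_iff.1 h3
    rw [← hg, hf]
  rw [Finset.sum_congr rfl h1, Finset.sum_const, nsmul_eq_mul]
  congr 2
  rw [Nat.card_eq_fintype_card, ← Set.toFinset_card]
  congr 1
  ext x
  simp [ConjClasses.mem_carrier_iff_mk_eq]

theorem val_om_I0 (hB : B.valuation (p : ℂ) < 1) (c : IrrClass ℂ H)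
    (hc : padicValNat p (degc c) ≠ padicValNat p (Nat.card H))
    (z : MonoidAlgebra ℂ H) (hz : IsCl z) (h : ∀ x, B.valuation (z.coeff x) ≤ 1)
    (h0 : ∀ x, p ∣ Nat.card (Subgroup.centralizer ({x} : Set H)) → z.coeff x = 0) :
    B.valuation (om c z) < 1 := by
  have := Fintype.ofFinite H
  have hd : (degc c : ℂ) ≠ 0 := by exact_mod_cast (degc_pos c).ne'
  set r : ConjClasses H → H := fun C => Quotient.out C with hr
  set S : ℂ := ∑ C : ConjClasses H, z.coeff (r C) * chi c (r C) *
    ((Nat.card (Subgroup.centralizer ({r C} : Set H)) : ℂ))⁻¹ with hS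
  have h1 : om c z = (Nat.card H : ℂ) / (degc c : ℂ) * S := by
    rw [om, finsum_eq_sum_of_fintype, sum_cls (fun x => z.coeff x * chi c x)
      (fun g x => by rw [hz, chi_conj]), hS, Finset.mul_sum, Finset.mul_sum]
    refine Finset.sum_congr rfl fun C _ => ?_
    have h2 : ConjClasses.mk (r C) = C := Quotient.out_eq C
    have h3 := cls_card (r C)
    rw [h2] at h3
    have h4 : (Nat.card (Subgroup.centralizer ({r C} : Set H)) : ℂ) ≠ 0 := by
      have := Nat.card_pos (α := Subgroup.centralizer ({r C} : Set H))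
      exact_mod_cast this.ne'
    have h5 : (Nat.card H : ℂ) = (Nat.card C.carrier : ℂ) *
        (Nat.card (Subgroup.centralizer ({r C} : Set H)) : ℂ) := by
      rw [← h3, Nat.cast_mul]
    rw [h5]
    change _ * (_ * (z.coeff (r C) * chi c (r C))) = _
    field_simp
  have h2 : B.valuation S ≤ 1 := by
    rw [hS]
    refine Valuation.map_sum_le _ fun C _ => ?_
    by_cases hp : p ∣ Nat.card (Subgroup.centralizer ({r C} : Set H))
    · rw [h0 _ hp]; simp
    · rw [map_mul, map_mul, map_inv₀, val_nat p B hB _ hp, inv_one, mul_one]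
      exact mul_le_one' (h _) (val_chi B c _)
  rw [h1, map_mul]
  calc B.valuation ((Nat.card H : ℂ) / (degc c : ℂ)) * B.valuation S
      ≤ B.valuation ((Nat.card H : ℂ) / (degc c : ℂ)) * 1 := mul_le_mul_right h2 _
    _ = B.valuation ((Nat.card H : ℂ) / (degc c : ℂ)) := mul_one _
    _ < 1 := val_ndz B hB c hc

theorem val_ei (hB : B.valuation (p : ℂ) < 1) (c : IrrClass ℂ H)
    (hc : padicValNat p (degc c) = padicValNat p (Nat.card H)) (x : H) :
    B.valuation ((ei c).coeff x) ≤ 1 := by
  rw [ei, ga_coeff, map_mul, val_dz B hB c hc, one_mul]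
  exact val_chi B c _

theorem val_ei_lt (hB : B.valuation (p : ℂ) < 1) (c : IrrClass ℂ H)
    (hc : padicValNat p (degc c) = padicValNat p (Nat.card H)) (x : H)
    (hx : p ∣ Nat.card (Subgroup.centralizer ({x} : Set H))) :
    B.valuation ((ei c).coeff x) < 1 := by
  have := Fintype.ofFinite H
  have hd : (degc c : ℂ) ≠ 0 := by exact_mod_cast (degc_pos c).ne'
  have hdz := val_dz B hB c hc
  -- the class sum of `x⁻¹`
  set K : MonoidAlgebra ℂ H := ga (fun y => if ConjClasses.mk y = ConjClasses.mk x⁻¹ then 1 else 0)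
    with hK
  have hcl : IsCl K := by
    intro g y
    have h1 : ConjClasses.mk (g * y * g⁻¹) = ConjClasses.mk y := by
      rw [ConjClasses.mk_eq_mk_iff_isConj, isConj_comm, isConj_iff]
      exact ⟨g, rfl⟩
    simp only [hK, ga_coeff, h1]
  have h1 : B.valuation (om c K) ≤ 1 := by
    apply val_om B c K hcl
    intro y
    simp only [hK, ga_coeff]
    split_ifs <;> simp
  have h2 : om c K = (degc c : ℂ)⁻¹ * ((Nat.card (ConjClasses.mk x⁻¹).carrier : ℂ) *
      chi c x⁻¹) := by
    rw [om, finsum_eq_sum_of_fintype]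
    congr 1
    have h3 : ∀ y : H, K.coeff y * chi c y =
        if ConjClasses.mk y = ConjClasses.mk x⁻¹ then chi c x⁻¹ else 0 := by
      intro y
      simp only [hK, ga_coeff]
      split_ifs with hy
      · rw [one_mul]
        obtain ⟨g, hg⟩ := isConj_iff.1 (ConjClasses.mk_eq_mk_iff_isConj.1 hy)
        rw [← hg, chi_conj]
      · rw [zero_mul]
    rw [Finset.sum_congr rfl (fun y _ => h3 y), ← Finset.sum_filter, Finset.sum_const,
      nsmul_eq_mul]
    congr 2
    rw [Nat.card_eq_fintype_card, ← Set.toFinset_card]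
    congr 1
    ext y
    simp [ConjClasses.mem_carrier_iff_mk_eq]
  have hcent : Subgroup.centralizer ({x⁻¹} : Set H) = Subgroup.centralizer ({x} : Set H) := by
    ext g
    simp only [Subgroup.mem_centralizer_singleton_iff]
    constructor
    · intro h
      have h3 : x * (g * x⁻¹) * x = x * (x⁻¹ * g) * x := by rw [h]
      have h4 : x * (g * x⁻¹) * x = x * g := by group
      have h5 : x * (x⁻¹ * g) * x = g * x := by group
      rw [h4, h5] at h3
      exact h3.symm
    · intro h
      have h3 : x⁻¹ * (g * x) * x⁻¹ = x⁻¹ * (x * g) * x⁻¹ := by rw [h]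
      have h4 : x⁻¹ * (g * x) * x⁻¹ = x⁻¹ * g := by group
      have h5 : x⁻¹ * (x * g) * x⁻¹ = g * x⁻¹ := by group
      rw [h4, h5] at h3
      exact h3.symm
  have h3 := cls_card x⁻¹
  rw [hcent] at h3
  set n := Nat.card (Subgroup.centralizer ({x} : Set H)) with hn
  have hn0 : n ≠ 0 := Nat.card_pos.ne'
  have h4 : (ei c).coeff x = ((degc c : ℂ) / (Nat.card H : ℂ)) ^ 2 * (n : ℂ) * om c K := by
    have h5 : (Nat.card H : ℂ) = (Nat.card (ConjClasses.mk x⁻¹).carrier : ℂ) * (n : ℂ) := by
      rw [← h3, Nat.cast_mul]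
    have h6 : (Nat.card H : ℂ) ≠ 0 := by
      have := Nat.card_pos (α := H)
      exact_mod_cast this.ne'
    rw [ei, ga_coeff, h2, h5]
    rw [h5] at h6
    have h7 : (Nat.card (ConjClasses.mk x⁻¹).carrier : ℂ) ≠ 0 := left_ne_zero_of_mul h6
    have h8 : (n : ℂ) ≠ 0 := right_ne_zero_of_mul h6
    field_simp
  have h5 : B.valuation (n : ℂ) < 1 := by
    rw [val_split B hB n hn0]
    exact pow_lt_one₀ zero_le hB (by
      rw [Ne, padicValNat.eq_zero_iff]
      push Not
      exact ⟨(Fact.out : p.Prime).ne_one, hn0, hx⟩)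
  rw [h4, map_mul, map_mul, map_pow, hdz, one_pow, one_mul]
  calc B.valuation (n : ℂ) * B.valuation (om c K) ≤ B.valuation (n : ℂ) * 1 :=
        mul_le_mul_right h1 _
    _ = B.valuation (n : ℂ) := mul_one _
    _ < 1 := h5

end Pool.Agent.Nav
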