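import Pool.Agent.Nav.API

/-!
# NAV-Dens : the characters of the irreducible representations are linearly independent
-/

namespace Pool.Agent.Nav

universe u v

/-- Jacobson density for finitely many pairwise non-isomorphic simple modules with scalar
endomorphisms. -/
private theorem dens_density {K R : Type*} [Field K] [Ring R] [Algebra K R] {ι : Type*}
    [Fintype ι] [DecidableEq ι]
    (M : ι → Type*) [∀ i, AddCommGroup (M i)] [∀ i, Module R (M i)] [∀ i, Module K (M i)]
    [∀ i, IsScalarTower K R (M i)]
    [∀ i, IsSimpleModule R (M i)] [∀ i, Module.Finite K (M i)]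
    (h1 : ∀ i j, i ≠ j → ∀ f : M i →ₗ[R] M j, f = 0)
    (h2 : ∀ i (f : M i →ₗ[R] M i), ∃ c : K, ∀ m, f m = c • m)
    (i : ι) (T : M i →ₗ[K] M i) :
    ∃ r : R, (∀ m : M i, r • m = T m) ∧ ∀ j ≠ i, ∀ m : M j, r • m = 0 := by
  classical
  have key : ∀ (φ : Module.End R (∀ i, M i)), ∃ c : ι → K, ∀ m j, φ m j = c j • m j := by
    intro φ
    have hc : ∀ j, ∃ c : K, ∀ m : M j, φ (Pi.single j m) j = c • m := by
      intro j
      obtain ⟨c, hc⟩ := h2 j ((LinearMap.proj j).comp (φ.comp (LinearMap.single R M j)))
      exact ⟨c, fun m => hc m⟩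
    choose c hc using hc
    refine ⟨c, fun m j => ?_⟩
    have hm : m = ∑ k, Pi.single k (m k) := (Finset.univ_sum_single m).symm
    have hφ : φ m j = ∑ k, φ (Pi.single k (m k)) j := by
      conv_lhs => rw [hm]
      rw [map_sum, Finset.sum_apply]
    rw [hφ, Finset.sum_eq_single j]
    · exact hc j (m j)
    · intro k _ hk
      have := h1 k j hk ((LinearMap.proj j).comp (φ.comp (LinearMap.single R M k)))
      exact congr($this (m k))
    · intro h; exact absurd (Finset.mem_univ j) h
  let f : Module.End (Module.End R (∀ i, M i)) (∀ i, M i) :=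
    { toFun := fun m => Pi.single i (T (m i))
      map_add' := fun m n => by
        rw [Pi.add_apply, map_add, Pi.single_add]
      map_smul' := fun φ m => by
        obtain ⟨c, hc⟩ := key φ
        funext j
        simp only [Module.End.smul_def, RingHom.id_apply]
        rw [hc, hc]
        by_cases hj : j = i
        · subst hj
          simp
        · simp [Pi.single_eq_of_ne hj] }
  obtain ⟨s, hs⟩ := (Module.Finite.fg_top (R := K) (M := ∀ i, M i))
  obtain ⟨r, hr⟩ := jacobson_density f s
  have hall : ∀ m : (∀ i, M i), f m = r • m := by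
    intro m
    have hm : m ∈ Submodule.span K (s : Set (∀ i, M i)) := by rw [hs]; trivial
    induction hm using Submodule.span_induction with
    | mem m hm => exact hr m hm
    | zero => simp
    | add x y _ _ hx hy => rw [map_add, hx, hy, smul_add]
    | smul a x _ hx =>
      have e1 : f (a • x) = a • f x := by
        change Pi.single i (T ((a • x) i)) = a • Pi.single i (T (x i))
        rw [Pi.smul_apply, map_smul, Pi.single_smul]
      rw [e1, hx]
      funext j
      simp only [Pi.smul_apply]
      rw [← algebraMap_smul R a (r • x j), ← algebraMap_smul R a (x j), smul_smul, smul_smul,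
        Algebra.commutes]
  refine ⟨r, fun m => ?_, fun j hj m => ?_⟩
  · have := congrFun (hall (Pi.single i m)) i
    have e : f (Pi.single i m) i = T m := by
      change (Pi.single i (T ((Pi.single i m : ∀ i, M i) i)) : ∀ i, M i) i = T m
      simp
    rw [e] at this
    rw [this]
    simp
  · have := congrFun (hall (Pi.single j m)) j
    have e : f (Pi.single j m) j = 0 := by
      change (Pi.single i (T ((Pi.single j m : ∀ i, M i) i)) : ∀ i, M i) j = 0
      rw [Pi.single_eq_of_ne hj]
    rw [e] at this
    have e2 : (r • (Pi.single j m : ∀ i, M i)) j = r • m := by simp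
    rw [e2] at this
    exact this.symm

private theorem dens_trace_one (n : ℕ) (hn : 0 < n) (K : Type*) [Field K] :
    ∃ T : (Fin n → K) →ₗ[K] (Fin n → K), LinearMap.trace K _ T = 1 := by
  classical
  have : NeZero n := ⟨hn.ne'⟩
  refine ⟨Matrix.toLin' (Matrix.single 0 0 1), ?_⟩
  rw [Matrix.trace_toLin'_eq]
  simp

private theorem dens_trace_sum {K : Type*} [Field K] {H : Type*} [Group H] {V : Type*}
    [AddCommGroup V] [Module K V] (ρ : Representation K H V) (r : MonoidAlgebra K H) :
    LinearMap.trace K V (ρ.asAlgebraHom r) = r.coeff.sum fun h a => a * ρ.character h := by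
  induction r using MonoidAlgebra.induction_linear with
  | zero => simp
  | add x y hx hy =>
    rw [map_add, map_add, hx, hy]
    rw [MonoidAlgebra.coeff_add, Finsupp.sum_add_index']
    · intro a; simp
    · intro a b c; ring
  | single g a =>
    rw [Representation.asAlgebraHom_single, map_smul]
    simp [Representation.character]

/-- Linear independence (over any algebraically closed field, any group).

Proof: for finitely many pairwise non-isomorphic classes with representatives `ρᵢ`, Jacobson
density (`dens_density`) gives an element of `K[H]` acting as an operator of trace one on the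
space of `ρᵢ` and as `0` on the other ones; extend the relation `∑ aᵢ χᵢ = 0` linearly to
`K[H]` and apply it to this element. -/
theorem tr_indep (K : Type v) [Field K] [IsAlgClosed K] (H : Type u) [Group H] :
    LinearIndependent K (fun c : IrrClass K H => (chi c : H → K)) := by
  classical
  rw [linearIndependent_iff']
  intro s g hg c0 hc0
  -- representatives
  let ρ : s → IrrRep K H := fun c => c.1.out
  have hρ : ∀ c : s, (⟦ρ c⟧ : IrrClass K H) = c.1 := fun c => Quotient.out_eq c.1
  have hirr : ∀ c : s, (ρ c).rep.IsIrreducible := fun c => (ρ c).irr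
  have : ∀ c : s, IsSimpleModule (MonoidAlgebra K H) (ρ c).rep.asModule := fun c =>
    (Representation.irreducible_iff_isSimpleModule_asModule _).mp (ρ c).irr
  have h1 : ∀ i j : s, i ≠ j → ∀ f : (ρ i).rep.asModule →ₗ[MonoidAlgebra K H]
      (ρ j).rep.asModule, f = 0 := by
    intro i j hij f
    have : IsEmpty (Representation.Equiv (ρ i).rep (ρ j).rep) := by
      constructor
      intro e
      apply hij
      have : (⟦ρ i⟧ : IrrClass K H) = ⟦ρ j⟧ := Quotient.sound ⟨e⟩
      rw [hρ, hρ] at this
      exact Subtype.ext this
    have h := Subsingleton.elim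
      ((Representation.IntertwiningMap.equivLinearMapAsModule (ρ i).rep (ρ j).rep).symm f) 0
    simpa using h
  have h2 : ∀ (i : s) (f : (ρ i).rep.asModule →ₗ[MonoidAlgebra K H] (ρ i).rep.asModule),
      ∃ c : K, ∀ m, f m = c • m := by
    intro i f
    have hb : Function.Bijective (algebraMap K (Module.End (MonoidAlgebra K H)
      (ρ i).rep.asModule)) := IsSimpleModule.algebraMap_end_bijective_of_isAlgClosed K
    obtain ⟨c, hc⟩ := hb.2 f
    exact ⟨c, fun m => by rw [← hc]; rfl⟩
  let i0 : s := ⟨c0, hc0⟩
  have hdeg : 0 < (ρ i0).deg := by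
    have := degc_pos (⟦ρ i0⟧ : IrrClass K H)
    simpa using this
  obtain ⟨T, hT⟩ := dens_trace_one (ρ i0).deg hdeg K
  obtain ⟨r, hr1, hr2⟩ := dens_density (K := K) (R := MonoidAlgebra K H) (ι := s)
    (fun c => (ρ c).rep.asModule) h1 h2 i0
    (((ρ i0).rep.asModuleEquiv.symm.toLinearMap.comp T).comp
      (ρ i0).rep.asModuleEquiv.toLinearMap)
  have ha0 : (ρ i0).rep.asAlgebraHom r = T := by
    refine LinearMap.ext fun v => ?_
    have h := hr1 ((ρ i0).rep.asModuleEquiv.symm v)
    have h' := congrArg (ρ i0).rep.asModuleEquiv h
    rw [Representation.asModuleEquiv_map_smul] at h'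
    simpa using h'
  have haj : ∀ j : s, j ≠ i0 → (ρ j).rep.asAlgebraHom r = 0 := by
    intro j hj
    refine LinearMap.ext fun v => ?_
    have h := hr2 j hj ((ρ j).rep.asModuleEquiv.symm v)
    have h' := congrArg (ρ j).rep.asModuleEquiv h
    rw [Representation.asModuleEquiv_map_smul] at h'
    simpa using h'
  have hsum : ∑ c : s, g c * LinearMap.trace K _ ((ρ c).rep.asAlgebraHom r) = 0 := by
    have e1 : ∀ c : s, g c * LinearMap.trace K _ ((ρ c).rep.asAlgebraHom r) =
        r.coeff.sum fun h a => a * (g c * chi (c : IrrClass K H) h) := by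
      intro c
      rw [dens_trace_sum, Finsupp.mul_sum]
      refine Finsupp.sum_congr fun h _ => ?_
      rw [← hρ c, chi_mk]
      ring
    rw [Finset.sum_congr rfl fun c _ => e1 c]
    simp only [Finsupp.sum]
    rw [Finset.sum_comm]
    refine Finset.sum_eq_zero fun h _ => ?_
    rw [← Finset.mul_sum]
    have := congrFun hg h
    simp only [Finset.sum_apply, Pi.smul_apply, smul_eq_mul, Pi.zero_apply] at this
    rw [← Finset.sum_coe_sort s (fun c => g c * chi c h)] at this
    rw [this, mul_zero]
  rw [Finset.sum_eq_single i0] at hsum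
  · rw [ha0, hT, mul_one] at hsum
    exact hsum
  · intro j _ hj
    rw [haj j hj]; simp
  · intro h; exact absurd (Finset.mem_univ _) h

/-- There are finitely many isomorphism classes for a finite group. -/
theorem finite_irr (K : Type v) [Field K] [IsAlgClosed K] (H : Type u) [Group H] [Finite H] :
    Finite (IrrClass K H) := by
  have h := tr_indep K H
  exact h.finite

end Pool.Agent.Nav
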