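import Pool.Agent.Nav.Main

/-!
# NAV-Frat : invariance under the Frattini subgroup of `Γ/G`
-/

namespace Pool.Agent.Nav

universe u

variable {Γ : Type u} [Group Γ] [Finite Γ]

/-- a normal subgroup `K > G` contains a normal `K1` with `|K1 : G| = p` -/
theorem exists_step (p : ℕ) [Fact p.Prime] (G K : Subgroup Γ) [G.Normal] [K.Normal] (hGK : G ≤ K)
    (hne : G ≠ K) (hp : IsPGroup p (Γ ⧸ G)) :
    ∃ K1 : Subgroup Γ, K1.Normal ∧ G ≤ K1 ∧ K1 ≤ K ∧ G.relIndex K1 = p := by
  classical
  set P := Γ ⧸ G with hP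
  set N : Subgroup P := K.map (QuotientGroup.mk' G) with hN
  have hNn : N.Normal := Subgroup.Normal.map inferInstance _ (QuotientGroup.mk'_surjective G)
  have hNne : N ≠ ⊥ := by
    intro h
    apply hne
    refine le_antisymm hGK ?_
    rw [hN, Subgroup.map_eq_bot_iff, QuotientGroup.ker_mk'] at h
    exact h
  -- fixed points of the conjugation action of `P` on `N`
  letI act : MulAction P N := MulAction.compHom N (MulAut.conjNormal (H := N) : P →* MulAut N)
  have hdvd : p ∣ Nat.card N := by
    have h1 : IsPGroup p N := hp.to_subgroup _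
    obtain ⟨m, hm⟩ := IsPGroup.iff_card.1 h1
    rcases Nat.eq_zero_or_pos m with h0 | h0
    · exfalso
      rw [h0, pow_zero] at hm
      exact hNne (Subgroup.card_eq_one.1 hm)
    · rw [hm]; exact dvd_pow_self p (by omega)
  have hone : (1 : N) ∈ MulAction.fixedPoints P N := by
    intro g
    change MulAut.conjNormal g (1 : N) = 1
    simp
  obtain ⟨x, hx, hx1⟩ := hp.exists_fixed_point_of_prime_dvd_card_of_fixed_point N hdvd hone
  have hxc : ∀ g : P, g * (x : P) * g⁻¹ = x := by
    intro g
    have h1 : MulAut.conjNormal g x = x := hx g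
    have h2 := congrArg (Subtype.val) h1
    simpa using h2
  -- an element of order p in the group generated by x
  have hxo : 1 < orderOf (x : P) := by
    have h1 : orderOf (x : P) ≠ 1 := by
      intro h
      rw [orderOf_eq_one_iff] at h
      apply hx1
      exact Subtype.ext h.symm
    have h2 : 0 < orderOf (x : P) := orderOf_pos _
    omega
  have hpo : p ∣ Nat.card (Subgroup.zpowers (x : P)) := by
    have h1 : IsPGroup p (Subgroup.zpowers (x : P)) := hp.to_subgroup _
    obtain ⟨m, hm⟩ := IsPGroup.iff_card.1 h1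
    rcases Nat.eq_zero_or_pos m with h0 | h0
    · exfalso
      rw [h0, pow_zero, Nat.card_zpowers] at hm
      omega
    · rw [hm]; exact dvd_pow_self p (by omega)
  obtain ⟨y, hy⟩ := exists_prime_orderOf_dvd_card' p hpo
  obtain ⟨j, hj⟩ := Subgroup.mem_zpowers_iff.1 y.2
  set Z : Subgroup P := Subgroup.zpowers (y : P) with hZ
  have hyc : ∀ g : P, g * (y : P) * g⁻¹ = y := by
    intro g
    rw [← hj]
    have h1 : g * (x : P) ^ j * g⁻¹ = (g * (x : P) * g⁻¹) ^ j := by rw [conj_zpow]
    rw [h1, hxc]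
  have hZc : ∀ z ∈ Z, ∀ g : P, g * z * g⁻¹ = z := by
    intro z hz g
    obtain ⟨i, rfl⟩ := Subgroup.mem_zpowers_iff.1 hz
    rw [← conj_zpow, hyc]
  have hZn : Z.Normal := ⟨fun z hz g => by rw [hZc z hz g]; exact hz⟩
  have hZN : Z ≤ N := by
    rw [hZ, Subgroup.zpowers_le]
    rw [← hj]
    exact N.zpow_mem x.2 j
  have hZcard : Nat.card Z = p := by
    rw [hZ, Nat.card_zpowers, Subgroup.orderOf_coe, hy]
  refine ⟨Z.comap (QuotientGroup.mk' G), hZn.comap _, ?_, ?_, relIndex_comap_mk p G Z hZcard⟩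
  · intro x hx
    rw [Subgroup.mem_comap]
    have : (QuotientGroup.mk' G) x = 1 := by
      rw [← MonoidHom.mem_ker, QuotientGroup.ker_mk']; exact hx
    rw [this]; exact one_mem _
  · have h1 := Subgroup.comap_mono (f := QuotientGroup.mk' G) hZN
    rw [Subgroup.comap_map_eq, QuotientGroup.ker_mk', sup_eq_left.2 hGK] at h1
    exact h1

/-- if no `M ∈ compl G K`, the two sides do not change from `G` to `K` -/
lemma no_compl' (p : ℕ) [Fact p.Prime] (G K : Subgroup Γ) [G.Normal] [K.Normal] (hGK : G ≤ K)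
    (hi : G.relIndex K = p) (hp : IsPGroup p (Γ ⧸ G)) (h : compl G K = ∅) :
    creg p K = creg p G ∧ weights p K = weights p G := by
  constructor
  · rw [creg_T p G K hGK hi hp, h]; simp
  · rw [weights_T p G K hGK hi hp, h]; simp

/-- If `K/G` is contained in every subgroup of index `p` of the `p`-group `Γ/G` (i.e. in the Frattini
subgroup), the two sides for `G` and `K` agree. -/
theorem frat (p : ℕ) [Fact p.Prime] (K : Subgroup Γ) [K.Normal] (n : ℕ) :
    ∀ (G : Subgroup Γ) [G.Normal], G.index = n → IsPGroup p (Γ ⧸ G) → G ≤ K →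
      (∀ M : Subgroup Γ, G ≤ M → M.index = p → K ≤ M) →
      creg p K = creg p G ∧ weights p K = weights p G := by
  induction n using Nat.strong_induction_on with
  | _ n ih =>
    intro G _ hn hp hGK hK
    by_cases hne : G = K
    · subst hne; exact ⟨rfl, rfl⟩
    obtain ⟨K1, hK1n, hGK1, hK1K, hi⟩ := exists_step p G K hGK hne hp
    have hempty : compl G K1 = ∅ := by
      rw [Set.eq_empty_iff_forall_notMem]
      intro M hM
      obtain ⟨hMi, hMn⟩ := compl_index p G K1 hGK1 hi hp M hM
      have hKM : K ≤ M := hK M hM.1 hMi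
      have h1 : (⊤ : Subgroup Γ) ≤ M := by
        rw [← hM.2.1]; exact sup_le (hK1K.trans hKM) le_rfl
      exact hM.2.2 (eq_top_iff.2 h1)
    obtain ⟨e1, e2⟩ := no_compl' p G K1 hGK1 hi hp hempty
    have hlt : K1.index < n := by
      have h1 := Subgroup.relIndex_mul_index hGK1
      rw [hi, hn] at h1
      have h2 : 0 < K1.index := Nat.pos_of_ne_zero (Subgroup.index_ne_zero_of_finite)
      have h3 := (Fact.out : p.Prime).one_lt
      nlinarith
    obtain ⟨e3, e4⟩ := ih K1.index hlt K1 rfl (isPGroup_up p G K1 hGK1 hp) hK1K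
      (fun M hM hMi => hK M (hGK1.trans hM) hMi)
    exact ⟨e3.trans e1, e4.trans e2⟩

end Pool.Agent.Nav
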