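import Pool.Agent.Nav.Main2
import Pool.Agent.Nav.Split

/-!
# NAV-Local : the local reduction with the condition `O_p(H) ≤ K`
-/

namespace Pool.Agent.Nav

universe u

section

variable {Γ : Type u} [Group Γ] [Finite Γ]

/-- enlarging `G` by a normal `p`-subgroup does not change the equality -/
lemma eq_sup (p : ℕ) [Fact p.Prime] (G Z : Subgroup Γ) [G.Normal] [Z.Normal] (hZ : IsPGroup p Z)
    (hp : IsPGroup p (Γ ⧸ G)) :
    creg p G = weights p G ↔ creg p (G ⊔ Z) = weights p (G ⊔ Z) := by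
  have hp2 : IsPGroup p (Γ ⧸ (G ⊔ Z)) := isPGroup_up p G (G ⊔ Z) le_sup_left hp
  rw [eq_quot p G Z hZ hp, eq_quot p (G ⊔ Z) Z hZ hp2]
  have h : (G ⊔ Z).map (QuotientGroup.mk' Z) = G.map (QuotientGroup.mk' Z) := by
    rw [Subgroup.map_sup, QuotientGroup.map_mk'_self, sup_bot_eq]
  rw [h]

end

/-- the local reduction -/
theorem loc_op (p : ℕ) [Fact p.Prime] (Γ : Type u) [Group Γ] [Finite Γ] (G : Subgroup Γ)
    [G.Normal] (hp : IsPGroup p (Γ ⧸ G))
    (hawc : ∀ H : Subgroup Γ, G ≤ H → creg p (⊤ : Subgroup H) = weights p (⊤ : Subgroup H))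
    (hsec : ∀ (H K : Subgroup Γ) [(K.subgroupOf H).Normal], G ≤ K → K ≤ H →
      (∀ Z : Subgroup H, Z.Normal → IsPGroup p Z → Z ≤ K.subgroupOf H) →
      Nonempty ((H ⧸ K.subgroupOf H) ≃* Cpp p) →
      creg p (K.subgroupOf H) = weights p (K.subgroupOf H)) :
    creg p G = weights p G := by
  have hpp : p.Prime := Fact.out
  refine loc p G.index Γ G rfl hp ?_
  intro H K hGK hKH hn hc
  rcases hc with rfl | hc
  · rw [Subgroup.subgroupOf_self]
    exact hawc K hGK
  by_cases hZ : ∀ Z : Subgroup H, Z.Normal → IsPGroup p Z → Z ≤ K.subgroupOf H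
  · exact hsec H K hGK hKH hZ hc
  push Not at hZ
  obtain ⟨Z, hZn, hZp, hZK⟩ := hZ
  have hcard : (K.subgroupOf H).index = p * p := by
    obtain ⟨f⟩ := hc
    have h1 : (K.subgroupOf H).index = Nat.card (Cpp p) := Nat.card_congr f.toEquiv
    rw [h1]
    change Nat.card (ZMod p × ZMod p) = p * p
    rw [Nat.card_prod, Nat.card_zmod]
  have hpK : IsPGroup p (H ⧸ K.subgroupOf H) := by
    rw [isPGroup_iff_index]
    exact ⟨2, by rw [hcard, pow_two]⟩
  rw [eq_sup p (K.subgroupOf H) Z hZp hpK]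
  set T := K.subgroupOf H ⊔ Z with hT
  have hTn : T.Normal := inferInstance
  have h1 := Subgroup.relIndex_mul_index (le_sup_left : K.subgroupOf H ≤ T)
  have h2 : (K.subgroupOf H).relIndex T ≠ 1 := by
    intro h
    have h3 := Subgroup.relIndex_eq_one.1 h
    exact hZK (le_trans le_sup_right h3)
  have h3 : T.index = 1 ∨ T.index = p := by
    have h4 : T.index ∣ p ^ 2 := by
      rw [pow_two, ← hcard, ← h1]; exact Dvd.intro_left _ rfl
    obtain ⟨t, ht, ht2⟩ := (Nat.dvd_prime_pow hpp).1 h4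
    interval_cases t
    · left; rw [ht2, pow_zero]
    · right; rw [ht2, pow_one]
    · exfalso
      rw [ht2, hcard, pow_two] at h1
      have h5 : 0 < p * p := Nat.mul_pos hpp.pos hpp.pos
      exact h2 (Nat.eq_of_mul_eq_mul_right h5 (by rw [h1, one_mul]))
  rcases h3 with h3 | h3
  · rw [Subgroup.index_eq_one.1 h3]
    exact hawc H (hGK.trans hKH)
  · refine cyc_base p T h3 (hawc H (hGK.trans hKH)) ?_
    have hGT : G ≤ T.map H.subtype := by
      refine le_trans ?_ (Subgroup.map_mono (le_sup_left : K.subgroupOf H ≤ T))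
      rw [Subgroup.map_subgroupOf_eq_of_le hKH]
      exact hGK
    have hA := hawc (T.map H.subtype) hGT
    let e : T ≃* T.map H.subtype := T.equivMapOfInjective H.subtype H.subtype_injective
    have hmap : (⊤ : Subgroup T).map e.toMonoidHom = ⊤ :=
      Subgroup.map_top_of_surjective _ e.surjective
    rw [eq_congr p e _ _ hmap]
    exact hA

end Pool.Agent.Nav
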