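import Pool.Agent.Nav.Main3
import Pool.Agent.Nav.Frat
import Pool.Agent.Nav.Local

/-!
# NAV-Final : translation lemmas for the hand-ins
-/

namespace Pool.Agent.Nav

universe u v

/-- translation between `Navarro` and `creg p G = weights p G` -/
theorem nav_iff (p : ℕ) [Fact p.Prime] (k : Type v) [Field k] [IsAlgClosed k] [CharP k p]
    (Γ : Type u) [Group Γ] [Finite Γ] (G : Subgroup Γ) [G.Normal] (h : IsPGroup p (Γ ⧸ G)) :
    Navarro p k G ↔ creg p G = weights p G := by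
  unfold Navarro
  rw [ibrInv_eq p k G h]

theorem isPGroup_top (p : ℕ) [Fact p.Prime] (Γ : Type u) [Group Γ] [Finite Γ] :
    IsPGroup p (Γ ⧸ (⊤ : Subgroup Γ)) := by
  rw [isPGroup_iff_index]
  exact ⟨0, by simp⟩

theorem nav_top_iff (p : ℕ) [Fact p.Prime] (k : Type v) [Field k] [IsAlgClosed k] [CharP k p]
    (Γ : Type u) [Group Γ] [Finite Γ] :
    Navarro p k (⊤ : Subgroup Γ) ↔ creg p (⊤ : Subgroup Γ) = weights p (⊤ : Subgroup Γ) :=
  nav_iff p k Γ ⊤ (isPGroup_top p Γ)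

theorem isPGroup_Cpp (p : ℕ) [Fact p.Prime] (Γ : Type u) [Group Γ] [Finite Γ] (G : Subgroup Γ)
    [G.Normal] (h : Nonempty ((Γ ⧸ G) ≃* Multiplicative (ZMod p × ZMod p))) :
    IsPGroup p (Γ ⧸ G) := by
  have hCpp : IsPGroup p (Multiplicative (ZMod p × ZMod p)) := by
    have h1 : Nat.card (Multiplicative (ZMod p × ZMod p)) = p ^ 2 := by
      change Nat.card (ZMod p × ZMod p) = p ^ 2
      rw [Nat.card_prod, Nat.card_zmod]; ring
    exact IsPGroup.of_card h1
  obtain ⟨f⟩ := h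
  exact hCpp.of_equiv f.symm

theorem isPGroup_split (p : ℕ) (Γ : Type u) [Group Γ] (G P : Subgroup Γ)
    [G.Normal] (hP : IsPGroup p P) (h2 : G ⊔ P = ⊤) : IsPGroup p (Γ ⧸ G) := by
  have hsurj : Function.Surjective ((QuotientGroup.mk' G).comp P.subtype) := by
    intro x
    obtain ⟨x, rfl⟩ := QuotientGroup.mk'_surjective G x
    have hx : x ∈ G ⊔ P := by rw [h2]; trivial
    obtain ⟨g, hg, y, hy, rfl⟩ := Subgroup.mem_sup_of_normal_left.1 hx
    refine ⟨⟨y, hy⟩, ?_⟩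
    have h3 : (QuotientGroup.mk' G) g = 1 := by
      rw [← MonoidHom.mem_ker, QuotientGroup.ker_mk']; exact hg
    simp only [MonoidHom.comp_apply, map_mul, h3, one_mul]
    rfl
  exact hP.of_surjective _ hsurj

end Pool.Agent.Nav
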