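import Pool.Agent.Nav.API

/-!
# NAV-CReg : the two relations for `creg`
-/

namespace Pool.Agent.Nav

universe u

variable {Γ : Type u} [Group Γ] [Finite Γ]

omit [Finite Γ] in
theorem creg_map_conj_normal (N : Subgroup Γ) [hN : N.Normal] (g : Γ) :
    N.map (MulAut.conj g).toMonoidHom = N := by
  ext x
  constructor
  · rintro ⟨y, hy, rfl⟩
    exact hN.conj_mem y hy g
  · intro hx
    refine ⟨g⁻¹ * x * g, ?_, ?_⟩
    · have := hN.conj_mem x hx g⁻¹
      simpa using this
    · simp [MulAut.conj_apply, mul_assoc]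

omit [Finite Γ] in
theorem creg_centralizer_conj (g x : Γ) : Subgroup.centralizer ({g * x * g⁻¹} : Set Γ) =
    (Subgroup.centralizer ({x} : Set Γ)).map (MulAut.conj g).toMonoidHom := by
  ext y
  rw [Subgroup.mem_map]
  constructor
  · intro hy
    rw [Subgroup.mem_centralizer_singleton_iff] at hy
    refine ⟨g⁻¹ * y * g, ?_, ?_⟩
    · rw [Subgroup.mem_centralizer_singleton_iff]
      have h : g⁻¹ * (y * (g * x * g⁻¹)) * g = g⁻¹ * ((g * x * g⁻¹) * y) * g := by rw [hy]
      simpa [mul_assoc] using h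
    · simp [MulAut.conj_apply, mul_assoc]
  · rintro ⟨z, hz, rfl⟩
    rw [Subgroup.mem_centralizer_singleton_iff] at hz ⊢
    change (g * z * g⁻¹) * (g * x * g⁻¹) = (g * x * g⁻¹) * (g * z * g⁻¹)
    have h : g * (z * x) * g⁻¹ = g * (x * z) * g⁻¹ := by rw [hz]
    simpa [mul_assoc] using h

omit [Finite Γ] in
theorem creg_sup_conj (G : Subgroup Γ) [G.Normal] (g x : Γ) :
    G ⊔ Subgroup.centralizer ({g * x * g⁻¹} : Set Γ) =
      (G ⊔ Subgroup.centralizer ({x} : Set Γ)).map (MulAut.conj g).toMonoidHom := by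
  rw [Subgroup.map_sup, creg_map_conj_normal G g, creg_centralizer_conj]

omit [Finite Γ] in
theorem creg_order_conj (g x : Γ) : orderOf (g * x * g⁻¹) = orderOf x :=
  (MulAut.conj g).orderOf_eq x

omit [Finite Γ] in
/-- the condition of `cregM` is invariant under conjugation -/
theorem creg_inv (p : ℕ) (G M : Subgroup Γ) [G.Normal] [M.Normal] {x y : Γ}
    (h : ConjClasses.mk x = ConjClasses.mk y)
    (hx : ¬ p ∣ orderOf x ∧ G ⊔ Subgroup.centralizer {x} = M) :
    ¬ p ∣ orderOf y ∧ G ⊔ Subgroup.centralizer {y} = M := by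
  obtain ⟨g, rfl⟩ := isConj_iff.1 (ConjClasses.mk_eq_mk_iff_isConj.1 h)
  rw [creg_order_conj, creg_sup_conj, hx.2, creg_map_conj_normal M g]
  exact ⟨hx.1, rfl⟩

omit [Finite Γ] in
theorem creg_card_centralizer {x y : Γ} (h : ConjClasses.mk x = ConjClasses.mk y) :
    Nat.card (Subgroup.centralizer ({y} : Set Γ)) =
      Nat.card (Subgroup.centralizer ({x} : Set Γ)) := by
  obtain ⟨g, rfl⟩ := isConj_iff.1 (ConjClasses.mk_eq_mk_iff_isConj.1 h)
  rw [creg_centralizer_conj]
  exact Nat.card_congr ((Subgroup.centralizer ({x} : Set Γ)).equivMapOfInjective _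
    (MulAut.conj g).injective).symm.toEquiv

omit [Finite Γ] in
/-- orbit-stabiliser -/
theorem creg_class (x : Γ) : {y : Γ | ConjClasses.mk y = ConjClasses.mk x}.ncard *
    Nat.card (Subgroup.centralizer ({x} : Set Γ)) = Nat.card Γ := by
  have h1 : {y : Γ | ConjClasses.mk y = ConjClasses.mk x} = MulAction.orbit (ConjAct Γ) x := by
    ext y
    rw [ConjAct.mem_orbit_conjAct, ← ConjClasses.mk_eq_mk_iff_isConj]
    rfl
  rw [h1, Subgroup.nat_card_centralizer_nat_card_stabilizer, ← MulAction.index_stabilizer,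
    mul_comm, Subgroup.card_mul_index]
  rfl

/-- counting conjugacy classes by centralisers -/
theorem card_mul_cregM (p : ℕ) (G M : Subgroup Γ) [G.Normal] [M.Normal] :
    Nat.card Γ * cregM p G M =
      ∑ᶠ x ∈ {x : Γ | ¬ p ∣ orderOf x ∧ G ⊔ Subgroup.centralizer {x} = M},
        Nat.card (Subgroup.centralizer ({x} : Set Γ)) := by
  classical
  have : Fintype Γ := Fintype.ofFinite Γ
  have : Fintype (ConjClasses Γ) := Fintype.ofFinite _
  set S : Set Γ := {x : Γ | ¬ p ∣ orderOf x ∧ G ⊔ Subgroup.centralizer {x} = M} with hS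
  have hinv : ∀ x y, ConjClasses.mk x = ConjClasses.mk y → x ∈ S → y ∈ S := fun x y h hx =>
    creg_inv p G M h hx
  rw [finsum_mem_eq_finite_toFinset_sum _ (Set.toFinite S),
    ← Finset.sum_fiberwise _ (fun x : Γ => ConjClasses.mk x)]
  have key : ∀ c : ConjClasses Γ,
      ∑ x ∈ (Set.toFinite S).toFinset with ConjClasses.mk x = c,
        Nat.card (Subgroup.centralizer ({x} : Set Γ)) =
      if (∀ x, ConjClasses.mk x = c → x ∈ S) then Nat.card Γ else 0 := by
    intro c
    obtain ⟨x0, rfl⟩ := c.exists_rep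
    split_ifs with hc
    · have h1 : (Finset.filter (fun x => ConjClasses.mk x = ConjClasses.mk x0)
          (Set.toFinite S).toFinset) =
          Finset.univ.filter (fun x => ConjClasses.mk x = ConjClasses.mk x0) := by
        ext x
        simp only [Finset.mem_filter, Set.Finite.mem_toFinset, Finset.mem_univ, true_and,
          and_iff_right_iff_imp]
        exact hc x
      rw [h1, Finset.sum_congr rfl (fun x hx => creg_card_centralizer
        (Finset.mem_filter.1 hx).2.symm), Finset.sum_const, smul_eq_mul, ← creg_class x0]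
      congr 1
      rw [Set.ncard_eq_toFinset_card']
      congr 1
      ext x
      simp
    · apply Finset.sum_eq_zero_iff.2
      intro x hx
      exfalso
      rw [Finset.mem_filter, Set.Finite.mem_toFinset] at hx
      exact hc fun y hy => hinv x y (hx.2.trans hy.symm) hx.1
  rw [Finset.sum_congr rfl (fun c _ => key c), ← Finset.sum_filter, Finset.sum_const, smul_eq_mul,
    mul_comm]
  congr 1
  unfold cregM
  rw [Nat.card_eq_fintype_card, Fintype.card_subtype]
  rfl

omit [Finite Γ] in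
/-- the `p`-regular elements lie in `G` -/
theorem creg_mem (p : ℕ) [Fact p.Prime] (G : Subgroup Γ) [G.Normal] (hp : IsPGroup p (Γ ⧸ G))
    {x : Γ} (hx : ¬ p ∣ orderOf x) : x ∈ G := by
  rw [← QuotientGroup.eq_one_iff, ← orderOf_eq_one_iff]
  obtain ⟨k, hk⟩ := hp (x : Γ ⧸ G)
  have h1 : orderOf (x : Γ ⧸ G) ∣ p ^ k := orderOf_dvd_of_pow_eq_one hk
  have h2 : orderOf (x : Γ ⧸ G) ∣ orderOf x := orderOf_map_dvd (QuotientGroup.mk' G) x
  obtain ⟨j, -, hj⟩ := (Nat.dvd_prime_pow (Fact.out : p.Prime)).1 h1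
  rcases Nat.eq_zero_or_pos j with h | h
  · rw [hj, h, pow_zero]
  · exfalso
    apply hx
    rw [hj] at h2
    exact (dvd_pow_self p h.ne').trans h2


omit [Finite Γ] in
/-- Dedekind -/
theorem creg_dedekind (G M : Subgroup Γ) [G.Normal] (hGM : G ≤ M) (x : M) :
    G.subgroupOf M ⊔ Subgroup.centralizer ({x} : Set M) = ⊤ ↔
      M ≤ G ⊔ Subgroup.centralizer ({(x : Γ)} : Set Γ) := by
  constructor
  · intro h m hm
    have h1 : (⟨m, hm⟩ : M) ∈ G.subgroupOf M ⊔ Subgroup.centralizer ({x} : Set M) := by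
      rw [h]; trivial
    obtain ⟨y, hy, z, hz, hyz⟩ := Subgroup.mem_sup_of_normal_left.1 h1
    rw [Subgroup.mem_sup_of_normal_left]
    refine ⟨y, hy, z, ?_, congrArg Subtype.val hyz⟩
    rw [Subgroup.mem_centralizer_singleton_iff] at hz ⊢
    exact congrArg Subtype.val hz
  · intro h
    rw [eq_top_iff]
    rintro ⟨m, hm⟩ -
    obtain ⟨y, hy, z, hz, hyz⟩ := Subgroup.mem_sup_of_normal_left.1 (h hm)
    have hzM : z ∈ M := by
      have : z = y⁻¹ * m := by rw [← hyz]; group
      rw [this]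
      exact M.mul_mem (M.inv_mem (hGM hy)) hm
    rw [Subgroup.mem_sup_of_normal_left]
    refine ⟨⟨y, hGM hy⟩, hy, ⟨z, hzM⟩, ?_, Subtype.ext hyz⟩
    rw [Subgroup.mem_centralizer_singleton_iff] at hz ⊢
    exact Subtype.ext hz

omit [Finite Γ] in
theorem creg_card_centralizerM (M : Subgroup Γ) (x : M) :
    Nat.card (Subgroup.centralizer ({x} : Set M)) =
      Nat.card (Subgroup.centralizer ({(x : Γ)} : Set Γ) ⊓ M : Subgroup Γ) := by
  have h : Subgroup.centralizer ({x} : Set M) =
      (Subgroup.centralizer ({(x : Γ)} : Set Γ)).subgroupOf M := by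
    ext y
    rw [Subgroup.mem_subgroupOf, Subgroup.mem_centralizer_singleton_iff,
      Subgroup.mem_centralizer_singleton_iff]
    exact ⟨fun h => congrArg Subtype.val h, fun h => Subtype.ext h⟩
  rw [h, ← Subgroup.subgroupOf_map_subtype]
  exact Nat.card_congr (((Subgroup.centralizer ({(x : Γ)} : Set Γ)).subgroupOf M).equivMapOfInjective
    _ M.subtype_injective).toEquiv

omit [Finite Γ] in
theorem creg_dich {p : ℕ} [Fact p.Prime] {M H : Subgroup Γ} (hM : M.index = p) (h : M ≤ H) :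
    H = M ∨ H = ⊤ := by
  have h1 := Subgroup.relIndex_mul_index h
  rw [hM] at h1
  have h2 : H.index ∣ p := ⟨M.relIndex H, by rw [mul_comm]; exact h1.symm⟩
  rcases (Nat.dvd_prime (Fact.out : p.Prime)).1 h2 with h3 | h3
  · right
    exact Subgroup.index_eq_one.1 h3
  · left
    have h4 : M.relIndex H = 1 := by
      rw [h3] at h1
      exact Nat.eq_of_mul_eq_mul_right (Fact.out : p.Prime).pos (by rw [h1, one_mul])
    exact le_antisymm (Subgroup.relIndex_eq_one.1 h4) h

/-- (S). Proof: write `C = C_Γ(x)`. By `card_mul_cregM` in `M` (elements `x` of `M`, centraliser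
`C ⊓ M`): `|M| * creg p (G.subgroupOf M) = ∑ |C ⊓ M|` over the `p`-regular `x ∈ M` with
`G (C ⊓ M) = M`. All `p`-regular elements of `Γ` lie in `G ≤ M` (`Γ/G` is a `p`-group). By
Dedekind `G (C ⊓ M) = G C ⊓ M`, so the condition is `M ≤ G C`, i.e. `G C = M` or `G C = Γ` (index
`p`). If `G C = M`: `C ⊓ M = C`. If `G C = Γ`: `|C| = p |C ⊓ M|`. Hence
`p |M| creg p (G.subgroupOf M) = p |Γ| cregM p G M + |Γ| creg p G`, and `|Γ| = p |M|`. -/
theorem creg_S (p : ℕ) [Fact p.Prime] (G M : Subgroup Γ) [G.Normal] [M.Normal] (hGM : G ≤ M)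
    (hM : M.index = p) (hp : IsPGroup p (Γ ⧸ G)) :
    creg p (G.subgroupOf M) = p * cregM p G M + creg p G := by
  have hp0 : 0 < p := (Fact.out : p.Prime).pos
  have hΓ : 0 < Nat.card Γ := Nat.card_pos
  have hcard : Nat.card M * p = Nat.card Γ := by rw [← hM, Subgroup.card_mul_index]
  set A1 : Set Γ := {x : Γ | ¬ p ∣ orderOf x ∧ G ⊔ Subgroup.centralizer {x} = M} with hA1
  set A2 : Set Γ := {x : Γ | ¬ p ∣ orderOf x ∧ G ⊔ Subgroup.centralizer {x} = ⊤} with hA2
  have hMtop : M ≠ ⊤ := by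
    intro h
    rw [h, Subgroup.index_top] at hM
    exact (Fact.out : p.Prime).one_lt.ne hM
  have e1 : Nat.card Γ * cregM p G M =
      ∑ᶠ x ∈ A1, Nat.card (Subgroup.centralizer ({x} : Set Γ)) := card_mul_cregM p G M
  have e2 : Nat.card Γ * cregM p G ⊤ =
      ∑ᶠ x ∈ A2, Nat.card (Subgroup.centralizer ({x} : Set Γ)) := card_mul_cregM p G ⊤
  have e3 := card_mul_cregM (Γ := M) p (G.subgroupOf M) ⊤
  have himg : A1 ∪ A2 = Subtype.val '' {x : M | ¬ p ∣ orderOf x ∧
      G.subgroupOf M ⊔ Subgroup.centralizer ({x} : Set M) = ⊤} := by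
    ext x
    constructor
    · intro hx
      have hreg : ¬ p ∣ orderOf x := hx.elim (fun h => h.1) (fun h => h.1)
      have hxM : x ∈ M := hGM (creg_mem p G hp hreg)
      refine ⟨⟨x, hxM⟩, ⟨?_, ?_⟩, rfl⟩
      · rwa [Subgroup.orderOf_mk]
      · rw [creg_dedekind G M hGM]
        rcases hx with hx | hx
        · exact hx.2.ge
        · exact le_top.trans hx.2.ge
    · rintro ⟨y, ⟨hy1, hy2⟩, rfl⟩
      rw [creg_dedekind G M hGM] at hy2
      rw [← Subgroup.orderOf_coe] at hy1
      rcases creg_dich hM hy2 with h | h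
      · exact Or.inl ⟨hy1, h⟩
      · exact Or.inr ⟨hy1, h⟩
  have e4 : Nat.card M * creg p (G.subgroupOf M) =
      ∑ᶠ x ∈ A1 ∪ A2, Nat.card (Subgroup.centralizer ({x} : Set Γ) ⊓ M : Subgroup Γ) := by
    rw [himg, finsum_mem_image Subtype.val_injective.injOn]
    refine Eq.trans e3 ?_
    exact finsum_mem_congr rfl fun x _ => creg_card_centralizerM M x
  have hdisj : Disjoint A1 A2 := by
    rw [Set.disjoint_left]
    intro x h1 h2
    exact hMtop (h1.2.symm.trans h2.2)
  rw [finsum_mem_union hdisj (Set.toFinite _) (Set.toFinite _)] at e4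
  have e5 : ∑ᶠ x ∈ A1, Nat.card (Subgroup.centralizer ({x} : Set Γ) ⊓ M : Subgroup Γ) =
      Nat.card Γ * cregM p G M := by
    rw [e1]
    refine finsum_mem_congr rfl fun x hx => ?_
    have : Subgroup.centralizer ({x} : Set Γ) ≤ M := hx.2 ▸ le_sup_right
    rw [inf_eq_left.2 this]
  have e6 : p * ∑ᶠ x ∈ A2, Nat.card (Subgroup.centralizer ({x} : Set Γ) ⊓ M : Subgroup Γ) =
      Nat.card Γ * cregM p G ⊤ := by
    rw [e2, mul_finsum_mem]
    refine finsum_mem_congr rfl fun x hx => ?_
    set C := Subgroup.centralizer ({x} : Set Γ) with hC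
    have h1 : M.relIndex C = p := by
      rw [← hM, ← Subgroup.relIndex_top_right, ← Subgroup.relIndex_sup_right C M]
      congr 1
      rw [eq_top_iff, ← hx.2, sup_comm]
      exact sup_le_sup_left hGM C |>.trans (le_of_eq rfl) |> fun h => by
        rw [sup_comm C G] at h
        exact (sup_comm G C ▸ h)
    have h2 : Nat.card (M.subgroupOf C) * M.relIndex C = Nat.card C :=
      Subgroup.card_mul_index _
    have h3 : Nat.card (M.subgroupOf C) = Nat.card (C ⊓ M : Subgroup Γ) := by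
      rw [inf_comm, ← Subgroup.subgroupOf_map_subtype]
      exact Nat.card_congr ((M.subgroupOf C).equivMapOfInjective _ C.subtype_injective).toEquiv
    rw [← h3, mul_comm, ← h2, h1]
  rw [e5] at e4
  have e7 : Nat.card Γ * creg p (G.subgroupOf M) =
      Nat.card Γ * (p * cregM p G M + cregM p G ⊤) := by
    rw [← hcard, mul_comm (Nat.card M) p, mul_assoc, e4, mul_add, e6, hcard.symm]
    ring
  exact Nat.eq_of_mul_eq_mul_left hΓ e7

/-- the members of `compl G K` are normal -/
theorem creg_compl_normal (p : ℕ) [Fact p.Prime] (G K : Subgroup Γ) [G.Normal] [K.Normal]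
    (hGK : G ≤ K) (hi : G.relIndex K = p) (hp : IsPGroup p (Γ ⧸ G)) {M : Subgroup Γ}
    (hM : M ∈ compl G K) : M.Normal := by
  obtain ⟨hGM, hKM, hMt⟩ := hM
  have hK0 : K.index ≠ 0 := Subgroup.index_ne_zero_of_finite
  have h1 : (K ⊓ M).relIndex M = K.index := by
    rw [Subgroup.inf_relIndex_right, ← Subgroup.relIndex_top_right, ← hKM, sup_comm,
      Subgroup.relIndex_sup_right]
  have h2 : (K ⊓ M).relIndex M * M.index = (K ⊓ M).relIndex K * K.index := by
    rw [Subgroup.relIndex_mul_index inf_le_right, Subgroup.relIndex_mul_index inf_le_left]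
  have h3 : M.index = (K ⊓ M).relIndex K := by
    rw [h1, mul_comm] at h2
    exact Nat.eq_of_mul_eq_mul_right (Nat.pos_of_ne_zero hK0) h2
  have h4 : G.relIndex (K ⊓ M) * (K ⊓ M).relIndex K = G.relIndex K :=
    Subgroup.relIndex_mul_relIndex _ _ _ (le_inf hGK hGM) inf_le_left
  have h5 : M.index ∣ p := by
    rw [h3, ← hi, ← h4]
    exact dvd_mul_left _ _
  have h6 : M.index = p := by
    rcases (Nat.dvd_prime (Fact.out : p.Prime)).1 h5 with h | h
    · exact absurd (Subgroup.index_eq_one.1 h) hMt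
    · exact h
  have h7 : (M.map (QuotientGroup.mk' G)).comap (QuotientGroup.mk' G) = M := by
    rw [QuotientGroup.comap_map_mk']
    exact sup_eq_right.2 hGM
  have h8 : (M.map (QuotientGroup.mk' G)).index = p := by
    rw [← Subgroup.index_comap_of_surjective _ (QuotientGroup.mk'_surjective G), h7, h6]
  obtain ⟨k, hk⟩ := IsPGroup.iff_card.1 hp
  have h9 : p ∣ Nat.card (Γ ⧸ G) := by
    rw [← h8]
    exact Subgroup.index_dvd_card _
  have hk0 : k ≠ 0 := by
    rintro rfl
    rw [hk, pow_zero] at h9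
    exact (Fact.out : p.Prime).one_lt.ne' (Nat.dvd_one.1 h9)
  have h10 : (M.map (QuotientGroup.mk' G)).Normal := by
    apply Subgroup.normal_of_index_eq_minFac_card
    rw [h8, hk, (Fact.out : p.Prime).pow_minFac hk0]
  rw [← h7]
  exact h10.comap _

/-- (T). Proof: a class with `K C = Γ` has `G C = Γ` or `M := G C` in `compl G K`; every `M` in
`compl G K` is normal of index `p` in `Γ` (`Γ/G` is a `p`-group) and for `M` in `compl G K`,
`G C = M` implies `K C = Γ`. So the set of classes is a disjoint union. -/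
theorem creg_T (p : ℕ) [Fact p.Prime] (G K : Subgroup Γ) [G.Normal] [K.Normal] (hGK : G ≤ K)
    (hi : G.relIndex K = p) (hp : IsPGroup p (Γ ⧸ G)) :
    creg p K = creg p G + ∑ᶠ M ∈ compl G K, cregM p G M := by
  have hΓ : 0 < Nat.card Γ := Nat.card_pos
  set A : Subgroup Γ → Set Γ := fun M =>
    {x : Γ | ¬ p ∣ orderOf x ∧ G ⊔ Subgroup.centralizer {x} = M} with hA
  have e1 : Nat.card Γ * cregM p K ⊤ = ∑ᶠ x ∈ {x : Γ | ¬ p ∣ orderOf x ∧
      K ⊔ Subgroup.centralizer {x} = ⊤}, Nat.card (Subgroup.centralizer ({x} : Set Γ)) :=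
    card_mul_cregM p K ⊤
  have e2 : Nat.card Γ * cregM p G ⊤ =
      ∑ᶠ x ∈ A ⊤, Nat.card (Subgroup.centralizer ({x} : Set Γ)) := card_mul_cregM p G ⊤
  have hKsup : ∀ x : Γ, K ⊔ (G ⊔ Subgroup.centralizer ({x} : Set Γ)) =
      K ⊔ Subgroup.centralizer ({x} : Set Γ) := by
    intro x
    rw [← sup_assoc, sup_eq_left.2 hGK]
  have hset : {x : Γ | ¬ p ∣ orderOf x ∧ K ⊔ Subgroup.centralizer {x} = ⊤} =
      A ⊤ ∪ ⋃ M ∈ compl G K, A M := by
    ext x
    simp only [Set.mem_union, Set.mem_iUnion]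
    constructor
    · rintro ⟨h1, h2⟩
      by_cases h3 : G ⊔ Subgroup.centralizer ({x} : Set Γ) = ⊤
      · exact Or.inl ⟨h1, h3⟩
      · refine Or.inr ⟨_, ⟨le_sup_left, ?_, h3⟩, h1, rfl⟩
        rw [hKsup, h2]
    · rintro (⟨h1, h2⟩ | ⟨M, hM, h1, h2⟩)
      · refine ⟨h1, ?_⟩
        rw [← hKsup, h2, sup_top_eq]
      · refine ⟨h1, ?_⟩
        rw [← hKsup, h2, hM.2.1]
  have hd1 : Disjoint (A ⊤) (⋃ M ∈ compl G K, A M) := by
    rw [Set.disjoint_left]
    intro x h1 h2
    simp only [Set.mem_iUnion] at h2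
    obtain ⟨M, hM, -, h3⟩ := h2
    exact hM.2.2 (h3.symm.trans h1.2)
  have hd2 : (compl G K).PairwiseDisjoint A := by
    intro M _ M' _ hne
    rw [Function.onFun, Set.disjoint_left]
    intro x h1 h2
    exact hne (h1.2.symm.trans h2.2)
  rw [hset, finsum_mem_union hd1 (Set.toFinite _) (Set.toFinite _),
    finsum_mem_biUnion hd2 (Set.toFinite _) (fun _ _ => Set.toFinite _), ← e2] at e1
  have e3 : ∑ᶠ M ∈ compl G K, ∑ᶠ x ∈ A M, Nat.card (Subgroup.centralizer ({x} : Set Γ)) =
      Nat.card Γ * ∑ᶠ M ∈ compl G K, cregM p G M := by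
    rw [mul_finsum_mem]
    refine finsum_mem_congr rfl fun M hM => ?_
    have := creg_compl_normal p G K hGK hi hp hM
    exact (card_mul_cregM p G M).symm
  rw [e3, ← mul_add] at e1
  exact Nat.eq_of_mul_eq_mul_left hΓ e1

omit [Finite Γ] in
/-- Proof: `z` is in every centraliser, so `G C ≠ M`. -/
theorem cregM_central (p : ℕ) (G M : Subgroup Γ) (z : Γ) (hz : z ∈ Subgroup.center Γ)
    (hzM : z ∉ M) : cregM p G M = 0 := by
  have : IsEmpty {c : ConjClasses Γ // ∀ x, ConjClasses.mk x = c →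
      ¬ p ∣ orderOf x ∧ G ⊔ Subgroup.centralizer {x} = M} := by
    refine ⟨fun ⟨c, hc⟩ => ?_⟩
    obtain ⟨x, rfl⟩ := c.exists_rep
    have h1 := (hc x rfl).2
    apply hzM
    rw [← h1]
    apply Subgroup.mem_sup_right
    rw [Subgroup.mem_centralizer_singleton_iff]
    exact (Subgroup.mem_center_iff.1 hz x).symm
  unfold cregM
  exact Nat.card_of_isEmpty

omit [Finite Γ] in
theorem creg_congr_imp (p : ℕ) {Γ' : Type u} [Group Γ'] (e : Γ ≃* Γ') (G : Subgroup Γ)
    (G' : Subgroup Γ') (h : G.map e.toMonoidHom = G') (x : Γ) :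
    (¬ p ∣ orderOf (e x) ∧ G' ⊔ Subgroup.centralizer {e x} = ⊤) ↔
      (¬ p ∣ orderOf x ∧ G ⊔ Subgroup.centralizer {x} = ⊤) := by
  have h1 : Subgroup.centralizer ({e x} : Set Γ') =
      (Subgroup.centralizer ({x} : Set Γ)).map e.toMonoidHom := by
    ext y
    rw [Subgroup.mem_map]
    constructor
    · intro hy
      rw [Subgroup.mem_centralizer_singleton_iff] at hy
      refine ⟨e.symm y, ?_, by simp⟩
      rw [Subgroup.mem_centralizer_singleton_iff]
      apply e.injective
      simpa using hy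
    · rintro ⟨z, hz, rfl⟩
      rw [Subgroup.mem_centralizer_singleton_iff] at hz ⊢
      change e z * e x = e x * e z
      rw [← map_mul, hz, map_mul]
  rw [h1, ← h, ← Subgroup.map_sup, e.orderOf_eq]
  refine and_congr Iff.rfl ?_
  constructor
  · intro h2
    apply Subgroup.map_injective (f := e.toMonoidHom) e.injective
    rw [h2, Subgroup.map_top_of_surjective _ e.surjective]
  · intro h2
    rw [h2, Subgroup.map_top_of_surjective _ e.surjective]

omit [Finite Γ] in
/-- invariance under isomorphisms -/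
theorem creg_congr (p : ℕ) {Γ' : Type u} [Group Γ'] (e : Γ ≃* Γ') (G : Subgroup Γ)
    (G' : Subgroup Γ') (h : G.map e.toMonoidHom = G') : creg p G = creg p G' := by
  let E : ConjClasses Γ ≃ ConjClasses Γ' :=
    { toFun := ConjClasses.map e.toMonoidHom
      invFun := ConjClasses.map e.symm.toMonoidHom
      left_inv := by
        intro c
        obtain ⟨x, rfl⟩ := c.exists_rep
        change ConjClasses.mk (e.symm (e x)) = ConjClasses.mk x
        rw [e.symm_apply_apply]
      right_inv := by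
        intro c
        obtain ⟨x, rfl⟩ := c.exists_rep
        change ConjClasses.mk (e (e.symm x)) = ConjClasses.mk x
        rw [e.apply_symm_apply] }
  unfold creg cregM
  refine Nat.card_congr (Equiv.subtypeEquiv E fun c => ?_)
  constructor
  · intro hc y hy
    have h1 : ConjClasses.mk (e.symm y) = c := by
      apply E.injective
      rw [← hy]
      change ConjClasses.mk (e (e.symm y)) = ConjClasses.mk y
      rw [e.apply_symm_apply]
    have h2 := (creg_congr_imp p e G G' h (e.symm y)).2 (hc _ h1)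
    rwa [e.apply_symm_apply] at h2
  · intro hc x hx
    refine (creg_congr_imp p e G G' h x).1 (hc (e x) ?_)
    rw [← hx]
    rfl

end Pool.Agent.Nav
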