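import Pool.Agent.Nav.DzC

/-!
# NAV-Norm : sums over conjugacy classes of subgroups
-/

namespace Pool.Agent.Nav

universe u

variable {Γ : Type u} [Group Γ]

/-- the isomorphism of the normalisers induced by an isomorphism -/
noncomputable def normEquiv {Γ' : Type u} [Group Γ'] (e : Γ ≃* Γ') (Q : Subgroup Γ) :
    Nm Q ≃* Nm (Q.map e.toMonoidHom) :=
  (e.subgroupMap (Nm Q)).trans (MulEquiv.subgroupCongr (Subgroup.map_equiv_normalizer_eq Q e))

theorem normEquiv_coe {Γ' : Type u} [Group Γ'] (e : Γ ≃* Γ') (Q : Subgroup Γ) (x : Nm Q) :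
    ((normEquiv e Q x : Nm (Q.map e.toMonoidHom)) : Γ') = e x := rfl

/-- transport of `Nm` and `NQ` under an isomorphism -/
theorem NQ_map {Γ' : Type u} [Group Γ'] (e : Γ ≃* Γ') (Q : Subgroup Γ) :
    Nonempty (NQ Q ≃* NQ (Q.map e.toMonoidHom)) := by
  refine ⟨QuotientGroup.congr _ _ (normEquiv e Q) ?_⟩
  ext x
  constructor
  · rintro ⟨y, hy, rfl⟩
    rw [Subgroup.mem_subgroupOf]
    exact ⟨(y : Γ), Subgroup.mem_subgroupOf.1 hy, rfl⟩
  · intro hx
    obtain ⟨y, rfl⟩ := (normEquiv e Q).surjective x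
    refine ⟨y, ?_, rfl⟩
    have h1 := Subgroup.mem_subgroupOf.1 hx
    rw [normEquiv_coe] at h1
    obtain ⟨z, hz, hzy⟩ := h1
    have h2 : z = (y : Γ) := e.injective hzy
    subst h2
    exact hz

theorem card_Nm_map {Γ' : Type u} [Group Γ'] (e : Γ ≃* Γ') (Q : Subgroup Γ) :
    Nat.card (Nm Q) = Nat.card (Nm (Q.map e.toMonoidHom)) :=
  Nat.card_congr (normEquiv e Q).toEquiv

theorem norm_map_conj_mul (Q : Subgroup Γ) (g h : Γ) :
    (Q.map (MulAut.conj g).toMonoidHom).map (MulAut.conj h).toMonoidHom =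
      Q.map (MulAut.conj (h * g)).toMonoidHom := by
  rw [Subgroup.map_map]
  congr 1
  ext x
  simp [MulAut.conj_apply, mul_assoc]

theorem norm_map_conj_one (Q : Subgroup Γ) : Q.map (MulAut.conj (1 : Γ)).toMonoidHom = Q := by
  simp [Subgroup.ext_iff]

theorem norm_mem_iff (Q : Subgroup Γ) (g : Γ) :
    g ∈ Nm Q ↔ Q.map (MulAut.conj g).toMonoidHom = Q := by
  rw [Subgroup.mem_normalizer_iff]
  constructor
  · intro h
    ext x
    constructor
    · rintro ⟨y, hy, rfl⟩
      exact (h y).1 hy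
    · intro hx
      refine ⟨g⁻¹ * x * g, ?_, ?_⟩
      · refine (h _).2 ?_
        have : g * (g⁻¹ * x * g) * g⁻¹ = x := by group
        rw [this]
        exact hx
      · simp [MulAut.conj_apply, mul_assoc]
  · intro h x
    constructor
    · intro hx
      rw [← h]
      exact ⟨x, hx, rfl⟩
    · intro hx
      rw [← h] at hx
      obtain ⟨y, hy, hyx⟩ := hx
      have : y = x := by
        have h1 : g * y * g⁻¹ = g * x * g⁻¹ := hyx
        exact mul_left_cancel (mul_right_cancel h1)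
      rw [← this]
      exact hy

theorem norm_map_conj (G : Subgroup Γ) [hG : G.Normal] (g : Γ) :
    G.map (MulAut.conj g).toMonoidHom = G := by
  rw [← norm_mem_iff, Subgroup.mem_normalizer_iff]
  intro x
  constructor
  · intro hx
    exact hG.conj_mem x hx g
  · intro hx
    have h1 := hG.conj_mem _ hx g⁻¹
    have h2 : g⁻¹ * (g * x * g⁻¹) * g⁻¹⁻¹ = x := by group
    rwa [h2] at h1

variable [Finite Γ]

omit [Finite Γ] in
/-- the elements conjugating `Q₀` to `Q` -/
theorem norm_card_trans (Q₀ Q : Subgroup Γ) (g₀ : Γ) (h : Q₀.map (MulAut.conj g₀).toMonoidHom = Q) :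
    Nat.card {g : Γ // Q₀.map (MulAut.conj g).toMonoidHom = Q} = Nat.card (Nm Q) := by
  have key : ∀ g : Γ, Q₀.map (MulAut.conj g).toMonoidHom = Q ↔ g * g₀⁻¹ ∈ Nm Q := by
    intro g
    rw [norm_mem_iff, ← h, norm_map_conj_mul]
    simp
  refine Nat.card_congr ?_
  exact
    { toFun := fun g => ⟨g.1 * g₀⁻¹, (key g.1).1 g.2⟩
      invFun := fun g => ⟨g.1 * g₀, (key _).2 (by simp)⟩
      left_inv := fun g => Subtype.ext (by simp)
      right_inv := fun g => Subtype.ext (by simp) }

/-- Proof: `Γ` acts on `S` by conjugation, the stabiliser of `Q` is `N_Γ(Q)`, so the class of `Q` has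
`|Γ| / |N_Γ(Q)|` members. -/
theorem norm_sum (S : Set (Subgroup Γ))
    (hS : ∀ Q ∈ S, ∀ g : Γ, Q.map (MulAut.conj g).toMonoidHom ∈ S) (w : Subgroup Γ → ℕ)
    (hw : ∀ (Q : Subgroup Γ) (g : Γ), w (Q.map (MulAut.conj g).toMonoidHom) = w Q) :
    ∑ᶠ Q ∈ S, Nat.card (Nm Q) * w Q =
      Nat.card Γ * ∑ᶠ c : Quotient (conjSetoid S), w (c.out : Subgroup Γ) := by
  classical
  have : Fintype Γ := Fintype.ofFinite Γ
  have : Finite (Subgroup Γ) := inferInstance
  have : Fintype (Subgroup Γ) := Fintype.ofFinite _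
  have : Fintype S := Fintype.ofFinite S
  have : Fintype (Quotient (conjSetoid S)) := Fintype.ofFinite _
  rw [finsum_mem_eq_finite_toFinset_sum _ (Set.toFinite S), finsum_eq_sum_of_fintype,
    Finset.mul_sum]
  have h1 : ∑ Q ∈ (Set.toFinite S).toFinset, Nat.card (Nm Q) * w Q =
      ∑ Q : S, Nat.card (Nm (Q : Subgroup Γ)) * w Q := by
    exact (Finset.sum_subtype _ (fun x => Set.Finite.mem_toFinset _) (fun Q => Nat.card (Nm Q) * w Q))
  rw [h1, ← Finset.sum_fiberwise (s := (Finset.univ : Finset S))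
    (g := fun Q => (Quotient.mk (conjSetoid S) Q)) (f := fun Q : S => Nat.card (Nm (Q : Subgroup Γ)) * w Q)]
  refine Finset.sum_congr rfl fun c _ => ?_
  have h2 : ∀ Q ∈ (Finset.univ : Finset S).filter (fun Q => Quotient.mk (conjSetoid S) Q = c),
      Nat.card (Nm (Q : Subgroup Γ)) * w Q =
        Fintype.card {g : Γ // (⟨(c.out : Subgroup Γ).map (MulAut.conj g).toMonoidHom,
          hS _ c.out.2 g⟩ : S) = Q} * w (c.out : Subgroup Γ) := by
    intro Q hQ
    rw [Finset.mem_filter] at hQ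
    have h3 : Quotient.mk (conjSetoid S) c.out = Quotient.mk (conjSetoid S) Q := by
      rw [Quotient.out_eq, hQ.2]
    obtain ⟨g₀, hg₀⟩ := Quotient.exact h3
    rw [← Nat.card_eq_fintype_card, ← norm_card_trans (c.out : Subgroup Γ) Q g₀ hg₀]
    congr 1
    · refine Nat.card_congr (Equiv.subtypeEquivRight fun g => ?_)
      constructor
      · intro h
        exact Subtype.ext h
      · intro h
        exact congrArg Subtype.val h
    · rw [← hg₀, hw]
  rw [Finset.sum_congr rfl h2, ← Finset.sum_mul]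
  congr 1
  have h4 := Finset.card_eq_sum_card_fiberwise (s := (Finset.univ : Finset Γ))
    (t := (Finset.univ : Finset S).filter (fun Q => Quotient.mk (conjSetoid S) Q = c))
    (f := fun g => (⟨(c.out : Subgroup Γ).map (MulAut.conj g).toMonoidHom,
          hS _ c.out.2 g⟩ : S)) (by
      intro g _
      rw [Finset.mem_coe, Finset.mem_filter]
      refine ⟨Finset.mem_univ _, ?_⟩
      rw [← Quotient.out_eq c]
      refine Quotient.sound ?_
      refine (conjSetoid S).symm ⟨g, ?_⟩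
      simp only [Quotient.out_eq])
  rw [Nat.card_eq_fintype_card, ← Finset.card_univ, h4]
  refine Finset.sum_congr rfl fun Q _ => ?_
  rw [Fintype.card_subtype]

/-- the case `w Q = dz p (NQ Q)` -/
theorem card_mul_wSum (p : ℕ) (S : Set (Subgroup Γ))
    (hS : ∀ Q ∈ S, ∀ g : Γ, Q.map (MulAut.conj g).toMonoidHom ∈ S) :
    Nat.card Γ * wSum p S = ∑ᶠ Q ∈ S, Nat.card (Nm Q) * dz p (NQ Q) := by
  unfold wSum
  refine (norm_sum S hS (fun Q => dz p (NQ Q)) ?_).symm
  intro Q g
  obtain ⟨e⟩ := NQ_map (MulAut.conj g) Q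
  exact (dz_congr p e).symm

/-- `Theta` and `ThetaM` (for normal `G`, `M`) are stable under conjugation -/
theorem theta_conj (p : ℕ) (G : Subgroup Γ) [G.Normal] (Q : Subgroup Γ) (hQ : Q ∈ Theta p G)
    (g : Γ) : Q.map (MulAut.conj g).toMonoidHom ∈ Theta p G := by
  refine ⟨hQ.1.map _, ?_⟩
  have h1 := congrArg (Subgroup.map (MulAut.conj g).toMonoidHom) hQ.2
  rw [Subgroup.map_sup, norm_map_conj G, norm_map_conj ⊤] at h1
  exact h1

theorem thetaM_conj (p : ℕ) (G M : Subgroup Γ) [G.Normal] [M.Normal] (Q : Subgroup Γ)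
    (hQ : Q ∈ ThetaM p G M) (g : Γ) :
    Q.map (MulAut.conj g).toMonoidHom ∈ ThetaM p G M := by
  refine ⟨hQ.1.map _, ?_⟩
  have h1 := congrArg (Subgroup.map (MulAut.conj g).toMonoidHom) hQ.2
  rw [Subgroup.map_sup, norm_map_conj G, norm_map_conj M] at h1
  exact h1

omit [Finite Γ] in
theorem norm_theta_map (p : ℕ) {Γ' : Type u} [Group Γ'] (e : Γ ≃* Γ') (G : Subgroup Γ)
    (Q : Subgroup Γ) (hQ : Q ∈ Theta p G) :
    Q.map e.toMonoidHom ∈ Theta p (G.map e.toMonoidHom) := by
  refine ⟨hQ.1.map _, ?_⟩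
  rw [← Subgroup.map_sup, hQ.2]
  exact Subgroup.map_top_of_surjective _ e.surjective

/-- invariance of the weight sum under isomorphisms -/
theorem weights_congr (p : ℕ) {Γ' : Type u} [Group Γ'] (e : Γ ≃* Γ') (G : Subgroup Γ) [G.Normal]
    (G' : Subgroup Γ') (h : G.map e.toMonoidHom = G') : weights p G = weights p G' := by
  subst h
  have : Finite Γ' := Finite.of_equiv Γ e.toEquiv
  have hN : (G.map e.toMonoidHom).Normal := Subgroup.Normal.map inferInstance _ e.surjective
  have h1 := card_mul_wSum p (Theta p G) (theta_conj p G)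
  have h2 := card_mul_wSum p (Theta p (G.map e.toMonoidHom)) (theta_conj p (G.map e.toMonoidHom))
  have hb : Set.BijOn (fun Q : Subgroup Γ => Q.map e.toMonoidHom) (Theta p G)
      (Theta p (G.map e.toMonoidHom)) := by
    refine ⟨fun Q hQ => norm_theta_map p e G Q hQ, ?_, ?_⟩
    · intro Q _ R _ hQR
      exact Subgroup.map_injective e.injective hQR
    · intro R hR
      have hG : (G.map e.toMonoidHom).map e.symm.toMonoidHom = G := by
        rw [Subgroup.map_map]
        have : e.symm.toMonoidHom.comp e.toMonoidHom = MonoidHom.id Γ := by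
          ext x; simp
        rw [this, Subgroup.map_id]
      have h3 := norm_theta_map p e.symm (G.map e.toMonoidHom) R hR
      rw [hG] at h3
      refine ⟨R.map e.symm.toMonoidHom, h3, ?_⟩
      change (R.map e.symm.toMonoidHom).map e.toMonoidHom = R
      rw [Subgroup.map_map]
      have : e.toMonoidHom.comp e.symm.toMonoidHom = MonoidHom.id Γ' := by
        ext x; simp
      rw [this, Subgroup.map_id]
  have h4 : ∑ᶠ Q ∈ Theta p G, Nat.card (Nm Q) * dz p (NQ Q) =
      ∑ᶠ Q ∈ Theta p (G.map e.toMonoidHom), Nat.card (Nm Q) * dz p (NQ Q) := by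
    refine finsum_mem_eq_of_bijOn _ hb ?_
    intro Q _
    obtain ⟨e'⟩ := NQ_map e Q
    rw [card_Nm_map e Q, dz_congr p e']
  rw [← h1, ← h2, Nat.card_congr e.toEquiv] at h4
  exact Nat.eq_of_mul_eq_mul_left Nat.card_pos h4

end Pool.Agent.Nav
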