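import Pool.Agent.Nav.OpZero
import Pool.Agent.Nav.Norm

/-!
# NAV2-QuotW : the weight sum does not change modulo a normal `p`-subgroup
-/

namespace Pool.Agent.Nav

universe u

variable {Γ : Type u} [Group Γ] [Finite Γ]

/-- If the normal `p`-subgroup `Z` is not contained in the `p`-subgroup `Q`, then
`dz p (N(Q)/Q) = 0`: `Q < Z Q` are `p`-groups, so `Q < N_{ZQ}(Q)`, and `N_{ZQ}(Q)/Q` is a nontrivial
normal `p`-subgroup of `N_Γ(Q)/Q`; use `dz_normal`. -/
theorem dz_not_le (p : ℕ) [Fact p.Prime] (Z Q : Subgroup Γ) [Z.Normal] (hZ : IsPGroup p Z)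
    (hQ : IsPGroup p Q) (h : ¬ Z ≤ Q) : dz p (NQ Q) = 0 := by
  have hP : IsPGroup p (Z ⊔ Q : Subgroup Γ) := hZ.to_sup_of_normal_left hQ
  -- an element of `Z ∩ N(Q)` outside `Q`
  obtain ⟨z, hzZ, hzN, hzQ⟩ : ∃ z ∈ Z, z ∈ Nm Q ∧ z ∉ Q := by
    have hnil : Group.IsNilpotent (Z ⊔ Q : Subgroup Γ) := hP.isNilpotent
    have hnc : NormalizerCondition (Z ⊔ Q : Subgroup Γ) := Group.normalizerCondition_of_isNilpotent
    have hlt : Q.subgroupOf (Z ⊔ Q) < ⊤ := by
      rw [lt_top_iff_ne_top]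
      intro h1
      rw [Subgroup.subgroupOf_eq_top] at h1
      exact h (le_sup_left.trans h1)
    obtain ⟨x, hx, hxQ⟩ := Set.exists_of_ssubset (hnc _ hlt)
    have hxQ' : (x : Γ) ∉ Q := fun h1 => hxQ (Subgroup.mem_subgroupOf.2 h1)
    have hxN : (x : Γ) ∈ Nm Q := by
      rw [SetLike.mem_coe, Subgroup.mem_normalizer_iff] at hx
      rw [Subgroup.mem_normalizer_iff]
      intro y
      constructor
      · intro hy
        have h1 := (hx ⟨y, (le_sup_right : Q ≤ Z ⊔ Q) hy⟩).1 (Subgroup.mem_subgroupOf.2 hy)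
        exact Subgroup.mem_subgroupOf.1 h1
      · intro hy
        have hyP : y ∈ Z ⊔ Q := by
          have h2 : (x : Γ) * y * (x : Γ)⁻¹ ∈ Z ⊔ Q := (le_sup_right : Q ≤ Z ⊔ Q) hy
          have h3 : (x : Γ)⁻¹ * ((x : Γ) * y * (x : Γ)⁻¹) * x ∈ Z ⊔ Q :=
            mul_mem (mul_mem (inv_mem x.2) h2) x.2
          have h4 : (x : Γ)⁻¹ * ((x : Γ) * y * (x : Γ)⁻¹) * x = y := by group
          rwa [h4] at h3
        have h1 := (hx ⟨y, hyP⟩).2 (Subgroup.mem_subgroupOf.2 hy)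
        exact Subgroup.mem_subgroupOf.1 h1
    have hxP := x.2
    rw [Subgroup.mem_sup_of_normal_left] at hxP
    obtain ⟨z, hz, q, hq, hzq⟩ := hxP
    have hz' : z = (x : Γ) * q⁻¹ := by rw [← hzq]; group
    refine ⟨z, hz, ?_, ?_⟩
    · rw [hz']
      exact mul_mem hxN (inv_mem (Subgroup.le_normalizer hq))
    · intro h1
      apply hxQ'
      rw [← hzq]
      exact mul_mem h1 hq
  have hN : (Z.subgroupOf (Nm Q)).Normal := inferInstance
  have hR : (Subgroup.map (QuotientGroup.mk' (Q.subgroupOf (Nm Q)))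
      (Z.subgroupOf (Nm Q))).Normal :=
    Subgroup.Normal.map hN _ (QuotientGroup.mk'_surjective _)
  refine dz_normal p (NQ Q) (Subgroup.map (QuotientGroup.mk' (Q.subgroupOf (Nm Q)))
      (Z.subgroupOf (Nm Q))) ?_ ?_
  · exact (hZ.comap_subtype (K := Nm Q)).map _
  · intro h1
    have h2 : QuotientGroup.mk' (Q.subgroupOf (Nm Q)) (⟨z, hzN⟩ : Nm Q) = 1 := by
      rw [← Subgroup.mem_bot, ← h1]
      exact ⟨⟨z, hzN⟩, Subgroup.mem_subgroupOf.2 hzZ, rfl⟩
    rw [← MonoidHom.mem_ker, QuotientGroup.ker_mk', Subgroup.mem_subgroupOf] at h2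
    exact hzQ h2

omit [Finite Γ] in
private theorem comap_map_of_le (Z Q : Subgroup Γ) [Z.Normal] (h : Z ≤ Q) :
    (Q.map (QuotientGroup.mk' Z)).comap (QuotientGroup.mk' Z) = Q :=
  Subgroup.comap_map_eq_self (by rw [QuotientGroup.ker_mk']; exact h)

omit [Finite Γ] in
private theorem Nm_quot (Z Q : Subgroup Γ) [Z.Normal] (h : Z ≤ Q) :
    (Nm (Q.map (QuotientGroup.mk' Z))).comap (QuotientGroup.mk' Z) = Nm Q := by
  have h1 := Subgroup.comap_normalizer_eq_of_surjective (Q.map (QuotientGroup.mk' Z))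
    (QuotientGroup.mk'_surjective Z)
  rw [comap_map_of_le Z Q h] at h1
  exact h1

/-- the map `N(Q) → N(Q/Z)` -/
private noncomputable def nmMap (Z Q : Subgroup Γ) [Z.Normal] (h : Z ≤ Q) :
    Nm Q →* Nm (Q.map (QuotientGroup.mk' Z)) :=
  ((QuotientGroup.mk' Z).comp (Nm Q).subtype).codRestrict _ (by
    intro x
    have hx : ∀ g ∈ Nm Q, g ∈ (Nm (Q.map (QuotientGroup.mk' Z))).comap (QuotientGroup.mk' Z) := by
      intro g hg
      rw [Nm_quot Z Q h]
      exact hg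
    exact hx x x.2)

omit [Finite Γ] in
private theorem nmMap_surj (Z Q : Subgroup Γ) [Z.Normal] (h : Z ≤ Q) :
    Function.Surjective (nmMap Z Q h) := by
  rintro ⟨y, hy⟩
  obtain ⟨g, rfl⟩ := QuotientGroup.mk'_surjective Z y
  have hg : g ∈ Nm Q := by
    rw [← Nm_quot Z Q h]
    exact hy
  exact ⟨⟨g, hg⟩, rfl⟩

/-- For `Z ≤ Q`: `N(Q/Z)/(Q/Z) ≅ N(Q)/Q` and `|N(Q)| = |Z| |N(Q/Z)|`. -/
theorem NQ_quot (Z Q : Subgroup Γ) [Z.Normal] (h : Z ≤ Q) :
    Nonempty (NQ Q ≃* NQ (Q.map (QuotientGroup.mk' Z))) := by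
  set ψ : Nm Q →* NQ (Q.map (QuotientGroup.mk' Z)) :=
    (QuotientGroup.mk' ((Q.map (QuotientGroup.mk' Z)).subgroupOf
      (Nm (Q.map (QuotientGroup.mk' Z))))).comp (nmMap Z Q h) with hψ
  have hsurj : Function.Surjective ψ :=
    (QuotientGroup.mk'_surjective _).comp (nmMap_surj Z Q h)
  have hker : ψ.ker = Q.subgroupOf (Nm Q) := by
    ext x
    rw [MonoidHom.mem_ker, hψ, MonoidHom.comp_apply, ← MonoidHom.mem_ker, QuotientGroup.ker_mk',
      Subgroup.mem_subgroupOf, Subgroup.mem_subgroupOf]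
    change QuotientGroup.mk' Z (x : Γ) ∈ Q.map (QuotientGroup.mk' Z) ↔ _
    rw [← Subgroup.mem_comap, comap_map_of_le Z Q h]
  exact ⟨(QuotientGroup.quotientMulEquivOfEq hker.symm).trans
    (QuotientGroup.quotientKerEquivOfSurjective ψ hsurj)⟩

theorem card_Nm_quot (Z Q : Subgroup Γ) [Z.Normal] (h : Z ≤ Q) :
    Nat.card (Nm Q) = Nat.card Z * Nat.card (Nm (Q.map (QuotientGroup.mk' Z))) := by
  have hker : (nmMap Z Q h).ker = Z.subgroupOf (Nm Q) := by
    ext x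
    rw [MonoidHom.mem_ker, Subgroup.mem_subgroupOf, Subtype.ext_iff]
    change QuotientGroup.mk' Z (x : Γ) = 1 ↔ _
    rw [← MonoidHom.mem_ker, QuotientGroup.ker_mk']
  have h1 := Subgroup.card_eq_card_quotient_mul_card_subgroup (nmMap Z Q h).ker
  rw [Nat.card_congr (QuotientGroup.quotientKerEquivOfSurjective (nmMap Z Q h)
    (nmMap_surj Z Q h)).toEquiv, hker, Nat.card_congr (Subgroup.subgroupOfEquivOfLe
    (h.trans Subgroup.le_normalizer)).toEquiv] at h1
  rw [h1, mul_comm]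

/-- Proof: by `card_mul_wSum`, `|Γ| weights p G` is the sum over `Q ∈ Theta p G` of
`|N(Q)| dz (N(Q)/Q)`; the `Q` not containing `Z` contribute `0`, the others correspond to
`Theta p (G Z / Z)` in `Γ / Z` (`Q` is a `p`-group iff `Q/Z` is; `G Q = Γ` iff
`(GZ/Z)(Q/Z) = Γ/Z`). -/
theorem weights_quot (p : ℕ) [Fact p.Prime] (G Z : Subgroup Γ) [G.Normal] [Z.Normal]
    (hZ : IsPGroup p Z) : weights p (G.map (QuotientGroup.mk' Z)) = weights p G := by
  have hGn : (G.map (QuotientGroup.mk' Z)).Normal :=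
    Subgroup.Normal.map inferInstance _ (QuotientGroup.mk'_surjective Z)
  have h1 := card_mul_wSum p (Theta p G) (theta_conj p G)
  have h2 := card_mul_wSum p (Theta p (G.map (QuotientGroup.mk' Z)))
    (theta_conj p (G.map (QuotientGroup.mk' Z)))
  have h3 : ∑ᶠ Q ∈ Theta p G, Nat.card (Nm Q) * dz p (NQ Q) =
      ∑ᶠ Q ∈ Theta p G ∩ {Q | Z ≤ Q}, Nat.card (Nm Q) * dz p (NQ Q) := by
    refine finsum_mem_inter_support_eq' _ _ _ ?_
    intro Q hQ
    constructor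
    · intro hQT
      refine ⟨hQT, ?_⟩
      by_contra hle
      refine hQ ?_
      change Nat.card (Nm Q) * dz p (NQ Q) = 0
      rw [dz_not_le p Z Q hZ hQT.1 hle, mul_zero]
    · exact fun hQT => hQT.1
  have hb : Set.BijOn (fun Q : Subgroup Γ => Q.map (QuotientGroup.mk' Z))
      (Theta p G ∩ {Q | Z ≤ Q}) (Theta p (G.map (QuotientGroup.mk' Z))) := by
    refine ⟨?_, ?_, ?_⟩
    · rintro Q ⟨hQ, -⟩
      refine ⟨hQ.1.map _, ?_⟩
      rw [← Subgroup.map_sup, hQ.2]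
      exact Subgroup.map_top_of_surjective _ (QuotientGroup.mk'_surjective Z)
    · rintro Q ⟨-, hQ⟩ R ⟨-, hR⟩ hQR
      have h4 := congrArg (Subgroup.comap (QuotientGroup.mk' Z)) hQR
      simp only at h4
      rwa [comap_map_of_le Z Q hQ, comap_map_of_le Z R hR] at h4
    · intro R hR
      have hmc : (R.comap (QuotientGroup.mk' Z)).map (QuotientGroup.mk' Z) = R :=
        Subgroup.map_comap_eq_self_of_surjective (QuotientGroup.mk'_surjective Z) R
      have hle : Z ≤ R.comap (QuotientGroup.mk' Z) := by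
        have := (QuotientGroup.mk' Z).ker_le_comap R
        rwa [QuotientGroup.ker_mk'] at this
      refine ⟨R.comap (QuotientGroup.mk' Z), ⟨⟨?_, ?_⟩, hle⟩, hmc⟩
      · refine hR.1.comap_of_ker_isPGroup _ ?_
        rw [QuotientGroup.ker_mk']
        exact hZ
      · have h4 : (G ⊔ R.comap (QuotientGroup.mk' Z)).map (QuotientGroup.mk' Z) = ⊤ := by
          rw [Subgroup.map_sup, hmc]
          exact hR.2
        have h5 := comap_map_of_le Z (G ⊔ R.comap (QuotientGroup.mk' Z)) (hle.trans le_sup_right)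
        rw [h4, Subgroup.comap_top] at h5
        exact h5.symm
  have h4 : ∑ᶠ Q ∈ Theta p G ∩ {Q | Z ≤ Q}, Nat.card (Nm Q) * dz p (NQ Q) =
      ∑ᶠ R ∈ Theta p (G.map (QuotientGroup.mk' Z)),
        Nat.card Z * (Nat.card (Nm R) * dz p (NQ R)) := by
    refine finsum_mem_eq_of_bijOn _ hb ?_
    rintro Q ⟨-, hQ⟩
    obtain ⟨e⟩ := NQ_quot Z Q hQ
    rw [card_Nm_quot Z Q hQ, dz_congr p e, mul_assoc]
  have h5 : ∑ᶠ R ∈ Theta p (G.map (QuotientGroup.mk' Z)),
        Nat.card Z * (Nat.card (Nm R) * dz p (NQ R)) =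
      Nat.card Z * ∑ᶠ R ∈ Theta p (G.map (QuotientGroup.mk' Z)),
        Nat.card (Nm R) * dz p (NQ R) :=
    (mul_finsum_mem _ _).symm
  have h6 : Nat.card Γ = Nat.card (Γ ⧸ Z) * Nat.card Z :=
    Subgroup.card_eq_card_quotient_mul_card_subgroup Z
  rw [h3, h4, h5, ← h2] at h1
  have h7 : Nat.card Γ * weights p (G.map (QuotientGroup.mk' Z)) = Nat.card Γ * weights p G := by
    change _ = Nat.card Γ * wSum p (Theta p G)
    rw [h1, h6]
    change _ = Nat.card Z * (Nat.card (Γ ⧸ Z) * weights p (G.map (QuotientGroup.mk' Z)))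
    ring
  exact Nat.eq_of_mul_eq_mul_left Nat.card_pos h7

end Pool.Agent.Nav
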