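import Pool.Agent.Nav.Defs

/-!
# Shared definitions and basic lemmas of the NAV project
-/

namespace Pool.Agent.Nav

open scoped Classical

universe u v

section irr

variable {K : Type v} [Field K] {H : Type u} [Group H]

/-- the character of an isomorphism class -/
noncomputable def chi (c : IrrClass K H) : H → K :=
  Quotient.lift (fun ρ : IrrRep K H => ρ.rep.character)
    (fun _ _ h => by obtain ⟨e⟩ := h; exact Representation.char_iso e) c

/-- the degree of an isomorphism class -/
noncomputable def degc (c : IrrClass K H) : ℕ :=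
  Quotient.lift (fun ρ : IrrRep K H => ρ.deg)
    (fun ρ σ h => by
      obtain ⟨e⟩ := h
      have h1 := LinearEquiv.finrank_eq e.toLinearEquiv
      simpa using h1) c

@[simp] lemma chi_mk (ρ : IrrRep K H) : chi (⟦ρ⟧ : IrrClass K H) = ρ.rep.character := rfl

@[simp] lemma degc_mk (ρ : IrrRep K H) : degc (⟦ρ⟧ : IrrClass K H) = ρ.deg := rfl

lemma chi_one (c : IrrClass K H) : chi c 1 = (degc c : K) := by
  induction c using Quotient.inductionOn with
  | _ ρ => simp

lemma chi_conj (c : IrrClass K H) (g x : H) : chi c (g * x * g⁻¹) = chi c x := by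
  induction c using Quotient.inductionOn with
  | _ ρ => simp

lemma degc_pos (c : IrrClass K H) : 0 < degc c := by
  induction c using Quotient.inductionOn with
  | _ ρ =>
    rw [degc_mk]
    rcases Nat.eq_zero_or_pos ρ.deg with h | h
    · exfalso
      have h1 := ρ.irr
      have h2 : Nontrivial (Subrepresentation ρ.rep) := h1.toNontrivial
      obtain ⟨a, b, hab⟩ := h2
      apply hab
      have : Subsingleton (Fin ρ.deg → K) := by
        rw [h]; infer_instance
      apply Subrepresentation.toSubmodule_injective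
      exact Subsingleton.elim _ _
    · exact h

lemma dz_eq (p : ℕ) : dz p H =
    Nat.card {c : IrrClass ℂ H // padicValNat p (degc c) = padicValNat p (Nat.card H)} := by
  unfold dz
  congr 1
  apply congrArg
  ext c
  induction c using Quotient.inductionOn with
  | _ ρ =>
    constructor
    · intro h; exact h ρ rfl
    · intro h σ hσ
      rw [← hσ] at h
      simpa using h

end irr

section ga

variable {R : Type v} [Semiring R] {H : Type u}

/-- the element of the group algebra with coefficients `f` (finite group) -/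
noncomputable def ga [Finite H] (f : H → R) : MonoidAlgebra R H :=
  .ofCoeff (Finsupp.equivFunOnFinite.symm f)

@[simp] lemma ga_coeff [Finite H] (f : H → R) (x : H) : (ga f).coeff x = f x := by
  simp [ga]

lemma ga_ext {a b : MonoidAlgebra R H} (h : ∀ x, a.coeff x = b.coeff x) : a = b := by
  ext x; exact h x

lemma mul_coeff [Group H] [Fintype H] (a b : MonoidAlgebra R H) (g : H) :
    (a * b).coeff g = ∑ h : H, a.coeff h * b.coeff (h⁻¹ * g) := by
  rw [MonoidAlgebra.coeff_mul_apply_left, Finsupp.sum_fintype]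
  intro i; simp

lemma one_coeff [Group H] (g : H) :
    (1 : MonoidAlgebra R H).coeff g = if g = 1 then 1 else 0 := by
  rw [MonoidAlgebra.one_def]
  simp [Finsupp.single_apply, eq_comm]

/-- `IsCl a`: the coefficients of `a` are constant on conjugacy classes. -/
def IsCl [Group H] (a : MonoidAlgebra R H) : Prop := ∀ h x : H, a.coeff (h * x * h⁻¹) = a.coeff x

end ga

section om

variable {H : Type u} [Group H]

/-- the central character: the scalar by which the class function `z` acts on `c` -/
noncomputable def om (c : IrrClass ℂ H) (z : MonoidAlgebra ℂ H) : ℂ :=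
  (degc c : ℂ)⁻¹ * ∑ᶠ x, z.coeff x * chi c x

/-- the central idempotent of `c` -/
noncomputable def ei [Finite H] (c : IrrClass ℂ H) : MonoidAlgebra ℂ H :=
  ga fun x => (degc c : ℂ) / (Nat.card H : ℂ) * chi c x⁻¹

end om

section I0

variable {X : Type u} [Group X] {F : Type v} [Field F]

/-- `a : F[X]` belongs to `I0 p F Y` when it is supported on the subgroup `Y`, its coefficients are
constant on the `Y`-classes and vanish at all `x` with `p ∣ |C_Y(x)|`. -/
def I0 (p : ℕ) (F : Type v) [Field F] (Y : Subgroup X) : Submodule F (MonoidAlgebra F X) where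
  carrier := {a | (∀ x ∉ Y, a.coeff x = 0) ∧ (∀ y ∈ Y, ∀ x, a.coeff (y * x * y⁻¹) = a.coeff x) ∧
    ∀ x, p ∣ Nat.card (Y ⊓ Subgroup.centralizer {x} : Subgroup X) → a.coeff x = 0}
  add_mem' := by
    rintro a b ⟨h1, h2, h3⟩ ⟨k1, k2, k3⟩
    refine ⟨fun x hx => ?_, fun y hy x => ?_, fun x hx => ?_⟩
    · simp [h1 x hx, k1 x hx]
    · simp [h2 y hy x, k2 y hy x]
    · simp [h3 x hx, k3 x hx]
  zero_mem' := by simp
  smul_mem' := by
    rintro c a ⟨h1, h2, h3⟩
    refine ⟨fun x hx => ?_, fun y hy x => ?_, fun x hx => ?_⟩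
    · simp [h1 x hx]
    · simp [h2 y hy x]
    · simp [h3 x hx]

lemma mem_I0 {p : ℕ} {Y : Subgroup X} {a : MonoidAlgebra F X} : a ∈ I0 p F Y ↔
    (∀ x ∉ Y, a.coeff x = 0) ∧ (∀ y ∈ Y, ∀ x, a.coeff (y * x * y⁻¹) = a.coeff x) ∧
    ∀ x, p ∣ Nat.card (Y ⊓ Subgroup.centralizer {x} : Subgroup X) → a.coeff x = 0 := Iff.rfl

/-- the elements `a` of `I0 p F Y` with `a ^ p = a` -/
def EE (p : ℕ) (F : Type v) [Field F] (Y : Subgroup X) : Set (MonoidAlgebra F X) :=
  {a | a ∈ I0 p F Y ∧ a ^ p = a}

/-- `Inv a`: the coefficients of `a` are constant on the classes of `X`. This is `IsCl a`. -/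
lemma isCl_top {p : ℕ} {a : MonoidAlgebra F X} (h : a ∈ I0 p F (⊤ : Subgroup X)) : IsCl a :=
  fun g x => h.2.1 g trivial x

/-- restriction of the support to the subgroup `S` -/
noncomputable def br [Finite X] (S : Subgroup X) (a : MonoidAlgebra F X) : MonoidAlgebra F X :=
  ga fun x => if x ∈ S then a.coeff x else 0

@[simp] lemma br_coeff [Finite X] (S : Subgroup X) (a : MonoidAlgebra F X) (x : X) :
    (br S a).coeff x = if x ∈ S then a.coeff x else 0 := by simp [br]

/-- `C_Y(D)` -/
def CY (Y D : Subgroup X) : Subgroup X := Y ⊓ Subgroup.centralizer (D : Set X)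

/-- the subgroups of order `p` not contained in `Y` -/
def Dset (p : ℕ) (Y : Subgroup X) : Set (Subgroup X) := {D | Nat.card D = p ∧ ¬ D ≤ Y}

end I0

section counts

variable {Γ : Type u} [Group Γ]

/-- number of conjugacy classes of `p`-regular `x ∈ Γ` with `G C_Γ(x) = M` -/
noncomputable def cregM (p : ℕ) (G M : Subgroup Γ) : ℕ :=
  Nat.card {c : ConjClasses Γ // ∀ x, ConjClasses.mk x = c →
    ¬ p ∣ orderOf x ∧ G ⊔ Subgroup.centralizer {x} = M}

/-- number of conjugacy classes of `p`-regular `x ∈ Γ` with `G C_Γ(x) = Γ`. When `Γ/G` is a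
`p`-group this is the number of `Γ`-invariant `p`-regular conjugacy classes of `G`. -/
noncomputable def creg (p : ℕ) (G : Subgroup Γ) : ℕ := cregM p G ⊤

/-- the number of conjugacy classes of `Q` with `G Q = M`, weighted by `|dz (N_Γ(Q)/Q)|` -/
noncomputable def fW (p : ℕ) (G M : Subgroup Γ) : ℕ := wSum p (ThetaM p G M)

/-- the subgroups `M ≥ G`, `M ≠ Γ` with `K M = Γ` -/
def compl (G K : Subgroup Γ) : Set (Subgroup Γ) := {M | G ≤ M ∧ K ⊔ M = ⊤ ∧ M ≠ ⊤}

end counts

end Pool.Agent.Nav
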