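import Pool.Agent.Nav.API

/-!
# The actions of `Γ` on the classes of irreducible representations and on the `p`-regular classes of `G`
-/

namespace Pool.Agent.Nav

universe u v

section irr

variable {k : Type v} [Field k] {Γ : Type u} [Group Γ]

lemma IrrRep.twist_equiv {K : Type v} [Field K] {H H' : Type u} [Group H] [Group H']
    (ρ σ : IrrRep K H) (e : H' ≃* H) (h : Nonempty (ρ.rep.Equiv σ.rep)) :
    Nonempty ((ρ.twist e).rep.Equiv (σ.twist e).rep) := by
  obtain ⟨f⟩ := h
  exact ⟨Representation.Equiv.mk f.toLinearEquiv (fun g => by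
    have := f.isIntertwining' (e g)
    exact this)⟩

/-- the map induced on isomorphism classes by an isomorphism of groups -/
noncomputable def twistC {K : Type v} [Field K] {H H' : Type u} [Group H] [Group H']
    (e : H' ≃* H) (c : IrrClass K H) : IrrClass K H' :=
  Quotient.map (fun ρ => ρ.twist e) (fun ρ σ h => IrrRep.twist_equiv ρ σ e h) c

lemma twistC_mk {K : Type v} [Field K] {H H' : Type u} [Group H] [Group H']
    (e : H' ≃* H) (ρ : IrrRep K H) :
    twistC e (⟦ρ⟧ : IrrClass K H) = ⟦ρ.twist e⟧ := rfl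

lemma chi_twistC {K : Type v} [Field K] {H H' : Type u} [Group H] [Group H']
    (e : H' ≃* H) (c : IrrClass K H) (x : H') : chi (twistC e c) x = chi c (e x) := by
  induction c using Quotient.inductionOn with
  | _ ρ => rfl

lemma degc_twistC {K : Type v} [Field K] {H H' : Type u} [Group H] [Group H']
    (e : H' ≃* H) (c : IrrClass K H) : degc (twistC e c) = degc c := by
  induction c using Quotient.inductionOn with
  | _ ρ => rfl

lemma twistC_twistC {K : Type v} [Field K] {H H' H'' : Type u} [Group H] [Group H'] [Group H'']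
    (e : H' ≃* H) (f : H'' ≃* H') (c : IrrClass K H) :
    twistC f (twistC e c) = twistC (f.trans e) c := by
  induction c using Quotient.inductionOn with
  | _ ρ => rfl

lemma twistC_refl {K : Type v} [Field K] {H : Type u} [Group H] (c : IrrClass K H) :
    twistC (MulEquiv.refl H) c = c := by
  induction c using Quotient.inductionOn with
  | _ ρ => rfl

variable (k) in
/-- `Γ` acts on the isomorphism classes of irreducible representations of `G`:
`(γ • ρ)(g) = ρ(γ⁻¹ g γ)`. -/
noncomputable instance actIrr (G : Subgroup Γ) [G.Normal] : MulAction Γ (IrrClass k G) where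
  smul γ c := twistC (MulAut.conjNormal γ⁻¹) c
  one_smul c := by
    change twistC (MulAut.conjNormal (1 : Γ)⁻¹) c = c
    have h : (MulAut.conjNormal (1 : Γ)⁻¹ : MulAut G) = MulEquiv.refl G := by simp; rfl
    rw [h, twistC_refl]
  mul_smul a b c := by
    change twistC (MulAut.conjNormal (a * b)⁻¹) c =
      twistC (MulAut.conjNormal a⁻¹) (twistC (MulAut.conjNormal b⁻¹) c)
    rw [twistC_twistC]
    congr 1
    rw [mul_inv_rev, map_mul]
    rfl

lemma smul_irr_def (G : Subgroup Γ) [G.Normal] (γ : Γ) (c : IrrClass k G) :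
    γ • c = twistC (MulAut.conjNormal γ⁻¹) c := rfl

lemma chi_smul (G : Subgroup Γ) [G.Normal] (γ : Γ) (c : IrrClass k G) (x : G) :
    chi (γ • c) x = chi c (MulAut.conjNormal γ⁻¹ x) := by
  rw [smul_irr_def, chi_twistC]

end irr

section preg

variable {Γ : Type u} [Group Γ]

/-- the `p`-regular conjugacy classes of `G` -/
def PReg (p : ℕ) (H : Type u) [Group H] :=
  {c : ConjClasses H // ∀ x, ConjClasses.mk x = c → ¬ p ∣ orderOf x}

instance (p : ℕ) (H : Type u) [Group H] [Finite H] : Finite (PReg p H) := by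
  unfold PReg; infer_instance

lemma map_preg (p : ℕ) {H : Type u} [Group H] (e : H ≃* H) (c : ConjClasses H)
    (hc : ∀ x, ConjClasses.mk x = c → ¬ p ∣ orderOf x) :
    ∀ x, ConjClasses.mk x = ConjClasses.map e.toMonoidHom c → ¬ p ∣ orderOf x := by
  obtain ⟨y, rfl⟩ := ConjClasses.exists_rep c
  · intro x hx
    have h1 : ConjClasses.map e.toMonoidHom (ConjClasses.mk y) = ConjClasses.mk (e y) := rfl
    rw [h1, ConjClasses.mk_eq_mk_iff_isConj] at hx
    obtain ⟨g, hg⟩ := isConj_iff.1 hx
    have h2 : e y = g * x * g⁻¹ := hg.symm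
    have h3 : orderOf x = orderOf y := by
      have h4 : orderOf (e y) = orderOf x := by
        rw [h2]
        exact (MulAut.conj g).orderOf_eq x
      rw [← h4, e.orderOf_eq]
    rw [h3]
    exact hc y rfl

/-- `Γ` acts on the `p`-regular classes of `G` by conjugation -/
instance actPReg (p : ℕ) (G : Subgroup Γ) [G.Normal] : MulAction Γ (PReg p G) where
  smul γ c := ⟨ConjClasses.map (MulAut.conjNormal γ : G ≃* G).toMonoidHom c.1,
    map_preg p _ c.1 c.2⟩
  one_smul c := by
    obtain ⟨c, hc⟩ := c
    apply Subtype.ext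
    change ConjClasses.map (MulAut.conjNormal (1 : Γ) : G ≃* G).toMonoidHom c = c
    obtain ⟨y, rfl⟩ := ConjClasses.exists_rep c
    · change ConjClasses.mk (MulAut.conjNormal (1 : Γ) y) = ConjClasses.mk y
      simp
  mul_smul a b c := by
    obtain ⟨c, hc⟩ := c
    apply Subtype.ext
    change ConjClasses.map (MulAut.conjNormal (a * b) : G ≃* G).toMonoidHom c =
      ConjClasses.map (MulAut.conjNormal a : G ≃* G).toMonoidHom
        (ConjClasses.map (MulAut.conjNormal b : G ≃* G).toMonoidHom c)
    obtain ⟨y, rfl⟩ := ConjClasses.exists_rep c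
    · change ConjClasses.mk (MulAut.conjNormal (a * b) y) =
        ConjClasses.mk (MulAut.conjNormal a (MulAut.conjNormal b y))
      simp

lemma smul_preg_val (p : ℕ) (G : Subgroup Γ) [G.Normal] (γ : Γ) (c : PReg p G) (y : G)
    (hc : c.1 = ConjClasses.mk y) :
    (γ • c).1 = ConjClasses.mk (MulAut.conjNormal γ y) := by
  change ConjClasses.map (MulAut.conjNormal γ : G ≃* G).toMonoidHom c.1 = _
  rw [hc]; rfl

end preg

end Pool.Agent.Nav
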