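import Pool.Agent.Nav.FSum

/-!
# NAV-BR1 : the Brauer map is multiplicative
-/

namespace Pool.Agent.Nav

open scoped Classical

universe u v

/-- the product of two elements supported on `Y` is supported on `Y` -/
private theorem br1_supp_mul {X : Type u} [Group X] [Finite X] {F : Type v} [Field F]
    (Y : Subgroup X) (a b : MonoidAlgebra F X)
    (ha : ∀ x ∉ Y, a.coeff x = 0) (hb : ∀ x ∉ Y, b.coeff x = 0) :
    ∀ x ∉ Y, (a * b).coeff x = 0 := by
  have := Fintype.ofFinite X
  intro x hx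
  rw [mul_coeff]
  apply Finset.sum_eq_zero
  intro h _
  by_cases hh : h ∈ Y
  · rw [hb (h⁻¹ * x), mul_zero]
    intro hc
    apply hx
    have := Y.mul_mem hh hc
    simpa using this
  · rw [ha h hh, zero_mul]

/-- invariance under conjugation by `d` passes to products -/
private theorem br1_inv_mul {X : Type u} [Group X] [Finite X] {F : Type v} [Field F]
    (d : X) (a b : MonoidAlgebra F X)
    (ha : ∀ x, a.coeff (d * x * d⁻¹) = a.coeff x) (hb : ∀ x, b.coeff (d * x * d⁻¹) = b.coeff x) :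
    ∀ x, (a * b).coeff (d * x * d⁻¹) = (a * b).coeff x := by
  have := Fintype.ofFinite X
  intro x
  rw [mul_coeff, mul_coeff]
  rw [← Equiv.sum_comp (MulAut.conj d).toEquiv]
  apply Finset.sum_congr rfl
  intro h _
  have e1 : (MulAut.conj d).toEquiv h = d * h * d⁻¹ := by simp [MulAut.conj_apply]
  rw [e1, ha h]
  congr 1
  have e2 : (d * h * d⁻¹)⁻¹ * (d * x * d⁻¹) = d * (h⁻¹ * x) * d⁻¹ := by group
  rw [e2, hb]

/-- `a, b` supported on `Y` and invariant under conjugation by the `p`-group `D`. Proof: both sides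
vanish at `x` outside `C_Y(D)`: the right one since both factors are supported on the subgroup
`CY Y D`. For `x ∈ CY Y D`: `(a b)(x) = ∑_h a h * b (h⁻¹ x)`, invariant under conjugating `h` by `D`;
by `sum_fixed` (conjugation action of `D` on `X`) it is the sum over `h ∈ C_X(D)`, where `a h ≠ 0`
only for `h ∈ Y`. -/
theorem br_mul {X : Type u} [Group X] [Finite X] {p : ℕ} [Fact p.Prime] {F : Type v} [Field F]
    [CharP F p] (Y D : Subgroup X) (hD : IsPGroup p D) (a b : MonoidAlgebra F X)
    (ha : ∀ x ∉ Y, a.coeff x = 0) (ha' : ∀ d ∈ D, ∀ x, a.coeff (d * x * d⁻¹) = a.coeff x)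
    (hb : ∀ x ∉ Y, b.coeff x = 0) (hb' : ∀ d ∈ D, ∀ x, b.coeff (d * x * d⁻¹) = b.coeff x) :
    br (CY Y D) (a * b) = br (CY Y D) a * br (CY Y D) b := by
  have := Fintype.ofFinite X
  apply ga_ext
  intro x
  rw [br_coeff, mul_coeff (br (CY Y D) a) (br (CY Y D) b)]
  simp only [br_coeff]
  by_cases hx : x ∈ CY Y D
  · rw [if_pos hx, mul_coeff]
    have hxD : ∀ d ∈ D, d * x = x * d := by
      intro d hd
      have h1 : x ∈ Subgroup.centralizer (D : Set X) := (Subgroup.mem_inf.1 hx).2
      exact Subgroup.mem_centralizer_iff.1 h1 d hd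
    -- the conjugation action
    let act : MulAction D X := MulAction.compHom X ((MulAut.conj (G := X)).comp D.subtype)
    have hact : ∀ (d : D) (h : X), act.smul d h = (d : X) * h * (d : X)⁻¹ := by
      intro d h
      change (MulAut.conj (d : X)) h = _
      rw [MulAut.conj_apply]
    have hfix : ∀ h : X, h ∈ @MulAction.fixedPoints D X _ act ↔
        h ∈ Subgroup.centralizer (D : Set X) := by
      intro h
      rw [Subgroup.mem_centralizer_iff]
      constructor
      · intro hh d hd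
        have h1 : act.smul ⟨d, hd⟩ h = h := hh ⟨d, hd⟩
        rw [hact] at h1
        simp only at h1
        rw [mul_inv_eq_iff_eq_mul] at h1
        exact h1
      · intro hh d
        change act.smul d h = h
        rw [hact, hh d d.2]
        group
    rw [@sum_fixed p _ D _ hD X act _ F _ _ (fun h => a.coeff h * b.coeff (h⁻¹ * x)) (by
      intro d h
      change a.coeff (act.smul d h) * b.coeff ((act.smul d h)⁻¹ * x) = _
      rw [hact, ha' d d.2]
      congr 1
      have e2 : ((d : X) * h * (d : X)⁻¹)⁻¹ * x = (d : X) * (h⁻¹ * x) * (d : X)⁻¹ := by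
        have h1 : (d : X)⁻¹ * x = x * (d : X)⁻¹ := by
          rw [inv_mul_eq_iff_eq_mul, ← mul_assoc, hxD d d.2]
          group
        calc ((d : X) * h * (d : X)⁻¹)⁻¹ * x = (d : X) * h⁻¹ * ((d : X)⁻¹ * x) := by group
          _ = (d : X) * (h⁻¹ * x) * (d : X)⁻¹ := by rw [h1]; group
      rw [e2, hb' d d.2])]
    apply Finset.sum_congr rfl
    intro h _
    by_cases hh : h ∈ CY Y D
    · have h1 : h ∈ @MulAction.fixedPoints D X _ act := (hfix h).2 (Subgroup.mem_inf.1 hh).2
      have h2 : h⁻¹ * x ∈ CY Y D := Subgroup.mul_mem _ (Subgroup.inv_mem _ hh) hx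
      rw [if_pos h1, if_pos hh, if_pos h2]
    · rw [if_neg hh, zero_mul]
      by_cases h1 : h ∈ @MulAction.fixedPoints D X _ act
      · rw [if_pos h1]
        have h2 : h ∉ Y := by
          intro hY
          exact hh (Subgroup.mem_inf.2 ⟨hY, (hfix h).1 h1⟩)
        rw [ha h h2, zero_mul]
      · rw [if_neg h1]
  · rw [if_neg hx]
    symm
    apply Finset.sum_eq_zero
    intro h _
    by_cases hh : h ∈ CY Y D
    · have h2 : h⁻¹ * x ∉ CY Y D := by
        intro hc
        apply hx
        have := Subgroup.mul_mem _ hh hc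
        simpa using this
      rw [if_neg h2, mul_zero]
    · rw [if_neg hh, zero_mul]

theorem br_pow {X : Type u} [Group X] [Finite X] {p : ℕ} [Fact p.Prime] {F : Type v} [Field F]
    [CharP F p] (Y D : Subgroup X) (hD : IsPGroup p D) (a : MonoidAlgebra F X)
    (ha : ∀ x ∉ Y, a.coeff x = 0) (ha' : ∀ d ∈ D, ∀ x, a.coeff (d * x * d⁻¹) = a.coeff x)
    (n : ℕ) (hn : n ≠ 0) : br (CY Y D) (a ^ n) = br (CY Y D) a ^ n := by
  obtain ⟨k, rfl⟩ := Nat.exists_eq_succ_of_ne_zero hn
  clear hn
  have key : ∀ k : ℕ, (∀ x ∉ Y, (a ^ (k + 1)).coeff x = 0) ∧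
      (∀ d ∈ D, ∀ x, (a ^ (k + 1)).coeff (d * x * d⁻¹) = (a ^ (k + 1)).coeff x) ∧
      br (CY Y D) (a ^ (k + 1)) = br (CY Y D) a ^ (k + 1) := by
    intro k
    induction k with
    | zero => simpa using ⟨ha, ha'⟩
    | succ k ih =>
      obtain ⟨h1, h2, h3⟩ := ih
      rw [pow_succ a (k + 1), pow_succ (br (CY Y D) a) (k + 1), ← h3]
      exact ⟨br1_supp_mul Y _ _ h1 ha, fun d hd => br1_inv_mul d _ _ (h2 d hd) (ha' d hd),
        br_mul Y D hD _ _ h1 h2 ha ha'⟩
  exact (key k).2.2

end Pool.Agent.Nav
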