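import Pool.Agent.Nav.API

/-!
# NAV-BR2 : subgroups `D` of order `p` outside a normal subgroup `Y` of index `p`
-/

namespace Pool.Agent.Nav

universe u

variable {X : Type u} [Group X] [Finite X] {p : ℕ} [Fact p.Prime] (Y : Subgroup X) [Y.Normal]
  (hY : Y.index = p) (D : Subgroup X) (hD : D ∈ Dset p Y)

include hY hD

/-- `D ∩ Y = 1` and `D Y = X` -/
theorem D_inf : D ⊓ Y = ⊥ ∧ D ⊔ Y = ⊤ := by
  obtain ⟨hc, hn⟩ := hD
  have hp : p.Prime := Fact.out
  constructor
  · have h1 : Nat.card (D ⊓ Y : Subgroup X) ∣ p := by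
      rw [← hc]
      exact Subgroup.card_dvd_of_le inf_le_left
    rcases (Nat.dvd_prime hp).1 h1 with h | h
    · exact Subgroup.card_eq_one.1 h
    · exfalso
      apply hn
      have h2 : (D ⊓ Y : Subgroup X) = D := by
        apply Subgroup.eq_of_le_of_card_ge inf_le_left
        rw [h, hc]
      exact inf_eq_left.1 h2
  · have h1 : (D ⊔ Y).index ∣ p := by
      rw [← hY]
      exact Subgroup.index_dvd_of_le le_sup_right
    rcases (Nat.dvd_prime hp).1 h1 with h | h
    · exact Subgroup.index_eq_one.1 h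
    · exfalso
      apply hn
      have h2 := Subgroup.relIndex_mul_index (le_sup_right : Y ≤ D ⊔ Y)
      rw [h, hY] at h2
      have h3 : Y.relIndex (D ⊔ Y) = 1 := by
        have := hp.pos
        exact Nat.eq_of_mul_eq_mul_right this (by rw [h2, one_mul])
      have h4 : D ⊔ Y ≤ Y := Subgroup.relIndex_eq_one.1 h3
      exact le_sup_left.trans h4

/-- an element of `Y` normalising `D` centralises it (`[y, d] ∈ D ∩ Y = 1`) -/
theorem mem_CY_iff (y : X) : y ∈ CY Y D ↔ y ∈ Y ∧ y ∈ Nm D := by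
  unfold CY
  constructor
  · rintro ⟨h1, h2⟩
    refine ⟨h1, ?_⟩
    rw [Subgroup.mem_normalizer_iff]
    intro d
    have h2' := Subgroup.mem_centralizer_iff.1 h2
    constructor
    · intro hd
      have := h2' d hd
      rw [← this, mul_inv_cancel_right]
      exact hd
    · intro hd
      have := h2' _ hd
      have h3 : d = y * d * y⁻¹ := by
        calc d = y⁻¹ * (y * d * y⁻¹ * y) := by group
          _ = y⁻¹ * (y * (y * d * y⁻¹)) := by rw [this]
          _ = y * d * y⁻¹ := by group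
      rw [h3]
      exact hd
  · rintro ⟨h1, h2⟩
    refine ⟨h1, ?_⟩
    apply Subgroup.mem_centralizer_iff.2
    intro d hd
    have hinf := (D_inf Y hY D hD).1
    have h3 : y * d * y⁻¹ * d⁻¹ ∈ D ⊓ Y := by
      constructor
      · exact D.mul_mem ((Subgroup.mem_normalizer_iff.1 h2 d).1 hd) (D.inv_mem hd)
      · have h4 : y * (d * y⁻¹ * d⁻¹) ∈ Y :=
          Y.mul_mem h1 (Subgroup.Normal.conj_mem inferInstance _ (Y.inv_mem h1) d)
        have h5 : y * (d * y⁻¹ * d⁻¹) = y * d * y⁻¹ * d⁻¹ := by group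
        rwa [h5] at h4
    rw [hinf, Subgroup.mem_bot] at h3
    calc d * y = (y * d * y⁻¹ * d⁻¹)⁻¹ * (y * d) := by group
      _ = y * d := by rw [h3]; simp

/-- `N_X(D) = C_Y(D) × D`, so `N_X(D)/D ≅ C_Y(D)` and `|N_X(D)| = p |C_Y(D)|` -/
theorem NQ_equiv : Nonempty (NQ D ≃* CY Y D) := by
  have hle : CY Y D ≤ Nm D := fun y hy => ((mem_CY_iff Y hY D hD y).1 hy).2
  have hinf := D_inf Y hY D hD
  let f : CY Y D →* NQ D := (QuotientGroup.mk' (D.subgroupOf (Nm D))).comp
    (Subgroup.inclusion hle)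
  have hf : Function.Bijective f := by
    constructor
    · rw [injective_iff_map_eq_one]
      intro a ha
      have h1 : (Subgroup.inclusion hle a) ∈ D.subgroupOf (Nm D) :=
        (QuotientGroup.eq_one_iff _).1 ha
      have h2 : (a : X) ∈ D ⊓ Y := ⟨h1, ((mem_CY_iff Y hY D hD a).1 a.2).1⟩
      rw [hinf.1, Subgroup.mem_bot] at h2
      exact Subtype.ext h2
    · intro q
      obtain ⟨n, rfl⟩ := QuotientGroup.mk'_surjective (D.subgroupOf (Nm D)) q
      have hn : (n : X) ∈ D ⊔ Y := by rw [hinf.2]; trivial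
      obtain ⟨d, hd, y, hy, hdy⟩ := Subgroup.mem_sup_of_normal_right.1 hn
      have hdN : d ∈ Nm D := Subgroup.le_normalizer hd
      have hyN : y ∈ Nm D := by
        have : y = d⁻¹ * n := by rw [← hdy]; group
        rw [this]
        exact (Nm D).mul_mem ((Nm D).inv_mem hdN) n.2
      have hyC : y ∈ CY Y D := (mem_CY_iff Y hY D hD y).2 ⟨hy, hyN⟩
      refine ⟨⟨y, hyC⟩, ?_⟩
      change QuotientGroup.mk' (D.subgroupOf (Nm D)) _ = QuotientGroup.mk' (D.subgroupOf (Nm D)) _
      apply (QuotientGroup.eq (s := D.subgroupOf (Nm D))).2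
      change (y : X)⁻¹ * (n : X) ∈ D
      rw [← hdy]
      have := Subgroup.mem_centralizer_iff.1 hyC.2 d hd
      rw [this]
      simpa using hd
  exact ⟨(MulEquiv.ofBijective f hf).symm⟩

theorem card_Nm : Nat.card (Nm D) = p * Nat.card (CY Y D) := by
  obtain ⟨e⟩ := NQ_equiv Y hY D hD
  have h1 := Subgroup.card_eq_card_quotient_mul_card_subgroup (D.subgroupOf (Nm D))
  have h2 : Nat.card (D.subgroupOf (Nm D)) = p := by
    rw [← hD.1]
    exact Nat.card_congr (Subgroup.subgroupOfEquivOfLe Subgroup.le_normalizer).toEquiv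
  rw [h1, h2, Nat.card_congr e.toEquiv, mul_comm]

/-- Let `y ∈ C_Y(D)` and `p ∣ |C_Y(y)|`; then `p ∣ |C_{C_Y(D)}(y)|`. Proof: `C_Y(y)` is normal in
`T = C_Y(y) ⊔ D ≤ C_X(y)`; take a Sylow `p`-subgroup `S` of `T` containing `D`; `S ⊓ Y ≤ C_Y(y)` is a
nontrivial normal subgroup of `S` (`p ∣ |C_Y(y)|` and `|T| = p |C_Y(y)|`), so it meets the centre of
`S` nontrivially (`IsPGroup`), giving an element of order `p` in `C_Y(y)` centralising `D`. -/
theorem p_dvd_CY (y : X) (hy : y ∈ CY Y D)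
    (h : p ∣ Nat.card (Y ⊓ Subgroup.centralizer {y} : Subgroup X)) :
    p ∣ Nat.card (CY Y D ⊓ Subgroup.centralizer {y} : Subgroup X) := by
  have hyD : ∀ d ∈ D, d * y = y * d := Subgroup.mem_centralizer_iff.1 hy.2
  have hconj : ∀ d ∈ D, ∀ a ∈ (Y ⊓ Subgroup.centralizer {y} : Subgroup X),
      d * a * d⁻¹ ∈ (Y ⊓ Subgroup.centralizer {y} : Subgroup X) := by
    rintro d hd a ⟨ha1, ha2⟩
    refine ⟨Subgroup.Normal.conj_mem inferInstance _ ha1 d, ?_⟩
    have hdc : d ∈ Subgroup.centralizer ({y} : Set X) := by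
      rw [Subgroup.mem_centralizer_singleton_iff]
      exact hyD d hd
    exact Subgroup.mul_mem _ (Subgroup.mul_mem _ hdc ha2) (Subgroup.inv_mem _ hdc)
  let act : MulAction D (Y ⊓ Subgroup.centralizer {y} : Subgroup X) :=
    { smul := fun d a => ⟨(d : X) * a * (d : X)⁻¹, hconj d d.2 a a.2⟩
      one_smul := by
        intro a
        apply Subtype.ext
        change ((1 : D) : X) * a * ((1 : D) : X)⁻¹ = a
        simp
      mul_smul := by
        intro d e a
        apply Subtype.ext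
        change ((d * e : D) : X) * a * ((d * e : D) : X)⁻¹ = d * (e * a * (e : X)⁻¹) * (d : X)⁻¹
        simp [mul_assoc] }
  have hpg : IsPGroup p D := IsPGroup.of_card (n := 1) (by rw [hD.1, pow_one])
  have hmod := hpg.card_modEq_card_fixedPoints (Y ⊓ Subgroup.centralizer {y} : Subgroup X)
  have h1 : p ∣ Nat.card (MulAction.fixedPoints D (Y ⊓ Subgroup.centralizer {y} : Subgroup X)) :=
    (Nat.ModEq.dvd_iff hmod dvd_rfl).1 h
  have h2 : Nat.card (MulAction.fixedPoints D (Y ⊓ Subgroup.centralizer {y} : Subgroup X)) =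
      Nat.card (CY Y D ⊓ Subgroup.centralizer {y} : Subgroup X) := by
    refine Nat.card_congr
      { toFun := fun a => ⟨a.1.1, ?_⟩
        invFun := fun a => ⟨⟨a.1, ⟨a.2.1.1, a.2.2⟩⟩, ?_⟩
        left_inv := fun a => rfl
        right_inv := fun a => rfl }
    · refine ⟨⟨a.1.2.1, ?_⟩, a.1.2.2⟩
      apply Subgroup.mem_centralizer_iff.2
      intro d hd
      have h3 := a.2 ⟨d, hd⟩
      have h4 : d * (a.1 : X) * d⁻¹ = (a.1 : X) := congrArg Subtype.val h3
      calc d * (a.1 : X) = d * (a.1 : X) * d⁻¹ * d := by group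
        _ = (a.1 : X) * d := by rw [h4]
    · intro d
      apply Subtype.ext
      change (d : X) * (a : X) * (d : X)⁻¹ = (a : X)
      have h3 := Subgroup.mem_centralizer_iff.1 a.2.1.2 d d.2
      rw [h3]
      group
  rwa [h2] at h1

omit hD in
/-- Cauchy: if `p ∣ |C_X(y)|` and `p ∤ |C_Y(y)|` there is `D ∈ Dset p Y` centralising `y` -/
theorem exists_D (y : X) (h : ¬ p ∣ Nat.card (Y ⊓ Subgroup.centralizer {y} : Subgroup X))
    (h' : p ∣ Nat.card (Subgroup.centralizer ({y} : Set X))) :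
    ∃ E ∈ Dset p Y, E ≤ Subgroup.centralizer {y} := by
  obtain ⟨e, he⟩ := exists_prime_orderOf_dvd_card' p h'
  have he' : orderOf (e : X) = p := by rw [Subgroup.orderOf_coe, he]
  refine ⟨Subgroup.zpowers (e : X), ⟨?_, ?_⟩, ?_⟩
  · rw [Nat.card_zpowers, he']
  · intro hle
    apply h
    have hm : (e : X) ∈ (Y ⊓ Subgroup.centralizer {y} : Subgroup X) :=
      ⟨hle (Subgroup.mem_zpowers _), e.2⟩
    have := Subgroup.orderOf_dvd_natCard _ hm
    rwa [he'] at this
  · rw [Subgroup.zpowers_le]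
    exact e.2

omit hD in
/-- Sylow: two members of `Dset p Y` centralising `y`, `p ∤ |C_Y(y)|`, are conjugate in `C_X(y)`
(they are Sylow `p`-subgroups of it, as `|C_X(y) : C_Y(y)| ∣ p`) -/
theorem conj_D (y : X) (h : ¬ p ∣ Nat.card (Y ⊓ Subgroup.centralizer {y} : Subgroup X))
    (E E' : Subgroup X) (hE : E ∈ Dset p Y) (hE' : E' ∈ Dset p Y)
    (hy : E ≤ Subgroup.centralizer {y}) (hy' : E' ≤ Subgroup.centralizer {y}) :
    ∃ g ∈ Subgroup.centralizer ({y} : Set X), E.map (MulAut.conj g).toMonoidHom = E' := by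
  have hp : p.Prime := Fact.out
  set C : Subgroup X := Subgroup.centralizer ({y} : Set X) with hC
  have hcard : Nat.card C = Nat.card (Y ⊓ C : Subgroup X) * Y.relIndex C := by
    have h1 := Subgroup.card_mul_index (Y.subgroupOf C)
    have h2 : Nat.card (Y.subgroupOf C) = Nat.card (Y ⊓ C : Subgroup X) := by
      rw [← Subgroup.inf_subgroupOf_right]
      exact Nat.card_congr (Subgroup.subgroupOfEquivOfLe inf_le_right).toEquiv
    rw [h2] at h1
    exact h1.symm
  have hrel : Y.relIndex C ∣ p := by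
    rw [← hY]
    exact Subgroup.relIndex_dvd_index_of_normal _ _
  have hfac : (Nat.card C).factorization p ≤ 1 := by
    by_contra hcon
    have h2 : p ^ 2 ∣ Nat.card C :=
      (hp.pow_dvd_iff_le_factorization Nat.card_pos.ne').2 (by omega)
    have h3 : p ^ 2 ∣ Nat.card (Y ⊓ C : Subgroup X) * p := by
      rw [hcard] at h2
      exact h2.trans (Nat.mul_dvd_mul_left _ hrel)
    rw [pow_two] at h3
    exact h (Nat.dvd_of_mul_dvd_mul_right hp.pos h3)
  have key : ∀ F : Subgroup X, F ∈ Dset p Y → F ≤ C →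
      Nat.card (F.subgroupOf C) = p ^ (Nat.card C).factorization p := by
    intro F hF hFC
    have h1 : Nat.card (F.subgroupOf C) = p := by
      rw [← hF.1]
      exact Nat.card_congr (Subgroup.subgroupOfEquivOfLe hFC).toEquiv
    have h2 : p ∣ Nat.card C := by
      rw [← h1]
      exact Subgroup.card_subgroup_dvd_card _
    have h3 : 1 ≤ (Nat.card C).factorization p :=
      (hp.dvd_iff_one_le_factorization Nat.card_pos.ne').1 h2
    have h4 : (Nat.card C).factorization p = 1 := le_antisymm hfac h3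
    rw [h1, h4, pow_one]
  obtain ⟨g, hg⟩ := MulAction.exists_smul_eq C (Sylow.ofCard _ (key E hE hy))
    (Sylow.ofCard _ (key E' hE' hy'))
  refine ⟨g, g.2, ?_⟩
  have hg' : (E.subgroupOf C).map (MulAut.conj g).toMonoidHom = E'.subgroupOf C :=
    congrArg Sylow.toSubgroup hg
  have hle : E.map (MulAut.conj (g : X)).toMonoidHom ≤ E' := by
    rintro _ ⟨e, he, rfl⟩
    have h1 : (g * ⟨e, hy he⟩ * g⁻¹ : C) ∈ E'.subgroupOf C := by
      rw [← hg']
      exact ⟨⟨e, hy he⟩, he, rfl⟩
    exact h1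
  apply Subgroup.eq_of_le_of_card_ge hle
  rw [hE'.1]
  have : Nat.card (E.map (MulAut.conj (g : X)).toMonoidHom) = Nat.card E :=
    (Nat.card_congr (E.equivMapOfInjective _ (MulAut.conj (g : X)).injective).toEquiv).symm
  rw [this, hE.1]

omit hD in
/-- elements outside `Y` have a centraliser of order divisible by `p` -/
theorem p_dvd_out (x : X) (hx : x ∉ Y) :
    p ∣ Nat.card (Subgroup.centralizer ({x} : Set X)) := by
  have hp : p.Prime := Fact.out
  have h1 : orderOf (QuotientGroup.mk' Y x) ∣ p := by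
    rw [← hY]
    exact orderOf_dvd_natCard _
  have h2 : orderOf (QuotientGroup.mk' Y x) ≠ 1 := by
    intro h
    rw [orderOf_eq_one_iff] at h
    exact hx ((QuotientGroup.eq_one_iff x).1 h)
  have h3 : orderOf (QuotientGroup.mk' Y x) = p := by
    rcases (Nat.dvd_prime hp).1 h1 with h | h
    · exact absurd h h2
    · exact h
  have h4 : p ∣ orderOf x := by
    rw [← h3]
    exact orderOf_map_dvd _ x
  exact h4.trans (Subgroup.orderOf_dvd_natCard _
    (Subgroup.mem_centralizer_singleton_iff.2 rfl))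

omit hY in
/-- `Dset p Y` is stable under conjugation -/
theorem Dset_conj (g : X) : D.map (MulAut.conj g).toMonoidHom ∈ Dset p Y := by
  refine ⟨?_, ?_⟩
  · rw [← hD.1]
    exact (Nat.card_congr (D.equivMapOfInjective _ (MulAut.conj g).injective).toEquiv).symm
  · intro hle
    apply hD.2
    intro d hd
    have h1 : g * d * g⁻¹ ∈ Y := hle ⟨d, hd, rfl⟩
    have h2 := Subgroup.Normal.conj_mem (inferInstance : Y.Normal) _ h1 g⁻¹
    have h3 : g⁻¹ * (g * d * g⁻¹) * g⁻¹⁻¹ = d := by group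
    rwa [h3] at h2

end Pool.Agent.Nav
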