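import Pool.Agent.Nav.BR2

/-!
# NAV-BR3 : an equivariant family comes from an invariant class function
-/

namespace Pool.Agent.Nav

open scoped Classical

universe u v

section conj

variable {X : Type u} [Group X]

lemma br3_card_conj (γ : X) (A B : Subgroup X) (h : ∀ z, γ * z * γ⁻¹ ∈ B ↔ z ∈ A) :
    Nat.card A = Nat.card B := by
  refine Nat.card_congr ((MulAut.conj γ).toEquiv.subtypeEquiv (fun z => ?_))
  exact (h z).symm

lemma br3_mem_map (γ z : X) (D : Subgroup X) :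
    γ * z * γ⁻¹ ∈ D.map (MulAut.conj γ).toMonoidHom ↔ z ∈ D := by
  constructor
  · rintro ⟨w, hw, hwz⟩
    have h1 : γ * w * γ⁻¹ = γ * z * γ⁻¹ := hwz
    have h2 : w = z := by
      have h3 := mul_right_cancel h1
      exact mul_left_cancel h3
    rw [← h2]; exact hw
  · intro hz
    exact ⟨z, hz, rfl⟩

lemma br3_mem_map' (γ z : X) (D : Subgroup X) :
    z ∈ D.map (MulAut.conj γ).toMonoidHom ↔ γ⁻¹ * z * γ ∈ D := by
  rw [← br3_mem_map γ (γ⁻¹ * z * γ) D]
  have : γ * (γ⁻¹ * z * γ) * γ⁻¹ = z := by group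
  rw [this]

lemma br3_mem_cent (x z : X) : z ∈ Subgroup.centralizer ({x} : Set X) ↔ x * z = z * x := by
  rw [Subgroup.mem_centralizer_iff]
  simp

lemma br3_cent_conj (γ x z : X) :
    γ * z * γ⁻¹ ∈ Subgroup.centralizer ({γ * x * γ⁻¹} : Set X) ↔
      z ∈ Subgroup.centralizer ({x} : Set X) := by
  rw [br3_mem_cent, br3_mem_cent]
  have h1 : γ * x * γ⁻¹ * (γ * z * γ⁻¹) = γ * (x * z) * γ⁻¹ := by group
  have h2 : γ * z * γ⁻¹ * (γ * x * γ⁻¹) = γ * (z * x) * γ⁻¹ := by group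
  rw [h1, h2]
  constructor
  · intro h
    exact mul_left_cancel (mul_right_cancel h)
  · intro h
    rw [h]

lemma br3_mem_Y (Y : Subgroup X) [Y.Normal] (γ z : X) : γ * z * γ⁻¹ ∈ Y ↔ z ∈ Y := by
  constructor
  · intro h
    have h1 := (inferInstance : Y.Normal).conj_mem _ h γ⁻¹
    have h2 : γ⁻¹ * (γ * z * γ⁻¹) * γ⁻¹⁻¹ = z := by group
    rwa [h2] at h1
  · intro h
    exact (inferInstance : Y.Normal).conj_mem _ h γ

lemma br3_mem_CY (Y D : Subgroup X) (z : X) :
    z ∈ CY Y D ↔ z ∈ Y ∧ ∀ d ∈ D, d * z = z * d := by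
  unfold CY
  rw [Subgroup.mem_inf, Subgroup.mem_centralizer_iff]
  rfl

lemma br3_CY_conj (Y D : Subgroup X) [Y.Normal] (γ z : X) :
    γ * z * γ⁻¹ ∈ CY Y (D.map (MulAut.conj γ).toMonoidHom) ↔ z ∈ CY Y D := by
  rw [br3_mem_CY, br3_mem_CY, br3_mem_Y]
  apply and_congr_right
  intro _
  constructor
  · intro h d hd
    have h1 := h (γ * d * γ⁻¹) ((br3_mem_map γ d D).2 hd)
    have h2 : γ * d * γ⁻¹ * (γ * z * γ⁻¹) = γ * (d * z) * γ⁻¹ := by group
    have h3 : γ * z * γ⁻¹ * (γ * d * γ⁻¹) = γ * (z * d) * γ⁻¹ := by group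
    rw [h2, h3] at h1
    exact mul_left_cancel (mul_right_cancel h1)
  · rintro h _ ⟨d, hd, rfl⟩
    show γ * d * γ⁻¹ * (γ * z * γ⁻¹) = γ * z * γ⁻¹ * (γ * d * γ⁻¹)
    have h2 : γ * d * γ⁻¹ * (γ * z * γ⁻¹) = γ * (d * z) * γ⁻¹ := by group
    have h3 : γ * z * γ⁻¹ * (γ * d * γ⁻¹) = γ * (z * d) * γ⁻¹ := by group
    rw [h2, h3, h d hd]

lemma br3_le_cent (D : Subgroup X) (y : X) :
    D ≤ Subgroup.centralizer ({y} : Set X) ↔ ∀ d ∈ D, d * y = y * d := by
  constructor
  · intro h d hd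
    exact ((br3_mem_cent y d).1 (h hd)).symm
  · intro h d hd
    exact (br3_mem_cent y d).2 (h d hd).symm

end conj

variable {X : Type u} [Group X] [Finite X] {p : ℕ} [Fact p.Prime] {F : Type v} [Field F]
  [CharP F p]

/-- Proof: put `a y = b E y` for any `E ∈ Dset p Y` centralising `y` if `y ∈ Y`, `p ∤ |C_Y(y)|` and such
an `E` exists, and `a y = 0` otherwise. Independent of `E` by `conj_D` and the equivariance of `b`. It is
`X`-invariant by equivariance. `br (CY Y D) a = b D`: at `y ∈ CY Y D` with `p ∤ |C_Y(y)|` by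
definition, with `p ∣ |C_Y(y)|` both are `0` (`p_dvd_CY` and `b D ∈ I0 p F (CY Y D)`), at `y` outside
`CY Y D` both are `0`. -/
theorem exists_family (Y : Subgroup X) [Y.Normal] (hY : Y.index = p)
    (b : Subgroup X → MonoidAlgebra F X) (hb : ∀ D ∈ Dset p Y, b D ∈ I0 p F (CY Y D))
    (hconj : ∀ D ∈ Dset p Y, ∀ g x : X,
      (b (D.map (MulAut.conj g).toMonoidHom)).coeff (g * x * g⁻¹) = (b D).coeff x) :
    ∃ a ∈ I0 p F Y, IsCl a ∧ ∀ D ∈ Dset p Y, br (CY Y D) a = b D := by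
  let Cond : X → Prop := fun y =>
    (y ∈ Y ∧ ¬ p ∣ Nat.card (Y ⊓ Subgroup.centralizer {y} : Subgroup X)) ∧
      ∃ E ∈ Dset p Y, E ≤ Subgroup.centralizer {y}
  let a : MonoidAlgebra F X := ga fun y =>
    if h : Cond y then (b h.2.choose).coeff y else 0
  have ha0 : ∀ y, ¬ Cond y → a.coeff y = 0 := by
    intro y hy
    show (ga _).coeff y = 0
    rw [ga_coeff, dif_neg hy]
  have ha1 : ∀ y, y ∈ Y → ¬ p ∣ Nat.card (Y ⊓ Subgroup.centralizer {y} : Subgroup X) →
      ∀ E ∈ Dset p Y, E ≤ Subgroup.centralizer {y} → a.coeff y = (b E).coeff y := by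
    intro y hy hp E hE hEy
    have hc : Cond y := ⟨⟨hy, hp⟩, E, hE, hEy⟩
    show (ga _).coeff y = _
    rw [ga_coeff, dif_pos hc]
    have hch := hc.2.choose_spec
    obtain ⟨g, hg, hgE⟩ := conj_D Y hY y hp _ E hch.1 hE hch.2 hEy
    have h1 := hconj _ hch.1 g y
    rw [hgE] at h1
    have h2 : g * y * g⁻¹ = y := by
      have h3 := (br3_mem_cent y g).1 hg
      rw [← h3]; group
    rw [h2] at h1
    exact h1.symm
  have hcardY : ∀ g x : X, Nat.card (Y ⊓ Subgroup.centralizer {x} : Subgroup X) =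
      Nat.card (Y ⊓ Subgroup.centralizer {g * x * g⁻¹} : Subgroup X) := by
    intro g x
    apply br3_card_conj g
    intro z
    rw [Subgroup.mem_inf, Subgroup.mem_inf, br3_mem_Y, br3_cent_conj]
  have hcondc : ∀ g x : X, Cond x → Cond (g * x * g⁻¹) := by
    rintro g x ⟨⟨h1, h2⟩, E, hE, hEx⟩
    refine ⟨⟨(br3_mem_Y Y g x).2 h1, ?_⟩, E.map (MulAut.conj g).toMonoidHom,
      Dset_conj Y E hE g, ?_⟩
    · rwa [← hcardY g x]
    · rintro _ ⟨e, he, rfl⟩
      show g * e * g⁻¹ ∈ _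
      rw [br3_cent_conj]
      exact hEx he
  have hcl : IsCl a := by
    intro g x
    by_cases hc : Cond x
    · obtain ⟨⟨h1, h2⟩, E, hE, hEx⟩ := hc
      have hc' := hcondc g x ⟨⟨h1, h2⟩, E, hE, hEx⟩
      rw [ha1 x h1 h2 E hE hEx, ha1 (g * x * g⁻¹) hc'.1.1 hc'.1.2
        (E.map (MulAut.conj g).toMonoidHom) (Dset_conj Y E hE g) ?_]
      · exact hconj E hE g x
      · rintro _ ⟨e, he, rfl⟩
        show g * e * g⁻¹ ∈ _
        rw [br3_cent_conj]
        exact hEx he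
    · have hc' : ¬ Cond (g * x * g⁻¹) := by
        intro h
        apply hc
        have h1 := hcondc g⁻¹ _ h
        have h2 : g⁻¹ * (g * x * g⁻¹) * g⁻¹⁻¹ = x := by group
        rwa [h2] at h1
      rw [ha0 _ hc, ha0 _ hc']
  refine ⟨a, ⟨?_, ?_, ?_⟩, hcl, ?_⟩
  · intro x hx
    exact ha0 x (fun h => hx h.1.1)
  · intro y _ x
    exact hcl y x
  · intro x hx
    exact ha0 x (fun h => h.1.2 hx)
  · intro D hD
    apply ga_ext
    intro y
    rw [br_coeff]
    split_ifs with hy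
    · have hyY : y ∈ Y := ((br3_mem_CY Y D y).1 hy).1
      have hDy : D ≤ Subgroup.centralizer ({y} : Set X) :=
        (br3_le_cent D y).2 ((br3_mem_CY Y D y).1 hy).2
      by_cases hp : p ∣ Nat.card (Y ⊓ Subgroup.centralizer {y} : Subgroup X)
      · rw [ha0 y (fun h => h.1.2 hp)]
        exact ((hb D hD).2.2 y (p_dvd_CY Y hY D hD y hy hp)).symm
      · exact ha1 y hyY hp D hD hDy
    · exact ((hb D hD).1 y hy).symm

/-- `br (CY Y D)` maps `I0 p F Y` to `I0 p F (CY Y D)` -/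
theorem br_I0 (Y D : Subgroup X) (a : MonoidAlgebra F X) (ha : a ∈ I0 p F Y) :
    br (CY Y D) a ∈ I0 p F (CY Y D) := by
  refine ⟨?_, ?_, ?_⟩
  · intro x hx
    rw [br_coeff, if_neg hx]
  · intro y hy x
    rw [br_coeff, br_coeff]
    have hiff : y * x * y⁻¹ ∈ CY Y D ↔ x ∈ CY Y D := by
      constructor
      · intro h
        have h1 := (CY Y D).mul_mem ((CY Y D).mul_mem ((CY Y D).inv_mem hy) h) hy
        have h2 : y⁻¹ * (y * x * y⁻¹) * y = x := by group
        rwa [h2] at h1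
      · intro h
        exact (CY Y D).mul_mem ((CY Y D).mul_mem hy h) ((CY Y D).inv_mem hy)
    by_cases hx : x ∈ CY Y D
    · rw [if_pos hx, if_pos (hiff.2 hx)]
      exact ha.2.1 y ((br3_mem_CY Y D y).1 hy).1 x
    · rw [if_neg hx, if_neg (fun h => hx (hiff.1 h))]
  · intro x hx
    rw [br_coeff]
    split_ifs with h
    · apply ha.2.2 x
      refine hx.trans (Subgroup.card_dvd_of_le ?_)
      exact inf_le_inf_right _ inf_le_left
    · rfl

/-- For `a ∈ I0 p F Y` invariant under `X`: `a ∈ I0 p F ⊤` iff all `br (CY Y D) a` vanish. Proof: if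
`a ∈ I0 p F ⊤` and `y ∈ C_Y(D)` then `p ∣ |C_X(y)|`, so `a y = 0`. Conversely let `p ∣ |C_X(y)|`; if
`y ∉ Y` or `p ∣ |C_Y(y)|` then `a y = 0`; otherwise take `D` from `exists_D`. -/
theorem mem_I0_top_iff (Y : Subgroup X) [Y.Normal] (hY : Y.index = p) (a : MonoidAlgebra F X) :
    a ∈ I0 p F (⊤ : Subgroup X) ↔
      a ∈ I0 p F Y ∧ IsCl a ∧ ∀ D ∈ Dset p Y, br (CY Y D) a = 0 := by
  constructor
  · intro ha
    have hcl : IsCl a := isCl_top ha
    have h0 : ∀ x, p ∣ Nat.card (Subgroup.centralizer ({x} : Set X)) → a.coeff x = 0 := by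
      intro x hx
      apply ha.2.2 x
      rwa [top_inf_eq]
    refine ⟨⟨?_, ?_, ?_⟩, hcl, ?_⟩
    · intro x hx
      exact h0 x (p_dvd_out Y hY x hx)
    · intro y _ x
      exact hcl y x
    · intro x hx
      exact h0 x (hx.trans (Subgroup.card_dvd_of_le inf_le_right))
    · intro D hD
      apply ga_ext
      intro y
      rw [br_coeff]
      split_ifs with hy
      · have hDy : D ≤ Subgroup.centralizer ({y} : Set X) :=
          (br3_le_cent D y).2 ((br3_mem_CY Y D y).1 hy).2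
        rw [h0 y]
        · rfl
        · have h1 := Subgroup.card_dvd_of_le hDy
          rwa [hD.1] at h1
      · rfl
  · rintro ⟨ha, hcl, hbr⟩
    refine ⟨?_, ?_, ?_⟩
    · intro x hx
      exact absurd trivial hx
    · intro y _ x
      exact hcl y x
    · intro x hx
      rw [top_inf_eq] at hx
      by_cases hxY : x ∈ Y
      · by_cases hp : p ∣ Nat.card (Y ⊓ Subgroup.centralizer {x} : Subgroup X)
        · exact ha.2.2 x hp
        · obtain ⟨E, hE, hEx⟩ := exists_D Y hY x hp hx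
          have h1 := hbr E hE
          have h2 : (br (CY Y E) a).coeff x = 0 := by rw [h1]; rfl
          rw [br_coeff, if_pos] at h2
          · exact h2
          · rw [br3_mem_CY]
            exact ⟨hxY, (br3_le_cent E x).1 hEx⟩
      · exact ha.1 x hxY

/-- extending a choice on representatives to an equivariant family: the normaliser of `D` acts
trivially on `I0 p F (CY Y D)`, as it is `CY Y D * D` -/
theorem extend_family (Y : Subgroup X) [Y.Normal] (hY : Y.index = p)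
    (b : Quotient (conjSetoid (Dset p Y)) → MonoidAlgebra F X)
    (hb : ∀ c : Quotient (conjSetoid (Dset p Y)), b c ∈ I0 p F (CY Y (c.out : Subgroup X))) :
    ∃ b' : Subgroup X → MonoidAlgebra F X, (∀ D ∈ Dset p Y, b' D ∈ I0 p F (CY Y D)) ∧
      (∀ D ∈ Dset p Y, ∀ g x : X,
        (b' (D.map (MulAut.conj g).toMonoidHom)).coeff (g * x * g⁻¹) = (b' D).coeff x) ∧
      ∀ c : Quotient (conjSetoid (Dset p Y)), b' (c.out : Subgroup X) = b c := by
  -- the normaliser acts trivially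
  have hN : ∀ (D : Subgroup X), D ∈ Dset p Y → ∀ f ∈ I0 p F (CY Y D), ∀ n : X,
      D.map (MulAut.conj n).toMonoidHom = D → ∀ x, f.coeff (n * x * n⁻¹) = f.coeff x := by
    intro D hD f hf n hn x
    have htop := (D_inf Y hY D hD).2
    have hnt : n ∈ D ⊔ Y := by rw [htop]; trivial
    obtain ⟨d, hd, y, hy, hdy⟩ := Subgroup.mem_sup_of_normal_right.1 hnt
    have hnD : ∀ z, n * z * n⁻¹ ∈ D ↔ z ∈ D := by
      intro z
      have h1 := br3_mem_map n z D
      rwa [hn] at h1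
    have hyn : y = d⁻¹ * n := by rw [← hdy]; group
    have hyN : y ∈ Nm D := by
      rw [Subgroup.mem_normalizer_iff]
      intro z
      have h2 : y * z * y⁻¹ = d⁻¹ * (n * z * n⁻¹) * d := by rw [hyn]; group
      show z ∈ D ↔ y * z * y⁻¹ ∈ D
      rw [h2]
      constructor
      · intro hz
        exact D.mul_mem (D.mul_mem (D.inv_mem hd) ((hnD z).2 hz)) hd
      · intro hz
        have h3 := D.mul_mem (D.mul_mem hd hz) (D.inv_mem hd)
        have h4 : d * (d⁻¹ * (n * z * n⁻¹) * d) * d⁻¹ = n * z * n⁻¹ := by group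
        rw [h4] at h3
        exact (hnD z).1 h3
    have hyC : y ∈ CY Y D := (mem_CY_iff Y hY D hD y).2 ⟨hy, hyN⟩
    have h5 : n * x * n⁻¹ = d * (y * x * y⁻¹) * d⁻¹ := by rw [← hdy]; group
    have h6 : f.coeff (y * x * y⁻¹) = f.coeff x := hf.2.1 y hyC x
    rw [h5, ← h6]
    by_cases hw : y * x * y⁻¹ ∈ CY Y D
    · have h7 := ((br3_mem_CY Y D _).1 hw).2 d hd
      rw [h7, mul_inv_cancel_right]
    · have hw' : d * (y * x * y⁻¹) * d⁻¹ ∉ CY Y D := by
        intro h
        apply hw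
        have h7 := ((br3_mem_CY Y D _).1 h).2 d hd
        have h8 : d * (y * x * y⁻¹) * d⁻¹ = y * x * y⁻¹ := by
          have h9 : d * (y * x * y⁻¹) * d⁻¹ * d = d * (y * x * y⁻¹) := by group
          rw [h9] at h7
          exact mul_left_cancel h7
        rwa [h8] at h
      rw [hf.1 _ hw, hf.1 _ hw']
  -- conjugators from the representatives
  have hex : ∀ D (hD : D ∈ Dset p Y), ∃ γ : X,
      ((⟦⟨D, hD⟩⟧ : Quotient (conjSetoid (Dset p Y))).out : Subgroup X).map
        (MulAut.conj γ).toMonoidHom = D := by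
    intro D hD
    have h1 : (conjSetoid (Dset p Y)).r
        (⟦⟨D, hD⟩⟧ : Quotient (conjSetoid (Dset p Y))).out ⟨D, hD⟩ :=
      Quotient.exact (s := conjSetoid (Dset p Y)) (Quotient.out_eq _)
    exact h1
  choose γ hγ using hex
  let b' : Subgroup X → MonoidAlgebra F X := fun D =>
    if hD : D ∈ Dset p Y then
      ga fun x => (b ⟦⟨D, hD⟩⟧).coeff ((γ D hD)⁻¹ * x * γ D hD)
    else 0
  have hmem : ∀ c : Quotient (conjSetoid (Dset p Y)), (c.out : Subgroup X) ∈ Dset p Y :=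
    fun c => c.out.2
  have hb' : ∀ D (hD : D ∈ Dset p Y) (δ : X),
      ((⟦⟨D, hD⟩⟧ : Quotient (conjSetoid (Dset p Y))).out : Subgroup X).map
        (MulAut.conj δ).toMonoidHom = D →
      ∀ x, (b' D).coeff x = (b ⟦⟨D, hD⟩⟧).coeff (δ⁻¹ * x * δ) := by
    intro D hD δ hδ x
    have h1 : (b' D).coeff x = (b ⟦⟨D, hD⟩⟧).coeff ((γ D hD)⁻¹ * x * γ D hD) := by
      show (if hD : D ∈ Dset p Y then
        ga fun x => (b ⟦⟨D, hD⟩⟧).coeff ((γ D hD)⁻¹ * x * γ D hD) else 0).coeff x = _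
      rw [dif_pos hD, ga_coeff]
    rw [h1]
    set c : Quotient (conjSetoid (Dset p Y)) := ⟦⟨D, hD⟩⟧ with hc
    have h2 : (γ D hD)⁻¹ * x * γ D hD =
        ((γ D hD)⁻¹ * δ) * (δ⁻¹ * x * δ) * ((γ D hD)⁻¹ * δ)⁻¹ := by group
    rw [h2]
    apply hN (c.out : Subgroup X) (hmem c) (b c) (hb c)
    ext z
    rw [br3_mem_map']
    have h3 : ((γ D hD)⁻¹ * δ)⁻¹ * z * ((γ D hD)⁻¹ * δ) =
        δ⁻¹ * (γ D hD * z * (γ D hD)⁻¹) * δ := by group
    rw [h3, ← br3_mem_map', hδ]
    have h4 := br3_mem_map (γ D hD) z (c.out : Subgroup X)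
    rw [hγ D hD] at h4
    exact h4
  refine ⟨b', ?_, ?_, ?_⟩
  · intro D hD
    set c : Quotient (conjSetoid (Dset p Y)) := ⟦⟨D, hD⟩⟧ with hc
    have hδ := hγ D hD
    have hval := hb' D hD (γ D hD) hδ
    have hCY : ∀ z, z ∈ CY Y D ↔ (γ D hD)⁻¹ * z * γ D hD ∈ CY Y (c.out : Subgroup X) := by
      intro z
      have h1 := br3_CY_conj Y (c.out : Subgroup X) (γ D hD) ((γ D hD)⁻¹ * z * γ D hD)
      rw [hδ] at h1
      have h2 : γ D hD * ((γ D hD)⁻¹ * z * γ D hD) * (γ D hD)⁻¹ = z := by group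
      rw [h2] at h1
      exact h1
    refine ⟨?_, ?_, ?_⟩
    · intro x hx
      rw [hval x]
      exact (hb c).1 _ (fun h => hx ((hCY x).2 h))
    · intro y hy x
      rw [hval, hval]
      have h1 : (γ D hD)⁻¹ * (y * x * y⁻¹) * γ D hD =
          ((γ D hD)⁻¹ * y * γ D hD) * ((γ D hD)⁻¹ * x * γ D hD) *
            ((γ D hD)⁻¹ * y * γ D hD)⁻¹ := by group
      rw [h1]
      exact (hb c).2.1 _ ((hCY y).1 hy) _
    · intro x hx
      rw [hval x]
      apply (hb c).2.2
      have h1 : Nat.card (CY Y (c.out : Subgroup X) ⊓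
          Subgroup.centralizer {(γ D hD)⁻¹ * x * γ D hD} : Subgroup X) =
          Nat.card (CY Y D ⊓ Subgroup.centralizer {x} : Subgroup X) := by
        apply br3_card_conj (γ D hD)
        intro z
        rw [Subgroup.mem_inf, Subgroup.mem_inf]
        have h2 := br3_CY_conj Y (c.out : Subgroup X) (γ D hD) z
        rw [hδ] at h2
        have h3 := br3_cent_conj (γ D hD) ((γ D hD)⁻¹ * x * γ D hD) z
        have h4 : γ D hD * ((γ D hD)⁻¹ * x * γ D hD) * (γ D hD)⁻¹ = x := by group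
        rw [h4] at h3
        rw [h2, h3]
      rw [h1]
      exact hx
  · intro D hD g x
    have hD' := Dset_conj Y D hD g
    have hc : (⟦⟨D.map (MulAut.conj g).toMonoidHom, hD'⟩⟧ :
        Quotient (conjSetoid (Dset p Y))) = ⟦⟨D, hD⟩⟧ := by
      apply Quotient.sound
      exact (conjSetoid (Dset p Y)).symm ⟨g, rfl⟩
    have hδ : ((⟦⟨D.map (MulAut.conj g).toMonoidHom, hD'⟩⟧ :
        Quotient (conjSetoid (Dset p Y))).out : Subgroup X).map
          (MulAut.conj (g * γ D hD)).toMonoidHom = D.map (MulAut.conj g).toMonoidHom := by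
      rw [hc]
      ext z
      rw [br3_mem_map', br3_mem_map']
      have h1 : (g * γ D hD)⁻¹ * z * (g * γ D hD) =
          (γ D hD)⁻¹ * (g⁻¹ * z * g) * γ D hD := by group
      rw [h1, ← br3_mem_map', hγ D hD]
    rw [hb' _ hD' (g * γ D hD) hδ, hb' D hD (γ D hD) (hγ D hD), hc]
    congr 1
    group
  · intro c
    apply ga_ext
    intro x
    have hmc : (c.out : Subgroup X) ∈ Dset p Y := hmem c
    have hc : (⟦⟨(c.out : Subgroup X), hmc⟩⟧ : Quotient (conjSetoid (Dset p Y))) = c := by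
      have h1 : (⟨(c.out : Subgroup X), hmc⟩ : Dset p Y) = c.out := rfl
      rw [h1]
      exact Quotient.out_eq c
    have h1 : ((⟦⟨(c.out : Subgroup X), hmc⟩⟧ :
        Quotient (conjSetoid (Dset p Y))).out : Subgroup X).map
          (MulAut.conj (1 : X)).toMonoidHom = (c.out : Subgroup X) := by
      rw [hc]
      ext z
      rw [br3_mem_map']
      simp
    rw [hb' _ hmc 1 h1, hc]
    simp

end Pool.Agent.Nav
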