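import Pool.Agent.Nav.API

/-!
# NAV-Lang : `φ - 1` is surjective for a Frobenius-semilinear map
-/

namespace Pool.Agent.Nav

open Polynomial in
/-- the polynomials of the proof of Lang's theorem -/
private noncomputable def langP {F : Type*} [Field F] (p : ℕ) (c : ℕ → F) : ℕ → F[X]
  | 0 => C (c 0) * X ^ p - 1
  | i + 1 => langP p c i ^ p + C (c (i + 1)) * X ^ p

open Polynomial in
private theorem langP_deriv {F : Type*} [Field F] (p : ℕ) [CharP F p] (c : ℕ → F) (i : ℕ) :
    derivative (langP p c i) = 0 := by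
  have hp : (C ((p : ℕ) : F) : F[X]) = 0 := by rw [CharP.cast_eq_zero, map_zero]
  induction i with
  | zero =>
    rw [langP, derivative_sub, derivative_one, sub_zero, derivative_mul, derivative_C, zero_mul,
      zero_add, derivative_X_pow, hp, zero_mul, mul_zero]
  | succ i _ =>
    rw [langP, derivative_add, derivative_pow, hp, zero_mul, zero_mul, zero_add, derivative_mul,
      derivative_C, zero_mul, zero_add, derivative_X_pow, hp, zero_mul, mul_zero]

private theorem lang_rel {F : Type*} [Field F] {V : Type*} [AddCommGroup V] [Module F V]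
    [FiniteDimensional F V] (u : ℕ → V) :
    ∃ (n : ℕ) (c : ℕ → F), u n = ∑ i ∈ Finset.range n, c i • u i := by
  let S : ℕ →o Submodule F V :=
    ⟨fun n => Submodule.span F (u '' (Finset.range n : Set ℕ)), fun a b hab =>
      Submodule.span_mono (Set.image_mono (by
        intro x hx
        simp only [Finset.coe_range, Set.mem_Iio] at hx ⊢
        omega))⟩
  obtain ⟨n, hn⟩ := monotone_stabilizes_iff_noetherian.2 (inferInstance : IsNoetherian F V) S
  have h1 : u n ∈ S n := by
    rw [hn (n + 1) (Nat.le_succ n)]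
    exact Submodule.subset_span ⟨n, by simp, rfl⟩
  have h2 : u n ∈ Submodule.span F (u '' (Finset.range n : Set ℕ)) := h1
  rw [Submodule.mem_span_image_finset_iff_exists_fun'] at h2
  obtain ⟨c, hc⟩ := h2
  exact ⟨n, c, hc.symm⟩

/-- Lang's theorem. Proof: let `w : V`. Choose `n` minimal with
`φ^[n] w = ∑_{i<n} c i • φ^[i] w` (finite dimension); if `n = 0` then `w = 0`, take `v = 0`. Otherwise
look for `v = ∑_{i<n} x i • φ^[i] w`: `φ v - v = w` follows from
`x 0 = c 0 t ^ p - 1`, `x i = x (i-1) ^ p + c i t ^ p` (`1 ≤ i < n`) and `x (n-1) = t`. The `x i` are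
polynomials `P i` in `t` with `P i ∈ F[T ^ p]` (so the coefficient of `T` is `0`), and
`P (n-1) - T` has coefficient `-1` at `T`, so it is not constant and has a root in `F`.
(Minimality of `n` is not needed.) -/
theorem lang {p : ℕ} [Fact p.Prime] {F : Type*} [Field F] [IsAlgClosed F] [CharP F p]
    {V : Type*} [AddCommGroup V] [Module F V] [FiniteDimensional F V]
    (φ : V →+ V) (hφ : ∀ (c : F) (v : V), φ (c • v) = c ^ p • φ v) (w : V) :
    ∃ v, φ v - v = w := by
  obtain ⟨n, c, hc⟩ := lang_rel (F := F) (fun i => φ^[i] w)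
  change φ^[n] w = ∑ i ∈ Finset.range n, c i • φ^[i] w at hc
  rcases n with _ | m
  · refine ⟨0, ?_⟩
    rw [Finset.range_zero, Finset.sum_empty] at hc
    have h0 : w = 0 := hc
    rw [map_zero, sub_zero, h0]
  · obtain ⟨t, ht⟩ := IsAlgClosed.exists_root (langP p c m - Polynomial.X) (by
      intro hdeg
      have h1 : langP p c m - Polynomial.X = Polynomial.C ((langP p c m - Polynomial.X).coeff 0) :=
        Polynomial.eq_C_of_degree_eq_zero hdeg
      have h2 := congrArg Polynomial.derivative h1
      rw [Polynomial.derivative_sub, langP_deriv, Polynomial.derivative_X, Polynomial.derivative_C,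
        zero_sub, neg_eq_zero] at h2
      exact one_ne_zero h2)
    rw [Polynomial.IsRoot, Polynomial.eval_sub, Polynomial.eval_X, sub_eq_zero] at ht
    let x : ℕ → F := fun i => Polynomial.eval t (langP p c i)
    have hx0 : x 0 = c 0 * t ^ p - 1 := by
      simp [x, langP]
    have hxs : ∀ i, x (i + 1) = x i ^ p + c (i + 1) * t ^ p := by
      intro i
      simp [x, langP]
    have hxm : x m = t := ht
    refine ⟨∑ i ∈ Finset.range (m + 1), x i • φ^[i] w, ?_⟩
    have e1 : φ (∑ i ∈ Finset.range (m + 1), x i • φ^[i] w)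
        = ∑ i ∈ Finset.range m, x i ^ p • φ^[i + 1] w + t ^ p • φ^[m + 1] w := by
      rw [map_sum, Finset.sum_range_succ, hφ, hxm, ← Function.iterate_succ_apply' φ m w]
      congr 1
      refine Finset.sum_congr rfl fun i _ => ?_
      rw [hφ, ← Function.iterate_succ_apply' φ i w]
    have e2 : ∑ i ∈ Finset.range (m + 1), x i • φ^[i] w
        = ∑ i ∈ Finset.range m, x (i + 1) • φ^[i + 1] w + x 0 • w := by
      rw [Finset.sum_range_succ']
      rfl
    have e3 : φ^[m + 1] w = ∑ i ∈ Finset.range m, c (i + 1) • φ^[i + 1] w + c 0 • w := by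
      rw [hc, Finset.sum_range_succ']
      rfl
    rw [e1, e2, e3, smul_add, Finset.smul_sum]
    have e4 : ∑ i ∈ Finset.range m, x i ^ p • φ^[i + 1] w
        + (∑ i ∈ Finset.range m, t ^ p • c (i + 1) • φ^[i + 1] w + t ^ p • c 0 • w)
        - (∑ i ∈ Finset.range m, x (i + 1) • φ^[i + 1] w + x 0 • w)
        = ∑ i ∈ Finset.range m, (x i ^ p • φ^[i + 1] w + t ^ p • c (i + 1) • φ^[i + 1] w
          - x (i + 1) • φ^[i + 1] w) + (t ^ p • c 0 • w - x 0 • w) := by
      rw [Finset.sum_sub_distrib, Finset.sum_add_distrib]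
      abel
    rw [e4, Finset.sum_eq_zero, zero_add, hx0]
    · rw [smul_smul, ← sub_smul]
      have : t ^ p * c 0 - (c 0 * t ^ p - 1) = 1 := by ring
      rw [this, one_smul]
    · intro i _
      rw [hxs, smul_smul, ← add_smul, ← sub_smul]
      have : x i ^ p + t ^ p * c (i + 1) - (x i ^ p + c (i + 1) * t ^ p) = 0 := by ring
      rw [this, zero_smul]

end Pool.Agent.Nav
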