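import Pool.Agent.Nav.FSum
import Pool.Agent.Nav.Lang

/-!
# NAV-I0R : ring theory of `I0`
-/

namespace Pool.Agent.Nav

open scoped Classical

universe u v

variable {X : Type u} [Group X] [Finite X] {p : ℕ} [Fact p.Prime] {F : Type v} [Field F]
  [CharP F p]

omit [Finite X] [Fact p.Prime] in
/-- the group algebra has characteristic `p` -/
theorem I0R_charP : CharP (MonoidAlgebra F X) p :=
  charP_of_injective_algebraMap (FaithfulSMul.algebraMap_injective F (MonoidAlgebra F X)) p

omit [Finite X] in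
theorem I0R_mem (Y : Subgroup X) (x z : X) :
    z ∈ (Y ⊓ Subgroup.centralizer {x} : Subgroup X) ↔ z ∈ Y ∧ z * x = x * z := by
  rw [Subgroup.mem_inf, Subgroup.mem_centralizer_singleton_iff]

/-- a class function of `Y` supported on `Y` commutes with everything supported on `Y` -/
theorem cl_comm (Y : Subgroup X) (a b : MonoidAlgebra F X) (ha : ∀ x ∉ Y, a.coeff x = 0)
    (ha' : ∀ y ∈ Y, ∀ x, a.coeff (y * x * y⁻¹) = a.coeff x) (hb : ∀ x ∉ Y, b.coeff x = 0) :
    a * b = b * a := by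
  have _ := ha
  haveI := Fintype.ofFinite X
  apply ga_ext
  intro g
  rw [mul_coeff, mul_coeff]
  -- reindex the left sum by `h ↦ h⁻¹ * g`
  let e : X ≃ X :=
    { toFun := fun y => g * y⁻¹
      invFun := fun h => h⁻¹ * g
      left_inv := fun y => by simp
      right_inv := fun h => by simp }
  rw [← Equiv.sum_comp e]
  apply Finset.sum_congr rfl
  intro y _
  have he : e y = g * y⁻¹ := rfl
  rw [he]
  by_cases hy : y ∈ Y
  · have h1 := ha' y hy (y⁻¹ * g)
    have h2 : y * (y⁻¹ * g) * y⁻¹ = g * y⁻¹ := by group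
    rw [h2] at h1
    rw [h1]
    have h3 : (g * y⁻¹)⁻¹ * g = y := by group
    rw [h3, mul_comm]
  · have h3 : (g * y⁻¹)⁻¹ * g = y := by group
    rw [h3, hb y hy]
    simp

/-- `I0` absorbs multiplication by class functions supported on `Y`. Proof: support and class
property are clear. Let `p ∣ |C_Y(x)|` and `P ≤ C_Y(x)` of order `p`. Then
`(a b)(x) = ∑_h a h * b (h⁻¹ x)`, an invariant function of `h` for the conjugation action of `P`; by
`sum_fixed` only `h` centralised by `P` count, and for these `p ∣ |C_Y(h)|`, so `a h = 0`. -/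
theorem I0_mul (Y : Subgroup X) (a b : MonoidAlgebra F X) (ha : a ∈ I0 p F Y)
    (hb : ∀ x ∉ Y, b.coeff x = 0) (hb' : ∀ y ∈ Y, ∀ x, b.coeff (y * x * y⁻¹) = b.coeff x) :
    a * b ∈ I0 p F Y := by
  haveI := Fintype.ofFinite X
  obtain ⟨ha1, ha2, ha3⟩ := mem_I0.mp ha
  rw [mem_I0]
  refine ⟨fun x hx => ?_, fun y hy x => ?_, fun x hx => ?_⟩
  · rw [mul_coeff]
    apply Finset.sum_eq_zero
    intro h _
    by_cases hh : h ∈ Y
    · rw [hb (h⁻¹ * x) (fun hc => hx (by
        have := Y.mul_mem hh hc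
        simpa using this)), mul_zero]
    · rw [ha1 h hh, zero_mul]
  · rw [mul_coeff, mul_coeff, ← Equiv.sum_comp (MulAut.conj y).toEquiv]
    apply Finset.sum_congr rfl
    intro h _
    have h1 : (MulAut.conj y).toEquiv h = y * h * y⁻¹ := rfl
    rw [h1, ha2 y hy]
    have h2 : (y * h * y⁻¹)⁻¹ * (y * x * y⁻¹) = y * (h⁻¹ * x) * y⁻¹ := by group
    rw [h2, hb' y hy]
  · obtain ⟨z, hz⟩ := exists_prime_orderOf_dvd_card' p hx
    obtain ⟨z, hzm⟩ := z
    obtain ⟨hzY, hzx⟩ := (I0R_mem Y x z).mp hzm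
    have hzo : orderOf z = p := by
      rw [← hz]
      exact (Subgroup.orderOf_mk _ _).symm
    let D : Subgroup X := Subgroup.zpowers z
    have hDcard : Nat.card D = p := by rw [Nat.card_zpowers, hzo]
    have hDp : IsPGroup p D := IsPGroup.of_card (n := 1) (by rw [hDcard, pow_one])
    have hDY : D ≤ Y := by
      rw [Subgroup.zpowers_le]
      exact hzY
    letI act : MulAction D X := MulAction.compHom X ((MulAut.conj (G := X)).comp D.subtype)
    have hact : ∀ (d : D) (h : X), d • h = d.1 * h * d.1⁻¹ := fun d h => rfl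
    rw [mul_coeff, sum_fixed hDp (fun h => a.coeff h * b.coeff (h⁻¹ * x))]
    · apply Finset.sum_eq_zero
      intro h _
      by_cases hf : h ∈ MulAction.fixedPoints D X
      · rw [if_pos hf]
        have hzh : z * h * z⁻¹ = h := hf ⟨z, Subgroup.mem_zpowers z⟩
        have hzh' : z * h = h * z := by
          rw [mul_inv_eq_iff_eq_mul] at hzh
          exact hzh
        have hmem : z ∈ (Y ⊓ Subgroup.centralizer {h} : Subgroup X) :=
          (I0R_mem Y h z).mpr ⟨hzY, hzh'⟩
        have hdvd : p ∣ Nat.card (Y ⊓ Subgroup.centralizer {h} : Subgroup X) := by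
          have h1 := orderOf_dvd_natCard
            (⟨z, hmem⟩ : (Y ⊓ Subgroup.centralizer {h} : Subgroup X))
          rwa [Subgroup.orderOf_mk, hzo] at h1
        rw [ha3 h hdvd, zero_mul]
      · rw [if_neg hf]
    · intro d h
      have hdx : d.1 * x = x * d.1 := by
        have h1 : D ≤ Subgroup.centralizer {x} := by
          rw [Subgroup.zpowers_le]
          exact (Subgroup.mem_inf.mp hzm).2
        have h2 := h1 d.2
        rw [Subgroup.mem_centralizer_singleton_iff] at h2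
        exact h2
      have h1 : (d • h : X) = d.1 * h * d.1⁻¹ := rfl
      show a.coeff (d • h) * b.coeff ((d • h)⁻¹ * x) = a.coeff h * b.coeff (h⁻¹ * x)
      rw [h1, ha2 d.1 (hDY d.2)]
      have h2 : (d.1 * h * d.1⁻¹)⁻¹ * x = d.1 * (h⁻¹ * x) * d.1⁻¹ := by
        have h3 : d.1⁻¹ * x = x * d.1⁻¹ := by
          rw [inv_mul_eq_iff_eq_mul, ← mul_assoc, hdx]
          group
        calc (d.1 * h * d.1⁻¹)⁻¹ * x = d.1 * h⁻¹ * (d.1⁻¹ * x) := by group
          _ = d.1 * h⁻¹ * (x * d.1⁻¹) := by rw [h3]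
          _ = d.1 * (h⁻¹ * x) * d.1⁻¹ := by group
      rw [h2, hb' d.1 (hDY d.2)]

theorem I0_pow (Y : Subgroup X) (a : MonoidAlgebra F X) (ha : a ∈ I0 p F Y) (n : ℕ) (hn : n ≠ 0) :
    a ^ n ∈ I0 p F Y := by
  obtain ⟨m, rfl⟩ := Nat.exists_eq_succ_of_ne_zero hn
  clear hn
  induction m with
  | zero => simpa using ha
  | succ m ih =>
    rw [pow_succ]
    exact I0_mul Y _ a ih ha.1 ha.2.1

theorem I0R_commute (Y : Subgroup X) (a b : MonoidAlgebra F X) (ha : a ∈ I0 p F Y)
    (hb : b ∈ I0 p F Y) : Commute a b :=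
  cl_comm Y a b ha.1 ha.2.1 hb.1

theorem frob_add (Y : Subgroup X) (a b : MonoidAlgebra F X) (ha : a ∈ I0 p F Y)
    (hb : b ∈ I0 p F Y) : (a + b) ^ p = a ^ p + b ^ p := by
  haveI : CharP (MonoidAlgebra F X) p := I0R_charP
  exact add_pow_char_of_commute p (I0R_commute Y a b ha hb)

theorem frob_sub (Y : Subgroup X) (a b : MonoidAlgebra F X) (ha : a ∈ I0 p F Y)
    (hb : b ∈ I0 p F Y) : (a - b) ^ p = a ^ p - b ^ p := by
  haveI : CharP (MonoidAlgebra F X) p := I0R_charP
  exact sub_pow_char_of_commute p (I0R_commute Y a b ha hb)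

theorem frob_smul (c : F) (a : MonoidAlgebra F X) : (c • a) ^ p = c ^ p • a ^ p :=
  smul_pow c a p

/-- Lang's theorem inside `I0`: for an `F`-subspace `K` of `I0` closed under `p`-th powers, every
`w ∈ K` is `v ^ p - v` for some `v ∈ K`. -/
theorem lang_I0 [IsAlgClosed F] (Y : Subgroup X) (K : Submodule F (MonoidAlgebra F X))
    (hK : K ≤ I0 p F Y) (hKp : ∀ a ∈ K, a ^ p ∈ K) (w : MonoidAlgebra F X) (hw : w ∈ K) :
    ∃ v ∈ K, v ^ p - v = w := by
  haveI : Module.Finite F (X →₀ F) := inferInstance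
  haveI : Module.Finite F (MonoidAlgebra F X) :=
    Module.Finite.equiv (MonoidAlgebra.coeffLinearEquiv (M := X) (S := F) F).symm
  haveI : FiniteDimensional F K := inferInstance
  have hp0 : p ≠ 0 := (Fact.out : p.Prime).ne_zero
  let φ : K →+ K :=
    { toFun := fun a => ⟨a.1 ^ p, hKp a.1 a.2⟩
      map_zero' := by
        apply Subtype.ext
        simp [hp0]
      map_add' := fun a b => by
        apply Subtype.ext
        exact frob_add Y a.1 b.1 (hK a.2) (hK b.2) }
  obtain ⟨v, hv⟩ := lang (p := p) φ (fun c v => by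
    apply Subtype.ext
    exact frob_smul c v.1) ⟨w, hw⟩
  refine ⟨v.1, v.2, ?_⟩
  exact congrArg Subtype.val hv

/-- conjugation by `g` on the group algebra -/
noncomputable def cj (F : Type v) [Field F] (g : X) : MonoidAlgebra F X →+* MonoidAlgebra F X where
  toFun a := MonoidAlgebra.single g 1 * a * MonoidAlgebra.single g⁻¹ 1
  map_zero' := by simp
  map_one' := by simp [MonoidAlgebra.one_def]
  map_add' a b := by simp [mul_add, add_mul]
  map_mul' a b := by
    have h : (MonoidAlgebra.single g⁻¹ 1 * MonoidAlgebra.single g 1 : MonoidAlgebra F X) = 1 := by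
      simp [MonoidAlgebra.one_def]
    calc MonoidAlgebra.single g 1 * (a * b) * MonoidAlgebra.single g⁻¹ 1
        = MonoidAlgebra.single g 1 * a *
            (MonoidAlgebra.single g⁻¹ 1 * MonoidAlgebra.single g 1) * b *
            MonoidAlgebra.single g⁻¹ 1 := by rw [h]; simp [mul_assoc]
      _ = _ := by simp only [mul_assoc]

theorem cj_coeff (g : X) (a : MonoidAlgebra F X) (x : X) :
    (cj F g a).coeff x = a.coeff (g⁻¹ * x * g) := by
  show (MonoidAlgebra.single g 1 * a * MonoidAlgebra.single g⁻¹ 1).coeff x = _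
  rw [MonoidAlgebra.coeff_mul_single_apply, MonoidAlgebra.coeff_single_mul_apply]
  simp [mul_assoc]

theorem cj_cj (g h : X) (a : MonoidAlgebra F X) : cj F g (cj F h a) = cj F (g * h) a := by
  apply ga_ext
  intro x
  rw [cj_coeff, cj_coeff, cj_coeff]
  congr 1
  group

theorem cj_smul (g : X) (c : F) (a : MonoidAlgebra F X) : cj F g (c • a) = c • cj F g a := by
  apply ga_ext
  intro x
  rw [cj_coeff, MonoidAlgebra.coeff_smul, MonoidAlgebra.coeff_smul, Finsupp.smul_apply,
    Finsupp.smul_apply, cj_coeff]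

theorem cj_I0 (Y : Subgroup X) [Y.Normal] (g : X) (a : MonoidAlgebra F X) (ha : a ∈ I0 p F Y) :
    cj F g a ∈ I0 p F Y := by
  obtain ⟨ha1, ha2, ha3⟩ := mem_I0.mp ha
  have hN : Y.Normal := inferInstance
  rw [mem_I0]
  refine ⟨fun x hx => ?_, fun y hy x => ?_, fun x hx => ?_⟩
  · rw [cj_coeff]
    apply ha1
    intro hc
    apply hx
    have := hN.conj_mem _ hc g
    have h2 : g * (g⁻¹ * x * g) * g⁻¹ = x := by group
    rwa [h2] at this
  · rw [cj_coeff, cj_coeff]
    have h1 : g⁻¹ * (y * x * y⁻¹) * g = (g⁻¹ * y * g) * (g⁻¹ * x * g) * (g⁻¹ * y * g)⁻¹ := by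
      group
    rw [h1]
    apply ha2
    have := hN.conj_mem _ hy g⁻¹
    simpa using this
  · rw [cj_coeff]
    apply ha3
    have hcard : Nat.card (Y ⊓ Subgroup.centralizer {g⁻¹ * x * g} : Subgroup X) =
        Nat.card (Y ⊓ Subgroup.centralizer {x} : Subgroup X) := by
      refine Nat.card_congr
        { toFun := fun t => ⟨g * t.1 * g⁻¹, (I0R_mem _ _ _).mpr ⟨hN.conj_mem _
            ((I0R_mem _ _ _).mp t.2).1 g, ?_⟩⟩
          invFun := fun t => ⟨g⁻¹ * t.1 * g, (I0R_mem _ _ _).mpr ⟨?_, ?_⟩⟩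
          left_inv := fun t => ?_
          right_inv := fun t => ?_ }
      · have ht := ((I0R_mem _ _ _).mp t.2).2
        calc g * t.1 * g⁻¹ * x = g * (t.1 * (g⁻¹ * x * g)) * g⁻¹ := by group
          _ = g * ((g⁻¹ * x * g) * t.1) * g⁻¹ := by rw [ht]
          _ = x * (g * t.1 * g⁻¹) := by group
      · have := hN.conj_mem _ ((I0R_mem _ _ _).mp t.2).1 g⁻¹
        simpa using this
      · have ht := ((I0R_mem _ _ _).mp t.2).2
        calc g⁻¹ * t.1 * g * (g⁻¹ * x * g) = g⁻¹ * (t.1 * x) * g := by group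
          _ = g⁻¹ * (x * t.1) * g := by rw [ht]
          _ = g⁻¹ * x * g * (g⁻¹ * t.1 * g) := by group
      · apply Subtype.ext
        show g⁻¹ * (g * t.1 * g⁻¹) * g = t.1
        group
      · apply Subtype.ext
        show g * (g⁻¹ * t.1 * g) * g⁻¹ = t.1
        group
    rw [hcard]
    exact hx

theorem cj_EE (Y : Subgroup X) [Y.Normal] (g : X) (a : MonoidAlgebra F X) (ha : a ∈ EE p F Y) :
    cj F g a ∈ EE p F Y := by
  refine ⟨cj_I0 Y g a ha.1, ?_⟩
  rw [← map_pow, ha.2]

/-- `cj y a = a` for `y ∈ Y`, `a ∈ I0 p F Y` -/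
theorem cj_self (Y : Subgroup X) (y : X) (hy : y ∈ Y) (a : MonoidAlgebra F X)
    (ha : a ∈ I0 p F Y) : cj F y a = a := by
  apply ga_ext
  intro x
  rw [cj_coeff]
  have := ha.2.1 y⁻¹ (Y.inv_mem hy) x
  simpa using this

end Pool.Agent.Nav
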