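import Pool.Agent.Nav.BR1
import Pool.Agent.Nav.BR3
import Pool.Agent.Nav.I0R

/-!
# NAV-BR4 : counting the invariant elements of `EE p F Y`
-/

namespace Pool.Agent.Nav

open scoped Classical

universe u v

variable {X : Type u} [Group X] [Finite X] {p : ℕ} [Fact p.Prime] {F : Type v} [Field F]
  [CharP F p]

lemma isCl_iff_cj (a : MonoidAlgebra F X) : IsCl a ↔ ∀ g : X, cj F g a = a := by
  constructor
  · intro h g
    apply ga_ext
    intro x
    rw [cj_coeff]
    have := h g⁻¹ x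
    simpa using this
  · intro h g x
    have := congrArg (fun b : MonoidAlgebra F X => b.coeff x) (h g⁻¹)
    simp only [cj_coeff, inv_inv] at this
    exact this

lemma isCl_pow (a : MonoidAlgebra F X) (h : IsCl a) (n : ℕ) : IsCl (a ^ n) := by
  rw [isCl_iff_cj] at h ⊢
  intro g
  rw [map_pow, h g]

lemma isCl_sub (a b : MonoidAlgebra F X) (h : IsCl a) (h' : IsCl b) : IsCl (a - b) := by
  rw [isCl_iff_cj] at h h' ⊢
  intro g
  rw [map_sub, h g, h' g]

lemma isCl_add (a b : MonoidAlgebra F X) (h : IsCl a) (h' : IsCl b) : IsCl (a + b) := by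
  rw [isCl_iff_cj] at h h' ⊢
  intro g
  rw [map_add, h g, h' g]

lemma br_add (S : Subgroup X) (a b : MonoidAlgebra F X) : br S (a + b) = br S a + br S b := by
  apply ga_ext
  intro x
  simp only [br_coeff, MonoidAlgebra.coeff_add, Finsupp.add_apply]
  split_ifs <;> simp

lemma br_sub (S : Subgroup X) (a b : MonoidAlgebra F X) : br S (a - b) = br S a - br S b := by
  apply ga_ext
  intro x
  simp only [br_coeff, MonoidAlgebra.coeff_sub, Finsupp.sub_apply]
  split_ifs <;> simp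

/-- vanishing at the representatives implies vanishing everywhere -/
lemma br_eq_zero (Y : Subgroup X) [Y.Normal] (a : MonoidAlgebra F X) (ha : IsCl a)
    (h : ∀ c : Quotient (conjSetoid (Dset p Y)), br (CY Y (c.out : Subgroup X)) a = 0)
    (D : Subgroup X) (hD : D ∈ Dset p Y) : br (CY Y D) a = 0 := by
  have h1 : (conjSetoid (Dset p Y)).r
      (Quotient.out (Quotient.mk (conjSetoid (Dset p Y)) ⟨D, hD⟩)) ⟨D, hD⟩ :=
    Quotient.mk_out (s := conjSetoid (Dset p Y)) ⟨D, hD⟩
  obtain ⟨γ, hγ⟩ := h1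
  have h2 := h (Quotient.mk (conjSetoid (Dset p Y)) ⟨D, hD⟩)
  set E : Subgroup X := ((Quotient.out (Quotient.mk (conjSetoid (Dset p Y)) ⟨D, hD⟩) :
    Dset p Y) : Subgroup X) with hE
  have hγ' : E.map (MulAut.conj γ).toMonoidHom = D := hγ
  apply ga_ext
  intro x
  rw [br_coeff]
  split_ifs with hx
  · have h3 : γ⁻¹ * x * γ ∈ CY Y E := by
      refine ⟨?_, ?_⟩
      · have := (inferInstance : Y.Normal).conj_mem x hx.1 γ⁻¹
        simpa using this
      · have hx2 := hx.2
        simp only [SetLike.mem_coe] at hx2 ⊢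
        intro e he
        have h4 : γ * e * γ⁻¹ ∈ D := by
          rw [← hγ']
          exact ⟨e, he, rfl⟩
        have h5 := hx2 _ h4
        have h6 : γ⁻¹ * (γ * e * γ⁻¹ * x) * γ = γ⁻¹ * (x * (γ * e * γ⁻¹)) * γ := by rw [h5]
        simpa [mul_assoc] using h6
    have h4 := congrArg (fun b : MonoidAlgebra F X => b.coeff (γ⁻¹ * x * γ)) h2
    simp only [br_coeff, h3, if_true] at h4
    have h5 := ha γ⁻¹ x
    rw [inv_inv] at h5
    rw [← h5, h4]
    simp
  · simp

/-- the group of invariant elements of `EE p F Y` -/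
noncomputable def AInv (p : ℕ) [Fact p.Prime] (F : Type v) [Field F] [CharP F p]
    (Y : Subgroup X) : AddSubgroup (MonoidAlgebra F X) where
  carrier := {a : MonoidAlgebra F X | a ∈ EE p F Y ∧ IsCl a}
  zero_mem' := ⟨⟨Submodule.zero_mem _, zero_pow (Fact.out : p.Prime).ne_zero⟩, by
    intro g x; simp⟩
  add_mem' := by
    rintro a b ⟨⟨ha, ha'⟩, ha2⟩ ⟨⟨hb, hb'⟩, hb2⟩
    refine ⟨⟨Submodule.add_mem _ ha hb, ?_⟩, isCl_add a b ha2 hb2⟩
    change (a + b) ^ p = a + b
    rw [frob_add Y a b ha hb, ha', hb']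
  neg_mem' := by
    rintro a ⟨⟨ha, ha'⟩, ha2⟩
    have h0 : (0 : MonoidAlgebra F X) ∈ I0 p F Y := Submodule.zero_mem _
    have h1 := frob_sub Y 0 a h0 ha
    rw [zero_sub, zero_pow (Fact.out : p.Prime).ne_zero, zero_sub, ha'] at h1
    refine ⟨⟨Submodule.neg_mem _ ha, h1⟩, ?_⟩
    have := isCl_sub 0 a (by intro g x; simp) ha2
    simpa using this

/-- the additive group `EE p F Y` -/
noncomputable def AEE (p : ℕ) [Fact p.Prime] (F : Type v) [Field F] [CharP F p]
    (Y : Subgroup X) : AddSubgroup (MonoidAlgebra F X) where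
  carrier := EE p F Y
  zero_mem' := ⟨Submodule.zero_mem _, zero_pow (Fact.out : p.Prime).ne_zero⟩
  add_mem' := by
    rintro a b ⟨ha, ha'⟩ ⟨hb, hb'⟩
    refine ⟨Submodule.add_mem _ ha hb, ?_⟩
    change (a + b) ^ p = a + b
    rw [frob_add Y a b ha hb, ha', hb']
  neg_mem' := by
    rintro a ⟨ha, ha'⟩
    have h0 : (0 : MonoidAlgebra F X) ∈ I0 p F Y := Submodule.zero_mem _
    have h1 := frob_sub Y 0 a h0 ha
    rw [zero_sub, zero_pow (Fact.out : p.Prime).ne_zero, zero_sub, ha'] at h1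
    exact ⟨Submodule.neg_mem _ ha, h1⟩

lemma isPGroup_of_Dset {Y D : Subgroup X} (hD : D ∈ Dset p Y) : IsPGroup p D :=
  IsPGroup.of_card (n := 1) (by rw [pow_one]; exact hD.1)

lemma br_EE (Y D : Subgroup X) (hD : D ∈ Dset p Y) (a : MonoidAlgebra F X)
    (ha : a ∈ EE p F Y) (ha' : IsCl a) : br (CY Y D) a ∈ EE p F (CY Y D) := by
  refine ⟨br_I0 Y D a ha.1, ?_⟩
  rw [← br_pow Y D (isPGroup_of_Dset hD) a ha.1.1 (fun d _ x => ha' d x) p
    (Fact.out : p.Prime).ne_zero, ha.2]

/-- the map to the product -/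
noncomputable def brMap (p : ℕ) [Fact p.Prime] (F : Type v) [Field F] [CharP F p]
    (Y : Subgroup X) : AInv p F Y →+
      (∀ c : Quotient (conjSetoid (Dset p Y)), AEE p F (CY Y (c.out : Subgroup X))) where
  toFun a c := ⟨br (CY Y (c.out : Subgroup X)) a.1, br_EE Y _ c.out.2 a.1 a.2.1 a.2.2⟩
  map_zero' := by
    funext c
    apply Subtype.ext
    apply ga_ext
    intro x
    simp
  map_add' a b := by
    funext c
    apply Subtype.ext
    exact br_add _ _ _

variable [IsAlgClosed F]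

/-- Proof: the additive map `a ↦ (br (CY Y c.out) a)_c` from the group
`A = {a ∈ EE p F Y | IsCl a}` to `∏_c EE p F (CY Y c.out)` (`br_pow`, `br_I0`) has kernel
`EE p F ⊤` (`mem_I0_top_iff`; if `br` vanishes at the representatives it vanishes at all `D`, as `a` is a
class function) and is onto: given `(b_c)` take `a ∈ I0 p F Y`, `IsCl a` with these images
(`extend_family`, `exists_family`), then `a ^ p - a` lies in the kernel `K = I0 p F ⊤`, so it is
`v ^ p - v` with `v ∈ I0 p F ⊤` (`lang_I0` with `Y = ⊤`, `K = I0 p F ⊤`), and `a - v` works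
(`frob_sub`). -/
theorem card_inv (Y : Subgroup X) [Y.Normal] (hY : Y.index = p)
    (hfin : Finite (EE p F (⊤ : Subgroup X))) :
    Nat.card {a : MonoidAlgebra F X | a ∈ EE p F Y ∧ IsCl a} =
      Nat.card (EE p F (⊤ : Subgroup X)) *
        ∏ᶠ c : Quotient (conjSetoid (Dset p Y)), Nat.card (EE p F (CY Y (c.out : Subgroup X))) := by
  have hp := (Fact.out : p.Prime)
  have hsurj : Function.Surjective (brMap p F Y) := by
    intro b
    obtain ⟨b', hb1, hb2, hb3⟩ := extend_family (F := F) Y hY (fun c => (b c).1)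
      (fun c => (b c).2.1)
    obtain ⟨a, ha, hcl, hbr⟩ := exists_family Y hY b' hb1 hb2
    have hw : a ^ p - a ∈ I0 p F (⊤ : Subgroup X) := by
      rw [mem_I0_top_iff Y hY]
      have hcl' : IsCl (a ^ p - a) := isCl_sub _ _ (isCl_pow a hcl p) hcl
      refine ⟨Submodule.sub_mem _ (I0_pow Y a ha p hp.ne_zero) ha, hcl', ?_⟩
      intro D hD
      apply br_eq_zero Y _ hcl' _ D hD
      intro c
      rw [br_sub, br_pow Y _ (isPGroup_of_Dset c.out.2) a ha.1 (fun d _ x => hcl d x) p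
        hp.ne_zero, hbr _ c.out.2, hb3 c, (b c).2.2, sub_self]
    have hKp : ∀ a ∈ I0 p F (⊤ : Subgroup X), a ^ p ∈ I0 p F (⊤ : Subgroup X) :=
      fun a ha => I0_pow _ a ha p hp.ne_zero
    obtain ⟨v, hv, hv'⟩ := lang_I0 (⊤ : Subgroup X) (I0 p F ⊤) le_rfl hKp _ hw
    obtain ⟨hv1, hv2, hv3⟩ := (mem_I0_top_iff Y hY v).1 hv
    refine ⟨⟨a - v, ⟨⟨Submodule.sub_mem _ ha hv1, ?_⟩, isCl_sub _ _ hcl hv2⟩⟩, ?_⟩
    · rw [frob_sub Y a v ha hv1]
      have h1 : a ^ p - v ^ p - (a - v) = (a ^ p - a) - (v ^ p - v) := by abel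
      rw [← sub_eq_zero, h1, hv', sub_self]
    · funext c
      apply Subtype.ext
      change br (CY Y (c.out : Subgroup X)) (a - v) = (b c).1
      rw [br_sub, hbr _ c.out.2, hb3 c, hv3 _ c.out.2, sub_zero]
  have hker : Nat.card (brMap p F Y).ker = Nat.card (EE p F (⊤ : Subgroup X)) := by
    refine Nat.card_congr ⟨fun a => ⟨a.1.1, ?_, ?_⟩, fun a => ⟨⟨a.1, ?_, ?_⟩, ?_⟩, ?_, ?_⟩
    · rw [mem_I0_top_iff Y hY]
      refine ⟨a.1.2.1.1, a.1.2.2, ?_⟩
      intro D hD
      apply br_eq_zero Y _ a.1.2.2 _ D hD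
      intro c
      have h1 := (AddMonoidHom.mem_ker).1 a.2
      have h2 := congrArg Subtype.val (congrFun h1 c)
      exact h2
    · exact a.1.2.1.2
    · exact ⟨((mem_I0_top_iff Y hY a.1).1 a.2.1).1, a.2.2⟩
    · exact ((mem_I0_top_iff Y hY a.1).1 a.2.1).2.1
    · rw [AddMonoidHom.mem_ker]
      funext c
      apply Subtype.ext
      exact ((mem_I0_top_iff Y hY a.1).1 a.2.1).2.2 _ c.out.2
    · intro a
      rfl
    · intro a
      rfl
  have h1 := AddSubgroup.card_eq_card_quotient_mul_card_addSubgroup (brMap p F Y).ker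
  have h2 : Nat.card (AInv p F Y ⧸ (brMap p F Y).ker) =
      Nat.card (∀ c : Quotient (conjSetoid (Dset p Y)),
        AEE p F (CY Y (c.out : Subgroup X))) :=
    Nat.card_congr (QuotientAddGroup.quotientKerEquivOfSurjective (brMap p F Y) hsurj).toEquiv
  have hfinS : Finite (Dset p Y) := inferInstance
  have hfinQ : Finite (Quotient (conjSetoid (Dset p Y))) := inferInstance
  have := Fintype.ofFinite (Quotient (conjSetoid (Dset p Y)))
  rw [h2, hker, Nat.card_pi] at h1
  rw [finprod_eq_prod_of_fintype]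
  calc Nat.card {a : MonoidAlgebra F X | a ∈ EE p F Y ∧ IsCl a} = Nat.card (AInv p F Y) := rfl
    _ = _ := h1
    _ = _ := mul_comm _ _

end Pool.Agent.Nav
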