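import Pool.Agent.Nav.API

/-!
# NAV-PRing : counting in a finite `p`-ring with an automorphism of order `p`
-/

namespace Pool.Agent.Nav

/-- rank-nullity for the restriction to a submodule -/
lemma pring_finrank_map {K V : Type*} [Field K] [AddCommGroup V] [Module K V]
    [FiniteDimensional K V] (W : Submodule K V) (f : Module.End K V) :
    Module.finrank K (W.map f) + Module.finrank K (W ⊓ LinearMap.ker f : Submodule K V) =
      Module.finrank K W := by
  have h := LinearMap.finrank_range_add_finrank_ker (f.domRestrict W)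
  have h1 : LinearMap.range (f.domRestrict W) = W.map f := by
    rw [LinearMap.range_domRestrict]
  have h2 : LinearMap.ker (f.domRestrict W) =
      Submodule.comap W.subtype (W ⊓ LinearMap.ker f) := by
    ext x
    simp
  have h3 : Module.finrank K (Submodule.comap W.subtype (W ⊓ LinearMap.ker f)) =
      Module.finrank K (W ⊓ LinearMap.ker f : Submodule K V) :=
    LinearEquiv.finrank_eq (Submodule.comapSubtypeEquivOfLe inf_le_left)
  rw [h1, h2, h3] at h
  exact h

/-- counting Jordan blocks when `ker N ∩ im N = im N ^ (p - 1)` -/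
lemma pring_count {K V : Type*} [Field K] [AddCommGroup V] [Module K V]
    [FiniteDimensional K V] (N : Module.End K V) (p : ℕ) (hp : 2 ≤ p) (hN : N ^ p = 0)
    (h : LinearMap.range N ⊓ LinearMap.ker N ≤ LinearMap.range (N ^ (p - 1))) :
    Module.finrank K V = Module.finrank K (LinearMap.ker N) +
      (p - 1) * Module.finrank K (LinearMap.range (N ^ (p - 1))) := by
  have hker : LinearMap.range (N ^ (p - 1)) ≤ LinearMap.ker N := by
    rintro _ ⟨x, rfl⟩
    rw [LinearMap.mem_ker, ← Module.End.mul_apply, ← pow_succ', Nat.sub_add_cancel (by omega), hN]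
    rfl
  have hmono : ∀ i j : ℕ, i ≤ j → LinearMap.range (N ^ j) ≤ LinearMap.range (N ^ i) := by
    intro i j hij
    rintro _ ⟨x, rfl⟩
    refine ⟨(N ^ (j - i)) x, ?_⟩
    rw [← Module.End.mul_apply, ← pow_add, Nat.add_sub_cancel' hij]
  have hinf : ∀ j, 1 ≤ j → j ≤ p - 1 →
      LinearMap.range (N ^ j) ⊓ LinearMap.ker N = LinearMap.range (N ^ (p - 1)) := by
    intro j h1 h2
    apply le_antisymm
    · refine le_trans (inf_le_inf_right _ ?_) h
      have := hmono 1 j h1
      rwa [pow_one] at this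
    · exact le_inf (hmono j (p - 1) h2) hker
  have hmap : ∀ j, (LinearMap.range (N ^ j)).map N = LinearMap.range (N ^ (j + 1)) := by
    intro j
    rw [pow_succ', Module.End.mul_eq_comp, LinearMap.range_comp]
  have hstep : ∀ k, k ≤ p - 1 → Module.finrank K (LinearMap.range (N ^ (p - k))) =
      k * Module.finrank K (LinearMap.range (N ^ (p - 1))) := by
    intro k
    induction k with
    | zero =>
      intro _
      rw [Nat.sub_zero, hN]
      simp
    | succ k ih =>
      intro hk
      have h1 := pring_finrank_map (LinearMap.range (N ^ (p - (k + 1)))) N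
      rw [hmap, hinf _ (by omega) (by omega)] at h1
      have h2 : p - (k + 1) + 1 = p - k := by omega
      rw [h2, ih (by omega)] at h1
      rw [← h1]
      ring
  have h1 := hstep (p - 1) le_rfl
  have h2 : p - (p - 1) = 1 := by omega
  rw [h2, pow_one] at h1
  have h3 := LinearMap.finrank_range_add_finrank_ker N
  rw [h1] at h3
  omega

/-- `(s - 1) ^ (p - 1) = ∑_{i < p} s ^ i` in characteristic `p` -/
lemma pring_trace {p : ℕ} [Fact p.Prime] {A : Type*} [Ring A] [Algebra (ZMod p) A] (s : A) :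
    (s - 1) ^ (p - 1) = ∑ i ∈ Finset.range p, s ^ i := by
  have hpoly : (Polynomial.X - 1 : Polynomial (ZMod p)) ^ (p - 1) =
      ∑ i ∈ Finset.range p, (Polynomial.X : Polynomial (ZMod p)) ^ i := by
    have hne : (Polynomial.X - 1 : Polynomial (ZMod p)) ≠ 0 := by
      have := Polynomial.X_sub_C_ne_zero (1 : ZMod p)
      simpa using this
    apply mul_right_cancel₀ hne
    rw [← pow_succ, Nat.sub_add_cancel (Fact.out (p := p.Prime)).one_le, geom_sum_mul]
    rw [sub_pow_char, one_pow]
  have := congrArg (Polynomial.aeval s) hpoly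
  simpa using this

/-- the power sums over `0, …, p - 1` modulo `p` -/
lemma pring_powsum {p : ℕ} [Fact p.Prime] (k : ℕ) :
    ((∑ i ∈ Finset.range p, i ^ k : ℕ) : ZMod p) = ∑ x : ZMod p, x ^ k := by
  rw [Nat.cast_sum]
  refine Finset.sum_bij' (fun i _ => (i : ZMod p)) (fun x _ => x.val) ?_ ?_ ?_ ?_ ?_
  · intro i _; exact Finset.mem_univ _
  · intro x _; exact Finset.mem_range.mpr (ZMod.val_lt x)
  · intro i hi; exact ZMod.val_natCast_of_lt (Finset.mem_range.mp hi)
  · intro x _; exact ZMod.natCast_zmod_val x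
  · intro i _; exact Nat.cast_pow i k

lemma pring_powsum_lt {p : ℕ} [Fact p.Prime] {k : ℕ} (hk : k < p - 1) :
    p ∣ ∑ i ∈ Finset.range p, i ^ k := by
  rw [← ZMod.natCast_eq_zero_iff, pring_powsum]
  apply FiniteField.sum_pow_lt_card_sub_one
  rwa [ZMod.card]

lemma pring_powsum_eq {p : ℕ} [Fact p.Prime] :
    p ∣ (∑ i ∈ Finset.range p, i ^ (p - 1)) + 1 := by
  have hp2 : 2 ≤ p := (Fact.out (p := p.Prime)).two_le
  rw [← ZMod.natCast_eq_zero_iff, Nat.cast_add, pring_powsum, Nat.cast_one]
  have h1 : ∀ x : ZMod p, x ^ (p - 1) = if x = 0 then 0 else 1 := by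
    intro x
    split_ifs with h
    · rw [h, zero_pow (by omega)]
    · exact ZMod.pow_card_sub_one_eq_one h
  simp_rw [h1]
  have h2 : ∀ x : ZMod p, (if x = 0 then (0 : ZMod p) else 1) = 1 - (if x = 0 then 1 else 0) := by
    intro x
    split_ifs <;> simp
  simp_rw [h2]
  rw [Finset.sum_sub_distrib]
  simp

/-- the key point: a fixed element of the form `σ b - b` is a trace -/
lemma pring_key {p : ℕ} [Fact p.Prime] {R : Type*} [Ring R] (E : NonUnitalSubring R)
    (hcomm : ∀ a ∈ E, ∀ b ∈ E, a * b = b * a) (hp : ∀ a ∈ E, a ^ p = a)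
    (hchar : ∀ a ∈ E, (p : ℕ) • a = 0) (σ : R →+* R)
    {a b : R} (ha : a ∈ E) (hb : b ∈ E) (hσa : σ a = a) (hab : σ b = b + a) :
    ∃ c ∈ E, ∑ i ∈ Finset.range p, σ^[i] c = a := by
  have hp2 : 2 ≤ p := (Fact.out (p := p.Prime)).two_le
  have hpowE : ∀ x ∈ E, ∀ n : ℕ, x ^ (n + 1) ∈ E := by
    intro x hx n
    induction n with
    | zero => simpa using hx
    | succ n ih => rw [pow_succ]; exact E.mul_mem ih hx
  obtain ⟨q, rfl⟩ : ∃ q, p = q + 2 := ⟨p - 2, by omega⟩
  have hcab : Commute a b := hcomm a ha b hb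
  set e := a ^ (q + 1) with he
  set d := a ^ q * b with hd
  have hσe : σ e = e := by rw [he, map_pow, hσa]
  have hσd : σ d = d + e := by
    rw [hd, map_mul, map_pow, hσa, hab, mul_add, he, pow_succ]
  have hdE : d ∈ E := by
    rw [hd]
    rcases q with _ | q
    · simpa using hb
    · exact E.mul_mem (hpowE a ha q) hb
  have hae : a * e = a := by
    rw [he, ← pow_succ', hp a ha]
  have haek : ∀ k : ℕ, a * e ^ k = a := by
    intro k
    induction k with
    | zero => simp
    | succ k ih => rw [pow_succ, ← mul_assoc, ih, hae]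
  have had : Commute a d := by
    rw [hd]
    exact (Commute.pow_right (Commute.refl a) q).mul_right hcab
  have hde : Commute d e := by
    rw [he]; exact (had.symm).pow_right _
  have hit : ∀ i : ℕ, σ^[i] d = d + i • e := by
    intro i
    induction i with
    | zero => simp
    | succ i ih =>
      rw [Function.iterate_succ_apply', ih, map_add, hσd, map_nsmul, hσe, add_smul, one_smul]
      abel
  have hit2 : ∀ i : ℕ, σ^[i] a = a := by
    intro i
    induction i with
    | zero => simp
    | succ i ih => rw [Function.iterate_succ_apply', ih, hσa]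
  have hexp : ∀ i : ℕ, a * (d + i • e) ^ (q + 1) =
      ∑ m ∈ Finset.range (q + 2), (i ^ (q + 1 - m) * (q + 1).choose m) • (a * d ^ m) := by
    intro i
    have hc : Commute d (i • e) := hde.smul_right i
    rw [hc.add_pow, Finset.mul_sum]
    refine Finset.sum_congr rfl fun m _ => ?_
    have h1 : a * (d ^ m * (i • e) ^ (q + 1 - m)) = (i ^ (q + 1 - m)) • (a * d ^ m) := by
      rw [smul_pow, mul_smul_comm, mul_smul_comm]
      congr 1
      have h2 : a * d ^ m = d ^ m * a := (had.pow_right m).eq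
      rw [← mul_assoc, h2, mul_assoc, haek]
    rw [← mul_assoc, h1, mul_comm (i ^ _), mul_smul]
    rw [nsmul_eq_mul (Nat.choose _ _)]
    exact (Nat.cast_commute _ _).symm.eq
  have hitc : ∀ i : ℕ, σ^[i] (-(a * d ^ (q + 1))) = -(a * (d + i • e) ^ (q + 1)) := by
    intro i
    have h1 : ∀ x, σ^[i] x = (σ ^ i : R →+* R) x := by
      intro x
      rw [RingHom.coe_pow]
    rw [h1, map_neg, map_mul, map_pow, ← h1, ← h1, hit, hit2]
  refine ⟨-(a * d ^ (q + 1)), E.neg_mem (E.mul_mem ha (hpowE d hdE q)), ?_⟩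
  simp_rw [hitc, hexp]
  rw [Finset.sum_neg_distrib, Finset.sum_comm]
  have hz : ∀ x ∈ E, ∀ n : ℕ, (q + 2) ∣ n → n • x = 0 := by
    rintro x hx n ⟨t, rfl⟩
    rw [mul_comm, mul_smul, hchar x hx, smul_zero]
  have hxE : ∀ m : ℕ, a * d ^ m ∈ E := by
    intro m
    rcases m with _ | m
    · simpa using ha
    · exact E.mul_mem ha (hpowE d hdE m)
  rw [Finset.sum_range_succ', Finset.sum_eq_zero, zero_add]
  · rw [← Finset.sum_smul]
    simp only [Nat.choose_zero_right, mul_one, pow_zero, Nat.sub_zero]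
    have h1 := hz a ha _ (pring_powsum_eq (p := q + 2))
    rw [add_smul, one_smul] at h1
    have h2 : q + 2 - 1 = q + 1 := by omega
    rw [h2] at h1
    exact neg_eq_of_add_eq_zero_right h1
  · intro m hm
    rw [← Finset.sum_smul, ← Finset.sum_mul]
    apply hz _ (hxE _)
    apply Dvd.dvd.mul_right
    apply pring_powsum_lt
    have := Finset.mem_range.mp hm
    omega

/-- `E` is a finite commutative ring (without `1` a priori) with `a ^ p = a`, `p a = 0`, i.e.
`E ≅ 𝔽_p ^ I`, and `σ` an automorphism with `σ ^ p = 1`, i.e. a permutation of `I` with `r` orbits of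
length `p` and `f` fixed points. Then `|E| = p ^ (p r + f)`, `|E ^ σ| = p ^ (r + f)` and the image of the
trace `∑_{i<p} σ ^ i` has `p ^ r` elements.

Proof suggestion: let `I` be the (finite) set of nonzero multiplicative additive maps
`E → ZMod p` (or of the minimal nonzero idempotents of `E`, or the primes of the unital ring
`𝔽_p + E`); show `E ≃+* (I → ZMod p)` (e.g. every `a` is the sum over the minimal idempotents `e` of
`t_e • e`), `σ` permutes `I`, and count. -/
theorem pring {p : ℕ} [Fact p.Prime] {R : Type*} [Ring R] (E : NonUnitalSubring R)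
    [Finite E] (hcomm : ∀ a ∈ E, ∀ b ∈ E, a * b = b * a) (hp : ∀ a ∈ E, a ^ p = a)
    (hchar : ∀ a ∈ E, (p : ℕ) • a = 0) (σ : R →+* R) (hσE : ∀ a ∈ E, σ a ∈ E)
    (hσ : ∀ a ∈ E, σ^[p] a = a) :
    Nat.card E * Nat.card ((fun a => ∑ i ∈ Finset.range p, σ^[i] a) '' (E : Set R)) =
      Nat.card ((fun a => ∑ i ∈ Finset.range p, σ^[i] a) '' (E : Set R)) ^ p *
        Nat.card {a : R | a ∈ E ∧ σ a = a} := by
  have hp2 : 2 ≤ p := (Fact.out (p := p.Prime)).two_le
  obtain ⟨inst⟩ : Nonempty (Module (ZMod p) E) := ⟨AddCommGroup.zmodModule (n := p) (by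
    rintro ⟨x, hx⟩
    apply Subtype.ext
    exact hchar x hx)⟩
  have : FiniteDimensional (ZMod p) E := Module.Finite.of_finite
  let s : Module.End (ZMod p) E := AddMonoidHom.toZModLinearMap p
    ({ toFun := fun x => ⟨σ x, hσE _ x.2⟩
       map_zero' := Subtype.ext (by simp)
       map_add' := fun x y => Subtype.ext (by simp) } : E →+ E)
  have hs : ∀ x : E, ((s x : E) : R) = σ x := fun x => rfl
  have hsi : ∀ (i : ℕ) (x : E), (((s ^ i) x : E) : R) = σ^[i] x := by
    intro i
    induction i with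
    | zero => intro x; simp
    | succ i ih =>
      intro x
      rw [pow_succ', Module.End.mul_apply, hs, ih, Function.iterate_succ_apply']
  have hsp : s ^ p = 1 := by
    ext x
    rw [hsi, hσ _ x.2]
    rfl
  set N : Module.End (ZMod p) E := s - 1 with hN
  have hNp1 : N ^ (p - 1) = ∑ i ∈ Finset.range p, s ^ i := pring_trace s
  have hNp : N ^ p = 0 := by
    have h1 : N ^ p = N ^ (p - 1) * N := by
      rw [← pow_succ, Nat.sub_add_cancel (by omega)]
    rw [h1, hNp1, hN, geom_sum_mul, hsp, sub_self]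
  have htr : ∀ x : E, (((N ^ (p - 1)) x : E) : R) = ∑ i ∈ Finset.range p, σ^[i] (x : R) := by
    intro x
    rw [hNp1, LinearMap.sum_apply]
    rw [← NonUnitalSubringClass.coe_subtype, map_sum]
    refine Finset.sum_congr rfl fun i _ => ?_
    exact hsi i x
  have hker : ∀ x : E, x ∈ LinearMap.ker N ↔ σ (x : R) = x := by
    intro x
    rw [LinearMap.mem_ker, hN, LinearMap.sub_apply, sub_eq_zero]
    rw [← hs x]
    constructor
    · intro h; rw [h]; rfl
    · intro h; exact Subtype.ext h
  have hinf : LinearMap.range N ⊓ LinearMap.ker N ≤ LinearMap.range (N ^ (p - 1)) := by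
    rintro x ⟨⟨b, hb⟩, hx⟩
    have h1 : σ (x : R) = x := (hker x).mp hx
    have h2 : σ (b : R) = b + x := by
      rw [← hb, hN, LinearMap.sub_apply, ← hs b]
      simp
    obtain ⟨c, hc, h3⟩ := pring_key E hcomm hp hchar σ x.2 b.2 h1 h2
    refine ⟨⟨c, hc⟩, ?_⟩
    apply Subtype.ext
    rw [htr]
    exact h3
  have hcount := pring_count N p hp2 hNp hinf
  have hcE : Nat.card E = p ^ Module.finrank (ZMod p) E := by
    rw [Module.natCard_eq_pow_finrank (K := ZMod p), Nat.card_zmod]
  have hcT : Nat.card ((fun a => ∑ i ∈ Finset.range p, σ^[i] a) '' (E : Set R)) =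
      p ^ Module.finrank (ZMod p) (LinearMap.range (N ^ (p - 1))) := by
    have h1 : Nat.card (LinearMap.range (N ^ (p - 1))) =
        p ^ Module.finrank (ZMod p) (LinearMap.range (N ^ (p - 1))) := by
      rw [Module.natCard_eq_pow_finrank (K := ZMod p), Nat.card_zmod]
    rw [← h1]
    symm
    refine Nat.card_congr (Equiv.ofBijective
      (fun y => ⟨((y : E) : R), ?_⟩) ⟨?_, ?_⟩)
    · obtain ⟨y, x, rfl⟩ := y
      exact ⟨x, x.2, (htr x).symm⟩
    · intro y z h
      apply Subtype.ext
      apply Subtype.ext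
      simpa only [Subtype.mk.injEq] using h
    · rintro ⟨_, x, hx, rfl⟩
      refine ⟨⟨(N ^ (p - 1)) ⟨x, hx⟩, ⟨_, rfl⟩⟩, ?_⟩
      apply Subtype.ext
      exact htr ⟨x, hx⟩
  have hcF : Nat.card {a : R | a ∈ E ∧ σ a = a} =
      p ^ Module.finrank (ZMod p) (LinearMap.ker N) := by
    have h1 : Nat.card (LinearMap.ker N) = p ^ Module.finrank (ZMod p) (LinearMap.ker N) := by
      rw [Module.natCard_eq_pow_finrank (K := ZMod p), Nat.card_zmod]
    rw [← h1]
    symm
    refine Nat.card_congr (Equiv.ofBijective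
      (fun y => ⟨((y : E) : R), ?_⟩) ⟨?_, ?_⟩)
    · exact ⟨(y : E).2, (hker y).mp y.2⟩
    · intro y z h
      apply Subtype.ext
      apply Subtype.ext
      simpa only [Subtype.mk.injEq] using h
    · rintro ⟨x, hx, hx'⟩
      exact ⟨⟨⟨x, hx⟩, (hker ⟨x, hx⟩).mpr hx'⟩, rfl⟩
  rw [hcE, hcT, hcF, hcount, ← pow_mul, ← pow_add, ← pow_add]
  congr 1
  obtain ⟨q, rfl⟩ : ∃ q, p = q + 1 := ⟨p - 1, by omega⟩
  simp only [Nat.add_sub_cancel]
  ring

end Pool.Agent.Nav
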