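import Pool.Agent.Nav.I0R

/-!
# NAV-TRM : the trace from `EE p F Y` to `EE p F X` is onto
-/

namespace Pool.Agent.Nav

open scoped Classical

universe u v

variable {X : Type u} [Group X] [Finite X] {p : ℕ} [Fact p.Prime] {F : Type v} [Field F]
  [IsAlgClosed F] [CharP F p]

namespace TRMaux

/-! ### group theory -/

omit [Finite X] in
theorem mk_ne {Y : Subgroup X} [Y.Normal] {x : X} (hx : x ∉ Y) : (x : X ⧸ Y) ≠ 1 := by
  intro h
  exact hx ((QuotientGroup.eq_one_iff x).1 h)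

omit [Finite X] in
theorem orderOf_mk {Y : Subgroup X} [Y.Normal] (hY : Y.index = p) {x : X} (hx : x ∉ Y) :
    orderOf (x : X ⧸ Y) = p := by
  have hc : Nat.card (X ⧸ Y) = p := hY
  exact orderOf_eq_prime (by rw [← hc]; exact pow_card_eq_one') (mk_ne hx)

omit [Finite X] in
/-- decomposition along the powers of `g ∉ Y` -/
theorem decomp {Y : Subgroup X} [Y.Normal] (hY : Y.index = p) {g : X} (hg : g ∉ Y) (x : X) :
    ∃ i ∈ Finset.range p, ∃ y ∈ Y, x = g ^ i * y := by
  have hp : p.Prime := Fact.out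
  have hc : Nat.card (X ⧸ Y) = p := hY
  have hfin : Finite (X ⧸ Y) := Nat.finite_of_card_ne_zero (by rw [hc]; exact hp.ne_zero)
  have hz : (x : X ⧸ Y) ∈ Subgroup.zpowers (g : X ⧸ Y) := by
    have h1 : Subgroup.zpowers (g : X ⧸ Y) = ⊤ := by
      rw [← Subgroup.card_eq_iff_eq_top, Nat.card_zpowers, orderOf_mk hY hg, hc]
    rw [h1]; trivial
  rw [mem_zpowers_iff_mem_range_orderOf, orderOf_mk hY hg] at hz
  obtain ⟨i, hi, hix⟩ := Finset.mem_image.1 hz
  refine ⟨i, hi, (g ^ i)⁻¹ * x, ?_, by group⟩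
  rw [← QuotientGroup.mk_pow, QuotientGroup.eq] at hix
  exact hix

omit [Finite X] in
theorem pow_mem_iff {Y : Subgroup X} [Y.Normal] (hY : Y.index = p) {g : X} (hg : g ∉ Y) (n : ℤ) :
    g ^ n ∈ Y ↔ (p : ℤ) ∣ n := by
  rw [← QuotientGroup.eq_one_iff, QuotientGroup.mk_zpow, ← orderOf_dvd_iff_zpow_eq_one,
    orderOf_mk hY hg]

omit [Finite X] in
theorem range_unique {Y : Subgroup X} [Y.Normal] (hY : Y.index = p) {g : X} (hg : g ∉ Y)
    {i j : ℕ} (hi : i < p) (hj : j < p) (h : g ^ ((j : ℤ) - i) ∈ Y) : i = j := by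
  rw [pow_mem_iff hY hg] at h
  obtain ⟨k, hk⟩ := h
  have hp : (0 : ℤ) < p := by
    have : p.Prime := Fact.out
    exact_mod_cast this.pos
  have hi' : (i : ℤ) < p := by exact_mod_cast hi
  have hj' : (j : ℤ) < p := by exact_mod_cast hj
  have hk0 : k = 0 := by
    have h1 : (p : ℤ) * k < p * 1 := by rw [← hk]; omega
    have h2 : (p : ℤ) * (-1) < p * k := by rw [← hk]; omega
    have h3 := lt_of_mul_lt_mul_left h1 hp.le
    have h4 := lt_of_mul_lt_mul_left h2 hp.le
    omega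
  rw [hk0] at hk
  omega

omit [Finite X] in
/-- the centraliser of an element outside `Y` has order divisible by `p` -/
theorem dvd_card_centralizer {Y : Subgroup X} [Y.Normal] (hY : Y.index = p) {x g : X}
    (hg : g ∈ Subgroup.centralizer ({x} : Set X)) (hgY : g ∉ Y) :
    p ∣ Nat.card (⊤ ⊓ Subgroup.centralizer {x} : Subgroup X) := by
  have h1 : p ∣ orderOf g := by
    rw [← orderOf_mk hY hgY]
    exact orderOf_map_dvd (QuotientGroup.mk' Y) g
  have h2 : orderOf g ∣ Nat.card (⊤ ⊓ Subgroup.centralizer {x} : Subgroup X) := by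
    have hg' : g ∈ (⊤ ⊓ Subgroup.centralizer {x} : Subgroup X) := ⟨trivial, hg⟩
    have h3 := orderOf_dvd_natCard (⟨g, hg'⟩ : (⊤ ⊓ Subgroup.centralizer {x} : Subgroup X))
    rwa [Subgroup.orderOf_mk] at h3
  exact h1.trans h2

omit [IsAlgClosed F] [CharP F p] in
theorem coeff_zero_of_not_mem {Y : Subgroup X} [Y.Normal] (hY : Y.index = p)
    {b : MonoidAlgebra F X} (hb : b ∈ I0 p F (⊤ : Subgroup X)) {x g : X}
    (hg : g ∈ Subgroup.centralizer ({x} : Set X)) (hgY : g ∉ Y) : b.coeff x = 0 :=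
  hb.2.2 x (dvd_card_centralizer hY hg hgY)

/-! ### the trace -/

/-- the trace -/
noncomputable def T (p : ℕ) (x₀ : X) (a : MonoidAlgebra F X) : MonoidAlgebra F X :=
  ∑ i ∈ Finset.range p, cj F (x₀ ^ i) a

omit [IsAlgClosed F] [Finite X] in
theorem coeff_sum' {ι : Type*} (s : Finset ι) (f : ι → MonoidAlgebra F X) (x : X) :
    (∑ i ∈ s, f i).coeff x = ∑ i ∈ s, (f i).coeff x := by
  induction s using Finset.induction_on with
  | empty => simp
  | insert a s ha ih => rw [Finset.sum_insert ha, Finset.sum_insert ha, ← ih]; simp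

omit [IsAlgClosed F] in
theorem cj_one (a : MonoidAlgebra F X) : cj F (1 : X) a = a := by
  apply ga_ext
  intro x
  rw [cj_coeff]
  simp

omit [IsAlgClosed F] in
theorem cj_iter (x₀ : X) (a : MonoidAlgebra F X) (i : ℕ) :
    (cj F x₀)^[i] a = cj F (x₀ ^ i) a := by
  induction i with
  | zero => simp [cj_one]
  | succ n ih => rw [Function.iterate_succ_apply', ih, cj_cj, pow_succ']

omit [IsAlgClosed F] in
theorem T_eq (p : ℕ) (x₀ : X) (a : MonoidAlgebra F X) :
    ∑ i ∈ Finset.range p, (cj F x₀)^[i] a = T p x₀ a :=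
  Finset.sum_congr rfl fun i _ => cj_iter x₀ a i

omit [IsAlgClosed F] in
theorem T_coeff (x₀ : X) (a : MonoidAlgebra F X) (x : X) :
    (T p x₀ a).coeff x = ∑ i ∈ Finset.range p, a.coeff ((x₀ ^ i)⁻¹ * x * x₀ ^ i) := by
  unfold T
  rw [coeff_sum']
  exact Finset.sum_congr rfl fun i _ => cj_coeff _ _ _

omit [IsAlgClosed F] in
theorem T_add (x₀ : X) (a b : MonoidAlgebra F X) : T p x₀ (a + b) = T p x₀ a + T p x₀ b := by
  unfold T; simp only [map_add, Finset.sum_add_distrib]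

omit [IsAlgClosed F] in
theorem T_sub (x₀ : X) (a b : MonoidAlgebra F X) : T p x₀ (a - b) = T p x₀ a - T p x₀ b := by
  unfold T; simp only [map_sub, Finset.sum_sub_distrib]

omit [IsAlgClosed F] in
theorem T_smul (x₀ : X) (c : F) (a : MonoidAlgebra F X) : T p x₀ (c • a) = c • T p x₀ a := by
  unfold T; simp only [cj_smul, Finset.smul_sum]

omit [IsAlgClosed F] in
theorem cj_T {Y : Subgroup X} [Y.Normal] (hY : Y.index = p) {x₀ : X} (hx₀ : x₀ ∉ Y)
    {a : MonoidAlgebra F X} (ha : a ∈ I0 p F Y) (g : X) : cj F g (T p x₀ a) = T p x₀ a := by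
  have hy : ∀ y ∈ Y, cj F y (T p x₀ a) = T p x₀ a := by
    intro y hy
    unfold T
    rw [map_sum]
    refine Finset.sum_congr rfl fun i _ => ?_
    have h1 : (x₀ ^ i)⁻¹ * y * x₀ ^ i ∈ Y := by
      have := (inferInstance : Y.Normal).conj_mem y hy (x₀ ^ i)⁻¹
      simpa using this
    rw [cj_cj, show y * x₀ ^ i = x₀ ^ i * ((x₀ ^ i)⁻¹ * y * x₀ ^ i) by group, ← cj_cj,
      cj_self Y _ h1 a ha]
  have hx : cj F x₀ (T p x₀ a) = T p x₀ a := by
    unfold T
    rw [map_sum]
    have h1 : ∀ i ∈ Finset.range p, cj F x₀ (cj F (x₀ ^ i) a) = cj F (x₀ ^ (i + 1)) a := by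
      intro i _
      rw [cj_cj, pow_succ']
    rw [Finset.sum_congr rfl h1]
    have h2 : cj F (x₀ ^ p) a = a := by
      apply cj_self Y _ _ a ha
      have h3 := (pow_mem_iff hY hx₀ (p : ℤ)).2 dvd_rfl
      rwa [zpow_natCast] at h3
    have h4 : ∑ i ∈ Finset.range p, cj F (x₀ ^ (i + 1)) a + cj F (x₀ ^ 0) a =
        ∑ i ∈ Finset.range p, cj F (x₀ ^ i) a + cj F (x₀ ^ p) a := by
      rw [← Finset.sum_range_succ' (fun i => cj F (x₀ ^ i) a), Finset.sum_range_succ]
    rw [h2, pow_zero, cj_one] at h4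
    exact add_right_cancel h4
  have hpow : ∀ i : ℕ, cj F (x₀ ^ i) (T p x₀ a) = T p x₀ a := by
    intro i
    induction i with
    | zero => simp [cj_one]
    | succ n ih => rw [pow_succ', ← cj_cj, ih, hx]
  obtain ⟨i, _, y, hyY, rfl⟩ := decomp hY hx₀ g
  rw [← cj_cj, hy y hyY, hpow]

omit [IsAlgClosed F] in
theorem T_mem {Y : Subgroup X} [Y.Normal] (hY : Y.index = p) {x₀ : X} (hx₀ : x₀ ∉ Y)
    {a : MonoidAlgebra F X} (ha : a ∈ I0 p F Y) : T p x₀ a ∈ I0 p F (⊤ : Subgroup X) := by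
  refine ⟨fun x hx => absurd trivial hx, fun g _ x => ?_, fun x hx => ?_⟩
  · have h1 := congrArg (fun b => b.coeff (g * x * g⁻¹)) (cj_T hY hx₀ ha g)
    simp only [cj_coeff] at h1
    rw [← h1]
    congr 1
    group
  · rw [T_coeff]
    have hconj : ∀ (i : ℕ) (z : X), (x₀ ^ i)⁻¹ * z * x₀ ^ i ∈ Y ↔ z ∈ Y := by
      intro i z
      constructor
      · intro h
        have := (inferInstance : Y.Normal).conj_mem _ h (x₀ ^ i)
        rwa [show x₀ ^ i * ((x₀ ^ i)⁻¹ * z * x₀ ^ i) * (x₀ ^ i)⁻¹ = z by group] at this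
      · intro h
        have := (inferInstance : Y.Normal).conj_mem _ h (x₀ ^ i)⁻¹
        simpa using this
    by_cases hxY : x ∈ Y
    · by_cases hC : ∃ g ∈ Subgroup.centralizer ({x} : Set X), g ∉ Y
      · obtain ⟨g, hgC, hgY⟩ := hC
        have hcomm : ∀ n : ℕ, (g ^ n)⁻¹ * x * g ^ n = x := by
          intro n
          have h1 : g ^ n ∈ Subgroup.centralizer ({x} : Set X) := pow_mem hgC n
          rw [Subgroup.mem_centralizer_singleton_iff] at h1
          rw [mul_assoc, ← h1]; group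
        have hterm : ∀ i ∈ Finset.range p, a.coeff ((x₀ ^ i)⁻¹ * x * x₀ ^ i) = a.coeff x := by
          intro i _
          obtain ⟨j, _, y, hy, hxy⟩ := decomp hY hgY (x₀ ^ i)
          rw [hxy, show (g ^ j * y)⁻¹ * x * (g ^ j * y) = y⁻¹ * ((g ^ j)⁻¹ * x * g ^ j) * y by group,
            hcomm j]
          have := ha.2.1 y⁻¹ (inv_mem hy) x
          rwa [inv_inv] at this
        rw [Finset.sum_congr rfl hterm, Finset.sum_const, Finset.card_range]
        rw [nsmul_eq_mul, CharP.cast_eq_zero F p, zero_mul]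
      · push Not at hC
        apply Finset.sum_eq_zero
        intro i _
        apply ha.2.2
        have hcard : Nat.card (Y ⊓ Subgroup.centralizer {(x₀ ^ i)⁻¹ * x * x₀ ^ i} : Subgroup X) =
            Nat.card (⊤ ⊓ Subgroup.centralizer {x} : Subgroup X) := by
          have hmap : (Y ⊓ Subgroup.centralizer {(x₀ ^ i)⁻¹ * x * x₀ ^ i} : Subgroup X) =
              (⊤ ⊓ Subgroup.centralizer {x} : Subgroup X).map
                (MulAut.conj (x₀ ^ i)⁻¹).toMonoidHom := by
            ext z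
            simp only [Subgroup.mem_inf, Subgroup.mem_map, Subgroup.mem_top, true_and,
              MulEquiv.coe_toMonoidHom, MulAut.conj_apply, inv_inv,
              Subgroup.mem_centralizer_singleton_iff]
            constructor
            · rintro ⟨_, h2⟩
              refine ⟨x₀ ^ i * z * (x₀ ^ i)⁻¹, ?_, by group⟩
              calc x₀ ^ i * z * (x₀ ^ i)⁻¹ * x
                  = x₀ ^ i * (z * ((x₀ ^ i)⁻¹ * x * x₀ ^ i)) * (x₀ ^ i)⁻¹ := by group
                _ = x₀ ^ i * (((x₀ ^ i)⁻¹ * x * x₀ ^ i) * z) * (x₀ ^ i)⁻¹ := by rw [h2]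
                _ = x * (x₀ ^ i * z * (x₀ ^ i)⁻¹) := by group
            · rintro ⟨w, hw, rfl⟩
              constructor
              · have hwY : w ∈ Y := hC w (by
                  rw [Subgroup.mem_centralizer_singleton_iff]; exact hw)
                exact (hconj i w).2 hwY
              · calc (x₀ ^ i)⁻¹ * w * x₀ ^ i * ((x₀ ^ i)⁻¹ * x * x₀ ^ i)
                    = (x₀ ^ i)⁻¹ * (w * x) * x₀ ^ i := by group
                  _ = (x₀ ^ i)⁻¹ * (x * w) * x₀ ^ i := by rw [hw]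
                  _ = _ := by group
          rw [hmap]
          exact (Nat.card_congr ((⊤ ⊓ Subgroup.centralizer {x} : Subgroup X).equivMapOfInjective _
            (MulAut.conj (x₀ ^ i)⁻¹).injective).toEquiv).symm
        rw [hcard]
        exact hx
    · apply Finset.sum_eq_zero
      intro i _
      apply ha.1
      rw [hconj]
      exact hxY

omit [IsAlgClosed F] in
/-- the trace is onto -/
theorem T_onto {Y : Subgroup X} [Y.Normal] (hY : Y.index = p) {x₀ : X} (hx₀ : x₀ ∉ Y)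
    {b : MonoidAlgebra F X} (hb : b ∈ I0 p F (⊤ : Subgroup X)) :
    ∃ a ∈ I0 p F Y, T p x₀ a = b := by
  -- representatives
  let r : X → X := fun x => Quotient.out (ConjClasses.mk x)
  have hr : ∀ x, ∃ g, g * r x * g⁻¹ = x := by
    intro x
    have h1 : ConjClasses.mk (r x) = ConjClasses.mk x := Quotient.out_eq _
    rw [ConjClasses.mk_eq_mk_iff_isConj, isConj_iff] at h1
    exact h1
  have hrc : ∀ g x, r (g * x * g⁻¹) = r x := by
    intro g x
    have h1 : ConjClasses.mk (g * x * g⁻¹) = ConjClasses.mk x := by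
      rw [ConjClasses.mk_eq_mk_iff_isConj, isConj_iff]
      exact ⟨g⁻¹, by group⟩
    change Quotient.out (ConjClasses.mk (g * x * g⁻¹)) = Quotient.out (ConjClasses.mk x)
    rw [h1]
  have hbc : ∀ g x, b.coeff (g * x * g⁻¹) = b.coeff x := fun g x => hb.2.1 g trivial x
  let a : MonoidAlgebra F X := ga fun x => if ∃ y ∈ Y, y * r x * y⁻¹ = x then b.coeff x else 0
  have ha : ∀ x, a.coeff x = if ∃ y ∈ Y, y * r x * y⁻¹ = x then b.coeff x else 0 :=
    fun x => ga_coeff _ x
  have ha0 : ∀ x, b.coeff x = 0 → a.coeff x = 0 := by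
    intro x hx
    rw [ha, hx]; simp
  refine ⟨a, ⟨fun x hx => ?_, fun y hy x => ?_, fun x hx => ?_⟩, ?_⟩
  · apply ha0
    refine coeff_zero_of_not_mem hY hb (g := x) ?_ hx
    rw [Subgroup.mem_centralizer_singleton_iff]
  · rw [ha, ha, hrc, hbc]
    have hiff : (∃ z ∈ Y, z * r x * z⁻¹ = y * x * y⁻¹) ↔ ∃ z ∈ Y, z * r x * z⁻¹ = x := by
      constructor
      · rintro ⟨z, hz, h⟩
        refine ⟨y⁻¹ * z, mul_mem (inv_mem hy) hz, ?_⟩
        rw [show y⁻¹ * z * r x * (y⁻¹ * z)⁻¹ = y⁻¹ * (z * r x * z⁻¹) * y by group, h]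
        group
      · rintro ⟨z, hz, h⟩
        refine ⟨y * z, mul_mem hy hz, ?_⟩
        rw [show y * z * r x * (y * z)⁻¹ = y * (z * r x * z⁻¹) * y⁻¹ by group, h]
    simp only [hiff]
  · apply ha0
    apply hb.2.2
    refine hx.trans ?_
    exact Subgroup.card_dvd_of_le (inf_le_inf_right _ le_top)
  · apply ga_ext
    intro x
    rw [T_coeff]
    by_cases hbx : b.coeff x = 0
    · rw [hbx]
      apply Finset.sum_eq_zero
      intro i _
      apply ha0
      have := hbc (x₀ ^ i)⁻¹ x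
      rw [inv_inv] at this
      rw [this, hbx]
    · have hC : ∀ g ∈ Subgroup.centralizer ({x} : Set X), g ∈ Y := by
        intro g hg
        by_contra hgY
        exact hbx (coeff_zero_of_not_mem hY hb hg hgY)
      obtain ⟨g, hg⟩ := hr x
      obtain ⟨i, hi, y, hy, rfl⟩ := decomp hY hx₀ g
      have hri : ∀ j : ℕ, r ((x₀ ^ j)⁻¹ * x * x₀ ^ j) = r x := by
        intro j
        have := hrc (x₀ ^ j)⁻¹ x
        rwa [inv_inv] at this
      have hbi : ∀ j : ℕ, b.coeff ((x₀ ^ j)⁻¹ * x * x₀ ^ j) = b.coeff x := by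
        intro j
        have := hbc (x₀ ^ j)⁻¹ x
        rwa [inv_inv] at this
      rw [Finset.sum_eq_single i]
      · rw [ha, hri, hbi, if_pos]
        refine ⟨y, hy, ?_⟩
        symm
        calc (x₀ ^ i)⁻¹ * x * x₀ ^ i
            = (x₀ ^ i)⁻¹ * (x₀ ^ i * y * r x * (x₀ ^ i * y)⁻¹) * x₀ ^ i := by rw [hg]
          _ = y * r x * y⁻¹ := by group
      · intro j hj hji
        rw [ha, if_neg]
        rintro ⟨z, hz, h⟩
        rw [hri] at h
        apply hji
        rw [Finset.mem_range] at hi hj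
        symm
        apply range_unique hY hx₀ hi hj
        have h1 : x₀ ^ j * z * (x₀ ^ i * y)⁻¹ ∈ Subgroup.centralizer ({x} : Set X) := by
          rw [Subgroup.mem_centralizer_singleton_iff]
          have e1 : x = x₀ ^ j * z * r x * (x₀ ^ j * z)⁻¹ := by
            rw [show x₀ ^ j * z * r x * (x₀ ^ j * z)⁻¹ = x₀ ^ j * (z * r x * z⁻¹) * (x₀ ^ j)⁻¹ by
              group, h]
            group
          calc x₀ ^ j * z * (x₀ ^ i * y)⁻¹ * x
              = x₀ ^ j * z * (x₀ ^ i * y)⁻¹ * (x₀ ^ i * y * r x * (x₀ ^ i * y)⁻¹) := by rw [hg]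
            _ = (x₀ ^ j * z * r x * (x₀ ^ j * z)⁻¹) * (x₀ ^ j * z * (x₀ ^ i * y)⁻¹) := by group
            _ = x * (x₀ ^ j * z * (x₀ ^ i * y)⁻¹) := by rw [← e1]
        have h2 := hC _ h1
        have h3 : x₀ ^ ((j : ℤ) - i) = (x₀ ^ j * z * (x₀ ^ i * y)⁻¹) *
            (x₀ ^ i * (y * z⁻¹) * (x₀ ^ i)⁻¹) := by
          rw [zpow_sub, zpow_natCast, zpow_natCast]
          group
        rw [h3]
        exact mul_mem h2 ((inferInstance : Y.Normal).conj_mem _ (mul_mem hy (inv_mem hz)) _)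
      · intro h
        exact absurd hi h

omit [IsAlgClosed F] in
theorem T_pow {Y : Subgroup X} [Y.Normal] {x₀ : X}
    {a : MonoidAlgebra F X} (ha : a ∈ I0 p F Y) : (T p x₀ a) ^ p = T p x₀ (a ^ p) := by
  unfold T
  have h : ∀ s : Finset ℕ, (∑ i ∈ s, cj F (x₀ ^ i) a) ∈ I0 p F Y ∧
      (∑ i ∈ s, cj F (x₀ ^ i) a) ^ p = ∑ i ∈ s, cj F (x₀ ^ i) (a ^ p) := by
    intro s
    induction s using Finset.induction_on with
    | empty =>
      refine ⟨by simp, ?_⟩
      have hp : p.Prime := Fact.out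
      simp [hp.ne_zero]
    | insert i s hi ih =>
      have h1 : cj F (x₀ ^ i) a ∈ I0 p F Y := cj_I0 Y _ a ha
      rw [Finset.sum_insert hi, Finset.sum_insert hi]
      refine ⟨add_mem h1 ih.1, ?_⟩
      rw [frob_add Y _ _ h1 ih.1, ih.2, map_pow]
  exact (h _).2

/-- the kernel of the trace in `I0` -/
noncomputable def KT (Y : Subgroup X) (x₀ : X) : Submodule F (MonoidAlgebra F X) where
  carrier := {a | a ∈ I0 p F Y ∧ T p x₀ a = 0}
  add_mem' := by
    rintro a b ⟨h1, h2⟩ ⟨k1, k2⟩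
    exact ⟨add_mem h1 k1, by rw [T_add, h2, k2, add_zero]⟩
  zero_mem' := ⟨zero_mem _, by unfold T; simp⟩
  smul_mem' := by
    rintro c a ⟨h1, h2⟩
    exact ⟨Submodule.smul_mem _ c h1, by rw [T_smul, h2, smul_zero]⟩

end TRMaux

open TRMaux in
/-- Let `Y` be normal of index `p` in `X`, `x₀ ∉ Y` (so `X` is the disjoint union of the
`x₀ ^ i Y`, `i < p`), `Tr a = ∑_{i<p} x₀^i a x₀^{-i}`.

(1) `Tr` maps `I0 p F Y` to `I0 p F ⊤`: it is a class function of `X`. If `p ∣ |C_X(y)|` and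
`C_X(y) ≤ Y` then all terms vanish at `y`; if `C_X(y)` is not contained in `Y`, all conjugates
`x₀^{-i} y x₀^i` are `Y`-conjugate to `y`, so `Tr a` at `y` is `p * a y = 0`. (For `y ∉ Y` all terms vanish.)
(2) onto: let `b ∈ I0 p F ⊤`. It is supported on `Y` (an element outside `Y` has order divisible by
`p`, so its centraliser has). Choose a representative `r` of every `X`-class; let
`a y = b y` if `y` is `Y`-conjugate to the representative of its `X`-class and `a y = 0` otherwise.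
If `b y ≠ 0` then `C_X(y) ≤ Y`, and exactly one `i < p` has `x₀^{-i} y x₀^i` `Y`-conjugate to the
representative. So `Tr a = b`.
(3) `Tr` commutes with `p`-th powers on `I0 p F Y` (`frob_add`, the conjugates of `a` are in the
commutative ring of class functions of `Y`). For `b ∈ EE p F ⊤` take `a ∈ I0 p F Y` with `Tr a = b`;
`a ^ p - a` is in `K = ker Tr ⊓ I0 p F Y`, so by `lang_I0` it is `v ^ p - v` with `v ∈ K`, and
`a - v ∈ EE p F Y` has trace `b`. -/
theorem tr_EE (Y : Subgroup X) [Y.Normal] (hY : Y.index = p) (x₀ : X) (hx₀ : x₀ ∉ Y) :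
    (fun a => ∑ i ∈ Finset.range p, (cj F x₀)^[i] a) '' (EE p F Y) = EE p F (⊤ : Subgroup X) := by
  have hp : p.Prime := Fact.out
  ext b
  simp only [Set.mem_image, T_eq]
  constructor
  · rintro ⟨a, ⟨ha, hap⟩, rfl⟩
    exact ⟨T_mem hY hx₀ ha, by rw [T_pow ha, hap]⟩
  · rintro ⟨hb, hbp⟩
    obtain ⟨a, ha, hab⟩ := T_onto hY hx₀ hb
    have hle : KT (p := p) (F := F) Y x₀ ≤ I0 p F Y := fun v hv => hv.1
    have hpow : ∀ v ∈ KT (p := p) (F := F) Y x₀, v ^ p ∈ KT (p := p) (F := F) Y x₀ := by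
      rintro v ⟨h1, h2⟩
      refine ⟨I0_pow Y v h1 p hp.ne_zero, ?_⟩
      rw [← T_pow h1, h2, zero_pow hp.ne_zero]
    have hw : a ^ p - a ∈ KT (p := p) (F := F) Y x₀ := by
      refine ⟨sub_mem (I0_pow Y a ha p hp.ne_zero) ha, ?_⟩
      rw [T_sub, ← T_pow ha, hab, hbp, sub_self]
    obtain ⟨v, hv, hvw⟩ := lang_I0 Y (KT Y x₀) hle hpow _ hw
    refine ⟨a - v, ⟨sub_mem ha hv.1, ?_⟩, ?_⟩
    · rw [frob_sub Y a v ha hv.1]
      have h1 : a ^ p - v ^ p = (a ^ p - a) - (v ^ p - v) + (a - v) := by abel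
      rw [h1, hvw, sub_self, zero_add]
    · rw [T_sub, hv.2, hab, sub_zero]

end Pool.Agent.Nav
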