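import Pool.Agent.Nav.Good
import Pool.Agent.Nav.PRing
import Pool.Agent.Nav.TRM
import Pool.Agent.Nav.BR4
import Pool.Agent.Nav.Norm

/-!
# NAV-CC : the defect zero relation for a normal subgroup of index `p`
-/

namespace Pool.Agent.Nav

open scoped Classical

universe u

section aux

variable {X : Type u} [Group X] [Finite X] {p : ℕ} [Fact p.Prime] {F : Type} [Field F]
  [CharP F p]

lemma cc_zero_mem (Y : Subgroup X) : (0 : MonoidAlgebra F X) ∈ EE p F Y :=
  ⟨(I0 p F Y).zero_mem, zero_pow (Fact.out : p.Prime).ne_zero⟩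

/-- the non-unital subring `EE p F Y` -/
noncomputable def ccE (p : ℕ) [Fact p.Prime] (F : Type) [Field F] [CharP F p] (Y : Subgroup X) :
    NonUnitalSubring (MonoidAlgebra F X) where
  carrier := EE p F Y
  add_mem' := by
    rintro a b ⟨ha, ha'⟩ ⟨hb, hb'⟩
    exact ⟨(I0 p F Y).add_mem ha hb, by rw [frob_add Y a b ha hb, ha', hb']⟩
  zero_mem' := cc_zero_mem Y
  neg_mem' := by
    rintro a ⟨ha, ha'⟩
    refine ⟨(I0 p F Y).neg_mem ha, ?_⟩
    have h := frob_sub Y 0 a (I0 p F Y).zero_mem ha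
    rw [zero_sub, zero_pow (Fact.out : p.Prime).ne_zero, zero_sub, ha'] at h
    exact h
  mul_mem' := by
    rintro a b ⟨ha, ha'⟩ ⟨hb, hb'⟩
    refine ⟨I0_mul Y a b ha hb.1 hb.2.1, ?_⟩
    have hc : Commute a b := cl_comm (F := F) Y a b ha.1 ha.2.1 hb.1
    rw [hc.mul_pow, ha', hb']

lemma mem_ccE (Y : Subgroup X) (a : MonoidAlgebra F X) : a ∈ ccE p F Y ↔ a ∈ EE p F Y := Iff.rfl

lemma cj_one' (a : MonoidAlgebra F X) : cj F (1 : X) a = a := by
  apply ga_ext
  intro x
  rw [cj_coeff]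
  simp

lemma cj_iter (x₀ : X) (n : ℕ) (a : MonoidAlgebra F X) : (cj F x₀)^[n] a = cj F (x₀ ^ n) a := by
  induction n with
  | zero => rw [Function.iterate_zero, id, pow_zero, cj_one']
  | succ n ih =>
    rw [Function.iterate_succ_apply', ih, cj_cj, ← pow_succ']

/-- `a ∈ I0 p F Y` is invariant under `X` iff it is fixed by the conjugation with `x₀` -/
lemma cj_fix_iff (Y : Subgroup X) [Y.Normal] (hY : Y.index = p) (x₀ : X) (hx₀ : x₀ ∉ Y)
    (a : MonoidAlgebra F X) (ha : a ∈ I0 p F Y) : cj F x₀ a = a ↔ IsCl a := by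
  constructor
  · intro h
    let S : Subgroup X :=
      { carrier := {x | cj F x a = a}
        mul_mem' := by
          intro x y hx hy
          change cj F (x * y) a = a
          change cj F x a = a at hx
          change cj F y a = a at hy
          rw [← cj_cj, hy, hx]
        one_mem' := cj_one' a
        inv_mem' := by
          intro x hx
          change cj F x⁻¹ a = a
          change cj F x a = a at hx
          conv_lhs => rw [← hx]
          rw [cj_cj, inv_mul_cancel, cj_one'] }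
    have hYS : Y ≤ S := fun y hy => cj_self Y y hy a ha
    have hxS : x₀ ∈ S := h
    have h1 : Y.relIndex S * S.index = Y.index := Subgroup.relIndex_mul_index hYS
    have h2 : Y.relIndex S ≠ 1 := by
      intro h3
      rw [Subgroup.relIndex_eq_one] at h3
      exact hx₀ (h3 hxS)
    have hp : p.Prime := Fact.out
    have h4 : Y.relIndex S ∣ p := ⟨S.index, by rw [h1, hY]⟩
    have h5 : Y.relIndex S = p := (Nat.dvd_prime hp).1 h4 |>.resolve_left h2
    have h6 : S.index = 1 := by
      rw [h5, hY] at h1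
      exact Nat.eq_of_mul_eq_mul_left hp.pos (by rw [h1, mul_one])
    have h7 : S = ⊤ := Subgroup.index_eq_one.1 h6
    intro g x
    have h8 : g ∈ S := by rw [h7]; trivial
    have h9 : cj F g a = a := h8
    conv_lhs => rw [← h9]
    rw [cj_coeff]
    congr 1
    group
  · intro h
    apply ga_ext
    intro x
    rw [cj_coeff]
    have := h x₀⁻¹ x
    rwa [inv_inv] at this

lemma card_ccE_fix (Y : Subgroup X) [Y.Normal] (hY : Y.index = p) (x₀ : X) (hx₀ : x₀ ∉ Y) :
    {a : MonoidAlgebra F X | a ∈ ccE p F Y ∧ cj F x₀ a = a} =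
      {a : MonoidAlgebra F X | a ∈ EE p F Y ∧ IsCl a} := by
  ext a
  simp only [Set.mem_setOf_eq, mem_ccE]
  constructor
  · rintro ⟨h1, h2⟩
    exact ⟨h1, (cj_fix_iff Y hY x₀ hx₀ a h1.1).1 h2⟩
  · rintro ⟨h1, h2⟩
    exact ⟨h1, (cj_fix_iff Y hY x₀ hx₀ a h1.1).2 h2⟩

end aux

/-- Proof: take `F` from `exists_F`. `E = EE p F Y` is a finite non-unital subring of `F[X]`
(`I0R`), `σ = cj F x₀` for some `x₀ ∉ Y`, `σ^[p] = cj F (x₀ ^ p)` is the identity on it (`cj_self`).
`pring` and `tr_EE` give `|EE Y| |EE X| = |EE X| ^ p |{a ∈ EE Y | σ a = a}|`, and the last set is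
`{a ∈ EE Y | IsCl a}` (`X` is generated by `Y` and `x₀`), counted by `card_inv`. With `Good`
(`|EE p F Y| = p ^ dz p Y`, `dz_congr` for `⊤ ≃* X`):
`dz Y + dz X = p dz X + dz X + ∑_c dz (C_Y(c.out))`. Finally `dz p (CY Y D) = dz p (NQ D)`
(`NQ_equiv`) and `norm_sum`. -/
theorem cc (p : ℕ) [Fact p.Prime] (X : Type u) [Group X] [Finite X] (Y : Subgroup X) [Y.Normal]
    (hY : Y.index = p) :
    Nat.card X * dz p Y = p * (Nat.card X * dz p X) +
      ∑ᶠ D ∈ Dset p Y, Nat.card (Nm D) * dz p (NQ D) := by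
  have hp : p.Prime := Fact.out
  obtain ⟨F, _, _, _, hgood⟩ := exists_F.{u} p
  -- an element outside `Y`
  have hne : ∃ x₀ : X, x₀ ∉ Y := by
    by_contra h
    push Not at h
    have h1 : Y = ⊤ := by
      ext x
      exact ⟨fun _ => trivial, fun _ => h x⟩
    rw [h1, Subgroup.index_top] at hY
    exact hp.one_lt.ne hY
  obtain ⟨x₀, hx₀⟩ := hne
  have hcard : ∀ Z : Subgroup X, Nat.card (EE p F Z) = p ^ dz p Z := fun Z => hgood X Z
  have hfin : ∀ Z : Subgroup X, Finite (EE p F Z) := fun Z =>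
    Nat.finite_of_card_ne_zero (by rw [hcard Z]; exact pow_ne_zero _ hp.ne_zero)
  have : Finite (ccE p F Y) := hfin Y
  have hpr := pring (p := p) (ccE p F Y)
    (fun a ha b hb => cl_comm (F := F) Y a b ha.1.1 ha.1.2.1 hb.1.1)
    (fun a ha => ha.2)
    (fun a _ => by
      apply ga_ext
      intro x
      rw [MonoidAlgebra.coeff_smul, Finsupp.smul_apply, nsmul_eq_mul, CharP.cast_eq_zero F p,
        zero_mul, MonoidAlgebra.coeff_zero, Finsupp.zero_apply])
    (cj F x₀) (fun a ha => cj_EE Y x₀ a ha)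
    (fun a ha => by
      rw [cj_iter]
      apply cj_self Y _ _ a ha.1
      have := Subgroup.pow_index_mem Y x₀
      rwa [hY] at this)
  have hset : ((ccE p F Y : NonUnitalSubring (MonoidAlgebra F X)) : Set (MonoidAlgebra F X)) =
      EE p F Y := rfl
  have hcE : Nat.card (ccE p F Y) = p ^ dz p Y := hcard Y
  rw [hset, tr_EE Y hY x₀ hx₀, card_ccE_fix Y hY x₀ hx₀, card_inv Y hY (hfin ⊤), hcE, hcard ⊤,
    dz_congr p (Subgroup.topEquiv (G := X))] at hpr
  have hprod : ∏ᶠ c : Quotient (conjSetoid (Dset p Y)),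
      Nat.card (EE p F (CY Y (c.out : Subgroup X))) = p ^ wSum p (Dset p Y) := by
    have : Fintype (Quotient (conjSetoid (Dset p Y))) := Fintype.ofFinite _
    unfold wSum
    rw [finprod_eq_prod_of_fintype, finsum_eq_sum_of_fintype, ← Finset.prod_pow_eq_pow_sum]
    refine Finset.prod_congr rfl (fun c _ => ?_)
    rw [hcard]
    congr 1
    obtain ⟨e⟩ := NQ_equiv Y hY (c.out : Subgroup X) c.out.2
    exact (dz_congr p e).symm
  rw [hprod, ← pow_add, ← pow_mul, ← pow_add, ← pow_add] at hpr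
  have hexp := Nat.pow_right_injective hp.two_le hpr
  have h1 : dz p Y = p * dz p X + wSum p (Dset p Y) := by
    have h2 : dz p X * p = p * dz p X := mul_comm _ _
    rw [h2] at hexp
    omega
  have h3 := card_mul_wSum p (Dset p Y) (fun Q hQ g => Dset_conj Y Q hQ g)
  rw [h1, mul_add, h3]
  ring

/-- a group with a central element of order `p` has no defect zero character: then
`p ∣ |C_H(x)|` for all `x`, so `I0 p F ⊤ = 0`, `|EE p F ⊤| = 1 = p ^ dz p H`. -/
theorem dz_eq_zero (p : ℕ) [Fact p.Prime] (H : Type u) [Group H] [Finite H] (z : H)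
    (hz : z ∈ Subgroup.center H) (ho : orderOf z = p) : dz p H = 0 := by
  have hp : p.Prime := Fact.out
  obtain ⟨F, _, _, _, hgood⟩ := exists_F.{u} p
  have h1 : EE p F (⊤ : Subgroup H) = {0} := by
    apply Set.eq_singleton_iff_unique_mem.2
    refine ⟨cc_zero_mem _, ?_⟩
    rintro a ⟨ha, _⟩
    apply ga_ext
    intro x
    rw [ha.2.2 x ?_]
    · simp
    · have h2 : z ∈ (⊤ ⊓ Subgroup.centralizer {x} : Subgroup H) := by
        refine ⟨trivial, ?_⟩
        refine Subgroup.mem_centralizer_iff.2 ?_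
        intro y _
        exact (Subgroup.mem_center_iff.1 hz y)
      have h3 := Subgroup.orderOf_dvd_natCard (⊤ ⊓ Subgroup.centralizer {x} : Subgroup H) h2
      rwa [ho] at h3
  have h2 := hgood H (⊤ : Subgroup H)
  rw [h1] at h2
  have h3 : Nat.card ({0} : Set (MonoidAlgebra F H)) = 1 := by simp
  rw [h3, dz_congr p (Subgroup.topEquiv (G := H))] at h2
  rcases Nat.eq_zero_or_pos (dz p H) with h | h
  · exact h
  · exfalso
    have := Nat.one_lt_pow h.ne' hp.one_lt
    omega

end Pool.Agent.Nav
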