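import Pool.Agent.Nav.Dens

/-!
# NAV-CRep : central characters of complex representations
-/

namespace Pool.Agent.Nav

open scoped Classical

universe u

set_option linter.unusedSectionVars false

variable {H : Type u} [Group H] [Finite H]

/-- the coefficient sum is the trace of the group algebra element -/
theorem crep_trace [Fintype H] (ρ : IrrRep ℂ H) (z : MonoidAlgebra ℂ H) :
    ∑ x, z.coeff x * chi (⟦ρ⟧ : IrrClass ℂ H) x =
      LinearMap.trace ℂ (Fin ρ.deg → ℂ) (ρ.rep.asAlgebraHom z) := by
  have h1 : ρ.rep.asAlgebraHom z = ∑ x, z.coeff x • ρ.rep x := by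
    rw [Representation.asAlgebraHom_def, MonoidAlgebra.lift_apply, Finsupp.sum_fintype]
    intro i; simp
  rw [h1, map_sum]
  refine Finset.sum_congr rfl fun x _ => ?_
  rw [map_smul, smul_eq_mul]
  rfl

theorem crep_om (ρ : IrrRep ℂ H) (z : MonoidAlgebra ℂ H) :
    om (⟦ρ⟧ : IrrClass ℂ H) z = (ρ.deg : ℂ)⁻¹ *
      LinearMap.trace ℂ (Fin ρ.deg → ℂ) (ρ.rep.asAlgebraHom z) := by
  have := Fintype.ofFinite H
  rw [om, finsum_eq_sum_of_fintype, crep_trace, degc_mk]

theorem crep_deg_ne (ρ : IrrRep ℂ H) : (ρ.deg : ℂ) ≠ 0 := by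
  have := degc_pos (⟦ρ⟧ : IrrClass ℂ H)
  rw [degc_mk] at this
  exact_mod_cast this.ne'

theorem om_add (c : IrrClass ℂ H) (z w : MonoidAlgebra ℂ H) : om c (z + w) = om c z + om c w := by
  induction c using Quotient.inductionOn with
  | _ ρ => rw [crep_om, crep_om, crep_om, map_add, map_add, mul_add]

theorem om_smul (c : IrrClass ℂ H) (a : ℂ) (z : MonoidAlgebra ℂ H) :
    om c (a • z) = a * om c z := by
  induction c using Quotient.inductionOn with
  | _ ρ => rw [crep_om, crep_om, map_smul, map_smul, smul_eq_mul]; ring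

theorem om_one (c : IrrClass ℂ H) : om c 1 = 1 := by
  induction c using Quotient.inductionOn with
  | _ ρ =>
    rw [crep_om, map_one, LinearMap.trace_one]
    simp only [Module.finrank_fintype_fun_eq_card, Fintype.card_fin]
    exact inv_mul_cancel₀ (crep_deg_ne ρ)

/-- products, sums, scalar multiples of class functions are class functions -/
theorem isCl_mul {R : Type*} [Semiring R] (z w : MonoidAlgebra R H) (hz : IsCl z) (hw : IsCl w) :
    IsCl (z * w) := by
  have := Fintype.ofFinite H
  intro h x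
  rw [mul_coeff, mul_coeff]
  refine (Fintype.sum_equiv (MulAut.conj h).toEquiv _ _ fun k => ?_).symm
  simp only [MulEquiv.toEquiv_eq_coe, EquivLike.coe_coe, MulAut.conj_apply]
  rw [hz, ← hw h (k⁻¹ * x)]
  congr 2
  group

/-- class functions are central -/
theorem isCl_comm {R : Type*} [CommSemiring R] (z w : MonoidAlgebra R H) (hz : IsCl z) :
    z * w = w * z := by
  have := Fintype.ofFinite H
  apply ga_ext
  intro g
  rw [mul_coeff, mul_coeff]
  refine Fintype.sum_equiv ((Equiv.inv H).trans (Equiv.mulRight g)) _ _ fun k => ?_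
  simp only [Equiv.trans_apply, Equiv.inv_apply, Equiv.coe_mulRight]
  rw [← hz g⁻¹ k]
  rw [mul_comm]
  congr 2
  group

/-- a central element acts on an irreducible representation as the scalar `om` -/
theorem crep_scalar (ρ : IrrRep ℂ H) (z : MonoidAlgebra ℂ H) (hz : IsCl z) :
    ρ.rep.asAlgebraHom z = om (⟦ρ⟧ : IrrClass ℂ H) z • LinearMap.id := by
  have hirr : ρ.rep.IsIrreducible := ρ.irr
  let f : Representation.IntertwiningMap ρ.rep ρ.rep :=
    ⟨ρ.rep.asAlgebraHom z, fun g => by
      have h1 := congrArg ρ.rep.asAlgebraHom (isCl_comm z (MonoidAlgebra.single g 1) hz)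
      rw [map_mul, map_mul, Representation.asAlgebraHom_single_one] at h1
      exact h1⟩
  obtain ⟨c, hc⟩ :=
    (Representation.IsIrreducible.algebraMap_intertwiningMap_bijective_of_isAlgClosed
      (ρ := ρ.rep)).2 f
  have h2 : ρ.rep.asAlgebraHom z = c • LinearMap.id := by
    have h3 : f.toLinearMap = ρ.rep.asAlgebraHom z := rfl
    rw [← h3, ← hc]
    ext v
    rfl
  have h4 : om (⟦ρ⟧ : IrrClass ℂ H) z = c := by
    rw [crep_om, h2, map_smul, smul_eq_mul, LinearMap.trace_id]
    have := crep_deg_ne ρ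
    simp
    field_simp
  rw [h4, h2]

/-- a class function acts on an irreducible representation `ρ` as the scalar `om` (Schur), so for
every `w` the trace of `z w` is `om c z` times the trace of `w`. -/
theorem om_mul (c : IrrClass ℂ H) (z w : MonoidAlgebra ℂ H) (hz : IsCl z) :
    om c (z * w) = om c z * om c w := by
  induction c using Quotient.inductionOn with
  | _ ρ =>
    rw [crep_om ρ (z * w), map_mul, crep_scalar ρ z hz, smul_mul_assoc, map_smul, smul_eq_mul,
      crep_om ρ w]
    have : (LinearMap.id : (Fin ρ.deg → ℂ) →ₗ[ℂ] (Fin ρ.deg → ℂ)) = 1 := rfl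
    rw [this, one_mul]
    ring

/-- every simple module is given by an irreducible representation -/
theorem exists_irr_of_simple (S : Type*) [AddCommGroup S] [Module ℂ S]
    [Module (MonoidAlgebra ℂ H) S] [IsScalarTower ℂ (MonoidAlgebra ℂ H) S] [Module.Finite ℂ S]
    [IsSimpleModule (MonoidAlgebra ℂ H) S] :
    ∃ ρ : IrrRep ℂ H, ∃ e : S ≃ₗ[ℂ] (Fin ρ.deg → ℂ), ∀ (r : MonoidAlgebra ℂ H) (s : S),
      e (r • s) = ρ.rep.asAlgebraHom r (e s) := by
  let e : S ≃ₗ[ℂ] (Fin (Module.finrank ℂ S) → ℂ) := (Module.finBasis ℂ S).equivFun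
  let F : MonoidAlgebra ℂ H →ₐ[ℂ] Module.End ℂ (Fin (Module.finrank ℂ S) → ℂ) :=
    (e.conjAlgEquiv ℂ).toAlgHom.comp (Algebra.lsmul ℂ ℂ S)
  let rep : Representation ℂ H (Fin (Module.finrank ℂ S) → ℂ) := (MonoidAlgebra.lift ℂ _ H).symm F
  have h1 : rep.asAlgebraHom = F := by
    rw [Representation.asAlgebraHom_def]
    exact Equiv.apply_symm_apply _ _
  have h2 : ∀ (r : MonoidAlgebra ℂ H) (s : S), e (r • s) = rep.asAlgebraHom r (e s) := by
    intro r s
    rw [h1]
    simp [F]
  have h3 : rep.IsIrreducible := by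
    rw [Representation.irreducible_iff_isSimpleModule_asModule]
    let E : rep.asModule ≃ₗ[MonoidAlgebra ℂ H] S :=
      { (rep.asModuleEquiv.trans e.symm) with
        map_smul' := by
          intro r x
          show e.symm (rep.asModuleEquiv (r • x)) = r • e.symm (rep.asModuleEquiv x)
          rw [LinearEquiv.symm_apply_eq, h2, LinearEquiv.apply_symm_apply]
          rfl }
    exact IsSimpleModule.congr E
  exact ⟨⟨_, rep, h3⟩, e, h2⟩

/-- a class function killed by all central characters is `0`: it acts as `0` on every irreducible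
representation, hence on the semisimple module `ℂ[H]` (Maschke), so `z = z * 1 = 0`. -/
theorem om_complete (z : MonoidAlgebra ℂ H) (hz : IsCl z) (h : ∀ c : IrrClass ℂ H, om c z = 0) :
    z = 0 := by
  have hfin : Module.Finite ℂ (MonoidAlgebra ℂ H) := by
    infer_instance
  let N : Submodule (MonoidAlgebra ℂ H) (MonoidAlgebra ℂ H) :=
    { carrier := {m | z * m = 0}
      add_mem' := by
        intro a b ha hb
        simp only [Set.mem_ofPred_eq] at *
        rw [mul_add, ha, hb, add_zero]
      zero_mem' := by simp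
      smul_mem' := by
        intro c m hm
        simp only [Set.mem_ofPred_eq, smul_eq_mul] at *
        rw [← mul_assoc, isCl_comm z c hz, mul_assoc, hm, mul_zero] }
  have hss : IsSemisimpleModule (MonoidAlgebra ℂ H) (MonoidAlgebra ℂ H) := inferInstance
  have htop : N = ⊤ := by
    rw [eq_top_iff, ← IsSemisimpleModule.sSup_simples_eq_top (MonoidAlgebra ℂ H) (MonoidAlgebra ℂ H)]
    refine sSup_le ?_
    intro S hS m hm
    have hS' : IsSimpleModule (MonoidAlgebra ℂ H) S := hS
    have hSf : Module.Finite ℂ S := by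
      have : Module.Finite ℂ (S.restrictScalars ℂ) := inferInstance
      exact this
    obtain ⟨ρ, e, he⟩ := exists_irr_of_simple (H := H) S
    have h1 : e (z • (⟨m, hm⟩ : S)) = 0 := by
      rw [he, crep_scalar ρ z hz, h]
      simp
    have h2 : z • (⟨m, hm⟩ : S) = 0 := by
      rwa [LinearEquiv.map_eq_zero_iff] at h1
    have h3 := congrArg Subtype.val h2
    exact h3
  have h1 : (1 : MonoidAlgebra ℂ H) ∈ N := by rw [htop]; trivial
  have h2 : z * 1 = 0 := h1
  rwa [mul_one] at h2

theorem isCl_ei (c : IrrClass ℂ H) : IsCl (ei c) := by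
  intro h x
  simp only [ei, ga_coeff]
  have : (h * x * h⁻¹)⁻¹ = h * x⁻¹ * h⁻¹ := by group
  rw [this, chi_conj]

/-- first orthogonality relation (`Representation.char_orthonormal`) -/
theorem om_ei (c d : IrrClass ℂ H) : om d (ei c) = if d = c then 1 else 0 := by
  have := Fintype.ofFinite H
  induction c using Quotient.inductionOn with
  | _ ρ =>
  induction d using Quotient.inductionOn with
  | _ σ =>
    have hρ : ρ.rep.IsIrreducible := ρ.irr
    have hσ : σ.rep.IsIrreducible := σ.irr
    have hcard : (Nat.card H : ℂ) ≠ 0 := by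
      have := Nat.card_pos (α := H)
      exact_mod_cast this.ne'
    have : Invertible (Nat.card H : ℂ) := invertibleOfNonzero hcard
    have h1 := Representation.char_orthonormal σ.rep ρ.rep
    have h2 : om (⟦σ⟧ : IrrClass ℂ H) (ei (⟦ρ⟧ : IrrClass ℂ H)) =
        (ρ.deg : ℂ) * (σ.deg : ℂ)⁻¹ *
          ((Nat.card H : ℂ)⁻¹ * ∑ g : H, σ.rep.character g * ρ.rep.character g⁻¹) := by
      rw [om, finsum_eq_sum_of_fintype, degc_mk, Finset.mul_sum, Finset.mul_sum, Finset.mul_sum]
      refine Finset.sum_congr rfl fun x _ => ?_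
      simp only [ei, ga_coeff, chi_mk, degc_mk]
      ring
    rw [h2, h1]
    by_cases he : (⟦σ⟧ : IrrClass ℂ H) = ⟦ρ⟧
    · have h3 : σ.deg = ρ.deg := by
        have := congrArg degc he
        simpa using this
      have h4 : Nonempty (ρ.rep.Equiv σ.rep) := Quotient.exact he.symm
      rw [if_pos h4, if_pos he, h3]
      have := crep_deg_ne ρ
      simp [this]
    · have h4 : ¬ Nonempty (ρ.rep.Equiv σ.rep) := fun h => he (Quotient.sound h).symm
      rw [if_neg h4, if_neg he]
      simp

end Pool.Agent.Nav
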