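import Mathlib

/-!
# Definitions for Navarro's conjecture on invariant Brauer characters (MP_549525_al)

`p` is a prime, `G ⊴ Γ` finite groups.

* `IrrRep K H` : an irreducible representation of `H` over the field `K`, of finite degree `deg`,
  realised on `K ^ deg`; two of them are equivalent when they are isomorphic representations.
* `IrrClass K H` : the set of isomorphism classes.
* `ibrInv k G` : number of isomorphism classes of irreducible `k`-representations of `G` that are
  invariant under conjugation by `Γ` (for `k` algebraically closed of characteristic `p` this is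
  `|IBr_Γ(G)|`).
* `dz p H` : number of isomorphism classes of irreducible complex representations of `H`
  whose degree has the same `p`-part as `|H|`.
* `Theta p G` : the set of `p`-subgroups `Q` of `Γ` with `G Q = Γ`.
* `NQ Q = N_Γ(Q) / Q`.
* `weights p G = ∑_{Q ∈ Theta / Γ} |dz (N_Γ(Q) / Q)|`.
-/

namespace Pool.Agent.Nav

universe u v

/-- An irreducible representation of `H` over `K` on the space `K ^ deg`. -/
structure IrrRep (K : Type v) [Field K] (H : Type u) [Group H] where
  /-- the degree -/
  deg : ℕ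
  /-- the representation -/
  rep : Representation K H (Fin deg → K)
  /-- it is irreducible (nonzero, without proper nonzero subrepresentation) -/
  irr : rep.IsIrreducible

/-- Two irreducible representations are equivalent when they are isomorphic. -/
instance isoSetoid (K : Type v) [Field K] (H : Type u) [Group H] : Setoid (IrrRep K H) where
  r ρ σ := Nonempty (ρ.rep.Equiv σ.rep)
  iseqv :=
    { refl := fun _ => ⟨Representation.Equiv.refl _⟩
      symm := fun ⟨e⟩ => ⟨e.symm⟩
      trans := fun ⟨e⟩ ⟨f⟩ => ⟨e.trans f⟩ }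

/-- Isomorphism classes of irreducible representations of `H` over `K`. -/
abbrev IrrClass (K : Type v) [Field K] (H : Type u) [Group H] := Quotient (isoSetoid K H)

/-- The representation `h ↦ ρ (e h)`. -/
noncomputable def IrrRep.twist {K : Type v} [Field K] {H H' : Type u} [Group H] [Group H']
    (ρ : IrrRep K H) (e : H' ≃* H) : IrrRep K H' where
  deg := ρ.deg
  rep := ρ.rep.comp e.toMonoidHom
  irr := by
    have h := ρ.irr
    have hle : ∀ (W : Submodule K (Fin ρ.deg → K)),
        (∀ g : H', ∀ v ∈ W, (ρ.rep.comp e.toMonoidHom) g v ∈ W) ↔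
          (∀ g : H, ∀ v ∈ W, ρ.rep g v ∈ W) := by
      intro W
      constructor
      · intro hW g v hv
        have := hW (e.symm g) v hv
        simpa using this
      · intro hW g v hv
        exact hW (e g) v hv
    refine (OrderIso.isSimpleOrder_iff ?_).mp h
    exact
      { toFun := fun W => ⟨W.toSubmodule, fun g v hv => W.apply_mem_toSubmodule (e g) hv⟩
        invFun := fun W => ⟨W.toSubmodule, fun g v hv =>
          (hle W.toSubmodule).1 (fun g v hv => W.apply_mem_toSubmodule g hv) g v hv⟩
        left_inv := fun W => rfl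
        right_inv := fun W => rfl
        map_rel_iff' := Iff.rfl }

section

variable {Γ : Type u} [Group Γ]

/-- `ρ` is invariant under conjugation by all elements of `Γ`: for every `γ`, the representation
`g ↦ ρ (γ g γ⁻¹)` is isomorphic to `ρ`. -/
def IrrRep.Invariant {K : Type v} [Field K] (G : Subgroup Γ) [G.Normal] (ρ : IrrRep K G) : Prop :=
  ∀ γ : Γ, Nonempty ((ρ.twist (MulAut.conjNormal γ)).rep.Equiv ρ.rep)

/-- The number of isomorphism classes of `Γ`-invariant irreducible representations of `G`. -/
noncomputable def ibrInv (k : Type v) [Field k] (G : Subgroup Γ) [G.Normal] : ℕ :=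
  Nat.card {c : IrrClass k G // ∀ ρ : IrrRep k G, (⟦ρ⟧ : IrrClass k G) = c → ρ.Invariant G}

/-- The number of irreducible complex representations (up to isomorphism) of `H` of `p`-defect
zero, i.e. whose degree has the same `p`-adic valuation as `|H|`. -/
noncomputable def dz (p : ℕ) (H : Type u) [Group H] : ℕ :=
  Nat.card {c : IrrClass ℂ H //
    ∀ ρ : IrrRep ℂ H, (⟦ρ⟧ : IrrClass ℂ H) = c →
      padicValNat p ρ.deg = padicValNat p (Nat.card H)}

/-- The set of `p`-subgroups `Q` of `Γ` with `G Q = M`. -/
def ThetaM (p : ℕ) (G M : Subgroup Γ) : Set (Subgroup Γ) := {Q | IsPGroup p Q ∧ G ⊔ Q = M}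

/-- The set `Θ` of `p`-subgroups `Q` of `Γ` with `G Q = Γ`. -/
def Theta (p : ℕ) (G : Subgroup Γ) : Set (Subgroup Γ) := {Q | IsPGroup p Q ∧ G ⊔ Q = ⊤}

/-- `Γ`-conjugacy on a set of subgroups of `Γ`. -/
def conjSetoid (S : Set (Subgroup Γ)) : Setoid S where
  r Q R := ∃ γ : Γ, (Q : Subgroup Γ).map (MulAut.conj γ).toMonoidHom = R
  iseqv :=
    { refl := fun Q => ⟨1, by simp [Subgroup.ext_iff]⟩
      symm := by
        rintro ⟨Q, hQ⟩ ⟨R, hR⟩ ⟨γ, h⟩
        refine ⟨γ⁻¹, ?_⟩
        simp only at h ⊢
        rw [← h, Subgroup.map_map]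
        have : (MulAut.conj γ⁻¹).toMonoidHom.comp (MulAut.conj γ).toMonoidHom =
            MonoidHom.id Γ := by
          ext x; simp [MulAut.conj_apply, mul_assoc]
        rw [this, Subgroup.map_id]
      trans := by
        rintro ⟨Q, hQ⟩ ⟨R, hR⟩ ⟨T, hT⟩ ⟨γ, h⟩ ⟨δ, h'⟩
        refine ⟨δ * γ, ?_⟩
        simp only at h h' ⊢
        rw [← h', ← h, Subgroup.map_map]
        congr 1
        ext x; simp [MulAut.conj_apply, mul_assoc] }

/-- The normaliser of `Q` in `Γ`. -/
abbrev Nm (Q : Subgroup Γ) : Subgroup Γ := Subgroup.normalizer (Q : Set Γ)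

/-- The quotient `N_Γ(Q) / Q`. -/
abbrev NQ (Q : Subgroup Γ) := (Nm Q) ⧸ Q.subgroupOf (Nm Q)

/-- `∑_{Q ∈ S / Γ} |dz (N_Γ(Q) / Q)|`. -/
noncomputable def wSum (p : ℕ) (S : Set (Subgroup Γ)) : ℕ :=
  ∑ᶠ c : Quotient (conjSetoid S), dz p (NQ (c.out : Subgroup Γ))

/-- The right hand side of Navarro's equality: `∑_{Q ∈ Θ / Γ} |dz (N_Γ(Q) / Q)|`. -/
noncomputable def weights (p : ℕ) (G : Subgroup Γ) : ℕ := wSum p (Theta p G)

/-- Navarro's equality for the pair `G ⊴ Γ`. -/
def Navarro (p : ℕ) (k : Type v) [Field k] (G : Subgroup Γ) [G.Normal] : Prop :=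
  ibrInv k G = weights p G

end

end Pool.Agent.Nav
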