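import Pool.Agent.Nav.Act

/-!
# NAV-DzC : `dz` is invariant under isomorphisms
-/

namespace Pool.Agent.Nav

universe u

/-- Proof: `c ↦ twistC e c` is a bijection on isomorphism classes, preserving the degree. Use
`dz_eq`. -/
theorem dz_congr (p : ℕ) {H H' : Type u} [Group H] [Group H'] (e : H ≃* H') :
    dz p H = dz p H' := by
  rw [dz_eq, dz_eq, Nat.card_congr e.toEquiv]
  refine Nat.card_congr ?_
  exact
    { toFun := fun c => ⟨twistC e.symm c.1, by rw [degc_twistC]; exact c.2⟩
      invFun := fun c => ⟨twistC e c.1, by rw [degc_twistC]; exact c.2⟩
      left_inv := fun c => Subtype.ext (by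
        change twistC e (twistC e.symm c.1) = c.1
        rw [twistC_twistC]
        have h : e.trans e.symm = MulEquiv.refl H := by ext x; simp
        rw [h, twistC_refl])
      right_inv := fun c => Subtype.ext (by
        change twistC e.symm (twistC e c.1) = c.1
        rw [twistC_twistC]
        have h : e.symm.trans e = MulEquiv.refl H' := by ext x; simp
        rw [h, twistC_refl]) }

end Pool.Agent.Nav
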