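import Pool.Agent.Nav.API

/-!
# NAV-FSum : a sum over a set with an action of a `p`-group reduces to the fixed points
-/

namespace Pool.Agent.Nav

open scoped Classical

/-- An invariant function which vanishes on the orbits of size prime to `p` sums to zero. -/
private theorem fsum_aux {p : ℕ} {D : Type*} [Group D]
    {Ω : Type*} [MulAction D Ω] [Fintype Ω] {R : Type*} [CommRing R] [CharP R p]
    (g : Ω → R) (hg : ∀ (d : D) (ω : Ω), g (d • ω) = g ω)
    (h0 : ∀ ω, g ω ≠ 0 → p ∣ Nat.card (MulAction.orbit D ω)) : ∑ ω, g ω = 0 := by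
  rw [← Finset.sum_fiberwise Finset.univ
    (fun ω => (Quotient.mk'' ω : MulAction.orbitRel.Quotient D Ω)) g]
  refine Finset.sum_eq_zero fun q _ => ?_
  induction q using Quotient.inductionOn' with
  | h ω₀ =>
    have hmem : ∀ ω : Ω, (Quotient.mk'' ω : MulAction.orbitRel.Quotient D Ω) = Quotient.mk'' ω₀ ↔
        ω ∈ MulAction.orbit D ω₀ := fun ω => by
      rw [Quotient.eq'', MulAction.orbitRel_apply]
    have hconst : ∀ ω ∈ Finset.univ.filter
        (fun ω => (Quotient.mk'' ω : MulAction.orbitRel.Quotient D Ω) = Quotient.mk'' ω₀),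
        g ω = g ω₀ := by
      intro ω hω
      obtain ⟨d, rfl⟩ := (hmem ω).1 (Finset.mem_filter.1 hω).2
      exact hg d ω₀
    rw [Finset.sum_congr rfl hconst, Finset.sum_const, nsmul_eq_mul]
    by_cases hz : g ω₀ = 0
    · rw [hz, mul_zero]
    · have hcard : (Finset.univ.filter
        (fun ω => (Quotient.mk'' ω : MulAction.orbitRel.Quotient D Ω) = Quotient.mk'' ω₀)).card
          = Nat.card (MulAction.orbit D ω₀) := by
        rw [Nat.card_eq_fintype_card, ← Set.toFinset_card]
        refine congrArg Finset.card ?_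
        ext ω
        rw [Set.mem_toFinset, Finset.mem_filter, hmem ω]
        exact ⟨fun h => h.2, fun h => ⟨Finset.mem_univ _, h⟩⟩
      rw [hcard, (CharP.cast_eq_zero_iff R p _).2 (h0 ω₀ hz), zero_mul]

/-- the same with the hypothesis on the orbits, for an arbitrary group -/
theorem sum_fixed' {p : ℕ} [Fact p.Prime] {D : Type*} [Group D]
    {Ω : Type*} [MulAction D Ω] [Fintype Ω]
    (hD : ∀ ω : Ω, ω ∉ MulAction.fixedPoints D Ω → p ∣ Nat.card (MulAction.orbit D ω))
    {R : Type*} [CommRing R] [CharP R p]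
    (f : Ω → R) (hf : ∀ (d : D) (ω : Ω), f (d • ω) = f ω) :
    ∑ ω, f ω = ∑ ω, if ω ∈ MulAction.fixedPoints D Ω then f ω else 0 := by
  have hfix : ∀ (d : D) (ω : Ω),
      d • ω ∈ MulAction.fixedPoints D Ω ↔ ω ∈ MulAction.fixedPoints D Ω := by
    intro d ω
    constructor
    · intro h
      have h1 : d • ω = ω := by
        have h2 := h d⁻¹
        rw [inv_smul_smul] at h2
        exact h2.symm
      rwa [h1] at h
    · intro h
      rwa [h d]
  have h := fsum_aux (p := p) (D := D)
    (fun ω => if ω ∈ MulAction.fixedPoints D Ω then (0 : R) else f ω)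
    (fun d ω => by
      by_cases hω : ω ∈ MulAction.fixedPoints D Ω
      · rw [if_pos hω, if_pos ((hfix d ω).2 hω)]
      · rw [if_neg hω, if_neg (fun h => hω ((hfix d ω).1 h)), hf])
    (fun ω hω => hD ω (fun h => hω (if_pos h)))
  rw [← sub_eq_zero, ← Finset.sum_sub_distrib]
  refine Eq.trans (Finset.sum_congr rfl fun ω _ => ?_) h
  by_cases hω : ω ∈ MulAction.fixedPoints D Ω
  · rw [if_pos hω, if_pos hω, sub_self]
  · rw [if_neg hω, if_neg hω, sub_zero]

/-- `D` a `p`-group acting on a finite set, `f` an invariant function into a ring of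
characteristic `p`: the sum of `f` is the sum of `f` over the fixed points. (The other orbits have
a size divisible by `p`.) -/
theorem sum_fixed {p : ℕ} [Fact p.Prime] {D : Type*} [Group D] (hD : IsPGroup p D)
    {Ω : Type*} [MulAction D Ω] [Fintype Ω] {R : Type*} [CommRing R] [CharP R p]
    (f : Ω → R) (hf : ∀ (d : D) (ω : Ω), f (d • ω) = f ω) :
    ∑ ω, f ω = ∑ ω, if ω ∈ MulAction.fixedPoints D Ω then f ω else 0 := by
  refine sum_fixed' (D := D) (fun ω hω => ?_) f hf
  obtain ⟨n, hn⟩ := hD.card_orbit ω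
  rw [hn]
  rcases n with _ | n
  · exfalso
    apply hω
    rw [MulAction.mem_fixedPoints_iff_card_orbit_eq_one]
    rw [← Nat.card_eq_fintype_card, hn, pow_zero]
  · exact dvd_pow_self p (Nat.succ_ne_zero n)

end Pool.Agent.Nav
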