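import Pool.Agent.Nav.API

/-!
# NAV-Rel : `EE` of a subgroup `Y` of `X` versus `EE` of the group `Y`
-/

namespace Pool.Agent.Nav

universe u v

private lemma rel_coeff (F : Type v) [Field F] {X : Type u} [Group X] (Y : Subgroup X)
    (b : MonoidAlgebra F Y) (y : Y) :
    (MonoidAlgebra.mapDomainRingHom F Y.subtype b).coeff (y : X) = b.coeff y := by
  have h : (MonoidAlgebra.mapDomainRingHom F Y.subtype b).coeff =
      Finsupp.mapDomain Y.subtype b.coeff := rfl
  rw [h]
  exact Finsupp.mapDomain_apply Y.subtype_injective b.coeff y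

private lemma rel_coeff' (F : Type v) [Field F] {X : Type u} [Group X] (Y : Subgroup X)
    (b : MonoidAlgebra F Y) {x : X} (hx : x ∉ Y) :
    (MonoidAlgebra.mapDomainRingHom F Y.subtype b).coeff x = 0 := by
  have h : (MonoidAlgebra.mapDomainRingHom F Y.subtype b).coeff =
      Finsupp.mapDomain Y.subtype b.coeff := rfl
  rw [h]
  apply Finsupp.mapDomain_of_notMem_range
  rintro ⟨y, rfl⟩
  exact hx y.2

private lemma rel_inj (F : Type v) [Field F] {X : Type u} [Group X] (Y : Subgroup X) :
    Function.Injective (MonoidAlgebra.mapDomainRingHom F Y.subtype) :=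
  fun a b hab => by
    ext y
    rw [← rel_coeff F Y a y, ← rel_coeff F Y b y, hab]

private lemma rel_card {X : Type u} [Group X] [Finite X] (Y : Subgroup X) (y : Y) :
    Nat.card (Y ⊓ Subgroup.centralizer {(y : X)} : Subgroup X) =
      Nat.card ((⊤ : Subgroup Y) ⊓ Subgroup.centralizer {y} : Subgroup Y) := by
  refine Nat.card_congr ⟨fun z => ⟨⟨z.1, z.2.1⟩, trivial, ?_⟩, fun z => ⟨z.1, z.1.2, ?_⟩, ?_, ?_⟩
  · have h : (z : X) ∈ Subgroup.centralizer {(y : X)} := z.2.2
    rw [Subgroup.mem_centralizer_singleton_iff] at h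
    exact Subgroup.mem_centralizer_singleton_iff.2 (Subtype.ext h)
  · have h : (z : Y) ∈ Subgroup.centralizer {y} := z.2.2
    rw [Subgroup.mem_centralizer_singleton_iff] at h
    exact Subgroup.mem_centralizer_singleton_iff.2 (congrArg Subtype.val h)
  · intro z; rfl
  · intro z; rfl

/-- Proof: `MonoidAlgebra.mapDomain Y.subtype` (a ring homomorphism `F[Y] → F[X]`, injective, with
range the elements supported on `Y`) maps `EE p F (⊤ : Subgroup Y)` bijectively onto
`EE p F Y`. -/
theorem card_EE_rel (p : ℕ) [Fact p.Prime] (F : Type v) [Field F] {X : Type u} [Group X]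
    [Finite X] (Y : Subgroup X) :
    Nat.card (EE p F Y) = Nat.card (EE p F (⊤ : Subgroup Y)) := by
  have himg : EE p F Y =
      (MonoidAlgebra.mapDomainRingHom F Y.subtype) '' EE p F (⊤ : Subgroup Y) := by
    ext a
    constructor
    · rintro ⟨⟨h1, h2, h3⟩, h4⟩
      obtain ⟨b, hb⟩ : ∃ b : MonoidAlgebra F Y, ∀ y : Y, b.coeff y = a.coeff (y : X) :=
        ⟨ga fun y : Y => a.coeff (y : X), fun y => ga_coeff _ _⟩
      have hab : MonoidAlgebra.mapDomainRingHom F Y.subtype b = a := by
        ext x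
        by_cases hx : x ∈ Y
        · have := rel_coeff F Y b ⟨x, hx⟩
          rw [hb] at this
          exact this
        · rw [rel_coeff' F Y b hx, h1 x hx]
      refine ⟨b, ⟨⟨fun x hx => absurd trivial hx, fun y _ x => ?_, fun x hx => ?_⟩, ?_⟩, hab⟩
      · rw [hb, hb]
        exact h2 y y.2 x
      · rw [hb]
        exact h3 x (by rw [rel_card]; exact hx)
      · apply rel_inj F Y
        rw [map_pow, hab, h4]
    · rintro ⟨b, ⟨⟨h1, h2, h3⟩, h4⟩, rfl⟩
      refine ⟨⟨fun x hx => rel_coeff' F Y b hx, fun y hy x => ?_, fun x hx => ?_⟩, ?_⟩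
      · by_cases hx : x ∈ Y
        · have e1 := rel_coeff F Y b (⟨y, hy⟩ * ⟨x, hx⟩ * ⟨y, hy⟩⁻¹)
          have e2 := rel_coeff F Y b ⟨x, hx⟩
          rw [h2 ⟨y, hy⟩ trivial ⟨x, hx⟩] at e1
          exact e1.trans e2.symm
        · rw [rel_coeff' F Y b hx, rel_coeff' F Y b]
          intro h
          apply hx
          have := Y.mul_mem (Y.mul_mem (Y.inv_mem hy) h) hy
          simpa [mul_assoc] using this
      · by_cases hxY : x ∈ Y
        · have e2 := rel_coeff F Y b ⟨x, hxY⟩
          rw [h3 ⟨x, hxY⟩ (by rw [← rel_card]; exact hx)] at e2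
          exact e2
        · exact rel_coeff' F Y b hxY
      · rw [← map_pow, h4]
  rw [himg]
  exact Nat.card_image_of_injective (rel_inj F Y) _

end Pool.Agent.Nav
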