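import Pool.Agent.Nav.ThmB
import Pool.Agent.Nav.Rel

/-!
# The field `F` used on the weight side
-/

namespace Pool.Agent.Nav

universe u v

/-- `F` counts defect zero characters: `|EE p F Y| = p ^ dz p Y` for all subgroups `Y` of all
finite groups. -/
def Good (p : ℕ) (F : Type v) [Field F] : Prop :=
  ∀ (X : Type u) [Group X] [Finite X] (Y : Subgroup X), Nat.card (EE p F Y) = p ^ dz p Y

theorem exists_F (p : ℕ) [Fact p.Prime] :
    ∃ (F : Type) (_ : Field F), IsAlgClosed F ∧ CharP F p ∧ Good.{u} p F := by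
  obtain ⟨B, hB⟩ := exists_val p
  refine ⟨IsLocalRing.ResidueField B, inferInstance, val_algClosed B, val_charP p B hB, ?_⟩
  intro X _ _ Y
  rw [card_EE_rel, card_EE_top p B hB]

end Pool.Agent.Nav
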