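import Pool.Agent.Nav.Act

/-!
# NAV2-Infl : inflation of irreducible representations
-/

namespace Pool.Agent.Nav

universe u v

variable {K : Type v} [Field K] {H H' : Type u} [Group H] [Group H']

/-- pulling back an irreducible representation along a surjective homomorphism -/
noncomputable def IrrRep.infl (q : H →* H') (hq : Function.Surjective q) (ρ : IrrRep K H') :
    IrrRep K H where
  deg := ρ.deg
  rep := ρ.rep.comp q
  irr := by
    have h := ρ.irr
    refine (OrderIso.isSimpleOrder_iff ?_).mp h
    exact
      { toFun := fun W => ⟨W.toSubmodule, fun g v hv => W.apply_mem_toSubmodule (q g) hv⟩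
        invFun := fun W => ⟨W.toSubmodule, fun g v hv => by
          obtain ⟨g, rfl⟩ := hq g
          exact W.apply_mem_toSubmodule g hv⟩
        left_inv := fun W => rfl
        right_inv := fun W => rfl
        map_rel_iff' := Iff.rfl }

/-- inflation on isomorphism classes -/
noncomputable def inflC (q : H →* H') (hq : Function.Surjective q) (c : IrrClass K H') :
    IrrClass K H :=
  Quotient.map (IrrRep.infl q hq) (fun ρ σ h => by
    obtain ⟨f⟩ := h
    exact ⟨Representation.Equiv.mk f.toLinearEquiv (fun g => f.isIntertwining' (q g))⟩) c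

lemma inflC_mk (q : H →* H') (hq : Function.Surjective q) (ρ : IrrRep K H') :
    inflC q hq (⟦ρ⟧ : IrrClass K H') = ⟦IrrRep.infl q hq ρ⟧ := rfl

theorem inflC_inj (q : H →* H') (hq : Function.Surjective q) :
    Function.Injective (inflC q hq : IrrClass K H' → IrrClass K H) := by
  intro c d hcd
  obtain ⟨ρ, rfl⟩ := Quotient.exists_rep c
  obtain ⟨σ, rfl⟩ := Quotient.exists_rep d
  rw [inflC_mk, inflC_mk] at hcd
  obtain ⟨f⟩ : Nonempty ((IrrRep.infl q hq ρ).rep.Equiv (IrrRep.infl q hq σ).rep) :=
    Quotient.exact hcd
  apply Quotient.sound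
  refine ⟨Representation.Equiv.mk f.toLinearEquiv (fun g' => ?_)⟩
  obtain ⟨g, rfl⟩ := hq g'
  exact f.isIntertwining' g

/-- a finite `p`-group acting linearly on a nonzero space of characteristic `p` has a nonzero fixed
vector -/
lemma exists_fixed_vec {p : ℕ} [Fact p.Prime] [CharP K p] {V : Type*} [AddCommGroup V] [Module K V]
    {N : Type*} [Group N] [Finite N] (hN : IsPGroup p N) (ρ : Representation K N V) (v : V)
    (hv : v ≠ 0) : ∃ w : V, w ≠ 0 ∧ ∀ n, ρ n w = w := by
  have hp : ∀ w : V, p • w = 0 := by
    intro w
    have h1 : ((p : K)) • w = p • w := Nat.cast_smul_eq_nsmul K p w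
    rw [← h1, CharP.cast_eq_zero K p, zero_smul]
  let S : AddSubgroup V := AddSubgroup.closure (Set.range fun n : N => ρ n v)
  have hS : ∀ (n : N) (w : V), w ∈ S → ρ n w ∈ S := by
    intro n w hw
    refine AddSubgroup.closure_induction (p := fun x _ => ρ n x ∈ S) ?_ ?_ ?_ ?_ hw
    · rintro x ⟨m, rfl⟩
      apply AddSubgroup.subset_closure
      refine ⟨n * m, ?_⟩
      change ρ (n * m) v = ρ n (ρ m v)
      rw [map_mul]; rfl
    · rw [map_zero]; exact S.zero_mem
    · intro x y _ _ hx hy
      rw [map_add]; exact S.add_mem hx hy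
    · intro x _ hx
      rw [map_neg]; exact S.neg_mem hx
  let act : MulAction N S :=
    { smul := fun n w => ⟨ρ n w.1, hS n w.1 w.2⟩
      one_smul := fun w => by
        apply Subtype.ext
        change ρ 1 w.1 = w.1
        rw [map_one]; rfl
      mul_smul := fun a b w => by
        apply Subtype.ext
        change ρ (a * b) w.1 = ρ a (ρ b w.1)
        rw [map_mul]; rfl }
  have hfg : AddGroup.FG S := AddGroup.closure_finite_fg _
  have htor : ∀ w : S, IsOfFinAddOrder w := by
    intro w
    rw [isOfFinAddOrder_iff_nsmul_eq_zero]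
    refine ⟨p, (Fact.out (p := p.Prime)).pos, ?_⟩
    apply Subtype.ext
    exact hp w.1
  have hfin : Finite S := AddCommGroup.finite_of_fg_isAddTorsion _ (fun w => htor w)
  have hvS : v ∈ S := by
    apply AddSubgroup.subset_closure
    refine ⟨1, ?_⟩
    change ρ 1 v = v
    rw [map_one]; rfl
  have hdvd : p ∣ Nat.card S := by
    have h1 : addOrderOf (⟨v, hvS⟩ : S) = p := by
      apply addOrderOf_eq_prime
      · apply Subtype.ext
        exact hp v
      · intro h
        exact hv (congrArg Subtype.val h)
    rw [← h1]
    exact addOrderOf_dvd_natCard _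
  have h0 : (0 : S) ∈ MulAction.fixedPoints N S := by
    intro n
    apply Subtype.ext
    change ρ n 0 = 0
    exact map_zero _
  obtain ⟨b, hb, hb0⟩ := hN.exists_fixed_point_of_prime_dvd_card_of_fixed_point S hdvd h0
  refine ⟨b.1, fun h => hb0 (Subtype.ext h.symm), fun n => ?_⟩
  exact congrArg Subtype.val (hb n)

/-- in characteristic `p` a normal `p`-subgroup acts trivially on an irreducible representation -/
lemma rep_ker_eq_one {p : ℕ} [Fact p.Prime] [CharP K p] [Finite H] (q : H →* H')
    (hker : IsPGroup p q.ker) (ρ : IrrRep K H) (x : H) (hx : q x = 1) : ρ.rep x = 1 := by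
  let W : Subrepresentation ρ.rep :=
    { toSubmodule :=
        { carrier := {v | ∀ n ∈ q.ker, ρ.rep n v = v}
          add_mem' := fun {a b} ha hb n hn => by
            rw [map_add, ha n hn, hb n hn]
          zero_mem' := fun n _ => map_zero _
          smul_mem' := fun c v hv n hn => by
            rw [map_smul, hv n hn] }
      apply_mem_toSubmodule := fun g v hv n hn => by
        have h1 : n * g = g * (g⁻¹ * n * g) := by group
        have h2 : g⁻¹ * n * g ∈ q.ker := by
          have := (inferInstance : q.ker.Normal).conj_mem n hn g⁻¹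
          simpa using this
        change (ρ.rep n * ρ.rep g) v = ρ.rep g v
        rw [← map_mul, h1, map_mul]
        change ρ.rep g (ρ.rep (g⁻¹ * n * g) v) = ρ.rep g v
        rw [hv _ h2] }
  have hsimple : IsSimpleOrder (Subrepresentation ρ.rep) := ρ.irr
  rcases eq_bot_or_eq_top W with h | h
  · exfalso
    have h2 : Nontrivial (Subrepresentation ρ.rep) := ρ.irr.toNontrivial
    have h3 : Nontrivial (Fin ρ.deg → K) := by
      by_contra hn
      rw [not_nontrivial_iff_subsingleton] at hn
      obtain ⟨a, b, hab⟩ := h2
      apply hab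
      apply Subrepresentation.toSubmodule_injective
      exact Subsingleton.elim _ _
    obtain ⟨v, hv⟩ := exists_ne (0 : Fin ρ.deg → K)
    obtain ⟨w, hw0, hw⟩ := exists_fixed_vec hker (ρ.rep.comp q.ker.subtype) v hv
    have hwW : w ∈ W.toSubmodule := fun n hn => hw ⟨n, hn⟩
    rw [h] at hwW
    exact hw0 hwW
  · refine LinearMap.ext fun v => ?_
    have hv : v ∈ W.toSubmodule := by rw [h]; trivial
    exact hv x hx

/-- In characteristic `p` a normal `p`-subgroup acts trivially on an irreducible representation:
the vectors fixed by the normal subgroup `q.ker` form a subrepresentation, and it is nonzero (for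
`v ≠ 0` the additive group generated by the finite set `{ρ r v | r ∈ q.ker}` is finite of `p`-power
order and `q.ker` acts on it, so it has a nonzero fixed vector:
`IsPGroup.card_modEq_card_fixedPoints`). So the representation factors through `q`. -/
theorem inflC_surj {p : ℕ} [Fact p.Prime] [CharP K p] [Finite H] (q : H →* H')
    (hq : Function.Surjective q) (hker : IsPGroup p q.ker) :
    Function.Surjective (inflC q hq : IrrClass K H' → IrrClass K H) := by
  intro c
  obtain ⟨ρ, rfl⟩ := Quotient.exists_rep c
  have hrep : ∀ a b : H, q a = q b → ρ.rep a = ρ.rep b := by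
    intro a b hab
    have h1 : ρ.rep (a * b⁻¹) = 1 := by
      apply rep_ker_eq_one q hker ρ
      rw [map_mul, map_inv, hab, mul_inv_cancel]
    calc ρ.rep a = ρ.rep (a * b⁻¹ * b) := by rw [inv_mul_cancel_right]
      _ = ρ.rep b := by rw [map_mul, h1, one_mul]
  let r' : Representation K H' (Fin ρ.deg → K) :=
    { toFun := fun x => ρ.rep (Function.surjInv hq x)
      map_one' := by
        rw [hrep (Function.surjInv hq 1) 1 (by rw [Function.surjInv_eq hq, map_one]), map_one]
      map_mul' := fun x y => by
        rw [hrep (Function.surjInv hq (x * y)) (Function.surjInv hq x * Function.surjInv hq y)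
          (by rw [map_mul, Function.surjInv_eq hq, Function.surjInv_eq hq, Function.surjInv_eq hq]),
          map_mul] }
  have hr' : ∀ g : H, r' (q g) = ρ.rep g := fun g =>
    hrep _ _ (Function.surjInv_eq hq (q g))
  have hirr : r'.IsIrreducible := by
    have h := ρ.irr
    refine (OrderIso.isSimpleOrder_iff ?_).mp h
    exact
      { toFun := fun W => ⟨W.toSubmodule, fun g v hv => by
          exact W.apply_mem_toSubmodule (Function.surjInv hq g) hv⟩
        invFun := fun W => ⟨W.toSubmodule, fun g v hv => by
          rw [← hr' g]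
          exact W.apply_mem_toSubmodule (q g) hv⟩
        left_inv := fun W => rfl
        right_inv := fun W => rfl
        map_rel_iff' := Iff.rfl }
  refine ⟨⟦⟨ρ.deg, r', hirr⟩⟧, ?_⟩
  rw [inflC_mk]
  apply Quotient.sound
  refine ⟨Representation.Equiv.mk (LinearEquiv.refl K _) (fun g => ?_)⟩
  change LinearMap.comp _ (r' (q g)) = LinearMap.comp (ρ.rep g) _
  rw [hr']
  rfl

theorem twist_infl (q : H →* H') (hq : Function.Surjective q) (e : H ≃* H) (e' : H' ≃* H')
    (he : ∀ x, q (e x) = e' (q x)) (c : IrrClass K H') :
    twistC e (inflC q hq c) = inflC q hq (twistC e' c) := by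
  obtain ⟨ρ, rfl⟩ := Quotient.exists_rep c
  rw [inflC_mk, twistC_mk, twistC_mk, inflC_mk]
  apply Quotient.sound
  refine ⟨Representation.Equiv.mk (LinearEquiv.refl K _) (fun g => ?_)⟩
  change LinearMap.comp _ (ρ.rep (q (e g))) = LinearMap.comp (ρ.rep (e' (q g))) _
  rw [he]
  rfl

end Pool.Agent.Nav
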