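import Pool.Agent.Nav.Nilp

/-!
# NAV-Lift : lifting class functions from `F[H]` to `B[H]`
-/

namespace Pool.Agent.Nav

open scoped Classical

universe u

variable {H : Type u} [Group H] [Finite H] {p : ℕ} [Fact p.Prime] (B : ValuationSubring ℂ)

omit [Finite H] in
private lemma lift_sub_coeff {R : Type*} [Ring R] (z w : MonoidAlgebra R H) (x : H) :
    (z - w).coeff x = z.coeff x - w.coeff x := by
  simp

omit [Finite H] in
private lemma lift_isCl_sub {R : Type*} [Ring R] (z w : MonoidAlgebra R H) (hz : IsCl z)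
    (hw : IsCl w) : IsCl (z - w) := by
  intro h x
  rw [lift_sub_coeff, lift_sub_coeff, hz h x, hw h x]

private lemma lift_om_sub (c : IrrClass ℂ H) (z w : MonoidAlgebra ℂ H) :
    om c (z - w) = om c z - om c w := by
  have h : z - w = z + (-1 : ℂ) • w := by
    rw [neg_one_smul, sub_eq_add_neg]
  rw [h, om_add, om_smul]
  ring

theorem toC_inj : Function.Injective (toC B : MonoidAlgebra B H → MonoidAlgebra ℂ H) := by
  intro z w h
  refine ga_ext fun x => ?_
  have h1 := congrArg (fun a : MonoidAlgebra ℂ H => a.coeff x) h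
  simp only [toC_coeff] at h1
  exact Subtype.ext h1

theorem toF_eq_zero (z : MonoidAlgebra B H) :
    toF B z = 0 ↔ ∀ x, B.valuation ((z.coeff x : B) : ℂ) < 1 := by
  constructor
  · intro h x
    have h1 := congrArg (fun a : MonoidAlgebra (IsLocalRing.ResidueField B) H => a.coeff x) h
    simp only [toF_coeff] at h1
    have h2 : IsLocalRing.residue B (z.coeff x) = 0 := by simpa using h1
    rw [IsLocalRing.residue_eq_zero_iff] at h2
    exact (B.valuation_lt_one_iff _).1 h2
  · intro h
    refine ga_ext fun x => ?_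
    rw [toF_coeff]
    have h2 : IsLocalRing.residue B (z.coeff x) = 0 := by
      rw [IsLocalRing.residue_eq_zero_iff]
      exact (B.valuation_lt_one_iff _).2 (h x)
    rw [h2]
    simp

/-- an element of `ℂ[H]` with coefficients in `B` comes from `B[H]` -/
theorem exists_toC (w : MonoidAlgebra ℂ H) (h : ∀ x, B.valuation (w.coeff x) ≤ 1) :
    ∃ z : MonoidAlgebra B H, toC B z = w := by
  refine ⟨ga fun x => ⟨w.coeff x, (B.valuation_le_one_iff _).1 (h x)⟩, ?_⟩
  refine ga_ext fun x => ?_
  rw [toC_coeff, ga_coeff]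

theorem isCl_toC (z : MonoidAlgebra B H) : IsCl z ↔ IsCl (toC B z) := by
  constructor
  · intro h g x
    rw [toC_coeff, toC_coeff, h g x]
  · intro h g x
    have := h g x
    rw [toC_coeff, toC_coeff] at this
    exact Subtype.ext this

/-- a set theoretic section of the residue map sending `0` to `0` gives a lift which is a class
function and vanishes where `a` does -/
theorem lift_I0 (a : MonoidAlgebra (IsLocalRing.ResidueField B) H)
    (ha : a ∈ I0 p (IsLocalRing.ResidueField B) (⊤ : Subgroup H)) :
    ∃ z : MonoidAlgebra B H, toF B z = a ∧ IsCl z ∧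
      ∀ x, p ∣ Nat.card (Subgroup.centralizer ({x} : Set H)) → z.coeff x = 0 := by
  have hs : ∀ r : IsLocalRing.ResidueField B, ∃ b : B, IsLocalRing.residue B b = r ∧
      (r = 0 → b = 0) := by
    intro r
    by_cases hr : r = 0
    · exact ⟨0, by rw [hr, map_zero], fun _ => rfl⟩
    · obtain ⟨b, hb⟩ := IsLocalRing.residue_surjective r
      exact ⟨b, hb, fun h => absurd h hr⟩
  choose s hs1 hs2 using hs
  refine ⟨ga fun x => s (a.coeff x), ?_, ?_, ?_⟩
  · refine ga_ext fun x => ?_
    rw [toF_coeff, ga_coeff, hs1]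
  · intro h x
    rw [ga_coeff, ga_coeff, isCl_top ha h x]
  · intro x hx
    rw [ga_coeff]
    apply hs2
    apply ha.2.2 x
    rw [top_inf_eq]
    exact hx

/-- the idempotents of the defect zero classes: lifts to `B[H]`, orthogonal, reduction in `I0` -/
theorem exists_eB (hB : B.valuation (p : ℂ) < 1) :
    ∃ e : IrrClass ℂ H → MonoidAlgebra B H,
      ∀ c, padicValNat p (degc c) = padicValNat p (Nat.card H) →
        toC B (e c) = ei c ∧ IsCl (e c) ∧
        toF B (e c) ∈ I0 p (IsLocalRing.ResidueField B) (⊤ : Subgroup H) ∧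
        e c * e c = e c ∧
        ∀ d, padicValNat p (degc d) = padicValNat p (Nat.card H) → c ≠ d → e c * e d = 0 := by
  have hex : ∀ c : IrrClass ℂ H, ∃ z : MonoidAlgebra B H,
      padicValNat p (degc c) = padicValNat p (Nat.card H) → toC B z = ei c := by
    intro c
    by_cases hc : padicValNat p (degc c) = padicValNat p (Nat.card H)
    · obtain ⟨z, hz⟩ := exists_toC B (ei c) (fun x => val_ei B hB c hc x)
      exact ⟨z, fun _ => hz⟩
    · exact ⟨0, fun h => absurd h hc⟩
  choose e he using hex
  refine ⟨e, fun c hc => ?_⟩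
  have h1 := he c hc
  have hcl : IsCl (e c) := by
    rw [isCl_toC, h1]
    exact isCl_ei c
  refine ⟨h1, hcl, ?_, ?_, ?_⟩
  · refine mem_I0.2 ⟨fun x hx => absurd trivial hx, fun y _ x => ?_, fun x hx => ?_⟩
    · rw [toF_coeff, toF_coeff, hcl y x]
    · rw [toF_coeff, IsLocalRing.residue_eq_zero_iff, B.valuation_lt_one_iff]
      have h2 := toC_coeff B (e c) x
      rw [h1] at h2
      rw [← h2]
      apply val_ei_lt B hB c hc x
      rwa [top_inf_eq] at hx
  · apply toC_inj B
    rw [map_mul, h1]
    rw [← sub_eq_zero]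
    apply om_complete
    · exact lift_isCl_sub _ _ (isCl_mul _ _ (isCl_ei c) (isCl_ei c)) (isCl_ei c)
    · intro d
      rw [lift_om_sub, om_mul _ _ _ (isCl_ei c), om_ei]
      split_ifs <;> simp
  · intro d hd hcd
    apply toC_inj B
    rw [map_mul, h1, he d hd, map_zero]
    apply om_complete
    · exact isCl_mul _ _ (isCl_ei c) (isCl_ei d)
    · intro d'
      rw [om_mul _ _ _ (isCl_ei c), om_ei, om_ei]
      by_cases h3 : d' = c
      · rw [if_neg (fun h4 => hcd (h3 ▸ h4)), mul_zero]
      · rw [if_neg h3, zero_mul]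

/-- two class functions over `B` with the same reduction have congruent central characters -/
theorem om_congr (c : IrrClass ℂ H) (z w : MonoidAlgebra B H) (hz : IsCl z) (hw : IsCl w)
    (h : toF B z = toF B w) : B.valuation (om c (toC B z) - om c (toC B w)) < 1 := by
  rw [← lift_om_sub, ← map_sub]
  have hcl : IsCl (z - w) := lift_isCl_sub _ _ hz hw
  apply val_om_lt B c _ ((isCl_toC B _).1 hcl)
  intro x
  rw [toC_coeff]
  have h0 : toF B (z - w) = 0 := by rw [map_sub, h, sub_self]
  exact (toF_eq_zero B _).1 h0 x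

end Pool.Agent.Nav
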