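import Pool.Agent.Nav.Main
import Pool.Agent.Nav.LHS

/-!
# NAV-Main2 : the global reduction, cyclic quotients, congruence modulo `p`
-/

namespace Pool.Agent.Nav

universe u v

section drop

variable {Γ : Type u} [Group Γ] [Finite Γ]

/-- adding a direct factor `C_p` does not change the two sides -/
lemma drop (p : ℕ) [Fact p.Prime] (G : Subgroup Γ) [G.Normal] (hp : IsPGroup p (Γ ⧸ G)) :
    creg p (G.prod (⊥ : Subgroup (Multiplicative (ZMod p)))) = creg p G ∧
      weights p (G.prod (⊥ : Subgroup (Multiplicative (ZMod p)))) = weights p G := by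
  have hpp : p.Prime := Fact.out
  set A := Multiplicative (ZMod p) with hA
  have : Finite A := inferInstanceAs (Finite (ZMod p))
  have hcA : Nat.card A = p := by
    rw [hA]
    change Nat.card (ZMod p) = p
    exact Nat.card_zmod p
  set G1 : Subgroup (Γ × A) := G.prod ⊥ with hG1
  set M : Subgroup (Γ × A) := (⊤ : Subgroup Γ).prod ⊥ with hM
  have hMn : M.Normal := by rw [hM]; infer_instance
  have hG1n : G1.Normal := by rw [hG1]; infer_instance
  have hle : G1 ≤ M := Subgroup.prod_mono le_top le_rfl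
  have hbot : (⊥ : Subgroup A).index = p := by rw [Subgroup.index_bot, hcA]
  have hMi : M.index = p := by
    rw [hM, Subgroup.index_prod, Subgroup.index_top, hbot, one_mul]
  have hG1i : G1.index = G.index * p := by
    rw [hG1, Subgroup.index_prod, hbot]
  have hp1 : IsPGroup p ((Γ × A) ⧸ G1) := by
    rw [isPGroup_iff_index] at hp ⊢
    obtain ⟨n, hn⟩ := hp
    exact ⟨n + 1, by rw [hG1i, hn, pow_succ]⟩
  let z : Γ × A := (1, Multiplicative.ofAdd 1)
  have hz : z ∈ Subgroup.center (Γ × A) := by
    rw [Subgroup.mem_center_iff]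
    rintro ⟨a, b⟩
    ext
    · simp [z]
    · simp only [z, Prod.mk_mul_mk]
      exact congrArg _ (mul_comm _ _)
  have hzM : z ∉ M := by
    rw [hM, Subgroup.mem_prod]
    rintro ⟨-, h⟩
    rw [Subgroup.mem_bot] at h
    have h2 : (1 : ZMod p) = 0 := h
    have : Nontrivial (ZMod p) := inferInstance
    exact one_ne_zero h2
  have ho : orderOf z = p := by
    rw [orderOf_eq_prime_iff]
    constructor
    · ext
      · simp [z]
      · change (Multiplicative.ofAdd (1 : ZMod p)) ^ p = 1
        rw [← ofAdd_nsmul]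
        simp
    · intro h
      apply hzM
      rw [h]; exact one_mem _
  have h1 := creg_S p G1 M hle hMi hp1
  have h2 := weights_S p G1 M hle hMi hp1
  rw [cregM_central p G1 M z hz hzM, mul_zero, zero_add] at h1
  rw [fW_central p G1 M z hz ho hzM, mul_zero, zero_add] at h2
  have hmem : ∀ x : Γ × A, x ∈ M ↔ x.2 = 1 := by
    intro x
    rw [hM, Subgroup.mem_prod, Subgroup.mem_bot]
    simp
  let e : M ≃* Γ :=
    { toFun := fun x => x.1.1
      invFun := fun x => ⟨(x, 1), (hmem _).2 rfl⟩
      left_inv := fun x => Subtype.ext (Prod.ext rfl ((hmem x.1).1 x.2).symm)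
      right_inv := fun x => rfl
      map_mul' := fun x y => rfl }
  have hmap : (G1.subgroupOf M).map e.toMonoidHom = G := by
    ext x
    constructor
    · rintro ⟨y, hy, rfl⟩
      exact hy.1
    · intro hx
      exact ⟨⟨(x, 1), (hmem _).2 rfl⟩, ⟨hx, rfl⟩, rfl⟩
  rw [← h1, ← h2]
  exact ⟨creg_congr p e _ _ hmap, weights_congr p e _ _ hmap⟩

end drop

/-- the case `C_p × C_p` contains the case `Γ = G` -/
theorem awc_of (p : ℕ) [Fact p.Prime]
    (h : ∀ (Γ : Type u) [Group Γ] [Finite Γ] (G : Subgroup Γ) [G.Normal],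
      Nonempty ((Γ ⧸ G) ≃* Cpp p) → creg p G = weights p G)
    (H : Type u) [Group H] [Finite H] :
    creg p (⊤ : Subgroup H) = weights p (⊤ : Subgroup H) := by
  set A := Multiplicative (ZMod p) with hA
  have : Finite A := inferInstanceAs (Finite (ZMod p))
  have hp0 : IsPGroup p (H ⧸ (⊤ : Subgroup H)) := by
    rw [isPGroup_iff_index]; exact ⟨0, by simp⟩
  have hbot : (⊥ : Subgroup A).index = p := by
    rw [Subgroup.index_bot]
    change Nat.card (ZMod p) = p
    exact Nat.card_zmod p
  have hp1 : IsPGroup p ((H × A) ⧸ ((⊤ : Subgroup H).prod (⊥ : Subgroup A))) := by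
    rw [isPGroup_iff_index]
    exact ⟨1, by rw [Subgroup.index_prod, Subgroup.index_top, hbot, one_mul, pow_one]⟩
  obtain ⟨d1, d2⟩ := drop p (⊤ : Subgroup H) hp0
  obtain ⟨d3, d4⟩ := drop p ((⊤ : Subgroup H).prod (⊥ : Subgroup A)) hp1
  rw [← d1, ← d2, ← d3, ← d4]
  apply h
  let φ : (H × A) × A →* Cpp p :=
    { toFun := fun x => Multiplicative.ofAdd (Multiplicative.toAdd x.1.2, Multiplicative.toAdd x.2)
      map_one' := rfl
      map_mul' := fun x y => rfl }
  have hφ : Function.Surjective φ := by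
    intro x
    refine ⟨((1, Multiplicative.ofAdd (Multiplicative.toAdd x).1),
      Multiplicative.ofAdd (Multiplicative.toAdd x).2), rfl⟩
  have hker : φ.ker = ((⊤ : Subgroup H).prod (⊥ : Subgroup A)).prod (⊥ : Subgroup A) := by
    ext x
    rw [MonoidHom.mem_ker, Subgroup.mem_prod, Subgroup.mem_prod, Subgroup.mem_bot,
      Subgroup.mem_bot]
    constructor
    · intro hx
      have h1 : (Multiplicative.toAdd x.1.2, Multiplicative.toAdd x.2) = (0, 0) := hx
      rw [Prod.mk.injEq] at h1
      exact ⟨⟨trivial, h1.1⟩, h1.2⟩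
    · rintro ⟨⟨-, h1⟩, h2⟩
      change Multiplicative.ofAdd (Multiplicative.toAdd x.1.2, Multiplicative.toAdd x.2) = 1
      rw [h1, h2]; rfl
  exact ⟨(QuotientGroup.quotientMulEquivOfEq hker.symm).trans
    (QuotientGroup.quotientKerEquivOfSurjective φ hφ)⟩

/-- the global reduction, for `creg` and `weights` -/
theorem glob (p : ℕ) [Fact p.Prime]
    (h : ∀ (Γ : Type u) [Group Γ] [Finite Γ] (G : Subgroup Γ) [G.Normal],
      Nonempty ((Γ ⧸ G) ≃* Cpp p) → creg p G = weights p G)
    (Γ : Type u) [Group Γ] [Finite Γ] (G : Subgroup Γ) [G.Normal] (hp : IsPGroup p (Γ ⧸ G)) :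
    creg p G = weights p G := by
  refine loc p G.index Γ G rfl hp ?_
  intro H K _ _ _ hc
  rcases hc with rfl | hc
  · rw [Subgroup.subgroupOf_self]
    exact awc_of p h K
  · exact h H (K.subgroupOf H) hc

section cyc

variable {Γ : Type u} [Group Γ] [Finite Γ]

/-- the case of index `p`: `K` normal of index `p` -/
theorem cyc_base (p : ℕ) [Fact p.Prime] (K : Subgroup Γ) [K.Normal] (hK : K.index = p)
    (h1 : creg p (⊤ : Subgroup Γ) = weights p (⊤ : Subgroup Γ))
    (h2 : creg p (⊤ : Subgroup K) = weights p (⊤ : Subgroup K)) :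
    creg p K = weights p K := by
  have hpp : 1 < p := (Fact.out : p.Prime).one_lt
  have hp : IsPGroup p (Γ ⧸ K) := by
    rw [isPGroup_iff_index]; exact ⟨1, by rw [hK, pow_one]⟩
  have hi : K.relIndex ⊤ = p := by rw [Subgroup.relIndex_top_right, hK]
  have hcompl : compl K (⊤ : Subgroup Γ) = {K} := by
    ext M
    simp only [compl, Set.mem_ofPred_eq, Set.mem_singleton_iff]
    constructor
    · rintro ⟨h3, -, h4⟩
      have h5 := Subgroup.relIndex_mul_index h3
      rw [hK] at h5
      have h6 : M.index ∣ p := by rw [← h5]; exact Dvd.intro_left _ rfl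
      rcases (Nat.dvd_prime (Fact.out : p.Prime)).1 h6 with h7 | h7
      · exact absurd (Subgroup.index_eq_one.1 h7) h4
      · rw [h7] at h5
        have h8 : K.relIndex M = 1 :=
          Nat.eq_of_mul_eq_mul_right (show 0 < p by omega) (by rw [h5, one_mul])
        exact le_antisymm (Subgroup.relIndex_eq_one.1 h8) h3
    · rintro rfl
      refine ⟨le_rfl, top_sup_eq _, ?_⟩
      intro h3
      rw [h3, Subgroup.index_top] at hK
      omega
  refine step p K ⊤ le_top hi hp ?_ h1 ?_
  · rw [hcompl, Set.ncard_singleton]; omega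
  · intro M hM
    rw [hcompl, Set.mem_singleton_iff] at hM
    subst hM
    rw [Subgroup.subgroupOf_self]
    exact h2

/-- if no `M ∈ compl G K`, the two sides do not change from `G` to `K` -/
lemma no_compl (p : ℕ) [Fact p.Prime] (G K : Subgroup Γ) [G.Normal] [K.Normal] (hGK : G ≤ K)
    (hi : G.relIndex K = p) (hp : IsPGroup p (Γ ⧸ G)) (h : compl G K = ∅) :
    creg p K = creg p G ∧ weights p K = weights p G := by
  constructor
  · rw [creg_T p G K hGK hi hp, h]; simp
  · rw [weights_T p G K hGK hi hp, h]; simp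

/-- in a cyclic quotient the subgroups of index `p` coincide -/
lemma index_p_unique (p : ℕ) [Fact p.Prime] (G K M : Subgroup Γ) [G.Normal] [K.Normal] [M.Normal]
    [IsCyclic (Γ ⧸ G)] (hGK : G ≤ K) (hGM : G ≤ M) (hK : K.index = p) (hM : M.index = p) :
    M ≤ K := by
  have hpp : p.Prime := Fact.out
  obtain ⟨g', hg'⟩ := IsCyclic.exists_generator (α := Γ ⧸ G)
  obtain ⟨g, rfl⟩ := QuotientGroup.mk'_surjective G g'
  intro x hx
  obtain ⟨n, hn⟩ := Subgroup.mem_zpowers_iff.1 (hg' (QuotientGroup.mk' G x))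
  rw [← map_zpow] at hn
  have hxg : (g ^ n)⁻¹ * x ∈ G := by
    rw [← QuotientGroup.ker_mk' G, MonoidHom.mem_ker, map_mul, map_inv, hn, inv_mul_cancel]
  have hgn : g ^ n ∈ M := by
    have h1 := M.mul_mem hx (M.inv_mem (hGM hxg))
    have h2 : x * ((g ^ n)⁻¹ * x)⁻¹ = g ^ n := by group
    rwa [h2] at h1
  have hgpM : g ^ p ∈ M := by
    rw [← hM]; exact Subgroup.pow_index_mem M g
  have hgpK : g ^ p ∈ K := by
    rw [← hK]; exact Subgroup.pow_index_mem K g
  have hdvd : (p : ℤ) ∣ n := by
    by_contra hnd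
    have hcop : IsCoprime (p : ℤ) n := (Nat.prime_iff_prime_int.1 hpp).coprime_iff_not_dvd.2 hnd
    obtain ⟨a, b, hab⟩ := hcop
    have hgM : g ∈ M := by
      have h3 : g = (g ^ p) ^ a * (g ^ n) ^ b := by
        rw [← zpow_natCast, ← zpow_mul, ← zpow_mul, ← zpow_add]
        have : (p : ℤ) * a + n * b = 1 := by linarith [hab]
        rw [this, zpow_one]
      rw [h3]
      exact M.mul_mem (M.zpow_mem hgpM a) (M.zpow_mem hgn b)
    have htop : M = ⊤ := by
      rw [eq_top_iff]
      intro y _
      obtain ⟨m, hm⟩ := Subgroup.mem_zpowers_iff.1 (hg' (QuotientGroup.mk' G y))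
      rw [← map_zpow] at hm
      have hyg : (g ^ m)⁻¹ * y ∈ G := by
        rw [← QuotientGroup.ker_mk' G, MonoidHom.mem_ker, map_mul, map_inv, hm, inv_mul_cancel]
      have h4 : y = g ^ m * ((g ^ m)⁻¹ * y) := by group
      rw [h4]
      exact M.mul_mem (M.zpow_mem hgM m) (hGM hyg)
    rw [htop, Subgroup.index_top] at hM
    exact hpp.one_lt.ne hM
  obtain ⟨m, rfl⟩ := hdvd
  have h5 : x = (g ^ p) ^ m * ((g ^ ((p : ℤ) * m))⁻¹ * x) := by
    rw [zpow_mul, zpow_natCast]; group
  rw [h5]
  exact K.mul_mem (K.zpow_mem hgpK m) (hGK hxg)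

end cyc

/-- for a cyclic quotient both sides agree with those of the subgroup of index `p` -/
theorem cyc_up (p : ℕ) [Fact p.Prime] {Γ : Type u} [Group Γ] [Finite Γ] (K : Subgroup Γ)
    [K.Normal] (hK : K.index = p) (n : ℕ) : ∀ (G : Subgroup Γ) [G.Normal] [IsCyclic (Γ ⧸ G)],
    G.index = n → IsPGroup p (Γ ⧸ G) → G ≤ K →
      creg p K = creg p G ∧ weights p K = weights p G := by
  induction n using Nat.strong_induction_on with
  | _ n ih =>
    intro G _ _ hn hp hGK
    have hpp : p.Prime := Fact.out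
    by_cases hGK' : G = K
    · subst hGK'; exact ⟨rfl, rfl⟩
    -- a subgroup of order `p` of `K / G`
    have hne : G.relIndex K ≠ 1 := by
      intro h
      exact hGK' (le_antisymm hGK (Subgroup.relIndex_eq_one.1 h))
    have hdvd : p ∣ Nat.card (K.map (QuotientGroup.mk' G)) := by
      have h1 : IsPGroup p (K.map (QuotientGroup.mk' G)) := hp.to_subgroup _
      obtain ⟨m, hm⟩ := IsPGroup.iff_card.1 h1
      rcases Nat.eq_zero_or_pos m with h0 | h0
      · exfalso
        rw [h0, pow_zero] at hm
        apply hGK'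
        refine le_antisymm hGK ?_
        have h2 : K.map (QuotientGroup.mk' G) = ⊥ := Subgroup.card_eq_one.1 hm
        rw [Subgroup.map_eq_bot_iff, QuotientGroup.ker_mk'] at h2
        exact h2
      · rw [hm]; exact dvd_pow_self p (by omega)
    obtain ⟨x, hx⟩ := exists_prime_orderOf_dvd_card' p hdvd
    set N : Subgroup (Γ ⧸ G) := Subgroup.zpowers (x : Γ ⧸ G) with hN
    have hNcard : Nat.card N = p := by
      rw [hN, Nat.card_zpowers, Subgroup.orderOf_coe, hx]
    set K1 := N.comap (QuotientGroup.mk' G) with hK1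
    have hcomm : ∀ a b : Γ ⧸ G, a * b = b * a :=
      fun a b => (IsCyclic.commGroup (α := Γ ⧸ G)).mul_comm a b
    have hNn : N.Normal := by
      refine ⟨fun y hy g => ?_⟩
      have h1 : g * y * g⁻¹ = y := by
        rw [hcomm g y, mul_inv_cancel_right]
      rw [h1]; exact hy
    have hK1n : K1.Normal := hNn.comap _
    have hGK1 : G ≤ K1 := by
      intro y hy
      rw [hK1, Subgroup.mem_comap]
      have : (QuotientGroup.mk' G) y = 1 := by
        rw [← MonoidHom.mem_ker, QuotientGroup.ker_mk']; exact hy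
      rw [this]; exact one_mem _
    have hNK : N ≤ K.map (QuotientGroup.mk' G) := by
      rw [hN, Subgroup.zpowers_le]; exact x.2
    have hK1K : K1 ≤ K := by
      have h1 := Subgroup.comap_mono (f := QuotientGroup.mk' G) hNK
      rw [Subgroup.comap_map_eq, QuotientGroup.ker_mk', sup_eq_left.2 hGK] at h1
      exact h1
    have hi : G.relIndex K1 = p := relIndex_comap_mk p G N hNcard
    have hempty : compl G K1 = ∅ := by
      rw [Set.eq_empty_iff_forall_notMem]
      intro M hM
      obtain ⟨hMi, hMn⟩ := compl_index p G K1 hGK1 hi hp M hM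
      have hMK : M ≤ K := index_p_unique p G K M hGK hM.1 hK hMi
      have h1 : (⊤ : Subgroup Γ) ≤ K := by
        rw [← hM.2.1]; exact sup_le hK1K hMK
      rw [eq_top_iff.2 h1, Subgroup.index_top] at hK
      exact hpp.one_lt.ne hK
    obtain ⟨e1, e2⟩ := no_compl p G K1 hGK1 hi hp hempty
    have hlt : K1.index < n := by
      have h1 := Subgroup.relIndex_mul_index hGK1
      rw [hi, hn] at h1
      have h2 : 0 < K1.index := Nat.pos_of_ne_zero (Subgroup.index_ne_zero_of_finite)
      have h3 := hpp.one_lt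
      nlinarith
    have hcyc : IsCyclic (Γ ⧸ K1) := by
      have hsurj : Function.Surjective (QuotientGroup.map G K1 (MonoidHom.id Γ) (by
          intro y hy; exact hGK1 hy)) := by
        intro y
        obtain ⟨y, rfl⟩ := QuotientGroup.mk'_surjective K1 y
        exact ⟨QuotientGroup.mk' G y, rfl⟩
      exact isCyclic_of_surjective _ hsurj
    obtain ⟨e3, e4⟩ := ih K1.index hlt K1 rfl (isPGroup_up p G K1 hGK1 hp) hK1K
    exact ⟨e3.trans e1, e4.trans e2⟩

/-- the two sides modulo `p` -/
theorem modp (p : ℕ) [Fact p.Prime] (n : ℕ) : ∀ (Γ : Type u) [Group Γ] [Finite Γ]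
    (G : Subgroup Γ) [G.Normal], G.index = n → IsPGroup p (Γ ⧸ G) →
      creg p G ≡ creg p (⊤ : Subgroup G) [MOD p] ∧
      weights p G ≡ weights p (⊤ : Subgroup G) [MOD p] := by
  induction n using Nat.strong_induction_on with
  | _ n ih =>
    intro Γ _ _ G _ hn hp
    have hpp : p.Prime := Fact.out
    by_cases hG : G = ⊤
    · subst hG
      have hmap : (⊤ : Subgroup (⊤ : Subgroup Γ)).map
          (Subgroup.topEquiv : (⊤ : Subgroup Γ) ≃* Γ).toMonoidHom = ⊤ := by
        ext x; constructor
        · intro _; trivial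
        · intro _; exact ⟨⟨x, trivial⟩, trivial, rfl⟩
      rw [creg_congr p Subgroup.topEquiv _ _ hmap, weights_congr p Subgroup.topEquiv _ _ hmap]
      exact ⟨rfl, rfl⟩
    -- a subgroup of index p above G
    obtain ⟨m, hm⟩ := (isPGroup_iff_index p G).1 hp
    have hm0 : m ≠ 0 := by
      rintro rfl
      rw [pow_zero] at hm
      exact hG (Subgroup.index_eq_one.1 hm)
    obtain ⟨m, rfl⟩ := Nat.exists_eq_succ_of_ne_zero hm0
    have hcard : p ^ m ∣ Nat.card (Γ ⧸ G) := by
      change p ^ m ∣ G.index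
      rw [hm]; exact pow_dvd_pow p (Nat.le_succ m)
    obtain ⟨N, hN⟩ := Sylow.exists_subgroup_card_pow_prime p hcard
    set M := N.comap (QuotientGroup.mk' G) with hMdef
    have hGM : G ≤ M := by
      intro y hy
      rw [hMdef, Subgroup.mem_comap]
      have : (QuotientGroup.mk' G) y = 1 := by
        rw [← MonoidHom.mem_ker, QuotientGroup.ker_mk']; exact hy
      rw [this]; exact one_mem _
    have hMi : M.index = p := by
      have h1 : M.index = N.index :=
        Subgroup.index_comap_of_surjective N (QuotientGroup.mk'_surjective G)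
      have h2 := N.card_mul_index
      have h3 : Nat.card (Γ ⧸ G) = p ^ (m + 1) := hm
      rw [hN, h3, pow_succ] at h2
      rw [h1]
      exact Nat.eq_of_mul_eq_mul_left (pow_pos hpp.pos m) h2
    have hMn : M.Normal := normal_of_index_p p G M hp hGM hMi
    have hlt : (G.subgroupOf M).index < n := by
      have h1 := Subgroup.relIndex_mul_index hGM
      have h3 : (G.subgroupOf M).index = G.relIndex M := rfl
      have h2 : 0 < (G.subgroupOf M).index :=
        Nat.pos_of_ne_zero (Subgroup.index_ne_zero_of_finite)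
      rw [hMi, hn, ← h3] at h1
      have h4 := hpp.one_lt
      nlinarith
    obtain ⟨e1, e2⟩ := ih _ hlt M (G.subgroupOf M) rfl (isPGroup_sub p G M hGM hp)
    rw [creg_S p G M hGM hMi hp] at e1
    rw [weights_S p G M hGM hMi hp] at e2
    have hmap : (⊤ : Subgroup (G.subgroupOf M)).map
        (Subgroup.subgroupOfEquivOfLe hGM).toMonoidHom = ⊤ := by
      ext x; constructor
      · intro _; trivial
      · intro _
        exact ⟨(Subgroup.subgroupOfEquivOfLe hGM).symm x, trivial, by simp⟩
    rw [creg_congr p (Subgroup.subgroupOfEquivOfLe hGM) _ _ hmap] at e1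
    rw [weights_congr p (Subgroup.subgroupOfEquivOfLe hGM) _ _ hmap] at e2
    constructor
    · refine Nat.ModEq.trans ?_ e1
      have : p * cregM p G M + creg p G ≡ 0 + creg p G [MOD p] :=
        Nat.ModEq.add_right _ ((Nat.modEq_zero_iff_dvd).2 (dvd_mul_right _ _))
      rw [zero_add] at this
      exact this.symm
    · refine Nat.ModEq.trans ?_ e2
      have : p * fW p G M + weights p G ≡ 0 + weights p G [MOD p] :=
        Nat.ModEq.add_right _ ((Nat.modEq_zero_iff_dvd).2 (dvd_mul_right _ _))
      rw [zero_add] at this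
      exact this.symm

end Pool.Agent.Nav
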