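import Pool.Agent.Nav.CInt

/-!
# NAV-Nilp : a class function over `B` all of whose central characters are in the maximal ideal
is nilpotent modulo the maximal ideal
-/

namespace Pool.Agent.Nav

open scoped Classical

universe u

variable {H : Type u} [Group H] [Finite H] (B : ValuationSubring ℂ)

/-- the inclusion `B[H] → ℂ[H]` -/
noncomputable def toC : MonoidAlgebra B H →+* MonoidAlgebra ℂ H :=
  MonoidAlgebra.mapRingHom H B.subtype

/-- the reduction `B[H] → F[H]`, `F` the residue field of `B` -/
noncomputable def toF : MonoidAlgebra B H →+* MonoidAlgebra (IsLocalRing.ResidueField B) H :=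
  MonoidAlgebra.mapRingHom H (IsLocalRing.residue B)

theorem toC_coeff (z : MonoidAlgebra B H) (x : H) : (toC B z).coeff x = (z.coeff x : ℂ) := by
  unfold toC
  rw [MonoidAlgebra.coeff_mapRingHom]
  rfl

theorem toF_coeff (z : MonoidAlgebra B H) (x : H) :
    (toF B z).coeff x = IsLocalRing.residue B (z.coeff x) := by
  unfold toF
  rw [MonoidAlgebra.coeff_mapRingHom]

private theorem nilp_isCl_add {z w : MonoidAlgebra ℂ H} (hz : IsCl z) (hw : IsCl w) :
    IsCl (z + w) := by
  intro h x
  show (z + w).coeff (h * x * h⁻¹) = (z + w).coeff x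
  rw [MonoidAlgebra.coeff_add, Finsupp.add_apply, Finsupp.add_apply, hz h x, hw h x]

private theorem nilp_isCl_smul {z : MonoidAlgebra ℂ H} (a : ℂ) (hz : IsCl z) : IsCl (a • z) := by
  intro h x
  show (a • z).coeff (h * x * h⁻¹) = (a • z).coeff x
  rw [MonoidAlgebra.coeff_smul, Finsupp.smul_apply, Finsupp.smul_apply, hz h x]

private theorem nilp_isCl_one : IsCl (1 : MonoidAlgebra ℂ H) := by
  intro h x
  rw [one_coeff, one_coeff]
  congr 1
  apply propext
  constructor
  · intro h1
    have : x = h⁻¹ * (h * x * h⁻¹) * h := by group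
    rw [this, h1]
    group
  · rintro rfl
    group

private theorem nilp_aeval {w : MonoidAlgebra ℂ H} (hw : IsCl w) (Q : Polynomial ℂ) :
    IsCl (Polynomial.aeval w Q) ∧
      ∀ d : IrrClass ℂ H, om d (Polynomial.aeval w Q) = Q.eval (om d w) := by
  induction Q using Polynomial.induction_on with
  | C a =>
    rw [Polynomial.aeval_C, Algebra.algebraMap_eq_smul_one]
    refine ⟨nilp_isCl_smul a nilp_isCl_one, fun d => ?_⟩
    rw [om_smul, om_one, mul_one, Polynomial.eval_C]
  | add p q hp hq =>
    rw [map_add]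
    refine ⟨nilp_isCl_add hp.1 hq.1, fun d => ?_⟩
    rw [om_add, hp.2, hq.2, Polynomial.eval_add]
  | monomial n a h =>
    have e : Polynomial.aeval w (Polynomial.C a * Polynomial.X ^ (n + 1)) =
        Polynomial.aeval w (Polynomial.C a * Polynomial.X ^ n) * w := by
      rw [pow_succ, ← mul_assoc, map_mul, Polynomial.aeval_X]
    rw [e]
    refine ⟨isCl_mul _ _ h.1 hw, fun d => ?_⟩
    rw [om_mul d _ _ h.1, h.2]
    simp only [Polynomial.eval_mul, Polynomial.eval_C, Polynomial.eval_pow, Polynomial.eval_X]
    ring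

private theorem nilp_toC_inj {z : MonoidAlgebra B H} (h : toC B z = 0) : z = 0 := by
  apply ga_ext
  intro x
  have h1 := toC_coeff B z x
  rw [h] at h1
  have h2 : ((z.coeff x : B) : ℂ) = 0 := by rw [← h1]; simp
  have h3 : z.coeff x = 0 := by exact_mod_cast h2
  rw [h3]
  simp

/-- Proof: the product over all `c : IrrClass ℂ H` of `z - om c z • 1` (an element of `B[H]`, as
`om c z ∈ B`) is `0`, because its image in `ℂ[H]` is a class function killed by all `om d`
(`om_mul`, `om_complete`). Apply `toF`: `om c z` reduces to `0`, so `(toF z) ^ |IrrClass| = 0`. -/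
theorem nilp (z : MonoidAlgebra B H) (hz : IsCl z)
    (h : ∀ c : IrrClass ℂ H, B.valuation (om c (toC B z)) < 1) : ∃ n : ℕ, (toF B z) ^ n = 0 := by
  haveI : Finite (IrrClass ℂ H) := finite_irr ℂ H
  haveI : Fintype (IrrClass ℂ H) := Fintype.ofFinite _
  have hzC : IsCl (toC B z) := by
    intro g x
    rw [toC_coeff, toC_coeff, hz g x]
  have hmem : ∀ c : IrrClass ℂ H, om c (toC B z) ∈ B := fun c =>
    (B.valuation_le_one_iff _).1 (h c).le
  set b : IrrClass ℂ H → B := fun c => ⟨om c (toC B z), hmem c⟩ with hb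
  set P : Polynomial B := ∏ c, (Polynomial.X - Polynomial.C (b c)) with hP
  have hC : toC B (Polynomial.aeval z P) = 0 := by
    have e1 : toC B (Polynomial.aeval z P) =
        Polynomial.aeval (toC B z) (P.map (B.subtype : B →+* ℂ)) := by
      rw [Polynomial.aeval_def, Polynomial.hom_eval₂, Polynomial.aeval_def, Polynomial.eval₂_map]
      unfold toC
      rw [MonoidAlgebra.mapRingHom_comp_algebraMap]
    have h2 := nilp_aeval hzC (P.map (B.subtype : B →+* ℂ))
    rw [e1]
    refine om_complete _ h2.1 fun d => ?_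
    rw [h2.2, hP, Polynomial.map_prod, Polynomial.eval_prod]
    refine Finset.prod_eq_zero (Finset.mem_univ d) ?_
    simp [hb]
  have h0 : Polynomial.aeval z P = 0 := nilp_toC_inj B hC
  refine ⟨Fintype.card (IrrClass ℂ H), ?_⟩
  have e2 : toF B (Polynomial.aeval z P) =
      Polynomial.aeval (toF B z) (P.map (IsLocalRing.residue B)) := by
    rw [Polynomial.aeval_def, Polynomial.hom_eval₂, Polynomial.aeval_def, Polynomial.eval₂_map]
    unfold toF
    rw [MonoidAlgebra.mapRingHom_comp_algebraMap]
  have e3 : P.map (IsLocalRing.residue B) = Polynomial.X ^ Fintype.card (IrrClass ℂ H) := by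
    rw [hP, Polynomial.map_prod, ← Finset.card_univ, ← Finset.prod_const]
    refine Finset.prod_congr rfl fun c _ => ?_
    have h3 : IsLocalRing.residue B (b c) = 0 := by
      rw [IsLocalRing.residue_eq_zero_iff, ValuationSubring.valuation_lt_one_iff]
      exact h c
    rw [Polynomial.map_sub, Polynomial.map_X, Polynomial.map_C, h3, Polynomial.C_0, sub_zero]
  rw [h0, map_zero, e3, map_pow, Polynomial.aeval_X] at e2
  exact e2.symm

end Pool.Agent.Nav
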