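import Pool.Agent.Nav.Good
import Pool.Agent.Nav.I0R
import Pool.Agent.Nav.DzC

/-!
# NAV2-OpZero : no defect zero characters if there is a nontrivial normal `p`-subgroup
-/

namespace Pool.Agent.Nav

open scoped Classical

universe u v

theorem coeff_mapDomain_eq {F : Type v} [Field F] {H : Type u} [Group H] [Fintype H]
    {Q : Type u} [Group Q] (f : H →* Q) (a : MonoidAlgebra F H) (q : Q) :
    (MonoidAlgebra.mapDomainRingHom F f a).coeff q = ∑ h : H, if f h = q then a.coeff h else 0 := by
  induction a using MonoidAlgebra.induction_linear with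
  | zero => simp
  | add a b ha hb =>
    rw [map_add, MonoidAlgebra.coeff_add, Finsupp.add_apply, ha, hb, ← Finset.sum_add_distrib]
    refine Finset.sum_congr rfl fun h _ => ?_
    by_cases hq : f h = q
    · simp [hq]
    · simp [hq]
  | single h c =>
    rw [MonoidAlgebra.mapDomainRingHom_apply, MonoidAlgebra.mapDomain_single]
    rw [Finset.sum_eq_single h]
    · simp [Finsupp.single_apply]
    · intro b _ hb
      simp [Ne.symm hb]
    · intro hh
      exact absurd (Finset.mem_univ h) hh

/-- Let `R` be a normal `p`-subgroup of `H`, `a ∈ I0 p F ⊤`. The image of `a` in `F[H/R]` is `0`: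
its coefficient at `x R` is the sum of `a` over `x R`; `R` acts on `x R` by conjugation, `a` is
invariant, so by `sum_fixed` only `y ∈ x R` centralised by `R` count, and for these
`p ∣ |C_H(y)|` (if `R ≠ 1`), so `a y = 0`. -/
theorem I0_map_eq_zero {p : ℕ} [Fact p.Prime] {F : Type v} [Field F] [CharP F p]
    {H : Type u} [Group H] [Finite H] (R : Subgroup H) [R.Normal] (hR : IsPGroup p R)
    (hne : R ≠ ⊥) (a : MonoidAlgebra F H) (ha : a ∈ I0 p F (⊤ : Subgroup H)) :
    MonoidAlgebra.mapDomainRingHom F (QuotientGroup.mk' R) a = 0 := by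
  have := Fintype.ofFinite H
  obtain ⟨ha1, ha2, ha3⟩ := mem_I0.mp ha
  apply ga_ext
  intro q
  rw [coeff_mapDomain_eq]
  let act : MulAction R H := MulAction.compHom H ((MulAut.conj (G := H)).comp R.subtype)
  have hact : ∀ (d : R) (h : H), d • h = d.1 * h * d.1⁻¹ := fun d h => rfl
  have hmk : ∀ (d : R) (h : H), QuotientGroup.mk' R (d.1 * h * d.1⁻¹) =
      QuotientGroup.mk' R h := by
    intro d h
    have h3 : QuotientGroup.mk' R d.1 = 1 := (QuotientGroup.eq_one_iff d.1).2 d.2
    rw [map_mul, map_mul, map_inv, h3]
    simp
  have hdvd : p ∣ Nat.card R := by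
    have : Nontrivial R := (Subgroup.nontrivial_iff_ne_bot R).2 hne
    obtain ⟨n, hn0, hn⟩ := hR.nontrivial_iff_card.mp inferInstance
    rw [hn]
    exact dvd_pow_self p (Nat.pos_iff_ne_zero.1 hn0)
  refine (sum_fixed (p := p) hR _ ?_).trans ?_
  · intro d h
    rw [hact, hmk, ha2 d.1 trivial]
  · rw [MonoidAlgebra.coeff_zero, Finsupp.zero_apply]
    apply Finset.sum_eq_zero
    intro h _
    by_cases hf : h ∈ MulAction.fixedPoints R H
    · have hle : R ≤ (⊤ ⊓ Subgroup.centralizer {h} : Subgroup H) := by
        intro r hr
        rw [I0R_mem]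
        refine ⟨trivial, ?_⟩
        have h1 : r * h * r⁻¹ = h := hf ⟨r, hr⟩
        rwa [mul_inv_eq_iff_eq_mul] at h1
      rw [if_pos hf, ha3 h (hdvd.trans (Subgroup.card_dvd_of_le hle))]
      exact ite_self 0
    · rw [if_neg hf]

/-- fixed vectors of a `p`-group in characteristic `p` -/
theorem exists_fixed_vector_aux {p : ℕ} [Fact p.Prime] {R : Type*} [Group R] [Finite R]
    (hR : IsPGroup p R) {V : Type*} [AddCommGroup V] [Module (ZMod p) V] [DistribMulAction R V]
    (hV : ∀ v : V, p • v = 0) (v : V) (hv : v ≠ 0) : ∃ w : V, w ≠ 0 ∧ ∀ r : R, r • w = w := by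
  let W : Submodule (ZMod p) V := Submodule.span (ZMod p) (Set.range fun r : R => r • v)
  have hWfin : Module.Finite (ZMod p) W := by
    have hfin : (Set.range fun r : R => r • v).Finite := Set.finite_range _
    exact Module.Finite.span_of_finite (ZMod p) hfin
  have hWf : Finite W := Module.finite_of_finite (ZMod p)
  have hstab : ∀ (r : R) (w : V), w ∈ W → r • w ∈ W := by
    intro r w hw
    induction hw using Submodule.span_induction with
    | mem x hx =>
      obtain ⟨s, rfl⟩ := hx
      exact Submodule.subset_span ⟨r * s, by simp [mul_smul]⟩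
    | zero => simp
    | add x y _ _ hx hy => rw [smul_add]; exact W.add_mem hx hy
    | smul c x _ hx =>
      have h1 : r • (c • x) = c • (r • x) :=
        ZMod.map_smul (DistribSMul.toAddMonoidHom V r) c x
      rw [h1]
      exact W.smul_mem c hx
  let act : MulAction R W :=
    { smul := fun r w => ⟨r • w.1, hstab r w.1 w.2⟩
      one_smul := fun w => Subtype.ext (one_smul R w.1)
      mul_smul := fun r s w => Subtype.ext (mul_smul r s w.1) }
  have hvW : v ∈ W := Submodule.subset_span ⟨1, by simp⟩
  have hdvd : p ∣ Nat.card W := by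
    have h1 : Nontrivial W := ⟨⟨⟨v, hvW⟩, 0, fun h => hv (congrArg Subtype.val h)⟩⟩
    have h2 : addOrderOf (⟨v, hvW⟩ : W) = p := by
      refine addOrderOf_eq_prime ?_ ?_
      · exact Subtype.ext (hV v)
      · intro h
        exact hv (congrArg Subtype.val h)
    have h3 := addOrderOf_dvd_natCard (⟨v, hvW⟩ : W)
    rw [h2] at h3
    exact h3
  have h0 : (0 : W) ∈ MulAction.fixedPoints R W := by
    intro r
    exact Subtype.ext (smul_zero r)
  obtain ⟨b, hb, hb0⟩ := hR.exists_fixed_point_of_prime_dvd_card_of_fixed_point W hdvd h0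
  refine ⟨b.1, fun h => hb0 (Subtype.ext h.symm), fun r => ?_⟩
  exact congrArg Subtype.val (hb r)

theorem exists_fixed_vector {p : ℕ} [Fact p.Prime] {R : Type*} [Group R] [Finite R]
    (hR : IsPGroup p R) {V : Type*} [AddCommGroup V] [DistribMulAction R V]
    (hV : ∀ v : V, p • v = 0) (v : V) (hv : v ≠ 0) : ∃ w : V, w ≠ 0 ∧ ∀ r : R, r • w = w :=
  @exists_fixed_vector_aux p _ R _ _ hR V _ (AddCommGroup.zmodModule hV) _ hV v hv

/-- In characteristic `p`, a normal `p`-subgroup acts trivially modulo a maximal left ideal. -/
theorem sub_mem_maximal {p : ℕ} [Fact p.Prime] {F : Type v} [Field F] [CharP F p]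
    {H : Type u} [Group H] [Finite H] (R : Subgroup H) [R.Normal] (hR : IsPGroup p R)
    (m : Ideal (MonoidAlgebra F H)) (hm : m.IsMaximal) (r : H) (hr : r ∈ R)
    (x : MonoidAlgebra F H) : MonoidAlgebra.single r 1 * x - x ∈ m := by
  let J : Ideal (MonoidAlgebra F H) :=
    { carrier := {x | ∀ r ∈ R, MonoidAlgebra.single r 1 * x - x ∈ m}
      add_mem' := by
        intro a b ha hb r hr
        have h := m.add_mem (ha r hr) (hb r hr)
        have h2 : MonoidAlgebra.single r 1 * (a + b) - (a + b) =
            MonoidAlgebra.single r 1 * a - a + (MonoidAlgebra.single r 1 * b - b) := by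
          rw [mul_add]; abel
        rw [h2]; exact h
      zero_mem' := by
        intro r _
        simp
      smul_mem' := by
        intro c x hx
        simp only [smul_eq_mul]
        induction c using MonoidAlgebra.induction_linear with
        | zero =>
          intro r _
          simp
        | add a b ha hb =>
          intro r hr
          have h := m.add_mem (ha r hr) (hb r hr)
          have h2 : MonoidAlgebra.single r 1 * ((a + b) * x) - (a + b) * x =
              MonoidAlgebra.single r 1 * (a * x) - a * x +
                (MonoidAlgebra.single r 1 * (b * x) - b * x) := by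
            rw [add_mul, mul_add]; abel
          rw [h2]; exact h
        | single h c =>
          intro r hr
          have hr' : h⁻¹ * r * h ∈ R := by
            have := (inferInstance : R.Normal).conj_mem r hr h⁻¹
            simpa using this
          have h1 := m.mul_mem_left (MonoidAlgebra.single h c) (hx _ hr')
          have h2 : MonoidAlgebra.single r 1 * (MonoidAlgebra.single h c * x) -
              MonoidAlgebra.single h c * x =
              MonoidAlgebra.single h c * (MonoidAlgebra.single (h⁻¹ * r * h) 1 * x - x) := by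
            rw [mul_sub, ← mul_assoc, ← mul_assoc, MonoidAlgebra.single_mul_single,
              MonoidAlgebra.single_mul_single, one_mul, mul_one]
            congr 3
            group
          rw [h2]; exact h1 }
  have hmJ : m ≤ J := by
    intro x hx r _
    exact m.sub_mem (m.mul_mem_left _ hx) hx
  have hJ : J = ⊤ := by
    by_contra hne
    have hJm : J = m := (hm.eq_of_le hne hmJ).symm
    let f : R →* MonoidAlgebra F H := (MonoidAlgebra.of F H).comp R.subtype
    let act : DistribMulAction R (MonoidAlgebra F H ⧸ m) := DistribMulAction.compHom _ f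
    have hact : ∀ (r : R) (v : MonoidAlgebra F H ⧸ m), r • v =
        (MonoidAlgebra.single (r : H) (1 : F)) • v := fun r v => rfl
    have hchar : CharP (MonoidAlgebra F H) p := I0R_charP
    have hV : ∀ v : MonoidAlgebra F H ⧸ m, p • v = 0 := by
      intro v
      rw [← Nat.cast_smul_eq_nsmul (MonoidAlgebra F H), CharP.cast_eq_zero, zero_smul]
    have h1 : (Submodule.Quotient.mk 1 : MonoidAlgebra F H ⧸ m) ≠ 0 := by
      intro h
      rw [Submodule.Quotient.mk_eq_zero] at h
      exact hm.ne_top ((Ideal.eq_top_iff_one m).2 h)
    obtain ⟨w, hw0, hw⟩ := exists_fixed_vector hR hV _ h1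
    obtain ⟨y, rfl⟩ := Submodule.Quotient.mk_surjective m w
    apply hw0
    rw [Submodule.Quotient.mk_eq_zero, ← hJm]
    intro r hr
    have h2 := hw ⟨r, hr⟩
    rw [hact, ← Submodule.Quotient.mk_smul, Submodule.Quotient.eq] at h2
    exact h2
  have hx : x ∈ J := by rw [hJ]; trivial
  exact hx r hr

/-- The kernel of `F[H] → F[H/R]` consists of nilpotent elements, in characteristic `p`, for a
normal `p`-subgroup `R`. Proof: (for instance) `R` acts trivially on every simple `F[H]`-module `S`:
for `0 ≠ v ∈ S` the additive group generated by the finite set `R v` is a finite `p`-group on which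
`R` acts, so it contains a nonzero vector fixed by `R` (fixed point count), and the vectors fixed by
`R` form a submodule of `S`. So the kernel (generated by the `r - 1`, `r ∈ R`) annihilates all
simple modules, i.e. lies in the Jacobson radical of the finite dimensional algebra `F[H]`, which
is nilpotent. Or: induction on `|R|` with an elementary abelian normal subgroup. -/
theorem ker_nilpotent {p : ℕ} [Fact p.Prime] {F : Type v} [Field F] [CharP F p]
    {H : Type u} [Group H] [Finite H] (R : Subgroup H) [R.Normal] (hR : IsPGroup p R)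
    (a : MonoidAlgebra F H)
    (ha : MonoidAlgebra.mapDomainRingHom F (QuotientGroup.mk' R) a = 0) :
    IsNilpotent a := by
  have hfin1 : Module.Finite F (H →₀ F) := inferInstance
  have hfin : Module.Finite F (MonoidAlgebra F H) :=
    Module.Finite.equiv (MonoidAlgebra.coeffLinearEquiv (M := H) (S := F) F).symm
  have hArt : IsArtinianRing (MonoidAlgebra F H) := IsArtinianRing.of_finite F _
  obtain ⟨n, hn⟩ := IsArtinianRing.isNilpotent_jacobson_bot (R := MonoidAlgebra F H)
  have hmem : a ∈ Ideal.jacobson (⊥ : Ideal (MonoidAlgebra F H)) := by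
    rw [Ideal.jacobson, Submodule.mem_sInf]
    rintro m ⟨_, hm⟩
    let s : H → H := fun h => (QuotientGroup.mk' R h).out
    have hs : ∀ h : H, h * (s h)⁻¹ ∈ R := by
      intro h
      have h1 : QuotientGroup.mk' R (s h) = QuotientGroup.mk' R h := Quotient.out_eq _
      have h2 : QuotientGroup.mk' R (h * (s h)⁻¹) = 1 := by
        rw [map_mul, map_inv, h1, mul_inv_cancel]
      exact (QuotientGroup.eq_one_iff _).1 h2
    have key : ∀ b : MonoidAlgebra F H, b - MonoidAlgebra.mapDomain s b ∈ m := by
      intro b
      induction b using MonoidAlgebra.induction_linear with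
      | zero => simp
      | add a b ha hb =>
        have h := m.add_mem ha hb
        have h2 : a + b - MonoidAlgebra.mapDomain s (a + b) =
            a - MonoidAlgebra.mapDomain s a + (b - MonoidAlgebra.mapDomain s b) := by
          rw [MonoidAlgebra.mapDomain_add]; abel
        rw [h2]; exact h
      | single h c =>
        rw [MonoidAlgebra.mapDomain_single]
        have h1 := sub_mem_maximal R hR m hm (h * (s h)⁻¹) (hs h) (MonoidAlgebra.single (s h) c)
        rw [MonoidAlgebra.single_mul_single, one_mul] at h1
        have h2 : h * (s h)⁻¹ * s h = h := by group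
        rw [h2] at h1
        exact h1
    have h0 : MonoidAlgebra.mapDomain s a = 0 := by
      have h1 : MonoidAlgebra.mapDomain (fun q : H ⧸ R => q.out)
          (MonoidAlgebra.mapDomain (QuotientGroup.mk' R) a) = MonoidAlgebra.mapDomain s a := by
        clear ha
        induction a using MonoidAlgebra.induction_linear with
        | zero => simp
        | add a b ha hb => rw [MonoidAlgebra.mapDomain_add, MonoidAlgebra.mapDomain_add,
            MonoidAlgebra.mapDomain_add, ha, hb]
        | single h c =>
          rw [MonoidAlgebra.mapDomain_single, MonoidAlgebra.mapDomain_single,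
            MonoidAlgebra.mapDomain_single]
      rw [← h1]
      have h2 : MonoidAlgebra.mapDomain (QuotientGroup.mk' R) a = 0 := ha
      rw [h2, MonoidAlgebra.mapDomain_zero]
    have h1 := key a
    rw [h0, sub_zero] at h1
    exact h1
  refine ⟨n, ?_⟩
  have h1 := Ideal.pow_mem_pow hmem n
  rw [hn] at h1
  simpa using h1

/-- Proof: take `F` from `exists_F`; `EE p F ⊤ = {0}` as its elements satisfy `a ^ p = a` and are
nilpotent; so `1 = p ^ dz p ⊤`. -/
theorem dz_normal (p : ℕ) [Fact p.Prime] (H : Type u) [Group H] [Finite H] (R : Subgroup H)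
    [R.Normal] (hR : IsPGroup p R) (hne : R ≠ ⊥) : dz p H = 0 := by
  obtain ⟨F, hF, _, hchar, hgood⟩ := exists_F.{u} p
  have hp : p.Prime := Fact.out
  have hEE : EE p F (⊤ : Subgroup H) = {0} := by
    ext a
    rw [Set.mem_singleton_iff]
    constructor
    · rintro ⟨ha, hap⟩
      obtain ⟨n, hn⟩ := ker_nilpotent R hR a (I0_map_eq_zero R hR hne a ha)
      have hk : ∀ k : ℕ, a ^ p ^ k = a := by
        intro k
        induction k with
        | zero => simp
        | succ k ih => rw [pow_succ, pow_mul, ih, hap]
      rw [← hk n]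
      exact pow_eq_zero_of_le (Nat.lt_pow_self hp.one_lt).le hn
    · rintro rfl
      exact ⟨Submodule.zero_mem _, zero_pow hp.ne_zero⟩
  have h1 := hgood H (⊤ : Subgroup H)
  rw [hEE] at h1
  have h2 : Nat.card ({0} : Set (MonoidAlgebra F H)) = 1 := by simp
  rw [h2] at h1
  have h3 : dz p (⊤ : Subgroup H) = 0 := by
    by_contra hne0
    have := Nat.one_lt_pow hne0 hp.one_lt
    omega
  rw [← dz_congr p Subgroup.topEquiv]
  exact h3

end Pool.Agent.Nav
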