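import Pool.Agent.Nav.CC

/-!
# NAV-PerQ : the relation for one `p`-subgroup `Q`
-/

namespace Pool.Agent.Nav

universe u

variable {Γ : Type u} [Group Γ]

/-- `N_Γ(H) / H` from a homomorphism with kernel `H` -/
theorem NQ_equiv_of_range {T : Type u} [Group T] (H : Subgroup Γ) (φ : Nm H →* T)
    (hk : φ.ker = H.subgroupOf (Nm H)) (Y : Subgroup T) (hr : φ.range = Y) :
    Nonempty (NQ H ≃* Y) :=
  ⟨(QuotientGroup.quotientMulEquivOfEq hk.symm).trans
    ((QuotientGroup.quotientKerEquivRange φ).trans (MulEquiv.subgroupCongr hr))⟩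

theorem mem_NmA (M Q : Subgroup Γ) (hQM : Q ≤ M) (x : M) :
    x ∈ Nm (Q.subgroupOf M) ↔ x ∈ (Nm Q).subgroupOf M := by
  have h : (Nm Q).subgroupOf M = Nm (Q.subgroupOf M) := Subgroup.subgroupOf_normalizer_eq hQM
  rw [h]

/-- the inclusion `N_M(Q) → N_Γ(Q)` -/
noncomputable def jA (M Q : Subgroup Γ) (hQM : Q ≤ M) : Nm (Q.subgroupOf M) →* Nm Q :=
  (M.subtype.comp (Nm (Q.subgroupOf M)).subtype).codRestrict (Nm Q) (fun x => by
    have h := x.2
    exact Subgroup.mem_subgroupOf.1 ((mem_NmA M Q hQM x).1 h))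

theorem jA_coe (M Q : Subgroup Γ) (hQM : Q ≤ M) (x : Nm (Q.subgroupOf M)) :
    ((jA M Q hQM x : Nm Q) : Γ) = ((x : M) : Γ) := rfl

theorem jA_inj (M Q : Subgroup Γ) (hQM : Q ≤ M) : Function.Injective (jA M Q hQM) := by
  intro x y h
  have h1 := congrArg (fun z : Nm Q => (z : Γ)) h
  exact Subtype.ext (Subtype.ext h1)

theorem jA_range (M Q : Subgroup Γ) (hQM : Q ≤ M) :
    (jA M Q hQM).range = M.subgroupOf (Nm Q) := by
  ext y
  constructor
  · rintro ⟨x, rfl⟩
    exact Subgroup.mem_subgroupOf.2 (x : M).2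
  · intro hy
    have hy' : (y : Γ) ∈ M := Subgroup.mem_subgroupOf.1 hy
    refine ⟨⟨⟨(y : Γ), hy'⟩, ?_⟩, ?_⟩
    · exact (mem_NmA M Q hQM _).2 (Subgroup.mem_subgroupOf.2 y.2)
    · exact Subtype.ext rfl

theorem card_NmA (M Q : Subgroup Γ) (hQM : Q ≤ M) :
    Nat.card (Nm (Q.subgroupOf M)) * M.relIndex (Nm Q) = Nat.card (Nm Q) := by
  have h1 : Nat.card (Nm (Q.subgroupOf M)) = Nat.card (M.subgroupOf (Nm Q)) := by
    rw [← jA_range M Q hQM]
    exact Nat.card_congr (MonoidHom.ofInjective (jA_inj M Q hQM)).toEquiv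
  rw [h1]
  exact Subgroup.card_mul_index _

/-- `N_M(Q)/Q` is the image of `N_Γ(Q) ⊓ M` in `N_Γ(Q)/Q` -/
theorem NQ_A (M Q : Subgroup Γ) (hQM : Q ≤ M) :
    Nonempty (NQ (Q.subgroupOf M) ≃*
      ((M.subgroupOf (Nm Q)).map (QuotientGroup.mk' (Q.subgroupOf (Nm Q))))) := by
  refine NQ_equiv_of_range (Q.subgroupOf M)
    ((QuotientGroup.mk' (Q.subgroupOf (Nm Q))).comp (jA M Q hQM)) ?_ _ ?_
  · rw [← MonoidHom.comap_ker, QuotientGroup.ker_mk']
    ext x
    rw [Subgroup.mem_comap, Subgroup.mem_subgroupOf, Subgroup.mem_subgroupOf,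
      Subgroup.mem_subgroupOf, jA_coe]
  · rw [MonoidHom.range_comp, jA_range]

/-- the case `N_Γ(Q) ≤ M` -/
theorem NQ_of_le (M Q : Subgroup Γ) (hQM : Q ≤ M) (h : Nm Q ≤ M) :
    Nonempty (NQ (Q.subgroupOf M) ≃* NQ Q) ∧
      Nat.card (Nm (Q.subgroupOf M)) = Nat.card (Nm Q) := by
  constructor
  · obtain ⟨e⟩ := NQ_A M Q hQM
    have h1 : (M.subgroupOf (Nm Q)).map (QuotientGroup.mk' (Q.subgroupOf (Nm Q))) = ⊤ := by
      rw [Subgroup.subgroupOf_eq_top.2 h]
      exact Subgroup.map_top_of_surjective _ (QuotientGroup.mk'_surjective _)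
    exact ⟨e.trans ((MulEquiv.subgroupCongr h1).trans Subgroup.topEquiv)⟩
  · have h1 := card_NmA M Q hQM
    rw [Subgroup.relIndex_eq_one.2 h, mul_one] at h1
    exact h1

section quot

variable {N : Type u} [Group N] (K : Subgroup N) [K.Normal]

theorem Nm_map_quot (R : Subgroup N) (hK : K ≤ R) :
    (Nm (R.map (QuotientGroup.mk' K))).comap (QuotientGroup.mk' K) = Nm R := by
  have h := Subgroup.comap_normalizer_eq_of_le_range (f := QuotientGroup.mk' K)
    (H := R.map (QuotientGroup.mk' K)) (by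
      rw [MonoidHom.range_eq_top.2 (QuotientGroup.mk'_surjective K)]; exact le_top)
  rw [Subgroup.comap_map_eq_self (by rwa [QuotientGroup.ker_mk'])] at h
  exact h

/-- `N_N(R) → N_{N/K}(R/K)` -/
noncomputable def jB (R : Subgroup N) (hK : K ≤ R) :
    Nm R →* Nm (R.map (QuotientGroup.mk' K)) :=
  ((QuotientGroup.mk' K).comp (Nm R).subtype).codRestrict _ (fun x => by
    have h := x.2
    have h2 : (x : N) ∈ (Nm (R.map (QuotientGroup.mk' K))).comap (QuotientGroup.mk' K) :=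
      (Nm_map_quot K R hK).symm ▸ h
    exact h2)

theorem jB_coe (R : Subgroup N) (hK : K ≤ R) (x : Nm R) :
    ((jB K R hK x : Nm (R.map (QuotientGroup.mk' K))) : N ⧸ K) =
      QuotientGroup.mk' K (x : N) := rfl

theorem jB_surj (R : Subgroup N) (hK : K ≤ R) : Function.Surjective (jB K R hK) := by
  rintro ⟨y, hy⟩
  obtain ⟨x, rfl⟩ := QuotientGroup.mk'_surjective K y
  refine ⟨⟨x, ?_⟩, Subtype.ext rfl⟩
  rw [← Nm_map_quot K R hK]
  exact hy

theorem jB_ker (R : Subgroup N) (hK : K ≤ R) : (jB K R hK).ker = K.subgroupOf (Nm R) := by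
  ext x
  rw [MonoidHom.mem_ker, Subgroup.mem_subgroupOf, Subtype.ext_iff, jB_coe]
  exact QuotientGroup.eq_one_iff (x : N)

theorem card_NmB (R : Subgroup N) (hK : K ≤ R) :
    Nat.card K * Nat.card (Nm (R.map (QuotientGroup.mk' K))) = Nat.card (Nm R) := by
  have h1 := (jB K R hK).ker.card_mul_index
  rw [Subgroup.index_ker, MonoidHom.range_eq_top.2 (jB_surj K R hK), jB_ker] at h1
  rw [← h1]
  congr 1
  · have hle : K ≤ Nm R := hK.trans Subgroup.le_normalizer
    exact (Nat.card_congr (Subgroup.subgroupOfEquivOfLe hle).toEquiv).symm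
  · exact (Nat.card_congr Subgroup.topEquiv.toEquiv).symm

theorem NQ_B (R : Subgroup N) (hK : K ≤ R) :
    Nonempty (NQ R ≃* NQ (R.map (QuotientGroup.mk' K))) := by
  obtain ⟨e⟩ := NQ_equiv_of_range R
    ((QuotientGroup.mk' ((R.map (QuotientGroup.mk' K)).subgroupOf
      (Nm (R.map (QuotientGroup.mk' K))))).comp (jB K R hK)) (by
      rw [← MonoidHom.comap_ker, QuotientGroup.ker_mk']
      ext x
      rw [Subgroup.mem_comap, Subgroup.mem_subgroupOf, Subgroup.mem_subgroupOf, jB_coe]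
      have h := Subgroup.comap_map_eq_self (f := QuotientGroup.mk' K) (H := R)
        (by rwa [QuotientGroup.ker_mk'])
      constructor
      · intro hx
        have : (x : N) ∈ (R.map (QuotientGroup.mk' K)).comap (QuotientGroup.mk' K) := hx
        rwa [h] at this
      · intro hx
        exact Subgroup.mem_map_of_mem _ hx) ⊤ (by
      rw [MonoidHom.range_eq_top]
      exact (QuotientGroup.mk'_surjective _).comp (jB_surj K R hK))
  exact ⟨e.trans Subgroup.topEquiv⟩

end quot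

theorem relIndex_eq_of_not_le (p : ℕ) [Fact p.Prime] (M : Subgroup Γ) [M.Normal]
    (hM : M.index = p) (R : Subgroup Γ) (hR : ¬ R ≤ M) : M.relIndex R = p := by
  have h1 : M.relIndex R ∣ p := hM ▸ Subgroup.relIndex_dvd_index_of_normal M R
  rcases (Nat.dvd_prime (Fact.out : p.Prime)).1 h1 with h | h
  · exact absurd (Subgroup.relIndex_eq_one.1 h) hR
  · exact h

theorem Nm_le_Nm_inf (M R Q : Subgroup Γ) [M.Normal] (h : R ⊓ M = Q) : Nm R ≤ Nm Q := by
  have h1 : Nm R ⊓ Nm M ≤ Nm (R ⊓ M) := Subgroup.inf_normalizer_le_normalizer_inf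
  rw [h] at h1
  exact le_trans (le_inf le_rfl Subgroup.le_normalizer_of_normal) h1

variable [Finite Γ]

/-- Let `M` be normal of index `p` in `Γ` and `Q ≤ M` a `p`-subgroup.

Proof: if `N_Γ(Q) ≤ M`: then `N_M(Q) = N_Γ(Q)` (`N_M(Q)/Q ≅ N_Γ(Q)/Q`), and there is no `R` in the
sum, since `R` normalises `R ⊓ M = Q` (`M` is normal). Otherwise apply `cc` to `X = N_Γ(Q)/Q` and
`Y = N_M(Q)/Q` (the image of `N_Γ(Q) ⊓ M`), `|X : Y| = p`; multiply by `|Q|`. The `D` in
`Dset p Y` are the `R / Q` with `R` in the sum (`D ⊓ Y = 1` iff `R ⊓ M = Q`), and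
`N_X(R/Q) = N_Γ(R)/Q` as `N_Γ(R)` normalises `R ⊓ M = Q`; `N_X(D)/D ≅ N_Γ(R)/R`. -/
theorem perQ (p : ℕ) [Fact p.Prime] (M : Subgroup Γ) [M.Normal] (hM : M.index = p)
    (Q : Subgroup Γ) (hQ : IsPGroup p Q) (hQM : Q ≤ M) :
    p * (Nat.card (Nm (Q.subgroupOf M)) * dz p (NQ (Q.subgroupOf M))) =
      p * (Nat.card (Nm Q) * dz p (NQ Q)) +
        ∑ᶠ R ∈ {R : Subgroup Γ | IsPGroup p R ∧ ¬ R ≤ M ∧ R ⊓ M = Q},
          Nat.card (Nm R) * dz p (NQ R) := by
  have hRN : ∀ R : Subgroup Γ, R ⊓ M = Q → R ≤ Nm Q := fun R h =>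
    le_trans Subgroup.le_normalizer (Nm_le_Nm_inf M R Q h)
  by_cases hN : Nm Q ≤ M
  · obtain ⟨⟨e⟩, hc⟩ := NQ_of_le M Q hQM hN
    have hempty : {R : Subgroup Γ | IsPGroup p R ∧ ¬ R ≤ M ∧ R ⊓ M = Q} = ∅ := by
      refine Set.eq_empty_iff_forall_notMem.2 ?_
      rintro R ⟨_, hRM, hRQ⟩
      exact hRM (le_trans (hRN R hRQ) hN)
    rw [hempty, finsum_mem_empty, hc, dz_congr p e, add_zero]
  · -- the main case
    have hrel : M.relIndex (Nm Q) = p := relIndex_eq_of_not_le p M hM (Nm Q) hN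
    obtain ⟨eY⟩ := NQ_A M Q hQM
    have hcA := card_NmA M Q hQM
    rw [hrel] at hcA
    have hsurj := QuotientGroup.mk'_surjective (Q.subgroupOf (Nm Q))
    have hker : (QuotientGroup.mk' (Q.subgroupOf (Nm Q))).ker = Q.subgroupOf (Nm Q) :=
      QuotientGroup.ker_mk' _
    have hKM : Q.subgroupOf (Nm Q) ≤ M.subgroupOf (Nm Q) := by
      intro x hx
      exact Subgroup.mem_subgroupOf.2 (hQM (Subgroup.mem_subgroupOf.1 hx))
    have hYn : ((M.subgroupOf (Nm Q)).map (QuotientGroup.mk' (Q.subgroupOf (Nm Q)))).Normal :=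
      Subgroup.Normal.map inferInstance _ hsurj
    have hYi : ((M.subgroupOf (Nm Q)).map (QuotientGroup.mk' (Q.subgroupOf (Nm Q)))).index = p := by
      rw [Subgroup.index_map_eq _ hsurj (by rw [hker]; exact hKM)]
      exact hrel
    have hcomapY : ((M.subgroupOf (Nm Q)).map (QuotientGroup.mk' (Q.subgroupOf (Nm Q)))).comap
        (QuotientGroup.mk' (Q.subgroupOf (Nm Q))) = M.subgroupOf (Nm Q) :=
      Subgroup.comap_map_eq_self (by rw [hker]; exact hKM)
    have hcc := cc p (NQ Q) _ hYi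
    have hcX : Nat.card (Q.subgroupOf (Nm Q)) * Nat.card (NQ Q) = Nat.card (Nm Q) :=
      Subgroup.card_mul_index _
    have hmul := congrArg (fun n => Nat.card (Q.subgroupOf (Nm Q)) * n) hcc
    simp only [mul_add, mul_finsum_mem] at hmul
    rw [← mul_assoc, hcX] at hmul
    have hL : p * (Nat.card (Nm (Q.subgroupOf M)) * dz p (NQ (Q.subgroupOf M))) =
        Nat.card (Nm Q) *
          dz p ((M.subgroupOf (Nm Q)).map (QuotientGroup.mk' (Q.subgroupOf (Nm Q)))) := by
      rw [dz_congr p eY, ← hcA]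
      ring
    have hR : Nat.card (Q.subgroupOf (Nm Q)) * (p * (Nat.card (NQ Q) * dz p (NQ Q))) =
        p * (Nat.card (Nm Q) * dz p (NQ Q)) := by
      rw [← hcX]
      ring
    rw [hL, hmul, hR]
    congr 1
    symm
    -- facts on the members of the sum
    have hKR : ∀ R : Subgroup Γ, R ⊓ M = Q → Q.subgroupOf (Nm Q) ≤ R.subgroupOf (Nm Q) := by
      intro R hR x hx
      have hx' : (x : Γ) ∈ R ⊓ M := hR.symm ▸ Subgroup.mem_subgroupOf.1 hx
      exact Subgroup.mem_subgroupOf.2 hx'.1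
    have hcomapR : ∀ R : Subgroup Γ, R ⊓ M = Q →
        ((R.subgroupOf (Nm Q)).map (QuotientGroup.mk' (Q.subgroupOf (Nm Q)))).comap
        (QuotientGroup.mk' (Q.subgroupOf (Nm Q))) = R.subgroupOf (Nm Q) := fun R hR =>
      Subgroup.comap_map_eq_self (by rw [hker]; exact hKR R hR)
    refine finsum_mem_eq_of_bijOn
      (fun R => (R.subgroupOf (Nm Q)).map (QuotientGroup.mk' (Q.subgroupOf (Nm Q)))) ⟨?_, ?_, ?_⟩ ?_
    · rintro R ⟨hRp, hRM, hRQ⟩
      constructor
      · have h1 := Subgroup.relIndex_ker (K := R.subgroupOf (Nm Q))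
          (QuotientGroup.mk' (Q.subgroupOf (Nm Q)))
        rw [hker, Subgroup.relIndex_subgroupOf (hRN R hRQ)] at h1
        rw [← h1]
        have h2 : Q.relIndex R = M.relIndex R := by
          rw [← hRQ, Subgroup.inf_relIndex_left]
        rw [h2]
        exact relIndex_eq_of_not_le p M hM R hRM
      · intro hle
        apply hRM
        intro x hx
        have hxN : x ∈ Nm Q := hRN R hRQ hx
        have h1 : (⟨x, hxN⟩ : Nm Q) ∈
            ((M.subgroupOf (Nm Q)).map (QuotientGroup.mk' (Q.subgroupOf (Nm Q)))).comap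
            (QuotientGroup.mk' (Q.subgroupOf (Nm Q))) := by
          apply hle
          exact Subgroup.mem_map_of_mem _ (Subgroup.mem_subgroupOf.2 hx)
        rw [hcomapY] at h1
        exact Subgroup.mem_subgroupOf.1 h1
    · rintro R1 ⟨_, _, h1⟩ R2 ⟨_, _, h2⟩ h12
      have h3 := congrArg (fun D => Subgroup.comap (QuotientGroup.mk' (Q.subgroupOf (Nm Q))) D) h12
      simp only at h3
      rw [hcomapR R1 h1, hcomapR R2 h2, Subgroup.subgroupOf_inj,
        inf_eq_left.2 (hRN R1 h1), inf_eq_left.2 (hRN R2 h2)] at h3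
      exact h3
    · rintro D ⟨hDc, hDY⟩
      have hsub : ((D.comap (QuotientGroup.mk' (Q.subgroupOf (Nm Q)))).map
          (Nm Q).subtype).subgroupOf (Nm Q) =
          D.comap (QuotientGroup.mk' (Q.subgroupOf (Nm Q))) :=
        Subgroup.comap_map_eq_self_of_injective (Nm Q).subtype_injective _
      have hmapD : (D.comap (QuotientGroup.mk' (Q.subgroupOf (Nm Q)))).map
          (QuotientGroup.mk' (Q.subgroupOf (Nm Q))) = D :=
        Subgroup.map_comap_eq_self_of_surjective hsurj D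
      have hDY' : D ⊓ (M.subgroupOf (Nm Q)).map (QuotientGroup.mk' (Q.subgroupOf (Nm Q))) = ⊥ := by
        have h1 : Nat.card (D ⊓ (M.subgroupOf (Nm Q)).map
            (QuotientGroup.mk' (Q.subgroupOf (Nm Q))) : Subgroup (NQ Q)) ∣ p := by
          rw [← hDc]
          exact Subgroup.card_dvd_of_le inf_le_left
        rcases (Nat.dvd_prime (Fact.out : p.Prime)).1 h1 with h | h
        · exact Subgroup.card_eq_one.1 h
        · exfalso
          apply hDY
          have h2 : D ⊓ (M.subgroupOf (Nm Q)).map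
              (QuotientGroup.mk' (Q.subgroupOf (Nm Q))) = D :=
            Subgroup.eq_of_le_of_card_ge inf_le_left (by rw [h, hDc])
          exact inf_eq_left.1 h2
      refine ⟨(D.comap (QuotientGroup.mk' (Q.subgroupOf (Nm Q)))).map (Nm Q).subtype,
        ⟨?_, ?_, ?_⟩, ?_⟩
      · have hDp : IsPGroup p D := IsPGroup.of_card (n := 1) (by rw [hDc, pow_one])
        refine IsPGroup.map (hDp.comap_of_ker_isPGroup _ ?_) _
        rw [hker]
        exact hQ.comap_subtype
      · intro hle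
        apply hDY
        rw [← hmapD]
        apply Subgroup.map_mono
        rw [← hsub]
        intro x hx
        exact Subgroup.mem_subgroupOf.2 (hle (Subgroup.mem_subgroupOf.1 hx))
      · apply le_antisymm
        · rintro x ⟨hx1, hx2⟩
          obtain ⟨y, hy, rfl⟩ := hx1
          have h1 : QuotientGroup.mk' (Q.subgroupOf (Nm Q)) y ∈
              D ⊓ (M.subgroupOf (Nm Q)).map (QuotientGroup.mk' (Q.subgroupOf (Nm Q))) :=
            ⟨hy, Subgroup.mem_map_of_mem _ (Subgroup.mem_subgroupOf.2 hx2)⟩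
          rw [hDY', Subgroup.mem_bot] at h1
          have h2 : y ∈ (QuotientGroup.mk' (Q.subgroupOf (Nm Q))).ker := h1
          rw [hker] at h2
          exact Subgroup.mem_subgroupOf.1 h2
        · refine le_inf ?_ hQM
          intro x hx
          have hxN : x ∈ Nm Q := Subgroup.le_normalizer hx
          refine ⟨⟨x, hxN⟩, ?_, rfl⟩
          have h1 : (⟨x, hxN⟩ : Nm Q) ∈ (QuotientGroup.mk' (Q.subgroupOf (Nm Q))).ker := by
            rw [hker]
            exact Subgroup.mem_subgroupOf.2 hx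
          change QuotientGroup.mk' (Q.subgroupOf (Nm Q)) ⟨x, hxN⟩ ∈ D
          rw [MonoidHom.mem_ker.1 h1]
          exact one_mem _
      · simp only
        rw [hsub, hmapD]
    · rintro R ⟨hRp, hRM, hRQ⟩
      obtain ⟨⟨e1⟩, h1⟩ := NQ_of_le (Nm Q) R (hRN R hRQ) (Nm_le_Nm_inf M R Q hRQ)
      have h2 := card_NmB (Q.subgroupOf (Nm Q)) (R.subgroupOf (Nm Q)) (hKR R hRQ)
      obtain ⟨e2⟩ := NQ_B (Q.subgroupOf (Nm Q)) (R.subgroupOf (Nm Q)) (hKR R hRQ)
      rw [← dz_congr p e2, dz_congr p e1, ← h1, ← h2]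
      ring

end Pool.Agent.Nav
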