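import Pool.Agent.Nav.Lift

/-!
# NAV-ThmB : `|EE| = p ^ dz`
-/

namespace Pool.Agent.Nav

open scoped Classical

universe u

namespace ThmB

/-- powers of a linear combination of orthogonal idempotents -/
theorem sum_pow {ι F A : Type*} [Field F] [Ring A] [Algebra F A] (s : Finset ι) (t : ι → F)
    (E : ι → A) (hE : ∀ i ∈ s, E i * E i = E i) (hO : ∀ i ∈ s, ∀ j ∈ s, i ≠ j → E i * E j = 0) :
    ∀ n : ℕ, (∑ i ∈ s, t i • E i) ^ (n + 1) = ∑ i ∈ s, (t i) ^ (n + 1) • E i := by
  intro n
  induction n with
  | zero => simp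
  | succ n ih =>
    rw [pow_succ, ih, Finset.sum_mul]
    refine Finset.sum_congr rfl fun i hi => ?_
    rw [Finset.mul_sum, Finset.sum_eq_single_of_mem i hi]
    · rw [smul_mul_smul_comm, hE i hi, ← pow_succ]
    · intro j hj hji
      rw [smul_mul_smul_comm, hO i hi j hj hji.symm, smul_zero]

theorem nilp_zero {A : Type*} [Ring A] {p : ℕ} (hp : 1 < p) (b : A) (hb : b ^ p = b)
    (n : ℕ) (hn : b ^ n = 0) : b = 0 := by
  have h : ∀ k : ℕ, b ^ (p ^ k) = b := by
    intro k
    induction k with
    | zero => simp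
    | succ k ih => rw [pow_succ, pow_mul, ih, hb]
  have h1 : n ≤ p ^ n := (Nat.lt_pow_self hp).le
  rw [← h n, ← Nat.add_sub_cancel' h1, pow_add, hn, zero_mul]

end ThmB

/-- Number of `a` in `I0` (class functions of `F[H]` vanishing at `x` with `p ∣ |C_H(x)|`) with
`a ^ p = a` is `p ^ dz p H`; `F` the residue field of `B`.

Proof. Let `S` be the set of `c : IrrClass ℂ H` with `padicValNat p (degc c) =
padicValNat p (Nat.card H)`; `|S| = dz p H` (`dz_eq`). For `c ∈ S` take the lifts `e c` of the central
idempotents from `exists_eB`; their reductions (also written `e c`) are orthogonal idempotents in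
`I0`. For `a ∈ EE` choose a lift `â : B[H]` (`lift_I0`). Let `t c` be the reduction of
`om c â`. `â ^ p - â` has coefficients in the maximal ideal, so by `om_congr` and `om_mul`
`t c ^ p = t c`, i.e. `t c ∈ 𝔽_p`. Put `b = a - ∑_{c ∈ S} t c • e c`. Its lift
`â - ∑ om c â • ei c` has all central characters in the maximal ideal: for `d ∈ S` it is `0`, for
`d ∉ S` it is `om d â` which is in the maximal ideal by `val_om_I0`. By `nilp`, `b` is nilpotent; and
`b ^ p = b` (Frobenius is additive on commuting elements in characteristic `p`, and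
`(t c • e c) ^ p = t c • e c`), so `b = 0`. Hence `EE` is the set of the `∑_{c ∈ S} t c • e c`,
`t : S → 𝔽_p`, and these are pairwise different (the `e c` are nonzero orthogonal idempotents:
`om c (ei c) = 1`, see `om_congr`). So `|EE| = p ^ |S|`. -/
theorem card_EE_top (p : ℕ) [Fact p.Prime] (B : ValuationSubring ℂ)
    (hB : B.valuation (p : ℂ) < 1) (H : Type u) [Group H] [Finite H] :
    Nat.card (EE p (IsLocalRing.ResidueField B) (⊤ : Subgroup H)) = p ^ dz p H := by
  have hp : p.Prime := Fact.out
  obtain ⟨m, rfl⟩ : ∃ m, p = m + 1 := ⟨p - 1, by have := hp.pos; omega⟩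
  set p := m + 1 with hpm
  have hch : CharP (IsLocalRing.ResidueField B) p := val_charP p B hB
  have : Finite (IrrClass ℂ H) := finite_irr ℂ H
  have : Fintype (IrrClass ℂ H) := Fintype.ofFinite _
  have hchA : CharP (MonoidAlgebra (IsLocalRing.ResidueField B) H) p :=
    charP_of_injective_algebraMap
      (algebraMap (IsLocalRing.ResidueField B) (MonoidAlgebra (IsLocalRing.ResidueField B) H)).injective p
  obtain ⟨e, he⟩ := exists_eB (H := H) (p := p) B hB
  -- the defect zero classes
  let S : Finset (IrrClass ℂ H) :=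
    Finset.univ.filter fun c => padicValNat p (degc c) = padicValNat p (Nat.card H)
  have hS : ∀ c, c ∈ S ↔ padicValNat p (degc c) = padicValNat p (Nat.card H) := by
    intro c; simp [S]
  let E : IrrClass ℂ H → MonoidAlgebra (IsLocalRing.ResidueField B) H := fun c => toF B (e c)
  have hEE : ∀ c ∈ S, E c * E c = E c := by
    intro c hc
    have := (he c ((hS c).1 hc)).2.2.2.1
    simp only [E]
    rw [← map_mul, this]
  have hEO : ∀ c ∈ S, ∀ d ∈ S, c ≠ d → E c * E d = 0 := by
    intro c hc d hd hcd
    have := (he c ((hS c).1 hc)).2.2.2.2 d ((hS d).1 hd) hcd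
    simp only [E]
    rw [← map_mul, this, map_zero]
  have hEI : ∀ c ∈ S, E c ∈ I0 p (IsLocalRing.ResidueField B) (⊤ : Subgroup H) :=
    fun c hc => (he c ((hS c).1 hc)).2.2.1
  have hom0 : ∀ c : IrrClass ℂ H, om c 0 = 0 := by
    intro c
    have := om_smul c 0 (0 : MonoidAlgebra ℂ H)
    simpa using this
  have hIs0 : IsCl (0 : MonoidAlgebra B H) := fun h x => by simp
  have hE0 : ∀ c ∈ S, E c ≠ 0 := by
    intro c hc h0
    have h1 := om_congr B c (e c) 0 (he c ((hS c).1 hc)).2.1 hIs0 (by rw [map_zero]; exact h0)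
    rw [(he c ((hS c).1 hc)).1, map_zero, hom0, om_ei, if_pos rfl, sub_zero, map_one] at h1
    exact lt_irrefl _ h1
  -- the elements of EE given by functions to the prime field
  have hmem : ∀ t : IrrClass ℂ H → IsLocalRing.ResidueField B, (∀ c ∈ S, t c ^ p = t c) →
      (∑ c ∈ S, t c • E c) ∈ EE p (IsLocalRing.ResidueField B) (⊤ : Subgroup H) := by
    intro t ht
    refine ⟨Submodule.sum_mem _ fun c hc => Submodule.smul_mem _ _ (hEI c hc), ?_⟩
    rw [hpm, ThmB.sum_pow S t E hEE hEO m]
    exact Finset.sum_congr rfl fun c hc => by rw [← hpm, ht c hc]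
  -- surjectivity
  have hsurj : ∀ a ∈ EE p (IsLocalRing.ResidueField B) (⊤ : Subgroup H),
      ∃ t : IrrClass ℂ H → IsLocalRing.ResidueField B, (∀ c, t c ^ p = t c) ∧
        a = ∑ c ∈ S, t c • E c := by
    intro a ha
    obtain ⟨z, hza, hzc, hz0⟩ := lift_I0 B a ha.1
    have hzC : IsCl (toC B z) := (isCl_toC B z).1 hzc
    have hzv : ∀ x, B.valuation ((toC B z).coeff x) ≤ 1 := by
      intro x
      rw [toC_coeff]
      exact (B.valuation_le_one_iff _).2 (z.coeff x).2
    have hov : ∀ c, B.valuation (om c (toC B z)) ≤ 1 := fun c => val_om B c _ hzC hzv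
    let tB : IrrClass ℂ H → B := fun c => ⟨om c (toC B z), (B.valuation_le_one_iff _).1 (hov c)⟩
    have hom_pow : ∀ (c : IrrClass ℂ H) (n : ℕ), om c ((toC B z) ^ n) = (om c (toC B z)) ^ n := by
      intro c n
      induction n with
      | zero => rw [pow_zero, pow_zero, om_one]
      | succ n ih => rw [pow_succ', pow_succ', om_mul c _ _ hzC, ih]
    have hpowCl : ∀ n : ℕ, IsCl (z ^ n) := by
      intro n
      induction n with
      | zero =>
        intro h x
        rw [pow_zero, one_coeff, one_coeff]
        congr 1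
        simp
      | succ n ih => rw [pow_succ]; exact isCl_mul _ _ ih hzc
    have htp : ∀ c, (IsLocalRing.residue B (tB c)) ^ p = IsLocalRing.residue B (tB c) := by
      intro c
      have h1 := om_congr B c (z ^ p) z (hpowCl p) hzc (by rw [map_pow, hza, ha.2])
      rw [map_pow, hom_pow] at h1
      rw [← map_pow, ← sub_eq_zero, ← map_sub, IsLocalRing.residue_eq_zero_iff,
        B.valuation_lt_one_iff]
      exact h1
    refine ⟨fun c => IsLocalRing.residue B (tB c), htp, ?_⟩
    -- the difference
    let s : MonoidAlgebra (IsLocalRing.ResidueField B) H :=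
      ∑ c ∈ S, IsLocalRing.residue B (tB c) • E c
    have hs : s ∈ EE p (IsLocalRing.ResidueField B) (⊤ : Subgroup H) :=
      hmem _ fun c _ => htp c
    have hcomm : Commute a s := isCl_comm a s (isCl_top ha.1)
    have hbp : (a - s) ^ p = a - s := by
      rw [sub_pow_char_of_commute p hcomm, ha.2, hs.2]
    let w : MonoidAlgebra B H := z - ∑ c ∈ S, tB c • e c
    have hwF : toF B w = a - s := by
      simp only [w, s, E]
      rw [map_sub, hza, map_sum]
      congr 1
      refine Finset.sum_congr rfl fun c _ => ?_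
      apply ga_ext
      intro x
      rw [toF_coeff]
      simp [toF_coeff]
    have hwCl : IsCl w := by
      intro h x
      simp only [w]
      rw [MonoidAlgebra.coeff_sub, MonoidAlgebra.coeff_sum]
      simp only [Finsupp.sub_apply, Finsupp.finsetSum_apply]
      rw [hzc h x]
      congr 1
      refine Finset.sum_congr rfl fun c hc => ?_
      simp only [MonoidAlgebra.coeff_smul, Finsupp.smul_apply]
      rw [(he c ((hS c).1 hc)).2.1 h x]
    have hwC : toC B w = toC B z - ∑ c ∈ S, om c (toC B z) • ei c := by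
      simp only [w]
      rw [map_sub, map_sum]
      congr 1
      refine Finset.sum_congr rfl fun c hc => ?_
      rw [← (he c ((hS c).1 hc)).1]
      apply ga_ext
      intro x
      rw [toC_coeff]
      simp [toC_coeff, tB]
    have hadd : ∀ (d : IrrClass ℂ H) (T : Finset (IrrClass ℂ H)) (f : IrrClass ℂ H → ℂ),
        om d (∑ c ∈ T, f c • ei c) = ∑ c ∈ T, f c * om d (ei c) := by
      intro d T f
      induction T using Finset.induction_on with
      | empty => simp [hom0]
      | insert c T hc ih => rw [Finset.sum_insert hc, Finset.sum_insert hc, om_add, om_smul, ih]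
    have hwom : ∀ d, B.valuation (om d (toC B w)) < 1 := by
      intro d
      have h1 : om d (toC B w) = om d (toC B z) -
          ∑ c ∈ S, om c (toC B z) * (if d = c then 1 else 0) := by
        rw [hwC, sub_eq_add_neg, om_add]
        have : -(∑ c ∈ S, om c (toC B z) • ei c) = (-1 : ℂ) • (∑ c ∈ S, om c (toC B z) • ei c) := by
          rw [neg_smul, one_smul]
        rw [this, om_smul, hadd]
        simp only [om_ei]
        ring
      rw [h1]
      by_cases hd : d ∈ S
      · simp [hd]
      · have : ∑ c ∈ S, om c (toC B z) * (if d = c then (1 : ℂ) else 0) = 0 := by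
          apply Finset.sum_eq_zero
          intro c hc
          rw [if_neg, mul_zero]
          rintro rfl
          exact hd hc
        rw [this, sub_zero]
        refine val_om_I0 B hB d (fun h => hd ((hS d).2 h)) _ hzC hzv ?_
        intro x hx
        rw [toC_coeff, hz0 x hx]
        simp
    obtain ⟨n, hn⟩ := nilp B w hwCl hwom
    rw [hwF] at hn
    have := ThmB.nilp_zero hp.one_lt (a - s) hbp n hn
    exact sub_eq_zero.1 this
  -- the bijection
  have hcard : Nat.card ({c // c ∈ S} → (⊥ : Subfield (IsLocalRing.ResidueField B))) =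
      p ^ dz p H := by
    rw [Nat.card_fun, Subfield.card_bot (IsLocalRing.ResidueField B) p, dz_eq]
    congr 1
    apply Nat.card_congr
    exact Equiv.subtypeEquivRight fun c => by simp [hS]
  rw [← hcard]
  have hbot : ∀ x : IsLocalRing.ResidueField B,
      x ∈ (⊥ : Subfield (IsLocalRing.ResidueField B)) ↔ x ^ p = x :=
    fun x => Subfield.mem_bot_iff_pow_eq_self (IsLocalRing.ResidueField B) p
  let ext : ({c // c ∈ S} → (⊥ : Subfield (IsLocalRing.ResidueField B))) →
      IrrClass ℂ H → IsLocalRing.ResidueField B :=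
    fun t c => if h : c ∈ S then (t ⟨c, h⟩ : IsLocalRing.ResidueField B) else 0
  have hext : ∀ t, ∀ c ∈ S, ext t c ^ p = ext t c := by
    intro t c hc
    simp only [ext, dif_pos hc]
    exact (hbot _).1 (t ⟨c, hc⟩).2
  let Φ : ({c // c ∈ S} → (⊥ : Subfield (IsLocalRing.ResidueField B))) →
      EE p (IsLocalRing.ResidueField B) (⊤ : Subgroup H) :=
    fun t => ⟨∑ c ∈ S, ext t c • E c, hmem _ (hext t)⟩
  symm
  apply Nat.card_congr
  apply Equiv.ofBijective Φ
  constructor
  · intro t t' htt
    have h1 : ∑ c ∈ S, ext t c • E c = ∑ c ∈ S, ext t' c • E c := congrArg Subtype.val htt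
    have key : ∀ (f : IrrClass ℂ H → IsLocalRing.ResidueField B) (d : IrrClass ℂ H) (hd : d ∈ S),
        (∑ c ∈ S, f c • E c) * E d = f d • E d := by
      intro f d hd
      rw [Finset.sum_mul, Finset.sum_eq_single_of_mem d hd]
      · rw [smul_mul_assoc, hEE d hd]
      · intro c hc hcd
        rw [smul_mul_assoc, hEO c hc d hd hcd, smul_zero]
    funext ⟨d, hd⟩
    have hd' : d ∈ S := hd
    have h2 := congrArg (· * E d) h1
    simp only [key _ d hd'] at h2
    have h3 : (ext t d - ext t' d) • E d = 0 := by rw [sub_smul, h2, sub_self]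
    rcases smul_eq_zero.1 h3 with h4 | h4
    · have h5 := sub_eq_zero.1 h4
      simp only [ext, dif_pos hd'] at h5
      exact Subtype.ext h5
    · exact absurd h4 (hE0 d hd')
  · rintro ⟨a, ha⟩
    obtain ⟨t, ht, hta⟩ := hsurj a ha
    refine ⟨fun c => ⟨t c, (hbot _).2 (ht c)⟩, ?_⟩
    apply Subtype.ext
    simp only [Φ]
    rw [hta]
    refine Finset.sum_congr rfl fun c hc => ?_
    simp only [ext, dif_pos hc]

end Pool.Agent.Nav
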