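import Pool.Agent.Nav.API

/-!
# NAV-TrSpan : `h ↦ tr (τ h ∘ θ)` is a combination of irreducible characters
-/

namespace Pool.Agent.Nav

universe u v w

/-- The trace of `f` is the trace on an invariant subspace plus the trace on the quotient. -/
private theorem trspan_add {k : Type v} [Field k] {V : Type w} [AddCommGroup V] [Module k V]
    [FiniteDimensional k V] (W : Submodule k V) (f : V →ₗ[k] V) (hf : W ≤ W.comap f) :
    LinearMap.trace k V f = LinearMap.trace k W (f.restrict hf) +
      LinearMap.trace k (V ⧸ W) (W.mapQ W f hf) := by
  obtain ⟨p, hp⟩ := LinearMap.exists_leftInverse_of_injective W.subtype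
    (LinearMap.ker_eq_bot.2 W.injective_subtype)
  have hker : W ≤ LinearMap.ker (LinearMap.id - W.subtype ∘ₗ p : V →ₗ[k] V) := by
    intro x hx
    rw [LinearMap.mem_ker, LinearMap.sub_apply, LinearMap.id_apply, LinearMap.comp_apply]
    have h1 := LinearMap.congr_fun hp ⟨x, hx⟩
    simp only [LinearMap.comp_apply, Submodule.subtype_apply, LinearMap.id_apply] at h1
    rw [h1]
    simp
  let s : (V ⧸ W) →ₗ[k] V := W.liftQ (LinearMap.id - W.subtype ∘ₗ p) hker
  have hid : (LinearMap.id : V →ₗ[k] V) = W.subtype ∘ₗ p + s ∘ₗ W.mkQ := by
    ext x
    simp [s]
  have hs : W.mkQ ∘ₗ s = LinearMap.id := by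
    apply Submodule.linearMap_qext
    ext x
    simp [s]
  have h1 : f = (f ∘ₗ W.subtype) ∘ₗ p + (f ∘ₗ s) ∘ₗ W.mkQ := by
    conv_lhs => rw [← LinearMap.comp_id f, hid]
    rw [LinearMap.comp_add]
    rfl
  conv_lhs => rw [h1]
  rw [map_add, LinearMap.trace_comp_comm' p (f ∘ₗ W.subtype), LinearMap.trace_comp_comm' W.mkQ (f ∘ₗ s)]
  congr 2
  · ext x
    have h2 : (f ∘ₗ W.subtype) x = W.subtype (f.restrict hf x) := rfl
    rw [LinearMap.comp_apply, h2]
    have h3 := LinearMap.congr_fun hp (f.restrict hf x)
    rw [LinearMap.comp_apply, LinearMap.id_apply] at h3
    rw [h3]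
  · apply Submodule.linearMap_qext
    ext x
    simp only [LinearMap.comp_apply, Submodule.mkQ_apply, Submodule.mapQ_apply]
    have h2 : s (Submodule.Quotient.mk x) = x - p x := by simp [s]
    rw [h2, map_sub, Submodule.Quotient.mk_sub]
    have h4 : (Submodule.Quotient.mk (f (p x)) : V ⧸ W) = 0 := by
      rw [Submodule.Quotient.mk_eq_zero]
      exact hf (p x).2
    rw [h4, sub_zero]

private theorem trspan_main {k : Type v} [Field k] [IsAlgClosed k] {H : Type u} [Group H] (n : ℕ) :
    ∀ {V : Type w} [AddCommGroup V] [Module k V] [FiniteDimensional k V]
    (τ : Representation k H V) (θ : V →ₗ[k] V) (_ : ∀ h, θ ∘ₗ τ h = τ h ∘ₗ θ)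
    (_ : Module.finrank k V = n),
    (fun h => LinearMap.trace k V (τ h ∘ₗ θ)) ∈
      Submodule.span k (Set.range fun c : IrrClass k H => (chi c : H → k)) := by
  induction n using Nat.strong_induction_on with
  | _ n ih =>
    intro V _ _ _ τ θ hθ hn
    by_cases hW : ∃ W : Submodule k V, W ≠ ⊥ ∧ W ≠ ⊤ ∧ (∀ h, W ≤ W.comap (τ h)) ∧ W ≤ W.comap θ
    · obtain ⟨W, hbot, htop, hτ, hθW⟩ := hW
      have hpos : 0 < Module.finrank k W := by
        rw [Module.finrank_pos_iff]
        exact (Submodule.nontrivial_iff_ne_bot).2 hbot
      have hlt : Module.finrank k W < n := by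
        rw [← hn]; exact Submodule.finrank_lt htop
      have hadd := Submodule.finrank_quotient_add_finrank W
      have hlt' : Module.finrank k (V ⧸ W) < n := by omega
      have hcomp : ∀ h, W ≤ W.comap (τ h ∘ₗ θ) := fun h x hx => hτ h (hθW hx)
      have h1 := ih _ hlt (τ.subrepresentation W hτ) (θ.restrict hθW) (by
        intro h
        ext x
        have := LinearMap.congr_fun (hθ h) (x : V)
        simpa using this) rfl
      have h2 := ih _ hlt' (τ.quotient W hτ) (W.mapQ W θ hθW) (by
        intro h
        apply Submodule.linearMap_qext
        ext x
        have := LinearMap.congr_fun (hθ h) x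
        simp only [LinearMap.comp_apply] at this
        change Submodule.Quotient.mk (θ (τ h x)) = Submodule.Quotient.mk (τ h (θ x))
        rw [this]) rfl
      have h3 : (fun h => LinearMap.trace k V (τ h ∘ₗ θ)) =
          (fun h => LinearMap.trace k W (τ.subrepresentation W hτ h ∘ₗ θ.restrict hθW)) +
          (fun h => LinearMap.trace k (V ⧸ W) (τ.quotient W hτ h ∘ₗ W.mapQ W θ hθW)) := by
        funext h
        rw [Pi.add_apply, trspan_add W (τ h ∘ₗ θ) (hcomp h)]
        congr 2
        apply Submodule.linearMap_qext
        rfl
      rw [h3]
      exact Submodule.add_mem _ h1 h2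
    · push Not at hW
      rcases subsingleton_or_nontrivial V with hV | hV
      · have h3 : (fun h => LinearMap.trace k V (τ h ∘ₗ θ)) = 0 := by
          funext h
          have : τ h ∘ₗ θ = 0 := Subsingleton.elim _ _
          rw [this]
          simp
        rw [h3]
        exact Submodule.zero_mem _
      · obtain ⟨l, hl⟩ := Module.End.exists_eigenvalue θ
        have hE1 : Module.End.eigenspace θ l ≠ ⊥ := hl
        have hE2 : ∀ h, Module.End.eigenspace θ l ≤ (Module.End.eigenspace θ l).comap (τ h) := by
          intro h x hx
          rw [Submodule.mem_comap, Module.End.mem_eigenspace_iff]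
          rw [Module.End.mem_eigenspace_iff] at hx
          have := LinearMap.congr_fun (hθ h) x
          simp only [LinearMap.comp_apply] at this
          rw [this, hx, map_smul]
        have hE3 : Module.End.eigenspace θ l ≤ (Module.End.eigenspace θ l).comap θ := by
          intro x hx
          rw [Submodule.mem_comap, Module.End.mem_eigenspace_iff]
          rw [Module.End.mem_eigenspace_iff] at hx
          rw [hx, map_smul, hx]
        have hE4 : Module.End.eigenspace θ l = ⊤ := by
          by_contra hne
          exact hW _ hE1 hne hE2 hE3
        have hθl : ∀ x, θ x = l • x := by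
          intro x
          have : x ∈ Module.End.eigenspace θ l := by rw [hE4]; trivial
          rwa [Module.End.mem_eigenspace_iff] at this
        -- a model on `k ^ n`
        let e : V ≃ₗ[k] (Fin n → k) := LinearEquiv.ofFinrankEq _ _ (by simp [hn])
        let ρ : Representation k H (Fin n → k) :=
          { toFun := fun h => e.conj (τ h)
            map_one' := by
              rw [map_one]
              exact LinearEquiv.conj_id e
            map_mul' := by
              intro a b
              rw [map_mul]
              exact LinearEquiv.conj_comp e (τ b) (τ a) }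
        have hρ : ∀ h x, ρ h (e x) = e (τ h x) := by
          intro h x
          change e.conj (τ h) (e x) = e (τ h x)
          rw [LinearEquiv.conj_apply_apply, LinearEquiv.symm_apply_apply]
        have hirr : ρ.IsIrreducible := by
          have hne : Nontrivial (Subrepresentation ρ) := by
            refine ⟨⊥, ⊤, fun h => ?_⟩
            have h1 : (⊥ : Submodule k (Fin n → k)) = ⊤ := congrArg Subrepresentation.toSubmodule h
            have h2 : Nontrivial (Fin n → k) := e.symm.toEquiv.nontrivial
            exact bot_ne_top h1
          refine ⟨fun U => ?_⟩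
          by_cases hU1 : U.toSubmodule = ⊥
          · left
            exact Subrepresentation.toSubmodule_injective hU1
          · right
            apply Subrepresentation.toSubmodule_injective
            by_contra hU2
            apply hW (U.toSubmodule.comap e.toLinearMap) ?_ ?_ ?_ ?_
            · intro h
              apply hU1
              rw [eq_bot_iff]
              intro y hy
              have h1 : e.symm y ∈ U.toSubmodule.comap e.toLinearMap := by
                rw [Submodule.mem_comap]
                simpa using hy
              rw [h, Submodule.mem_bot] at h1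
              rw [Submodule.mem_bot]
              simpa using h1
            · intro h
              apply hU2
              change U.toSubmodule = ⊤
              rw [eq_top_iff]
              intro y _
              have h1 : e.symm y ∈ U.toSubmodule.comap e.toLinearMap := by rw [h]; trivial
              rw [Submodule.mem_comap] at h1
              simpa using h1
            · intro h x hx
              rw [Submodule.mem_comap, Submodule.mem_comap]
              rw [Submodule.mem_comap] at hx
              have h1 := U.apply_mem_toSubmodule h hx
              change e (τ h x) ∈ U.toSubmodule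
              rw [← hρ]
              exact h1
            · intro x hx
              rw [Submodule.mem_comap, hθl]
              exact Submodule.smul_mem _ _ hx
        let σ : IrrRep k H := ⟨n, ρ, hirr⟩
        have h3 : (fun h => LinearMap.trace k V (τ h ∘ₗ θ)) = l • (chi (⟦σ⟧ : IrrClass k H)) := by
          funext h
          rw [Pi.smul_apply, chi_mk]
          have h4 : τ h ∘ₗ θ = l • τ h := by
            ext x
            rw [LinearMap.comp_apply, hθl, map_smul, LinearMap.smul_apply]
          rw [h4, map_smul]
          congr 1
          change LinearMap.trace k V (τ h) = LinearMap.trace k (Fin n → k) (e.conj (τ h))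
          rw [LinearMap.trace_conj']
        rw [h3]
        exact Submodule.smul_mem _ _ (Submodule.subset_span ⟨_, rfl⟩)

/-- For a finite dimensional representation `τ` of `H` over an algebraically closed field and an
endomorphism `θ` commuting with `τ`, the function `h ↦ tr (τ h ∘ θ)` is in the span of the
irreducible characters.

Proof: induction on `dim V`. `V = 0` is trivial. Otherwise take an eigenvalue `l` of `θ`; the
eigenspace `W = ker (θ - l)` is nonzero, `τ`-stable and `θ`-stable. If `W ≠ V`: the trace on `V` is
the trace on `W` plus the trace on `V / W`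
(`LinearMap.trace_restrict_add_trace_mapQ` or similar, or choose a complement), both
covered by induction. If `W = V`, then `θ = l`, and `tr (τ h ∘ θ) = l * χ_τ (h)`; if `τ` is
irreducible, transport `V` to `Fin n → k` to get an `IrrRep`; otherwise there is a proper nonzero
subrepresentation `W` and again `χ_V = χ_W + χ_{V/W}` (with `θ = 1` on both). -/
theorem tr_span {k : Type v} [Field k] [IsAlgClosed k] {H : Type u} [Group H]
    {V : Type w} [AddCommGroup V] [Module k V] [FiniteDimensional k V]
    (τ : Representation k H V) (θ : V →ₗ[k] V) (hθ : ∀ h, θ ∘ₗ τ h = τ h ∘ₗ θ) :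
    (fun h => LinearMap.trace k V (τ h ∘ₗ θ)) ∈
      Submodule.span k (Set.range fun c : IrrClass k H => (chi c : H → k)) :=
  trspan_main _ τ θ hθ rfl

end Pool.Agent.Nav
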